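import Pool.Agent.H81.AS.XTB
import Pool.Agent.H81.AS.Cheb
import Pool.Agent.H1.PP.Wr

/-!
JOB WS-A9. Chebyshev bounds for the `N`-th prime.
-/

set_option autoImplicit false

open Finset Filter Topology

namespace Pool.Agent.H47.WS

open Pool.Agent.H16 Pool.Agent.H81.AS

theorem primeCounting_nth {N : ℕ} (hN : 1 ≤ N) :
    Nat.primeCounting (Nat.nth Nat.Prime (N - 1)) = N := by
  have hinf := Nat.infinite_setOfPred_prime
  have hp : (Nat.nth Nat.Prime (N - 1)).Prime := Nat.nth_mem_of_infinite hinf (N - 1)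
  show Nat.count Nat.Prime (Nat.nth Nat.Prime (N - 1) + 1) = N
  rw [Nat.count_succ, if_pos hp, Nat.count_nth_of_infinite hinf]
  omega

theorem cheb_nth : ∃ C : ℝ, 1 ≤ C ∧ ∀ᶠ N : ℕ in atTop,
    (Nat.nth Nat.Prime (N - 1) : ℝ) ≤ C * (N * Real.log (Nat.nth Nat.Prime (N - 1))) ∧
    (N : ℝ) * Real.log (Nat.nth Nat.Prime (N - 1)) ≤ C * Nat.nth Nat.Prime (N - 1) := by
  refine ⟨7, by norm_num, ?_⟩
  filter_upwards [eventually_ge_atTop 100] with N hN
  have hN1 : 1 ≤ N := by omega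
  have hpi := primeCounting_nth hN1
  have hge : N - 1 + 2 ≤ Nat.nth Nat.Prime (N - 1) := Nat.add_two_le_nth_prime (N - 1)
  set X : ℕ := Nat.nth Nat.Prime (N - 1) with hX
  have hX100 : 100 ≤ X := by omega
  have hXr : (100 : ℝ) ≤ X := by exact_mod_cast hX100
  have hlog : 0 < Real.log X := Real.log_pos (by linarith)
  constructor
  · have h1 := Chebyshev.psi_ge X
    have h2 := Chebyshev.psi_le_primeCounting_mul_log X
    rw [hpi] at h2
    have h3 : Real.log ((X : ℝ) + 1) ≤ (X + 1) / 8 + 3 * Real.log 2 - 1 := by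
      have h4 := Real.log_le_sub_one_of_pos (x := ((X : ℝ) + 1) / 8) (by positivity)
      rw [Real.log_div (by positivity) (by norm_num)] at h4
      have h5 : Real.log 8 = 3 * Real.log 2 := by
        rw [show (8 : ℝ) = 2 ^ (3 : ℕ) by norm_num, Real.log_pow]
        norm_num
      linarith
    have h6 := Real.log_two_gt_d9
    have h7 := Real.log_two_lt_d9
    have h8 : (0 : ℝ) ≤ N * Real.log X := by positivity
    nlinarith
  · have h1 := cheb_upper_real (X : ℝ) (by linarith)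
    rw [Nat.floor_natCast, hpi] at h1
    have h2 : (N : ℝ) * Real.log X ≤ 7 * (X / Real.log X) * Real.log X :=
      mul_le_mul_of_nonneg_right h1 hlog.le
    refine h2.trans (le_of_eq ?_)
    field_simp

/-- the primes up to the `N`-th prime are exactly the first `N` primes -/
theorem nth_index {N : ℕ} (hN : 1 ≤ N) {p : ℕ} (hp : p.Prime) (hpX : p ≤ Nat.nth Nat.Prime (N - 1)) :
    ∃ n ∈ Icc 1 N, Nat.nth Nat.Prime (n - 1) = p := by
  refine (Pool.Agent.H1.PP.wr_primes N hN p).1 ?_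
  rw [Pool.Agent.H1.PP.wrP, Finset.mem_filter, Finset.mem_Icc]
  exact ⟨⟨hp.one_lt.le, hpX⟩, hp⟩

end Pool.Agent.H47.WS
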