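import Pool.Agent.H47.WS.ABox
import Pool.Agent.H81.AS.FLU
import Pool.Agent.H16.Vprod

/-!
JOB WS-A3. The box sieve.
-/

set_option autoImplicit false

open Finset Filter Topology

namespace Pool.Agent.H47.WS

open Pool.Agent.H16 Pool.Agent.H81.AS

lemma asv_primeFactors (D : Finset ℕ) (h : ∀ p ∈ D, p.Prime) : (∏ p ∈ D, p).primeFactors = D :=
  Nat.primeFactors_prod h

lemma asv_card_D_le (𝒟 : Finset (Finset ℕ)) (h : ∀ D ∈ 𝒟, ∀ p ∈ D, p.Prime) (Y : ℝ) (hY : 0 ≤ Y)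
    (h2 : ∀ D ∈ 𝒟, ((∏ p ∈ D, p : ℕ) : ℝ) ≤ Y) : (#𝒟 : ℝ) ≤ Y := by
  have hinj : Set.InjOn (fun D : Finset ℕ => ∏ p ∈ D, p) (𝒟 : Set (Finset ℕ)) := by
    intro D1 h1 D2 h2 h12
    simp only at h12
    rw [← asv_primeFactors D1 (h D1 h1), h12, asv_primeFactors D2 (h D2 h2)]
  have h3 : 𝒟.image (fun D : Finset ℕ => ∏ p ∈ D, p) ⊆ Finset.Icc 1 ⌊Y⌋₊ := by
    intro d hd
    rw [Finset.mem_image] at hd
    obtain ⟨D, hD, rfl⟩ := hd
    rw [Finset.mem_Icc]
    exact ⟨Finset.prod_pos (fun p hp => (h D hD p hp).pos), Nat.le_floor (h2 D hD)⟩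
  have h4 := Finset.card_le_card h3
  rw [Finset.card_image_of_injOn hinj, Nat.card_Icc, Nat.add_sub_cancel] at h4
  calc (#𝒟 : ℝ) ≤ (⌊Y⌋₊ : ℝ) := by exact_mod_cast h4
    _ ≤ Y := Nat.floor_le hY

lemma asv_prod_erase {s : Finset ℕ} (hs : ∀ p ∈ s, p.Prime) (e : ℕ) :
    ∏ p ∈ s.erase e, (1 - 1 / (p : ℝ)) ≤ 2 * ∏ p ∈ s, (1 - 1 / (p : ℝ)) := by
  have hpos : 0 < ∏ p ∈ s.erase e, (1 - 1 / (p : ℝ)) :=
    Finset.prod_pos (fun p hp => one_sub_inv_pos (hs p (Finset.mem_of_mem_erase hp)))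
  by_cases he : e ∈ s
  · rw [← Finset.mul_prod_erase s (fun p : ℕ => (1 - 1 / (p : ℝ))) he]
    have h2 : (2 : ℝ) ≤ e := by exact_mod_cast (hs e he).two_le
    have h3 : 1 / (e : ℝ) ≤ 1 / 2 := one_div_le_one_div_of_le (by norm_num) h2
    nlinarith
  · rw [Finset.erase_eq_of_notMem he] at hpos ⊢
    linarith

/-- the coding of `range K × range K` by `range (K * K)` -/
lemma asv_card (K : ℕ) (hK : 0 < K) (Q : ℕ × ℕ → Prop) [DecidablePred Q] :
    #((range (K * K)).filter (fun n => Q (n / K, n % K))) = #((range K ×ˢ range K).filter Q) := by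
  apply Finset.card_bij (fun n _ => (n / K, n % K))
  · intro n hn
    rw [Finset.mem_filter, Finset.mem_range] at hn
    rw [Finset.mem_filter, Finset.mem_product, Finset.mem_range, Finset.mem_range]
    exact ⟨⟨Nat.div_lt_of_lt_mul hn.1, Nat.mod_lt _ hK⟩, hn.2⟩
  · intro n _ m _ h
    rw [Prod.mk.injEq] at h
    rw [← Nat.div_add_mod n K, ← Nat.div_add_mod m K, h.1, h.2]
  · rintro ⟨u, v⟩ hx
    rw [Finset.mem_filter, Finset.mem_product, Finset.mem_range, Finset.mem_range] at hx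
    obtain ⟨⟨h1, h2⟩, h3⟩ := hx
    have h4 : (K * u + v) / K = u := by
      rw [Nat.mul_add_div hK, Nat.div_eq_of_lt h2, Nat.add_zero]
    have h5 : (K * u + v) % K = v := by
      rw [Nat.mul_add_mod, Nat.mod_eq_of_lt h2]
    have h6 : ((K * u + v) / K, (K * u + v) % K) = (u, v) := by rw [h4, h5]
    refine ⟨K * u + v, ?_, h6⟩
    rw [Finset.mem_filter, Finset.mem_range, h6]
    refine ⟨?_, h3⟩
    calc K * u + v < K * u + K := by omega
      _ = K * (u + 1) := by ring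
      _ ≤ K * K := Nat.mul_le_mul_left _ (by omega)

/-- a product of indicators of divisibility -/
lemma asv_prod (D : Finset ℕ) (hD : ∀ p ∈ D, p.Prime) (m : ℤ) :
    ∏ p ∈ D, (if (p : ℤ) ∣ m then (1 : ℝ) else 0) = if (((∏ p ∈ D, p : ℕ) : ℤ)) ∣ m then 1 else 0 := by
  by_cases h : ∀ p ∈ D, (p : ℤ) ∣ m
  · rw [Finset.prod_congr rfl (fun p hp => if_pos (h p hp)), Finset.prod_const_one, if_pos]
    rw [Int.natCast_dvd]
    exact Finset.prod_primes_dvd _ (fun p hp => (hD p hp).prime)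
      (fun p hp => Int.natCast_dvd.1 (h p hp))
  · have h' := h
    push Not at h'
    obtain ⟨p, hp, hpm⟩ := h'
    rw [Finset.prod_eq_zero hp (if_neg hpm), if_neg]
    intro hd
    apply hpm
    refine dvd_trans ?_ hd
    exact_mod_cast Finset.dvd_prod_of_mem (fun p : ℕ => p) hp

/-- the remainder bound -/
lemma asv_RD {q r : ℤ} (hqr : IsCoprime q r) (ν : ℤ) (K : ℕ) (hK : 0 < K) (D : Finset ℕ)
    (hD : ∀ p ∈ D, p.Prime) (hDK : ∏ p ∈ D, p ≤ K) :
    |RD (range (K * K)) (fun _ => (1 : ℝ))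
      (fun n p => if (p : ℤ) ∣ ν + ((n / K : ℕ) : ℤ) * q + ((n % K : ℕ) : ℤ) * r then (1 : ℝ) else 0)
      ((K : ℝ) ^ 2) (fun p => 1 / (p : ℝ)) D| ≤ 4 * K := by
  have h1 : 1 ≤ ∏ p ∈ D, p := Finset.prod_pos (fun p hp => (hD p hp).pos)
  have h2 := box_count hqr ν K (∏ p ∈ D, p) h1 hDK
  unfold RD AD
  have h3 : ∀ n ∈ range (K * K), (1 : ℝ) * ∏ p ∈ D, (if (p : ℤ) ∣ ν + ((n / K : ℕ) : ℤ) * q +
      ((n % K : ℕ) : ℤ) * r then (1 : ℝ) else 0) =
      if (((∏ p ∈ D, p : ℕ) : ℤ)) ∣ ν + ((n / K : ℕ) : ℤ) * q + ((n % K : ℕ) : ℤ) * r then 1 else 0 := by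
    intro n _
    rw [one_mul, asv_prod D hD]
  rw [Finset.sum_congr rfl h3, Finset.sum_boole,
    asv_card K hK (fun x => (((∏ p ∈ D, p : ℕ) : ℤ)) ∣ ν + (x.1 : ℤ) * q + (x.2 : ℤ) * r)]
  have h4 : (K : ℝ) ^ 2 * ∏ p ∈ D, 1 / (p : ℝ) = (K : ℝ) ^ 2 / ((∏ p ∈ D, p : ℕ) : ℝ) := by
    rw [Finset.prod_div_distrib, Finset.prod_const_one]
    push_cast
    ring
  rw [h4]
  exact h2

/-- numerical bound for the error term -/
lemma asv_num (K : ℝ) (hK : 1 ≤ Real.log K) (hK0 : 0 < K) :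
    (1 + 2 * Real.log K) * (Real.sqrt K * (4 * K)) ≤ 768 * (K ^ 2 / Real.log K) := by
  have hl0 : 0 < Real.log K := by linarith
  have hK1 : 1 ≤ K := by
    by_contra h
    have := Real.log_nonpos hK0.le (not_le.1 h).le
    linarith
  set u := K ^ ((1 : ℝ) / 8) with hu
  have hu1 : 1 ≤ u := Real.one_le_rpow hK1 (by norm_num)
  have hu8 : u ^ 8 = K := by
    rw [hu, ← Real.rpow_natCast, ← Real.rpow_mul hK0.le]
    norm_num
  have hs : Real.sqrt K = u ^ 4 := by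
    rw [← hu8, show u ^ 8 = (u ^ 4) ^ 2 by ring, Real.sqrt_sq (by positivity)]
  have hl : Real.log K ≤ 8 * u := by
    have h1 : Real.log K = 8 * Real.log u := by
      rw [← hu8, Real.log_pow]; norm_num
    have h2 := Real.log_le_sub_one_of_pos (show 0 < u by linarith)
    rw [h1]; linarith
  rw [mul_div_assoc', le_div_iff₀ hl0, hs]
  set l := Real.log K with hl'
  have h3 : (1 + 2 * l) * l ≤ 3 * (8 * u) ^ 2 := by
    have h4 : (1 + 2 * l) * l ≤ 3 * l ^ 2 := by nlinarith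
    have h5 : l ^ 2 ≤ (8 * u) ^ 2 := pow_le_pow_left₀ hl0.le hl 2
    linarith
  have h6 : (1 + 2 * l) * (u ^ 4 * (4 * K)) * l = ((1 + 2 * l) * l) * (4 * u ^ 4 * K) := by ring
  rw [h6]
  have h7 : (0 : ℝ) ≤ 4 * u ^ 4 * K := by positivity
  refine (mul_le_mul_of_nonneg_right h3 h7).trans ?_
  have h8 : 3 * (8 * u) ^ 2 * (4 * u ^ 4 * K) = 768 * (u ^ 6 * K) := by ring
  rw [h8, show K ^ 2 = K * K by ring]
  have h9 : u ^ 6 ≤ K := by
    rw [← hu8]
    exact pow_le_pow_right₀ hu1 (by norm_num)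
  have h10 := mul_le_mul_of_nonneg_right h9 hK0.le
  linarith

theorem box_sieve : ∃ C : ℝ, 0 < C ∧ ∀ K : ℕ, 2 ≤ K → ∀ q r ν : ℤ, IsCoprime q r → ∀ e : ℕ,
    (#((range K ×ˢ range K).filter (fun x => ∀ p ∈ (Nat.primesLE K).erase e,
      ¬ (p : ℤ) ∣ ν + x.1 * q + x.2 * r)) : ℝ) ≤ C * ((K : ℝ) ^ 2 / Real.log K) := by
  obtain ⟨s, hs0, hFL⟩ := flp_exists
  have hF : FLP 1 s := hFL 1 s le_rfl (by omega)
  set M : ℕ := 4 * s + 5 with hM
  have hM0 : (0 : ℝ) < M := by rw [hM]; positivity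
  set z0 : ℕ := ⌈Real.exp 100⌉₊ with hz0
  have hz1 : Real.exp 100 ≤ z0 := Nat.le_ceil _
  have hz2 : 100 ≤ Real.log z0 := by
    rw [Real.le_log_iff_exp_le (lt_of_lt_of_le (Real.exp_pos _) hz1)]
    exact hz1
  have hz101 : (101 : ℝ) ≤ z0 := by
    have := Real.add_one_le_exp (100 : ℝ)
    linarith
  have hz0n : 2 ≤ z0 := by
    have : (2 : ℝ) ≤ z0 := by linarith
    exact_mod_cast this
  set L0 : ℝ := 4 * M * (Real.log z0 + 1) with hL0
  have hL0p : 0 < L0 := by positivity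
  set C1 : ℝ := 4 * (4 * M) / Vp z0 with hC1
  have hC1p : 0 < C1 := by
    have := Vp_pos z0
    positivity
  refine ⟨L0 + C1 + 768, by positivity, ?_⟩
  intro K hK q r ν hqr e
  have hK0 : 0 < K := by omega
  have hKr : (2 : ℝ) ≤ K := by exact_mod_cast hK
  have hlogK : 0 < Real.log K := Real.log_pos (by linarith)
  have hfr : 0 ≤ (K : ℝ) ^ 2 / Real.log K := by positivity
  by_cases hbig : L0 ≤ Real.log K
  swap
  · -- small K
    have h1 : (#((range K ×ˢ range K).filter (fun x => ∀ p ∈ (Nat.primesLE K).erase e,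
      ¬ (p : ℤ) ∣ ν + x.1 * q + x.2 * r)) : ℝ) ≤ (K : ℝ) ^ 2 := by
      have h2 := Finset.card_filter_le (range K ×ˢ range K) (fun x => ∀ p ∈ (Nat.primesLE K).erase e,
        ¬ (p : ℤ) ∣ ν + x.1 * q + x.2 * r)
      rw [Finset.card_product, Finset.card_range] at h2
      calc _ ≤ ((K * K : ℕ) : ℝ) := by exact_mod_cast h2
        _ = (K : ℝ) ^ 2 := by push_cast; ring
    refine h1.trans ?_
    have h3 : (K : ℝ) ^ 2 = Real.log K * ((K : ℝ) ^ 2 / Real.log K) := by field_simp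
    calc (K : ℝ) ^ 2 = Real.log K * ((K : ℝ) ^ 2 / Real.log K) := h3
      _ ≤ (L0 + C1 + 768) * ((K : ℝ) ^ 2 / Real.log K) := by
          apply mul_le_mul_of_nonneg_right _ hfr
          linarith [not_le.1 hbig]
  -- large K
  have hL1 : (1 : ℝ) ≤ Real.log K := by
    refine le_trans ?_ hbig
    rw [hL0]
    have hM1 : (1 : ℝ) ≤ M := by
      have : 1 ≤ M := by omega
      exact_mod_cast this
    nlinarith
  set x : ℝ := (K : ℝ) ^ (1 / (2 * (M : ℝ))) with hx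
  have hx0 : 0 < x := by positivity
  have hlx : Real.log x = Real.log K / (2 * M) := by
    rw [hx, Real.log_rpow (by linarith)]
    ring
  have hlx2 : 2 * (Real.log z0 + 1) ≤ Real.log x := by
    rw [hlx, le_div_iff₀ (by positivity)]
    calc 2 * (Real.log z0 + 1) * (2 * M) = L0 := by rw [hL0]; ring
      _ ≤ Real.log K := hbig
  set y : ℕ := ⌊x⌋₊ with hy
  have hyx : (y : ℝ) ≤ x := Nat.floor_le hx0.le
  have hxy : x < y + 1 := Nat.lt_floor_add_one x
  have hxz : (z0 : ℝ) ^ 2 ≤ x := by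
    have h1 : (z0 : ℝ) ^ 2 = Real.exp (2 * Real.log z0) := by
      rw [show 2 * Real.log (z0 : ℝ) = Real.log z0 + Real.log z0 by ring, Real.exp_add,
        Real.exp_log (by linarith)]
      ring
    rw [h1, ← Real.exp_log hx0]
    exact Real.exp_le_exp.2 (by linarith)
  have hzy : z0 ≤ y := by
    apply Nat.le_floor
    nlinarith
  have hy0 : (0 : ℝ) < y := by
    have : (z0 : ℝ) ≤ y := by exact_mod_cast hzy
    linarith
  have hy2 : x / 2 ≤ y := by
    have : (z0 : ℝ) ≤ y := by exact_mod_cast hzy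
    linarith
  have hly : Real.log K / (4 * M) ≤ Real.log y := by
    have h1 : Real.log (x / 2) ≤ Real.log y := Real.log_le_log (by positivity) hy2
    rw [Real.log_div hx0.ne' (by norm_num)] at h1
    have h2 : Real.log 2 ≤ 1 := by
      have := Real.log_le_sub_one_of_pos (show (0 : ℝ) < 2 by norm_num)
      linarith
    have h3 : Real.log K / (4 * M) = Real.log x / 2 := by
      rw [hlx]; field_simp; ring
    rw [h3]
    linarith
  have hlyp : 0 < Real.log y := lt_of_lt_of_le (by positivity) hly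
  have hyM : (y : ℝ) ^ M ≤ Real.sqrt K := by
    calc (y : ℝ) ^ M ≤ x ^ M := pow_le_pow_left₀ hy0.le hyx M
      _ = Real.sqrt K := by
          rw [hx, ← Real.rpow_natCast, ← Real.rpow_mul (by linarith), Real.sqrt_eq_rpow]
          congr 1
          field_simp
  have hsK : Real.sqrt K ≤ K := by
    rw [Real.sqrt_le_left (by linarith)]
    nlinarith
  have hyK : (y : ℝ) ≤ K := by
    have hM1 : M ≠ 0 := by omega
    have h1 : (1 : ℝ) ≤ y := by
      have : (z0 : ℝ) ≤ y := by exact_mod_cast hzy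
      linarith
    calc (y : ℝ) ≤ (y : ℝ) ^ M := le_self_pow₀ h1 hM1
      _ ≤ _ := hyM.trans hsK
  have hyKn : y ≤ K := by exact_mod_cast hyK
  set P : Finset ℕ := (primesIoc z0 y).erase e with hP
  have hPp : ∀ p ∈ P, p.Prime := fun p hp => (mem_primesIoc.1 (Finset.mem_of_mem_erase hp)).2.2
  set c : ℕ → ℕ → ℝ := fun n p =>
    if (p : ℤ) ∣ ν + ((n / K : ℕ) : ℤ) * q + ((n % K : ℕ) : ℤ) * r then (1 : ℝ) else 0 with hc
  have hc0 : ∀ n p, 0 ≤ c n p := fun n p => by rw [hc]; dsimp only; split_ifs <;> norm_num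
  have hc1 : ∀ n p, c n p ≤ 1 := fun n p => by rw [hc]; dsimp only; split_ifs <;> norm_num
  have hmain := hF (range (K * K)) (fun _ => 1) c ((K : ℝ) ^ 2) z0 y hz2 (by push_cast; linarith) hzy P hPp
    (fun p hp => (mem_primesIoc.1 (Finset.mem_of_mem_erase hp)).1)
    (fun p hp => (mem_primesIoc.1 (Finset.mem_of_mem_erase hp)).2.1)
    (fun p => 1 / (p : ℝ)) (fun p _ => by positivity) (fun p _ => by simp)
    (fun _ _ => zero_le_one) (fun n _ p _ => hc0 n p) (fun n _ p _ => hc1 n p) (by positivity)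
  -- the count is at most the sieve sum
  have hcount : (#((range K ×ˢ range K).filter (fun x => ∀ p ∈ (Nat.primesLE K).erase e,
      ¬ (p : ℤ) ∣ ν + x.1 * q + x.2 * r)) : ℝ) ≤
      ∑ n ∈ range (K * K), (1 : ℝ) * ∏ p ∈ P, (1 - c n p) := by
    rw [← asv_card K hK0 (fun x => ∀ p ∈ (Nat.primesLE K).erase e,
      ¬ (p : ℤ) ∣ ν + (x.1 : ℤ) * q + (x.2 : ℤ) * r), Finset.card_filter]
    push_cast
    apply Finset.sum_le_sum
    intro n _
    rw [one_mul]
    split_ifs with h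
    · rw [Finset.prod_eq_one]
      intro p hp
      have hp1 := Finset.mem_erase.1 hp
      have hp2 := mem_primesIoc.1 hp1.2
      have h1 : ¬ (p : ℤ) ∣ ν + ((n / K : ℕ) : ℤ) * q + ((n % K : ℕ) : ℤ) * r := by
        apply h p
        rw [Finset.mem_erase, Nat.mem_primesLE]
        exact ⟨hp1.1, hp2.2.1.trans hyKn, hp2.2.2⟩
      rw [hc]
      dsimp only
      rw [if_neg h1, sub_zero]
    · exact Finset.prod_nonneg (fun p _ => by linarith [hc1 n p])
  -- the remainder sum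
  have hrem : ∑ D ∈ P.powerset.filter (fun D => (∏ p ∈ D, p) ≤ y ^ (4 * s + 5)),
      |RD (range (K * K)) (fun _ => (1 : ℝ)) c ((K : ℝ) ^ 2) (fun p => 1 / (p : ℝ)) D| ≤
      Real.sqrt K * (4 * K) := by
    have hmem : ∀ D ∈ P.powerset.filter (fun D => (∏ p ∈ D, p) ≤ y ^ (4 * s + 5)),
        (∀ p ∈ D, p.Prime) ∧ ((∏ p ∈ D, p : ℕ) : ℝ) ≤ Real.sqrt K := by
      intro D hD
      rw [Finset.mem_filter, Finset.mem_powerset] at hD
      refine ⟨fun p hp => hPp p (hD.1 hp), ?_⟩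
      refine le_trans ?_ hyM
      exact_mod_cast hD.2
    have h1 : ∀ D ∈ P.powerset.filter (fun D => (∏ p ∈ D, p) ≤ y ^ (4 * s + 5)),
        |RD (range (K * K)) (fun _ => (1 : ℝ)) c ((K : ℝ) ^ 2) (fun p => 1 / (p : ℝ)) D| ≤ 4 * K := by
      intro D hD
      have h2 := hmem D hD
      apply asv_RD hqr ν K hK0 D h2.1
      have h3 := h2.2.trans hsK
      exact_mod_cast h3
    refine (Finset.sum_le_sum h1).trans ?_
    rw [Finset.sum_const, nsmul_eq_mul]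
    apply mul_le_mul_of_nonneg_right _ (by positivity)
    exact asv_card_D_le _ (fun D hD => (hmem D hD).1) _ (Real.sqrt_nonneg _) (fun D hD => (hmem D hD).2)
  -- the product
  have hprod : ∏ p ∈ P, (1 - 1 / (p : ℝ)) ≤ 2 * (1 / Real.log y) / Vp z0 := by
    have h1 := asv_prod_erase (s := primesIoc z0 y) (fun p hp => (mem_primesIoc.1 hp).2.2) e
    have h2 := Vp_mul z0 y hzy
    have h3 := Vp_le y (hz0n.trans hzy)
    have h4 := Vp_pos z0
    rw [le_div_iff₀ h4]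
    calc (∏ p ∈ P, (1 - 1 / (p : ℝ))) * Vp z0 ≤
        (2 * ∏ p ∈ primesIoc z0 y, (1 - 1 / (p : ℝ))) * Vp z0 := mul_le_mul_of_nonneg_right h1 h4.le
      _ = 2 * (Vp z0 * ∏ p ∈ primesIoc z0 y, (1 - 1 / (p : ℝ))) := by ring
      _ = 2 * Vp y := by rw [h2]
      _ ≤ 2 * (1 / Real.log y) := by linarith
  have hPi0 : 0 ≤ ∏ p ∈ P, (1 - 1 / (p : ℝ)) :=
    Finset.prod_nonneg (fun p hp => (one_sub_inv_pos (hPp p hp)).le)
  set Pi : ℝ := ∏ p ∈ P, (1 - 1 / (p : ℝ)) with hPi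
  have hup := (abs_le.1 hmain).2
  have hhalf : (1 / 2 : ℝ) ^ s ≤ 1 := pow_le_one₀ (by norm_num) (by norm_num)
  have hlyK : Real.log y ≤ Real.log K := Real.log_le_log hy0 hyK
  have hE : (1 + 2 * Real.log y) * ∑ D ∈ P.powerset.filter (fun D => (∏ p ∈ D, p) ≤ y ^ (4 * s + 5)),
      |RD (range (K * K)) (fun _ => (1 : ℝ)) c ((K : ℝ) ^ 2) (fun p => 1 / (p : ℝ)) D| ≤
      768 * ((K : ℝ) ^ 2 / Real.log K) := by
    refine le_trans ?_ (asv_num K hL1 (by linarith))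
    apply mul_le_mul _ hrem (Finset.sum_nonneg (fun _ _ => abs_nonneg _)) (by linarith)
    linarith
  have hmainterm : (K : ℝ) ^ 2 * Pi + (1 / 2 : ℝ) ^ s * ((K : ℝ) ^ 2 * Pi) ≤
      C1 * ((K : ℝ) ^ 2 / Real.log K) := by
    have h0 : 0 ≤ (K : ℝ) ^ 2 * Pi := by positivity
    have h1 : (1 / 2 : ℝ) ^ s * ((K : ℝ) ^ 2 * Pi) ≤ 1 * ((K : ℝ) ^ 2 * Pi) :=
      mul_le_mul_of_nonneg_right hhalf h0
    have h2 : Pi ≤ 2 * (4 * M / Real.log K) / Vp z0 := by
      refine hprod.trans ?_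
      have h4 := Vp_pos z0
      apply div_le_div_of_nonneg_right _ h4.le
      apply mul_le_mul_of_nonneg_left _ (by norm_num)
      rw [div_le_div_iff₀ hlyp hlogK]
      rw [div_le_iff₀ (by positivity)] at hly
      linarith
    have h3 : (K : ℝ) ^ 2 * Pi ≤ (K : ℝ) ^ 2 * (2 * (4 * M / Real.log K) / Vp z0) :=
      mul_le_mul_of_nonneg_left h2 (by positivity)
    have h4 : 2 * ((K : ℝ) ^ 2 * (2 * (4 * M / Real.log K) / Vp z0)) = C1 * ((K : ℝ) ^ 2 / Real.log K) := by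
      rw [hC1]
      have := (Vp_pos z0).ne'
      field_simp
      ring
    linarith
  have hL0n : 0 ≤ L0 * ((K : ℝ) ^ 2 / Real.log K) := by positivity
  have hfin : (L0 + C1 + 768) * ((K : ℝ) ^ 2 / Real.log K) = L0 * ((K : ℝ) ^ 2 / Real.log K) +
      C1 * ((K : ℝ) ^ 2 / Real.log K) + 768 * ((K : ℝ) ^ 2 / Real.log K) := by ring
  rw [hfin]
  linarith

end Pool.Agent.H47.WS
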