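import Pool.Agent.H47.WS.ADefs

/-!
JOB WS-A1. A well rounded basis and the coordinates of the elements of a window.
-/

set_option autoImplicit false

open Finset Filter Topology

namespace Pool.Agent.H47.WS

open Pool.Agent.H16 Pool.Agent.H81.AS Pool.Agent.H1.PP

theorem ABasis_abs_sg_le (x : ℝ) (g : ℤ) : |sg x| ≤ |x - g| := round_le x g

/-- Dirichlet with a reduced fraction. -/
theorem ABasis_dirichlet {c α : ℝ} (hα : BA c α) {Q : ℝ} (hQ : 1 ≤ Q) :
    ∃ q a : ℤ, 1 ≤ q ∧ (q : ℝ) ≤ Q ∧ IsCoprime q a ∧ |(q : ℝ) * α - a| ≤ 1 / Q ∧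
      c * Q ≤ q := by
  have hQ0 : 0 < Q := by linarith
  have hn : 0 < ⌊Q⌋₊ := Nat.floor_pos.2 hQ
  obtain ⟨k, hk0, hkn, hk⟩ := Real.exists_nat_abs_mul_sub_round_le α hn
  set a0 : ℤ := round ((k : ℝ) * α) with ha0
  have hkQ : |(k : ℝ) * α - a0| ≤ 1 / Q := by
    refine hk.trans ?_
    exact one_div_le_one_div_of_le hQ0 (Nat.lt_floor_add_one Q).le
  have hg0 : 0 < Int.gcd (k : ℤ) a0 := Int.gcd_pos_of_ne_zero_left _ (by exact_mod_cast hk0.ne')
  set g : ℕ := Int.gcd (k : ℤ) a0 with hg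
  obtain ⟨q, hq⟩ : ((g : ℤ)) ∣ (k : ℤ) := Int.gcd_dvd_left _ _
  obtain ⟨a, ha⟩ : ((g : ℤ)) ∣ a0 := Int.gcd_dvd_right _ _
  have hgZ : (0 : ℤ) < g := by exact_mod_cast hg0
  have hkZ : (0 : ℤ) < k := by exact_mod_cast hk0
  have hq1 : 1 ≤ q := by
    by_contra hcon
    have h1 : q ≤ 0 := by omega
    nlinarith
  have hcop : IsCoprime q a := by
    rw [Int.isCoprime_iff_gcd_eq_one]
    have h1 : Int.gcd ((g : ℤ) * q) ((g : ℤ) * a) = g * Int.gcd q a := by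
      rw [Int.gcd_mul_left]
      simp
    rw [← hq, ← ha, ← hg] at h1
    have h2 : g * 1 = g * Int.gcd q a := by rw [mul_one]; exact h1
    exact (Nat.eq_of_mul_eq_mul_left hg0 h2).symm
  have hqk : q ≤ k := by
    have h1 : (1 : ℤ) ≤ g := by omega
    nlinarith
  have hqR : (q : ℝ) ≤ Q := by
    have h1 : (q : ℝ) ≤ (k : ℝ) := by exact_mod_cast hqk
    have h2 : (k : ℝ) ≤ (⌊Q⌋₊ : ℝ) := by exact_mod_cast hkn
    exact h1.trans (h2.trans (Nat.floor_le hQ0.le))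
  have hqa : |(q : ℝ) * α - a| ≤ 1 / Q := by
    have h1 : (k : ℝ) * α - a0 = (g : ℝ) * ((q : ℝ) * α - a) := by
      have h2 : (k : ℝ) = (g : ℝ) * (q : ℝ) := by exact_mod_cast hq
      have h3 : (a0 : ℝ) = (g : ℝ) * (a : ℝ) := by rw [ha]; push_cast; ring
      rw [h2, h3]
      ring
    rw [h1, abs_mul, abs_of_pos (by exact_mod_cast hg0 : (0 : ℝ) < (g : ℝ))] at hkQ
    have h4 : (1 : ℝ) ≤ (g : ℝ) := by exact_mod_cast hg0
    nlinarith [abs_nonneg ((q : ℝ) * α - a)]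
  refine ⟨q, a, hq1, hqR, hcop, hqa, ?_⟩
  have h1 := hα q.toNat (by omega)
  have h2 : ((q.toNat : ℕ) : ℝ) = (q : ℝ) := by
    have h3 : ((q.toNat : ℕ) : ℤ) = q := Int.toNat_of_nonneg (by omega)
    exact_mod_cast h3
  rw [h2] at h1
  have h4 := ABasis_abs_sg_le ((q : ℝ) * α) a
  have hq0 : (0 : ℝ) < q := by exact_mod_cast (by omega : (0 : ℤ) < q)
  have h5 : c ≤ q * (1 / Q) :=
    h1.trans (mul_le_mul_of_nonneg_left (h4.trans hqa) hq0.le)
  rw [mul_one_div, le_div_iff₀ hQ0] at h5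
  exact h5

theorem basis {c α : ℝ} (hc : 0 < c) (hα : BA c α) {Q : ℝ} (hQ : 1 ≤ Q) :
    ∃ q r a b : ℤ, 1 ≤ r ∧ r ≤ q ∧ (q : ℝ) ≤ Q ∧ q * b - r * a = 1 ∧
      |(q : ℝ) * α - a| ≤ 1 / Q ∧ |(r : ℝ) * α - b| ≤ (1 + 1 / c) / Q := by
  have hQ0 : 0 < Q := by linarith
  obtain ⟨q, a, hq1, hqQ, ⟨x, y, hxy⟩, hqa, hcQ⟩ := ABasis_dirichlet hα hQ
  have hq0 : (0 : ℤ) < q := by omega
  set t : ℤ := -((-y - 1) / q) with ht
  set r : ℤ := -y + t * q with hr
  set b : ℤ := x + t * a with hb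
  have hr' : r = (-y - 1) % q + 1 := by
    have h1 := Int.emod_add_mul_ediv (-y - 1) q
    rw [hr, ht]
    linarith
  have h1 := Int.emod_nonneg (-y - 1) hq0.ne'
  have h2 := Int.emod_lt_of_pos (-y - 1) hq0
  have hdet : q * b - r * a = 1 := by
    rw [hr, hb]
    linear_combination hxy
  have hr1 : 1 ≤ r := by omega
  have hrq : r ≤ q := by omega
  refine ⟨q, r, a, b, hr1, hrq, hqQ, hdet, hqa, ?_⟩
  have hqR : (0 : ℝ) < q := by exact_mod_cast hq0
  have hrR : (0 : ℝ) < r := by exact_mod_cast (by omega : (0 : ℤ) < r)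
  have hrqR : (r : ℝ) ≤ q := by exact_mod_cast hrq
  have hdR : (q : ℝ) * b - r * a = 1 := by exact_mod_cast hdet
  have h3 : (q : ℝ) * ((r : ℝ) * α - b) = r * ((q : ℝ) * α - a) - 1 := by
    linear_combination -hdR
  have h4 : (q : ℝ) * |(r : ℝ) * α - b| ≤ q * (1 / Q) + 1 := by
    rw [← abs_of_pos hqR, ← abs_mul, abs_of_pos hqR, h3]
    refine (abs_sub _ _).trans ?_
    rw [abs_mul, abs_of_pos hrR, abs_one]
    have h5 : (r : ℝ) * |(q : ℝ) * α - a| ≤ q * (1 / Q) :=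
      mul_le_mul hrqR hqa (abs_nonneg _) hqR.le
    linarith
  have h6 : (q : ℝ) * (1 / Q) + 1 ≤ q * ((1 + 1 / c) / Q) := by
    have h7 : (1 : ℝ) ≤ q * (1 / c / Q) := by
      rw [div_div, mul_one_div, le_div_iff₀ (mul_pos hc hQ0), one_mul]
      exact hcQ
    have h8 : (q : ℝ) * ((1 + 1 / c) / Q) = q * (1 / Q) + q * (1 / c / Q) := by
      rw [add_div]
      ring
    rw [h8]
    linarith
  exact le_of_mul_le_mul_left (h4.trans h6) hqR

theorem coords {α X Q w A B : ℝ} {q r a b : ℤ} (hr : 0 ≤ r) (hrQ : (r : ℝ) ≤ Q) (hq : 0 ≤ q)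
    (hqQ : (q : ℝ) ≤ Q) (hdet : q * b - r * a = 1) (hA : |(q : ℝ) * α - a| ≤ A)
    (hB : |(r : ℝ) * α - b| ≤ B) (h : ℤ) (hX : |(h : ℝ)| ≤ X) (hw : |sg (h * α)| ≤ w) :
    ∃ u v : ℤ, h = u * q + v * r ∧ |(u : ℝ)| ≤ X * B + Q * w ∧ |(v : ℝ)| ≤ X * A + Q * w := by
  set g : ℤ := round ((h : ℝ) * α) with hg
  have hs : sg (h * α) = (h : ℝ) * α - g := rfl
  rw [hs] at hw
  have hrR : (0 : ℝ) ≤ r := by exact_mod_cast hr
  have hqR : (0 : ℝ) ≤ q := by exact_mod_cast hq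
  have hX0 : 0 ≤ X := (abs_nonneg _).trans hX
  have hw0 : 0 ≤ w := (abs_nonneg _).trans hw
  have hQ0 : 0 ≤ Q := hrR.trans hrQ
  refine ⟨h * b - g * r, q * g - a * h, ?_, ?_, ?_⟩
  · linear_combination (-h) * hdet
  · have e : ((h * b - g * r : ℤ) : ℝ) = r * ((h : ℝ) * α - g) - h * ((r : ℝ) * α - b) := by
      push_cast
      ring
    rw [e]
    refine (abs_sub _ _).trans ?_
    rw [abs_mul, abs_mul, abs_of_nonneg hrR]
    have h1 : (r : ℝ) * |(h : ℝ) * α - g| ≤ Q * w := mul_le_mul hrQ hw (abs_nonneg _) hQ0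
    have h2 : |(h : ℝ)| * |(r : ℝ) * α - b| ≤ X * B := mul_le_mul hX hB (abs_nonneg _) hX0
    linarith
  · have e : ((q * g - a * h : ℤ) : ℝ) = h * ((q : ℝ) * α - a) - q * ((h : ℝ) * α - g) := by
      push_cast
      ring
    rw [e]
    refine (abs_sub _ _).trans ?_
    rw [abs_mul, abs_mul, abs_of_nonneg hqR]
    have h1 : (q : ℝ) * |(h : ℝ) * α - g| ≤ Q * w := mul_le_mul hqQ hw (abs_nonneg _) hQ0
    have h2 : |(h : ℝ)| * |(q : ℝ) * α - a| ≤ X * A := mul_le_mul hX hA (abs_nonneg _) hX0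
    linarith

/-- the other direction: an integer near `h α` determines `sg` -/
theorem sg_of_near {x y : ℝ} {g : ℤ} (h : x = g + y) (hy : |y| < 1 / 2) : sg x = y := by
  have h1 : round y = 0 := by
    rw [round_eq_zero_iff]
    obtain ⟨h2, h3⟩ := abs_lt.1 hy
    exact ⟨h2.le, h3⟩
  have h2 : round x = g := by
    rw [h, round_intCast_add, h1, add_zero]
  show x - round x = y
  rw [h2, h]
  ring

theorem sg_add_int (x : ℝ) (g : ℤ) : sg (x + g) = sg x := by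
  show x + g - round (x + g) = x - round x
  rw [round_add_intCast]
  push_cast
  ring

theorem abs_sg_le (x : ℝ) (g : ℤ) : |sg x| ≤ |x - g| := ABasis_abs_sg_le x g

theorem abs_sg_le_half (x : ℝ) : |sg x| ≤ 1 / 2 := abs_sub_round x

theorem abs_sg_neg (x : ℝ) : |sg (-x)| = |sg x| := by
  have key : ∀ z : ℝ, |sg (-z)| ≤ |sg z| := by
    intro z
    refine (abs_sg_le (-z) (-round z)).trans (le_of_eq ?_)
    have e : -z - ((-round z : ℤ) : ℝ) = -(z - round z) := by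
      push_cast
      ring
    rw [e, abs_neg]
    rfl
  refine le_antisymm (key x) ?_
  have h1 := key (-x)
  rwa [neg_neg] at h1

theorem abs_sg_add (x y : ℝ) : |sg (x + y)| ≤ |sg x| + |sg y| := by
  refine (abs_sg_le (x + y) (round x + round y)).trans ?_
  have e : x + y - ((round x + round y : ℤ) : ℝ) = sg x + sg y := by
    show x + y - ((round x + round y : ℤ) : ℝ) = (x - round x) + (y - round y)
    push_cast
    ring
  rw [e]
  exact abs_add_le _ _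

/-- additivity of the signed distance for small values -/
theorem sg_add {x y : ℝ} (h : |sg x| + |sg y| < 1 / 2) : sg (x + y) = sg x + sg y := by
  refine sg_of_near (g := round x + round y) ?_ ((abs_add_le _ _).trans_lt h)
  show x + y = ((round x + round y : ℤ) : ℝ) + ((x - round x) + (y - round y))
  push_cast
  ring

theorem sg_neg {x : ℝ} (h : |sg x| < 1 / 2) : sg (-x) = -sg x := by
  refine sg_of_near (g := -round x) ?_ (by rwa [abs_neg])
  show -x = ((-round x : ℤ) : ℝ) + -(x - round x)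
  push_cast
  ring

end Pool.Agent.H47.WS
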