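import Pool.Agent.H47.WS.ADefs

/-!
JOB WS-A2. Lattice points of a box in a residue class of a linear form.
-/

set_option autoImplicit false

open Finset Filter Topology

namespace Pool.Agent.H47.WS

open Pool.Agent.H16 Pool.Agent.H81.AS

theorem abox_zmod {d : ℕ} [NeZero d] {q r : ℤ} (hqr : IsCoprime q r) (c : ZMod d) :
    #(univ.filter (fun z : ZMod d × ZMod d => z.1 * (q : ZMod d) + z.2 * (r : ZMod d) = c)) = d := by
  obtain ⟨s, t, hst⟩ := hqr
  have hst' : (s : ZMod d) * q + (t : ZMod d) * r = 1 := by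
    exact_mod_cast congrArg (Int.cast : ℤ → ZMod d) hst
  set N : ZMod d → ℕ := fun c =>
    #(univ.filter (fun z : ZMod d × ZMod d => z.1 * (q : ZMod d) + z.2 * (r : ZMod d) = c)) with hN
  have h1 : ∀ c, N c = N 0 := by
    intro c
    refine Finset.card_nbij' (fun z => (z.1 - c * s, z.2 - c * t)) (fun z => (z.1 + c * s, z.2 + c * t))
      ?_ ?_ ?_ ?_
    · intro z hz
      simp only [coe_filter, mem_univ, true_and, Set.mem_ofPred_eq] at hz ⊢
      linear_combination hz - c * hst'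
    · intro z hz
      simp only [coe_filter, mem_univ, true_and, Set.mem_ofPred_eq] at hz ⊢
      linear_combination hz + c * hst'
    · intro z _
      simp
    · intro z _
      simp
  have h2 : Fintype.card (ZMod d × ZMod d) = ∑ c : ZMod d, N c := by
    rw [← Finset.card_univ]
    exact Finset.card_eq_sum_card_fiberwise (fun _ _ => by simp)
  rw [Finset.sum_congr rfl (fun c _ => h1 c), Finset.sum_const, Finset.card_univ, Fintype.card_prod,
    ZMod.card, smul_eq_mul] at h2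
  have hd : 0 < d := Nat.pos_of_ne_zero (NeZero.ne d)
  have h3 : d = N 0 := Nat.eq_of_mul_eq_mul_left hd h2
  show N c = d
  rw [h1 c, ← h3]

theorem abox_one {q r : ℤ} (hqr : IsCoprime q r) (ν : ℤ) {d : ℕ} (hd : 1 ≤ d) :
    #((range d ×ˢ range d).filter (fun x => (d : ℤ) ∣ ν + x.1 * q + x.2 * r)) = d := by
  have : NeZero d := ⟨by omega⟩
  refine Eq.trans ?_ (abox_zmod hqr (-(ν : ZMod d)))
  refine Finset.card_nbij' (fun x => ((x.1 : ZMod d), (x.2 : ZMod d))) (fun z => (z.1.val, z.2.val))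
    ?_ ?_ ?_ ?_
  · intro x hx
    simp only [coe_filter, mem_product, mem_range, Set.mem_ofPred_eq] at hx
    simp only [coe_filter, mem_univ, true_and, Set.mem_ofPred_eq]
    have h1 := (ZMod.intCast_zmod_eq_zero_iff_dvd (ν + x.1 * q + x.2 * r) d).2 hx.2
    push_cast at h1
    linear_combination h1
  · intro z hz
    simp only [coe_filter, mem_univ, true_and, Set.mem_ofPred_eq] at hz
    simp only [coe_filter, mem_product, mem_range, Set.mem_ofPred_eq]
    refine ⟨⟨ZMod.val_lt _, ZMod.val_lt _⟩, ?_⟩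
    refine (ZMod.intCast_zmod_eq_zero_iff_dvd (ν + z.1.val * q + z.2.val * r) d).1 ?_
    push_cast
    rw [ZMod.natCast_zmod_val, ZMod.natCast_zmod_val]
    linear_combination hz
  · intro x hx
    simp only [coe_filter, mem_product, mem_range, Set.mem_ofPred_eq] at hx
    exact Prod.ext (ZMod.val_cast_of_lt hx.1.1) (ZMod.val_cast_of_lt hx.1.2)
  · intro z _
    exact Prod.ext (ZMod.natCast_zmod_val _) (ZMod.natCast_zmod_val _)

theorem abox_periodic {g : ℕ → ℕ} {d : ℕ} (hg : ∀ x, g (x + d) = g x) (m : ℕ) :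
    ∑ x ∈ range (m * d), g x = m * ∑ x ∈ range d, g x := by
  have h1 : ∀ m x, g (m * d + x) = g x := by
    intro m x
    induction m with
    | zero => simp
    | succ m ih => rw [show (m + 1) * d + x = (m * d + x) + d by ring, hg, ih]
  induction m with
  | zero => simp
  | succ m ih =>
    rw [Nat.succ_mul, Finset.sum_range_add, ih, Finset.sum_congr rfl (fun x _ => h1 m x)]
    ring

theorem abox_mul {q r : ℤ} (hqr : IsCoprime q r) (ν : ℤ) {d : ℕ} (hd : 1 ≤ d) (m : ℕ) :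
    #((range (m * d) ×ˢ range (m * d)).filter (fun x => (d : ℤ) ∣ ν + x.1 * q + x.2 * r)) =
      m ^ 2 * d := by
  classical
  have h0 : ∀ K : ℕ, #((range K ×ˢ range K).filter (fun x => (d : ℤ) ∣ ν + x.1 * q + x.2 * r)) =
      ∑ x ∈ range K, ∑ y ∈ range K, if (d : ℤ) ∣ ν + (x : ℤ) * q + (y : ℤ) * r then 1 else 0 := by
    intro K
    rw [Finset.card_filter, Finset.sum_product]
  have hy : ∀ x y : ℕ, ((d : ℤ) ∣ ν + (x : ℤ) * q + ((y + d : ℕ) : ℤ) * r) ↔
      ((d : ℤ) ∣ ν + (x : ℤ) * q + (y : ℤ) * r) := by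
    intro x y
    have h1 : ν + (x : ℤ) * q + ((y + d : ℕ) : ℤ) * r = (ν + (x : ℤ) * q + (y : ℤ) * r) + d * r := by
      push_cast
      ring
    rw [h1]
    exact dvd_add_left (Dvd.intro _ rfl)
  have hx : ∀ x y : ℕ, ((d : ℤ) ∣ ν + ((x + d : ℕ) : ℤ) * q + (y : ℤ) * r) ↔
      ((d : ℤ) ∣ ν + (x : ℤ) * q + (y : ℤ) * r) := by
    intro x y
    have h1 : ν + ((x + d : ℕ) : ℤ) * q + (y : ℤ) * r = (ν + (x : ℤ) * q + (y : ℤ) * r) + d * q := by
      push_cast
      ring
    rw [h1]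
    exact dvd_add_left (Dvd.intro _ rfl)
  have h2 : ∀ x K : ℕ, (∑ y ∈ range (m * d),
      if (d : ℤ) ∣ ν + (x : ℤ) * q + (y : ℤ) * r then 1 else 0) =
      m * ∑ y ∈ range d, if (d : ℤ) ∣ ν + (x : ℤ) * q + (y : ℤ) * r then 1 else 0 := by
    intro x _
    exact abox_periodic (g := fun y => if (d : ℤ) ∣ ν + (x : ℤ) * q + (y : ℤ) * r then 1 else 0)
      (fun y => if_congr (hy x y) rfl rfl) m
  rw [h0, Finset.sum_congr rfl (fun x _ => h2 x 0), ← Finset.mul_sum,
    abox_periodic (g := fun x => ∑ y ∈ range d,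
      if (d : ℤ) ∣ ν + (x : ℤ) * q + (y : ℤ) * r then 1 else 0)
      (fun x => Finset.sum_congr rfl fun y _ => if_congr (hx x y) rfl rfl) m, ← h0,
    abox_one hqr ν hd]
  ring

theorem box_count {q r : ℤ} (hqr : IsCoprime q r) (ν : ℤ) (K d : ℕ) (hd : 1 ≤ d) (hdK : d ≤ K) :
    |(#((range K ×ˢ range K).filter (fun x => (d : ℤ) ∣ ν + x.1 * q + x.2 * r)) : ℝ) - (K : ℝ) ^ 2 / d| ≤
      4 * K := by
  set m := K / d with hm
  set C := #((range K ×ˢ range K).filter (fun x => (d : ℤ) ∣ ν + x.1 * q + x.2 * r)) with hC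
  have hmK : m * d ≤ K := Nat.div_mul_le_self K d
  have hKm : K ≤ (m + 1) * d := by
    have h1 := Nat.lt_div_mul_add (a := K) (b := d) (by omega)
    rw [add_mul, one_mul]
    exact h1.le
  have h1 : m ^ 2 * d ≤ C := by
    rw [← abox_mul hqr ν hd m]
    refine Finset.card_le_card (Finset.filter_subset_filter _ ?_)
    exact Finset.product_subset_product (Finset.range_subset_range.2 hmK)
      (Finset.range_subset_range.2 hmK)
  have h2 : C ≤ (m + 1) ^ 2 * d := by
    rw [← abox_mul hqr ν hd (m + 1)]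
    refine Finset.card_le_card (Finset.filter_subset_filter _ ?_)
    exact Finset.product_subset_product (Finset.range_subset_range.2 hKm)
      (Finset.range_subset_range.2 hKm)
  have hd0 : (0 : ℝ) < d := by exact_mod_cast hd
  have hdK' : (d : ℝ) ≤ K := by exact_mod_cast hdK
  have hmK' : (m : ℝ) * d ≤ K := by exact_mod_cast hmK
  have hKm' : (K : ℝ) ≤ (m + 1) * d := by exact_mod_cast hKm
  have h1' : (m : ℝ) ^ 2 * d ≤ C := by exact_mod_cast h1
  have h2' : (C : ℝ) ≤ (m + 1) ^ 2 * d := by exact_mod_cast h2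
  have hm0 : (0 : ℝ) ≤ m := by positivity
  have hK0 : (0 : ℝ) ≤ K := by positivity
  have h3 : (m : ℝ) ^ 2 * d ≤ (K : ℝ) ^ 2 / d := by
    rw [le_div_iff₀ hd0]
    nlinarith [mul_nonneg hm0 hd0.le]
  have h4 : (K : ℝ) ^ 2 / d ≤ (m + 1) ^ 2 * d := by
    rw [div_le_iff₀ hd0]
    nlinarith [mul_nonneg hm0 hd0.le]
  have h5 : ((m : ℝ) + 1) ^ 2 * d - (m : ℝ) ^ 2 * d ≤ 3 * K := by
    nlinarith
  rw [abs_le]
  constructor <;> linarith

end Pool.Agent.H47.WS
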