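import Pool.Agent.H47.WS.AGap

/-!
Isolated clusters of points, from the pattern theorem.
-/

set_option autoImplicit false

open Finset Filter Topology

namespace Pool.Agent.H47.WS

open Pool.Agent.H1.PP

theorem clu_near {α C T η : ℝ} {m k N : ℕ} (hC : 0 < C) (hη : η = 1 / (2 * C * (k + 1))) (hT : k * η + C + 1 ≤ T)
    (hN : 0 < N) (hTN : T / N < 1 / 2) {y : ℕ → ℝ} (hy : IsRearr (xs α) y N) {θ : ℝ}
    (hP : Pat α N (fun i : Fin k => ((i : ℕ) : ℝ) * η) T (η / 4) (m + 1) θ) (h1 : T / N ≤ θ)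
    (h2 : θ ≤ 1 - 2 * (T / N)) :
    ∃ j : ℕ, ((∃ r, m ≤ r ∧ r ≤ k ∧ Clu C N y j r) ∨ j = 1 ∨ (j ≤ N ∧ N ≤ j + k)) ∧
      (N : ℝ) * |sg (θ - y j)| ≤ T := by
  have hNr : (0 : ℝ) < N := by exact_mod_cast hN
  have hk0 : (0 : ℝ) ≤ k := Nat.cast_nonneg k
  have hη0 : 0 < η := by rw [hη]; positivity
  have hη1 : (k + 1) * η < 1 / C := by
    rw [hη]
    have : ((k : ℝ) + 1) * (1 / (2 * C * (k + 1))) = 1 / C / 2 := by field_simp
    rw [this]
    have : 0 < 1 / C := by positivity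
    linarith
  have hkη : 0 ≤ k * η := by positivity
  have hT0 : 0 < T := by linarith
  obtain ⟨I, g, hI, hg, hno⟩ := hP
  -- positions of the points of the cluster
  have hik : ∀ i : Fin k, ((i : ℕ) : ℝ) + 1 ≤ k := by
    intro i
    have : (i : ℕ) + 1 ≤ k := i.2
    exact_mod_cast this
  have hz : ∀ i ∈ I, -(η / 4) ≤ (N : ℝ) * sg (xs α (g i) - θ) ∧
      (N : ℝ) * sg (xs α (g i) - θ) ≤ k * η - η + η / 4 := by
    intro i hi
    obtain ⟨_, h⟩ := hg i hi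
    obtain ⟨ha, hb⟩ := abs_le.1 h
    have e1 : 0 ≤ ((i : ℕ) : ℝ) * η := by positivity
    have e2 : (((i : ℕ) : ℝ) + 1) * η ≤ k * η := mul_le_mul_of_nonneg_right (hik i) hη0.le
    constructor <;> nlinarith
  have hη1' : η ≤ 1 / C := by nlinarith
  have hpt : ∀ i ∈ I, (N : ℝ) * (xs α (g i) - θ) = N * sg (xs α (g i) - θ) := by
    intro i hi
    obtain ⟨ha, hb⟩ := hz i hi
    refine point_of hT0 hN h1 h2 (abs_le.2 ⟨?_, by linarith⟩)
    by_cases hk : (k : ℝ) = 0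
    · have := hik i
      have h0 : (0 : ℝ) ≤ ((i : ℕ) : ℝ) := Nat.cast_nonneg _
      linarith
    · have h3 : (1 : ℝ) ≤ k := by
        have : 1 ≤ k := Nat.one_le_iff_ne_zero.2 (by exact_mod_cast hk)
        exact_mod_cast this
      have : η ≤ k * η := by nlinarith
      linarith
  have hηT : η ≤ T := by
    by_cases hk : k = 0
    · subst hk
      have : #I = 0 := by
        rw [Finset.card_eq_zero]
        exact Finset.eq_empty_of_forall_notMem fun i => i.elim0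
      omega
    · have h3 : (1 : ℝ) ≤ k := by exact_mod_cast Nat.one_le_iff_ne_zero.2 hk
      nlinarith
  have hginj : Set.InjOn g I := by
    intro i hi i' hi' he
    by_contra hne
    obtain ⟨_, ha⟩ := hg i hi
    obtain ⟨_, hb⟩ := hg i' hi'
    rw [he] at ha
    simp only at ha hb
    obtain ⟨ha1, ha2⟩ := abs_le.1 ha
    obtain ⟨hb1, hb2⟩ := abs_le.1 hb
    have hne' : (i : ℕ) ≠ (i' : ℕ) := fun h => hne (Fin.ext h)
    rcases lt_or_gt_of_ne hne' with h | h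
    · have h3 : ((i : ℕ) : ℝ) + 1 ≤ ((i' : ℕ) : ℝ) := by exact_mod_cast h
      have h4 := mul_le_mul_of_nonneg_right h3 hη0.le
      nlinarith
    · have h3 : ((i' : ℕ) : ℝ) + 1 ≤ ((i : ℕ) : ℝ) := by exact_mod_cast h
      have h4 := mul_le_mul_of_nonneg_right h3 hη0.le
      nlinarith
  obtain ⟨⟨σ, hσ, hyσ⟩, hmono⟩ := hy
  set J : Finset ℕ := (Icc 1 N).filter (fun j => |(N : ℝ) * (y j - θ)| ≤ T) with hJ
  have hJmem : ∀ j, j ∈ J ↔ (1 ≤ j ∧ j ≤ N) ∧ |(N : ℝ) * (y j - θ)| ≤ T := by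
    intro j
    rw [hJ, Finset.mem_filter, Finset.mem_Icc]
  have hJI : ∀ j ∈ J, ∃ i ∈ I, σ j = g i := by
    intro j hj
    obtain ⟨hj1, hj2⟩ := (hJmem j).1 hj
    have hj' : j ∈ Set.Icc 1 N := hj1
    rw [hyσ j hj'] at hj2
    have hsg := (near_of hN hTN hj2).2
    have hσm := hσ.mapsTo hj'
    exact hno (σ j) (Finset.mem_Icc.2 ⟨hσm.1, hσm.2⟩) (by rw [hsg]; exact hj2)
  have hIJ : ∀ i ∈ I, ∃ j ∈ J, σ j = g i := by
    intro i hi
    obtain ⟨hgi, _⟩ := hg i hi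
    obtain ⟨j, hj, hjσ⟩ := hσ.surjOn (show g i ∈ Set.Icc 1 N from ⟨(Finset.mem_Icc.1 hgi).1, (Finset.mem_Icc.1 hgi).2⟩)
    refine ⟨j, (hJmem j).2 ⟨hj, ?_⟩, hjσ⟩
    rw [hyσ j hj, hjσ, hpt i hi]
    obtain ⟨ha, hb⟩ := hz i hi
    exact abs_le.2 ⟨by linarith, by linarith⟩
  have himg : J.image σ = I.image g := by
    ext n
    rw [Finset.mem_image, Finset.mem_image]
    constructor
    · rintro ⟨j, hj, rfl⟩
      obtain ⟨i, hi, h⟩ := hJI j hj
      exact ⟨i, hi, h.symm⟩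
    · rintro ⟨i, hi, rfl⟩
      obtain ⟨j, hj, h⟩ := hIJ i hi
      exact ⟨j, hj, h⟩
  have hσinj : Set.InjOn σ J := by
    intro a ha b hb he
    exact hσ.injOn ((hJmem a).1 ha).1 ((hJmem b).1 hb).1 he
  have hcard : #J = #I := by
    rw [← Finset.card_image_of_injOn hσinj, himg, Finset.card_image_of_injOn hginj]
  have hIk : #I ≤ k := by
    simpa using Finset.card_le_univ I
  have hJne : J.Nonempty := Finset.card_pos.1 (by omega)
  set j0 := J.min' hJne with hj0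
  set j1 := J.max' hJne with hj1
  have hj0J : j0 ∈ J := J.min'_mem hJne
  have hj1J : j1 ∈ J := J.max'_mem hJne
  have hj01 : j0 ≤ j1 := J.min'_le j1 hj1J
  obtain ⟨⟨hj0a, hj0b⟩, hj0c⟩ := (hJmem j0).1 hj0J
  obtain ⟨⟨hj1a, hj1b⟩, hj1c⟩ := (hJmem j1).1 hj1J
  have hJIcc : J = Icc j0 j1 := by
    ext j
    rw [Finset.mem_Icc]
    constructor
    · intro hj
      exact ⟨J.min'_le j hj, J.le_max' j hj⟩
    · rintro ⟨ha, hb⟩
      refine (hJmem j).2 ⟨⟨by omega, by omega⟩, ?_⟩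
      have e1 := hmono j0 j hj0a ha (by omega)
      have e2 := hmono j j1 (by omega) hb hj1b
      obtain ⟨c1, _⟩ := abs_le.1 hj0c
      obtain ⟨_, c4⟩ := abs_le.1 hj1c
      have e3 : (N : ℝ) * (y j0 - θ) ≤ N * (y j - θ) := mul_le_mul_of_nonneg_left (by linarith) hNr.le
      have e4 : (N : ℝ) * (y j - θ) ≤ N * (y j1 - θ) := mul_le_mul_of_nonneg_left (by linarith) hNr.le
      exact abs_le.2 ⟨by linarith, by linarith⟩
  have hcard2 : j1 + 1 - j0 = #I := by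
    rw [← hcard, hJIcc, Nat.card_Icc]
  -- values
  have hval : ∀ j ∈ J, -(η / 4) ≤ (N : ℝ) * (y j - θ) ∧ (N : ℝ) * (y j - θ) ≤ k * η - η + η / 4 := by
    intro j hj
    obtain ⟨i, hi, h⟩ := hJI j hj
    rw [hyσ j ((hJmem j).1 hj).1, h, hpt i hi]
    exact hz i hi
  have hnear : (N : ℝ) * |sg (θ - y j0)| ≤ T := (near_of hN hTN hj0c).1
  refine ⟨j0, ?_, hnear⟩
  by_cases hA : j0 = 1
  · exact Or.inr (Or.inl hA)
  by_cases hB : N ≤ j1
  · refine Or.inr (Or.inr ⟨hj0b, ?_⟩)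
    omega
  left
  refine ⟨j1 - j0, by omega, by omega, by omega, by omega, ?_, ?_, ?_⟩
  · -- the gap before
    have hj : j0 - 1 ∉ J := by
      intro hj
      have := J.min'_le _ hj
      omega
    have hj2 : ¬ |(N : ℝ) * (y (j0 - 1) - θ)| ≤ T := fun h => hj ((hJmem _).2 ⟨⟨by omega, by omega⟩, h⟩)
    have e1 := hmono (j0 - 1) j0 (by omega) (by omega) hj0b
    have e3 : (N : ℝ) * (y (j0 - 1) - θ) ≤ N * (y j0 - θ) := mul_le_mul_of_nonneg_left (by linarith) hNr.le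
    obtain ⟨c1, c2⟩ := hval j0 hj0J
    have e4 : (N : ℝ) * (y (j0 - 1) - θ) < -T := by
      by_contra hcon
      push Not at hcon
      exact hj2 (abs_le.2 ⟨hcon, by linarith⟩)
    have e5 : (N : ℝ) * (y j0 - y (j0 - 1)) = N * (y j0 - θ) - N * (y (j0 - 1) - θ) := by ring
    rw [e5]
    have : η / 4 ≤ 1 + k * η := by
      by_cases hk : k = 0
      · omega
      · have h3 : (1 : ℝ) ≤ k := by exact_mod_cast Nat.one_le_iff_ne_zero.2 hk
        nlinarith
    linarith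
  · have e0 : j0 + (j1 - j0) = j1 := by omega
    rw [e0]
    obtain ⟨c1, c2⟩ := hval j0 hj0J
    obtain ⟨c3, c4⟩ := hval j1 hj1J
    have e5 : (N : ℝ) * (y j1 - y j0) = N * (y j1 - θ) - N * (y j0 - θ) := by ring
    rw [e5]
    nlinarith
  · have e0 : j0 + (j1 - j0) = j1 := by omega
    rw [e0]
    have hj : j1 + 1 ∉ J := by
      intro hj
      have := J.le_max' _ hj
      omega
    have hj2 : ¬ |(N : ℝ) * (y (j1 + 1) - θ)| ≤ T := fun h => hj ((hJmem _).2 ⟨⟨by omega, by omega⟩, h⟩)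
    have e1 := hmono j1 (j1 + 1) (by omega) (by omega) (by omega)
    have e3 : (N : ℝ) * (y j1 - θ) ≤ N * (y (j1 + 1) - θ) := mul_le_mul_of_nonneg_left (by linarith) hNr.le
    obtain ⟨c1, c2⟩ := hval j1 hj1J
    have e4 : T < (N : ℝ) * (y (j1 + 1) - θ) := by
      by_contra hcon
      push Not at hcon
      exact hj2 (abs_le.2 ⟨by linarith, hcon⟩)
    have e5 : (N : ℝ) * (y (j1 + 1) - y j1) = N * (y (j1 + 1) - θ) - N * (y j1 - θ) := by ring
    rw [e5]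
    nlinarith

theorem clusters_of_pat {α : ℝ} {m k : ℕ} (hmk : m + 1 ≤ k) (hp : PatThm α (m + 1) k) {C : ℝ} (hC : 0 < C) :
    ∃ c : ℝ, 0 < c ∧ ∀ᶠ N : ℕ in atTop, ∀ y : ℕ → ℝ, IsRearr (xs α) y N →
      c * N ≤ (Set.ncard {j : ℕ | ∃ r, m ≤ r ∧ r ≤ k ∧ Clu C N y j r} : ℝ) := by
  classical
  set η : ℝ := 1 / (2 * C * (k + 1)) with hη
  have hk0 : (0 : ℝ) ≤ k := Nat.cast_nonneg k
  have hη0 : 0 < η := by rw [hη]; positivity
  set T : ℝ := k * η + C + 1 with hTdef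
  have hT0 : 0 < T := by positivity
  have hk1 : (1 : ℝ) ≤ k := by
    have : 1 ≤ k := by omega
    exact_mod_cast this
  obtain ⟨c, hc, hev⟩ := hp T (η / 4) (fun i : Fin k => ((i : ℕ) : ℝ) * η) (by positivity)
    (by
      intro i j hij
      have hne : (i : ℕ) ≠ (j : ℕ) := fun he => hij (Fin.ext he)
      have h1 : (1 : ℝ) ≤ |((i : ℕ) : ℝ) - ((j : ℕ) : ℝ)| := by
        have : (1 : ℤ) ≤ |((i : ℕ) : ℤ) - ((j : ℕ) : ℤ)| := Int.one_le_abs (by omega)
        exact_mod_cast this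
      rw [← sub_mul, abs_mul, abs_of_pos hη0]
      nlinarith)
    (by
      intro i
      have : (i : ℕ) + 1 ≤ k := i.2
      have h1 : ((i : ℕ) : ℝ) + 1 ≤ k := by exact_mod_cast this
      have h2 : (0 : ℝ) ≤ ((i : ℕ) : ℝ) := Nat.cast_nonneg _
      rw [abs_of_nonneg (by positivity)]
      nlinarith)
  refine ⟨c / (24 * T), by positivity, ?_⟩
  have hbig : ∀ᶠ N : ℕ in atTop, 24 * T / c * (k + 2) + 6 * T / c + 2 * T + 1 ≤ (N : ℝ) :=
    tendsto_natCast_atTop_atTop.eventually_ge_atTop _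
  filter_upwards [hev, hbig] with N hN hNbig y hy
  obtain ⟨A, _, hA01, hAv, hAP⟩ := hN
  have hp1 : 0 ≤ 24 * T / c * (k + 2) := by positivity
  have hp2 : 0 ≤ 6 * T / c := by positivity
  have hNr : (0 : ℝ) < N := by linarith
  have hN0 : 0 < N := by exact_mod_cast hNr
  have hTN : T / N < 1 / 2 := by
    rw [div_lt_iff₀ hNr]
    linarith
  have hNc : 3 * (T / N) ≤ c / 2 := by
    have h1 : 6 * T / c ≤ N := by linarith
    rw [div_le_iff₀ hc] at h1
    rw [mul_div_assoc', div_le_iff₀ hNr]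
    linarith
  set G : Finset ℕ := (Icc 1 N).filter (fun j => ∃ r, m ≤ r ∧ r ≤ k ∧ Clu C N y j r) with hG
  have hGset : {j : ℕ | ∃ r, m ≤ r ∧ r ≤ k ∧ Clu C N y j r} = (G : Set ℕ) := by
    ext j
    rw [hG]
    simp only [Finset.coe_filter, Finset.mem_Icc]
    constructor
    · rintro ⟨r, h1, h2, h3⟩
      have h4 := h3.1
      have h5 := h3.2.1
      exact ⟨⟨by omega, by omega⟩, r, h1, h2, h3⟩
    · rintro ⟨_, r, h1, h2, h3⟩
      exact ⟨r, h1, h2, h3⟩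
  rw [hGset, Set.ncard_coe_finset]
  have hcount := gap_count (G ∪ ({1} ∪ Icc (N - k) N)) (y := y) hT0 hN0 hNc hA01 hAv
    (fun θ hθ h1 h2 => by
      obtain ⟨j, hj, hjn⟩ := clu_near hC hη le_rfl hN0 hTN hy (hAP θ hθ) h1 h2
      refine ⟨j, ?_, hjn⟩
      rw [Finset.mem_union, Finset.mem_union]
      rcases hj with ⟨r, h3, h4, h5⟩ | h3 | ⟨h3, h4⟩
      · left
        rw [hG, Finset.mem_filter, Finset.mem_Icc]
        have h6 := h5.1
        have h7 := h5.2.1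
        exact ⟨⟨by omega, by omega⟩, r, h3, h4, h5⟩
      · right; left
        rw [h3]
        exact Finset.mem_singleton_self 1
      · right; right
        rw [Finset.mem_Icc]
        omega)
  have hcard : (#(G ∪ ({1} ∪ Icc (N - k) N)) : ℝ) ≤ #G + (k + 2) := by
    have e1 := Finset.card_union_le G ({1} ∪ Icc (N - k) N)
    have e2 := Finset.card_union_le {1} (Icc (N - k) N)
    rw [Finset.card_singleton, Nat.card_Icc] at e2
    have e3 : #(G ∪ ({1} ∪ Icc (N - k) N)) ≤ #G + (k + 2) := by omega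
    exact_mod_cast e3
  have h24 : 24 * T * (k + 2) ≤ c * N := by
    have h1 : 24 * T / c * (k + 2) ≤ N := by linarith
    rw [div_mul_eq_mul_div, div_le_iff₀ hc] at h1
    linarith
  have h3 : c / 2 * N ≤ 6 * T * (#G + (k + 2)) :=
    le_trans hcount (mul_le_mul_of_nonneg_left hcard (by positivity))
  rw [div_mul_eq_mul_div, div_le_iff₀ (by positivity)]
  nlinarith

end Pool.Agent.H47.WS
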