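import Pool.Agent.H47.WS.AMeas

/-!
JOB WS-A13. Lower bounds for the correlation counts, from the pattern theorem.
-/

set_option autoImplicit false

open Finset Filter Topology

namespace Pool.Agent.H47.WS

open Pool.Agent.H1.PP

/-- a set of indices which is near every `θ` of a set of positive measure has positive proportion -/
private theorem many_near' {x : ℕ → ℝ} {N : ℕ} (B : Finset ℕ) {A : Set ℝ} {T c : ℝ} (hT : 0 ≤ T) (hN : 0 < N)
    (hA : ENNReal.ofReal c ≤ MeasureTheory.volume A)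
    (hAB : ∀ θ ∈ A, θ ∈ Set.Ico (0 : ℝ) 1 ∧ ∃ n ∈ B, (N : ℝ) * |sg (θ - x n)| ≤ T) : c * N ≤ 6 * T * #B := by
  have hN' : (0 : ℝ) < N := by exact_mod_cast hN
  have hTN : 0 ≤ T / N := by positivity
  have hsub : A ⊆ ⋃ n ∈ B, Jn (x n) (T / N) := by
    intro θ hθ
    obtain ⟨h1, n, hn, h2⟩ := hAB θ hθ
    simp only [Set.mem_iUnion]
    refine ⟨n, hn, h1, ?_⟩
    rw [le_div_iff₀ hN']
    linarith
  have h1 : MeasureTheory.volume A ≤ ∑ n ∈ B, MeasureTheory.volume (Jn (x n) (T / N)) :=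
    (MeasureTheory.measure_mono hsub).trans (MeasureTheory.measure_biUnion_finset_le _ _)
  have h2 : ∑ n ∈ B, MeasureTheory.volume (Jn (x n) (T / N)) ≤ ∑ _n ∈ B, ENNReal.ofReal (6 * (T / N)) :=
    Finset.sum_le_sum fun n _ => Jn_vol_le _ hTN
  have h3 : ENNReal.ofReal c ≤ ENNReal.ofReal (#B * (6 * (T / N))) := by
    refine (hA.trans (h1.trans h2)).trans (le_of_eq ?_)
    rw [Finset.sum_const, nsmul_eq_mul, ENNReal.ofReal_mul (p := (#B : ℝ)) (by positivity),
      ENNReal.ofReal_natCast]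
  have h4 : c ≤ #B * (6 * (T / N)) := by
    by_contra hc
    push Not at hc
    have h5 : (0 : ℝ) ≤ #B * (6 * (T / N)) := by positivity
    exact absurd h3 (not_le.mpr ((ENNReal.ofReal_lt_ofReal_iff (lt_of_le_of_lt h5 hc)).mpr hc))
  calc c * N ≤ (#B * (6 * (T / N))) * N := by gcongr
    _ = 6 * T * #B := by field_simp

/-- differences of points near `θ`, `θ` away from the ends -/
private lemma diff_of_sg {θ a T N : ℝ} (hN : 0 < N) (hT : T / N ≤ θ) (hT' : θ ≤ 1 - T / N)
    (ha : a ∈ Set.Ico (0 : ℝ) 1) (hz : |N * sg (a - θ)| < T) (hTN : 2 * T < N) :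
    N * sg (a - θ) = N * (a - θ) := by
  have h1 : |sg (a - θ)| < T / N := by
    rw [abs_mul, abs_of_pos hN] at hz
    rw [lt_div_iff₀ hN]; linarith
  have h2 : T / N < 1 / 2 := by
    rw [div_lt_iff₀ hN]; linarith
  have h3 : round (a - θ) = 0 := by
    have h4 : a - θ = sg (a - θ) + round (a - θ) := by unfold sg; ring
    have h5 := abs_lt.mp h1
    obtain ⟨ha0, ha1⟩ := ha
    have h6 : (round (a - θ) : ℝ) < 1 := by linarith [h5.1]
    have h7 : (-1 : ℝ) < round (a - θ) := by linarith [h5.2]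
    have h8 : round (a - θ) < 1 := by exact_mod_cast h6
    have h9 : (-1 : ℤ) < round (a - θ) := by exact_mod_cast h7
    omega
  unfold sg
  rw [h3]; simp


theorem corr_of_pat {α : ℝ} (h : ∀ m : ℕ, 1 ≤ m → ∃ k : ℕ, m ≤ k ∧ PatThm α m k) (k : ℕ) {s : ℝ}
    (hs : 0 < s) : ∃ c : ℝ, 0 < c ∧ ∀ᶠ N : ℕ in atTop,
      c * N ≤ (Set.ncard {f : Fin (k + 1) → ℕ | Function.Injective f ∧ (∀ j, f j ∈ Set.Icc 1 N) ∧
        ∀ j, |(N : ℝ) * (xs α (f 0) - xs α (f j))| ≤ s} : ℝ) := by
  obtain ⟨k', hk', hP⟩ := h (k + 1) (by omega)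
  have hk0 : (1 : ℝ) ≤ k' := by exact_mod_cast (by omega : 1 ≤ k')
  have hk1 : (0 : ℝ) < (k' : ℝ) + 1 := by positivity
  obtain ⟨η, hη⟩ : ∃ η : ℝ, η = s / (k' + 1) := ⟨_, rfl⟩
  have hη0 : 0 < η := by rw [hη]; positivity
  have hηs : ((k' : ℝ) + 1) * η = s := by rw [hη]; field_simp
  obtain ⟨T, hT⟩ : ∃ T : ℝ, T = k' * η + 1 := ⟨_, rfl⟩
  have hT0 : 0 < T := by rw [hT]; positivity
  have ht1 : ∀ i : Fin k', (i.val : ℝ) * η ≤ (k' - 1) * η := by
    intro i
    have : (i.val : ℝ) ≤ k' - 1 := by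
      have := i.isLt
      have h2 : ((i.val + 1 : ℕ) : ℝ) ≤ k' := by exact_mod_cast (by omega : i.val + 1 ≤ k')
      push_cast at h2; linarith
    gcongr
  have hsep : ∀ i j : Fin k', i ≠ j → 2 * (η / 4) < |(i.val : ℝ) * η - (j.val : ℝ) * η| := by
    intro i j hij
    have h1 : i.val ≠ j.val := fun h => hij (Fin.ext h)
    have h2 : (1 : ℝ) ≤ |(i.val : ℝ) - j.val| := by
      have h3 : (1 : ℤ) ≤ |(i.val : ℤ) - j.val| := Int.one_le_abs (by omega)
      exact_mod_cast h3
    rw [← sub_mul, abs_mul, abs_of_pos hη0]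
    nlinarith
  have hTt : ∀ i : Fin k', |(i.val : ℝ) * η| + η / 4 < T := by
    intro i
    rw [abs_of_nonneg (by positivity)]
    have := ht1 i
    rw [hT]; linarith
  obtain ⟨c, hc, hev⟩ := hP T (η / 4) (fun i => (i.val : ℝ) * η) (by positivity) hsep
    (fun i => (hTt i).le)
  refine ⟨c / (12 * T), by positivity, ?_⟩
  have hlarge : ∀ᶠ N : ℕ in atTop, 4 * T / c + 2 * T + 1 ≤ (N : ℝ) :=
    tendsto_natCast_atTop_atTop.eventually_ge_atTop _
  filter_upwards [hev, hlarge] with N hN hNl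
  obtain ⟨A, hAm, hAs, hAv, hA⟩ := hN
  have h4 : 0 < 4 * T / c := by positivity
  have hN0 : (0 : ℝ) < N := by linarith
  have hNn : 0 < N := by exact_mod_cast hN0
  have hTN : 2 * T < N := by linarith
  have hTN2 : 2 * (T / N) ≤ c / 2 := by
    have h5 : 4 * T / c ≤ N := by linarith
    rw [div_le_iff₀ hc] at h5
    rw [← mul_div_assoc, div_le_iff₀ hN0]; linarith
  have hTN3 : 0 ≤ T / N := by positivity
  set Fs : Set (Fin (k + 1) → ℕ) := {f : Fin (k + 1) → ℕ | Function.Injective f ∧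
    (∀ j, f j ∈ Set.Icc 1 N) ∧ ∀ j, |(N : ℝ) * (xs α (f 0) - xs α (f j))| ≤ s} with hFs
  have hfin : Fs.Finite := by
    refine Set.Finite.subset (Set.Finite.pi' (t := fun _ => Set.Icc 1 N) fun _ => Set.finite_Icc 1 N) ?_
    intro f hf j
    exact hf.2.1 j
  have hBfin : ((fun f : Fin (k + 1) → ℕ => f 0) '' Fs).Finite := hfin.image _
  have hBc : (#(hBfin.toFinset) : ℝ) ≤ (Fs.ncard : ℝ) := by
    rw [← Set.ncard_eq_toFinset_card _ hBfin]
    exact_mod_cast Set.ncard_image_le hfin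
  set A' : Set ℝ := A ∩ Set.Icc (T / N) (1 - T / N) with hA'
  have hvol : ENNReal.ofReal (c / 2) ≤ MeasureTheory.volume A' := by
    have h1 : A ⊆ A' ∪ (Set.Icc 0 (T / N) ∪ Set.Icc (1 - T / N) 1) := by
      intro θ hθ
      have h2 := hAs hθ
      by_cases h3 : θ ∈ Set.Icc (T / N) (1 - T / N)
      · exact Or.inl ⟨hθ, h3⟩
      · right
        rw [Set.mem_Icc, not_and_or] at h3
        rcases h3 with h3 | h3
        · left; push Not at h3; exact ⟨h2.1, h3.le⟩
        · right; push Not at h3; exact ⟨h3.le, h2.2.le⟩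
    have h2 : MeasureTheory.volume A ≤ MeasureTheory.volume A' +
        (MeasureTheory.volume (Set.Icc 0 (T / N)) + MeasureTheory.volume (Set.Icc (1 - T / N) 1)) :=
      (MeasureTheory.measure_mono h1).trans ((MeasureTheory.measure_union_le _ _).trans
        (by gcongr; exact MeasureTheory.measure_union_le _ _))
    rw [Real.volume_Icc, Real.volume_Icc] at h2
    have h3 : (T / N - 0 : ℝ) = T / N := by ring
    have h4 : (1 - (1 - T / N) : ℝ) = T / N := by ring
    rw [h3, h4, ← ENNReal.ofReal_add hTN3 hTN3] at h2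
    have h5 := hAv.trans h2
    have h6 : ENNReal.ofReal (c / 2) + ENNReal.ofReal (T / N + T / N) ≤ ENNReal.ofReal c := by
      rw [← ENNReal.ofReal_add (by positivity) (by positivity)]
      exact ENNReal.ofReal_le_ofReal (by linarith)
    exact (ENNReal.add_le_add_iff_right ENNReal.ofReal_ne_top).mp (h6.trans h5)
  have hmany := many_near' (x := xs α) (N := N) hBfin.toFinset (A := A') (T := T) (c := c / 2)
    hT0.le hNn hvol ?_
  · have h7 : c / 2 * N ≤ 6 * T * (Fs.ncard : ℝ) := by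
      refine hmany.trans ?_
      gcongr
    rw [div_mul_eq_mul_div, div_le_iff₀ (by positivity)]
    linarith
  · rintro θ ⟨hθA, hθ0, hθ1⟩
    refine ⟨hAs hθA, ?_⟩
    obtain ⟨I, g, hI, hg, -⟩ := hA θ hθA
    obtain ⟨J, hJ, hJc⟩ := Finset.exists_subset_card_eq hI
    have hxs : ∀ n, xs α n ∈ Set.Ico (0 : ℝ) 1 := fun n => ⟨Int.fract_nonneg _, Int.fract_lt_one _⟩
    have hsm : ∀ i ∈ I, |(N : ℝ) * sg (xs α (g i) - θ)| < T := by
      intro i hi
      have h1 := (hg i hi).2
      have h2 := hTt i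
      have h3 : |(N : ℝ) * sg (xs α (g i) - θ)| ≤
          |(N : ℝ) * sg (xs α (g i) - θ) - (i.val : ℝ) * η| + |(i.val : ℝ) * η| := by
        have := abs_add_le ((N : ℝ) * sg (xs α (g i) - θ) - (i.val : ℝ) * η) ((i.val : ℝ) * η)
        simpa using this
      linarith
    have hlin : ∀ i ∈ I, (N : ℝ) * sg (xs α (g i) - θ) = N * (xs α (g i) - θ) := fun i hi =>
      diff_of_sg hN0 hθ0 hθ1 (hxs _) (hsm i hi) hTN
    have hginj : ∀ i ∈ I, ∀ i' ∈ I, g i = g i' → i = i' := by
      intro i hi i' hi' hgg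
      by_contra hne
      have h1 := (hg i hi).2
      have h2 := (hg i' hi').2
      rw [← hgg] at h2
      have h3 := hsep i i' hne
      have h4 := abs_le.mp h1
      have h5 := abs_le.mp h2
      have h6 : |(i.val : ℝ) * η - (i'.val : ℝ) * η| ≤ 2 * (η / 4) := by
        rw [abs_le]; constructor <;> linarith [h4.1, h4.2, h5.1, h5.2]
      linarith
    have hmem : ∀ j : Fin (k + 1), J.orderEmbOfFin hJc j ∈ I := fun j =>
      hJ (Finset.orderEmbOfFin_mem J hJc j)
    have hf : (fun j : Fin (k + 1) => g (J.orderEmbOfFin hJc j)) ∈ Fs := by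
      refine ⟨?_, ?_, ?_⟩
      · intro j j' hjj
        exact (J.orderEmbOfFin hJc).injective (hginj _ (hmem j) _ (hmem j') hjj)
      · intro j
        have := (hg _ (hmem j)).1
        rw [Finset.mem_Icc] at this
        exact this
      · intro j
        have h1 := (hg _ (hmem 0)).2
        have h2 := (hg _ (hmem j)).2
        rw [hlin _ (hmem 0)] at h1
        rw [hlin _ (hmem j)] at h2
        have h3 := abs_le.mp h1
        have h4 := abs_le.mp h2
        have h5 := ht1 (J.orderEmbOfFin hJc 0)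
        have h6 := ht1 (J.orderEmbOfFin hJc j)
        have h7 : (0 : ℝ) ≤ ((J.orderEmbOfFin hJc 0).val : ℝ) * η := by positivity
        have h8 : (0 : ℝ) ≤ ((J.orderEmbOfFin hJc j).val : ℝ) * η := by positivity
        have h9 : ((k' : ℝ) - 1) * η + η / 2 ≤ s := by rw [← hηs]; nlinarith
        rw [abs_le]
        constructor <;> nlinarith [h3.1, h3.2, h4.1, h4.2]
    refine ⟨g (J.orderEmbOfFin hJc 0), ?_, ?_⟩
    · rw [Set.Finite.mem_toFinset]
      exact ⟨_, hf, rfl⟩
    · have h1 := hsm _ (hmem 0)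
      rw [hlin _ (hmem 0), abs_mul, abs_of_pos hN0] at h1
      have h2 : |sg (θ - xs α (g (J.orderEmbOfFin hJc 0)))| ≤
          |xs α (g (J.orderEmbOfFin hJc 0)) - θ| := by
        have h3 := round_le (θ - xs α (g (J.orderEmbOfFin hJc 0))) 0
        rw [Int.cast_zero, sub_zero, abs_sub_comm] at h3
        unfold sg
        rw [abs_sub_comm (xs α _) θ]
        rwa [abs_sub_comm] at h3
      nlinarith

end Pool.Agent.H47.WS
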