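import Pool.Agent.H47.WS.Defs
import Pool.Agent.H1.PP.St

/-!
Project WS (MP_e95273_nt): definitions for the application to `{p_n α}`, `α` badly approximable.
-/

set_option autoImplicit false

open Finset Filter Topology

namespace Pool.Agent.H47.WS

open Pool.Agent.H16 Pool.Agent.H81.AS Pool.Agent.H1.PP

/-- signed distance to the nearest integer -/
noncomputable def sg (x : ℝ) : ℝ := x - round x

/-- `α` is badly approximable with the constant `c` -/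
def BA (c α : ℝ) : Prop := ∀ n : ℕ, 1 ≤ n → c ≤ n * |sg (n * α)|

/-- the integers `|h| ≤ X` with `‖h α‖ ≤ w` -/
noncomputable def GZ (α : ℝ) (X : ℕ) (w : ℝ) : Finset ℤ :=
  (Icc (-(X : ℤ)) X).filter (fun h => |sg (h * α)| ≤ w)

/-- hypotheses on a finite set of integers which give the window hypotheses for its labels -/
structure WinZ (lam ℓ : ℝ) (G : Finset ℤ) : Prop where
  card : (#G : ℝ) ≤ lam * ℓ
  small : ∀ h ∈ G, |(h : ℝ)| ≤ 3 * Real.exp ℓ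
  sieve : ∀ (e : ℕ) (ν : ℤ), (#(G.filter (fun h => ∀ p ∈ (Nat.primesLE (zf ℓ)).erase e,
    ¬ (p : ℤ) ∣ ν + h)) : ℝ) ≤ lam * (ℓ / Real.log ℓ)

/-- the label of an integer: negative integers are shifted by `M` -/
def lab (M : ℕ) (h : ℤ) : ℕ := (if 0 ≤ h then h else h + M).toNat

/-- multiples `h ≤ e^ℓ/9` of `f` with `h α` near `t w` modulo one -/
noncomputable def RZ (α : ℝ) (f : ℕ) (ℓ w t ε : ℝ) : Finset ℕ :=
  (Icc 0 ⌊Real.exp ℓ / 9⌋₊).filter (fun h => f ∣ h ∧ |sg (h * α) - t * w| ≤ ε * w)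

/-- the transversals of a family of sets -/
def fam {k : ℕ} (R : Fin k → Finset ℕ) : Finset (Finset ℕ) :=
  (Fintype.piFinset R).image (fun f => univ.image f)

/-- the `θ ∈ [0,1)` with `‖θ - x‖ ≤ δ` -/
def Jn (x δ : ℝ) : Set ℝ := {θ | θ ∈ Set.Ico (0 : ℝ) 1 ∧ |sg (θ - x)| ≤ δ}

/-- at least `m` of the `t i / N` are `ε / N`-close to a point `x_n - θ`, `n ≤ N`, one point for each, and there is no
other point within `T / N` of `θ` -/
def Pat (α : ℝ) (N : ℕ) {k : ℕ} (t : Fin k → ℝ) (T ε : ℝ) (m : ℕ) (θ : ℝ) : Prop :=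
  ∃ (I : Finset (Fin k)) (g : Fin k → ℕ), m ≤ #I ∧
    (∀ i ∈ I, g i ∈ Icc 1 N ∧ |(N : ℝ) * sg (xs α (g i) - θ) - t i| ≤ ε) ∧
    ∀ n ∈ Icc 1 N, |(N : ℝ) * sg (xs α n - θ)| ≤ T → ∃ i ∈ I, n = g i

/-- the number of points in the arc `[θ, θ + L/N)` modulo one -/
noncomputable def cn (α : ℝ) (N : ℕ) (L θ : ℝ) : ℕ :=
  #((Icc 1 N).filter (fun n => (N : ℝ) * Int.fract (xs α n - θ) < L))

/-- the conclusion of the pattern theorem -/
def PatThm (α : ℝ) (m k : ℕ) : Prop :=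
  ∀ (T ε : ℝ) (t : Fin k → ℝ), 0 < ε → (∀ i j, i ≠ j → 2 * ε < |t i - t j|) → (∀ i, |t i| + ε ≤ T) →
    ∃ c : ℝ, 0 < c ∧ ∀ᶠ N : ℕ in atTop, ∃ A : Set ℝ, MeasurableSet A ∧ A ⊆ Set.Ico 0 1 ∧
      ENNReal.ofReal c ≤ MeasureTheory.volume A ∧ ∀ θ ∈ A, Pat α N t T ε m θ

end Pool.Agent.H47.WS
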