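import Pool.Agent.H47.WS.AMeas

/-!
JOB WS-A11. Exactly `m` points in an arc, from the pattern theorem.
-/

set_option autoImplicit false

open Finset Filter Topology

namespace Pool.Agent.H47.WS

open Pool.Agent.H1.PP

theorem cn_meas (α : ℝ) (N : ℕ) (L : ℝ) (m : ℕ) : MeasurableSet {θ : ℝ | cn α N L θ = m} := by
  have h : Measurable (fun θ : ℝ => cn α N L θ) := by
    unfold cn
    simp only [Finset.card_filter]
    refine Finset.measurable_sum _ (fun n _ => ?_)
    refine Measurable.ite ?_ measurable_const measurable_const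
    have h1 : Measurable (fun θ : ℝ => (N : ℝ) * Int.fract (xs α n - θ)) :=
      measurable_const.mul ((measurable_const.sub measurable_id).fract)
    exact measurableSet_lt h1 measurable_const
  exact h (measurableSet_singleton m)

/-- translates of a part of `[0,1)` inside a set of period one -/
theorem vol_shift {E A : Set ℝ} (hE : MeasurableSet E) (hper : ∀ θ : ℝ, θ ∈ E ↔ θ + 1 ∈ E)
    (hA : A ⊆ Set.Ico 0 1) (s : ℝ) (hs : ∀ θ ∈ A, θ + s ∈ E) :
    MeasureTheory.volume A ≤ MeasureTheory.volume (E ∩ Set.Ico 0 1) := by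
  have hint : ∀ (g : ℤ) (θ : ℝ), θ ∈ E ↔ θ + (g : ℝ) ∈ E := by
    intro g
    induction g using Int.induction_on with
    | zero => intro θ; simp
    | succ n ih =>
      intro θ
      rw [ih θ, hper (θ + ((n : ℤ) : ℝ))]
      push_cast
      rw [add_assoc]
    | pred n ih =>
      intro θ
      rw [ih θ, hper (θ + ((-(n : ℤ) - 1 : ℤ) : ℝ))]
      push_cast
      rw [show θ + (-(n : ℝ) - 1) + 1 = θ + -(n : ℝ) by ring]
  set a : ℝ := Int.fract s with ha
  have ha0 : 0 ≤ a := Int.fract_nonneg s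
  have ha1 : a < 1 := Int.fract_lt_one s
  have hsa : s = a + (⌊s⌋ : ℝ) := (Int.fract_add_floor s).symm
  have hEa : ∀ θ ∈ A, θ + a ∈ E := by
    intro θ hθ
    have h1 := hs θ hθ
    rw [hsa, ← add_assoc] at h1
    exact (hint ⌊s⌋ (θ + a)).2 h1
  have hEb : ∀ θ ∈ A, θ + (a - 1) ∈ E := by
    intro θ hθ
    have h1 := hEa θ hθ
    rw [show θ + a = θ + (a - 1) + 1 by ring] at h1
    exact (hper _).2 h1
  have hm : MeasurableSet (Set.Ici a) := measurableSet_Ici
  have h1 : MeasureTheory.volume (A ∩ {θ | θ + a < 1}) ≤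
      MeasureTheory.volume ((E ∩ Set.Ico 0 1) ∩ Set.Ici a) := by
    calc MeasureTheory.volume (A ∩ {θ | θ + a < 1})
        ≤ MeasureTheory.volume ((fun θ : ℝ => θ + a) ⁻¹' ((E ∩ Set.Ico 0 1) ∩ Set.Ici a)) := by
          apply MeasureTheory.measure_mono
          rintro θ ⟨hθ, hθ1⟩
          have h0 := hA hθ
          exact ⟨⟨hEa θ hθ, by have := h0.1; simp only []; linarith, hθ1⟩, by
            have := h0.1
            simp only [Set.mem_Ici]
            linarith⟩
      _ = _ := MeasureTheory.measure_preimage_add_right _ _ _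
  have h2 : MeasureTheory.volume (A \ {θ | θ + a < 1}) ≤
      MeasureTheory.volume ((E ∩ Set.Ico 0 1) \ Set.Ici a) := by
    calc MeasureTheory.volume (A \ {θ | θ + a < 1})
        ≤ MeasureTheory.volume ((fun θ : ℝ => θ + (a - 1)) ⁻¹' ((E ∩ Set.Ico 0 1) \ Set.Ici a)) := by
          apply MeasureTheory.measure_mono
          rintro θ ⟨hθ, hθ1⟩
          have h0 := hA hθ
          have h3 : 1 ≤ θ + a := not_lt.1 hθ1
          have h4 := h0.2
          refine ⟨⟨hEb θ hθ, ?_, ?_⟩, ?_⟩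
          · simp only []
            linarith
          · simp only []
            linarith
          · simp only [Set.mem_Ici, not_le]
            linarith
      _ = _ := MeasureTheory.measure_preimage_add_right _ _ _
  calc MeasureTheory.volume A
      ≤ MeasureTheory.volume (A ∩ {θ | θ + a < 1}) + MeasureTheory.volume (A \ {θ | θ + a < 1}) :=
        MeasureTheory.measure_le_inter_add_sdiff _ _ _
    _ ≤ MeasureTheory.volume ((E ∩ Set.Ico 0 1) ∩ Set.Ici a) +
        MeasureTheory.volume ((E ∩ Set.Ico 0 1) \ Set.Ici a) := add_le_add h1 h2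
    _ = _ := MeasureTheory.measure_inter_add_sdiff _ hm

/-- a slowly decreasing count takes the value `m` -/
theorem exists_level {k : ℕ} (I : Finset (Fin k)) {m : ℕ} (hm : m ≤ #I) :
    ∃ j : ℕ, 1 ≤ j ∧ j ≤ k + 1 ∧ #(I.filter (fun i => j ≤ i.val + 1)) = m := by
  set f : ℕ → ℕ := fun j => #(I.filter (fun i => j ≤ i.val + 1)) with hf
  have h1 : m ≤ f 1 := by
    simp only [hf]
    rw [Finset.filter_true_of_mem (fun i _ => by omega)]
    exact hm
  have hk : f (k + 1) = 0 := by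
    simp only [hf]
    rw [Finset.card_eq_zero, Finset.filter_eq_empty_iff]
    intro i _
    have := i.isLt
    omega
  have hstep : ∀ j, f j ≤ f (j + 1) + 1 := by
    intro j
    simp only [hf]
    have hsub : I.filter (fun i => j ≤ i.val + 1) ⊆
        I.filter (fun i => j + 1 ≤ i.val + 1) ∪ I.filter (fun i => i.val + 1 = j) := by
      intro i hi
      simp only [Finset.mem_filter, Finset.mem_union] at hi ⊢
      rcases Nat.lt_or_ge (i.val + 1) (j + 1) with h | h
      · right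
        exact ⟨hi.1, by omega⟩
      · left
        exact ⟨hi.1, h⟩
    have h2 : #(I.filter (fun i => i.val + 1 = j)) ≤ 1 := by
      rw [Finset.card_le_one]
      intro x hx y hy
      simp only [Finset.mem_filter] at hx hy
      apply Fin.ext
      omega
    calc _ ≤ _ := Finset.card_le_card hsub
      _ ≤ _ := Finset.card_union_le _ _
      _ ≤ _ := by omega
  set j := Nat.findGreatest (fun j => m ≤ f j) (k + 1) with hj
  have hP : m ≤ f j := Nat.findGreatest_spec (P := fun j => m ≤ f j) (by omega : 1 ≤ k + 1) h1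
  have hj1 : 1 ≤ j := Nat.le_findGreatest (by omega) h1
  have hjk : j ≤ k + 1 := Nat.findGreatest_le _
  refine ⟨j, hj1, hjk, ?_⟩
  change f j = m
  rcases Nat.lt_or_ge j (k + 1) with h | h
  · have h3 : ¬ m ≤ f (j + 1) :=
      Nat.findGreatest_is_greatest (P := fun j => m ≤ f j) (n := k + 1) (k := j + 1) (by omega)
        (by omega)
    have h4 := hstep j
    omega
  · have h5 : j = k + 1 := le_antisymm hjk h
    rw [h5] at hP ⊢
    omega

theorem exact_at {α : ℝ} {N k m j : ℕ} {L θ η : ℝ} (hη : 0 < η) (hηL : η * (k + 2) = L)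
    (hN : 2 * (2 * L + 1) < N) {I : Finset (Fin k)} {g : Fin k → ℕ} (hj1 : 1 ≤ j) (hjk : j ≤ k + 1)
    (hjm : #(I.filter (fun i => j ≤ i.val + 1)) = m)
    (hI : ∀ i ∈ I, g i ∈ Icc 1 N ∧
      |(N : ℝ) * sg (xs α (g i) - θ) - ((i.val : ℝ) + 1) * η| ≤ η / 8)
    (hT : ∀ n ∈ Icc 1 N, |(N : ℝ) * sg (xs α n - θ)| ≤ 2 * L + 1 → ∃ i ∈ I, n = g i) :
    cn α N L (θ + ((j : ℝ) - 1 / 2) * η / N) = m := by
  have hk0 : (0 : ℝ) ≤ k := Nat.cast_nonneg k
  have hL : 0 < L := by rw [← hηL]; positivity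
  have hN0 : (0 : ℝ) < N := by linarith
  have hj1' : (1 : ℝ) ≤ j := by exact_mod_cast hj1
  have hjk' : (j : ℝ) ≤ k + 1 := by exact_mod_cast hjk
  have hinj : Set.InjOn g (I.filter (fun i => j ≤ i.val + 1) : Set (Fin k)) := by
    intro i hi i' hi' hgi
    have h1 := (hI i (Finset.mem_filter.1 hi).1).2
    have h2 := (hI i' (Finset.mem_filter.1 hi').1).2
    rw [← hgi] at h2
    rw [abs_le] at h1 h2
    have h3 : ((i.val : ℝ) - i'.val) * η ≤ η / 4 := by linarith [h1.1, h1.2, h2.1, h2.2]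
    have h4 : ((i'.val : ℝ) - i.val) * η ≤ η / 4 := by linarith [h1.1, h1.2, h2.1, h2.2]
    have h5 : (i.val : ℝ) - i'.val < 1 := by
      by_contra h
      push Not at h
      nlinarith
    have h6 : (i'.val : ℝ) - i.val < 1 := by
      by_contra h
      push Not at h
      nlinarith
    have h7 : (i.val : ℝ) < i'.val + 1 := by linarith
    have h8 : (i'.val : ℝ) < i.val + 1 := by linarith
    apply Fin.ext
    have h9 : i.val < i'.val + 1 := by exact_mod_cast h7
    have h10 : i'.val < i.val + 1 := by exact_mod_cast h8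
    omega
  rw [← hjm, ← Finset.card_image_of_injOn hinj]
  unfold cn
  congr 1
  ext n
  simp only [Finset.mem_filter, Finset.mem_image]
  constructor
  · rintro ⟨hn, hy⟩
    set y : ℝ := (N : ℝ) * Int.fract (xs α n - (θ + ((j : ℝ) - 1 / 2) * η / N)) with hyd
    have hy0 : 0 ≤ y := mul_nonneg hN0.le (Int.fract_nonneg _)
    have hxe : xs α n - θ = (⌊xs α n - (θ + ((j : ℝ) - 1 / 2) * η / N)⌋ : ℝ) +
        (y + ((j : ℝ) - 1 / 2) * η) / N := by
      have h1 := Int.floor_add_fract (xs α n - (θ + ((j : ℝ) - 1 / 2) * η / N))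
      have h2 : Int.fract (xs α n - (θ + ((j : ℝ) - 1 / 2) * η / N)) = y / N := by
        rw [hyd]
        field_simp
      rw [h2] at h1
      rw [add_div]
      linarith
    have hw0 : 0 ≤ y + ((j : ℝ) - 1 / 2) * η := by nlinarith
    have hw1 : y + ((j : ℝ) - 1 / 2) * η ≤ 2 * L + 1 := by nlinarith
    have hsg : sg (xs α n - θ) = (y + ((j : ℝ) - 1 / 2) * η) / N := by
      apply sg_of_near hxe
      rw [abs_of_nonneg (div_nonneg hw0 hN0.le), div_lt_iff₀ hN0]
      linarith
    have hNsg : (N : ℝ) * sg (xs α n - θ) = y + ((j : ℝ) - 1 / 2) * η := by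
      rw [hsg]
      field_simp
    obtain ⟨i, hi, hni⟩ := hT n hn (by rw [hNsg, abs_of_nonneg hw0]; exact hw1)
    refine ⟨i, ⟨hi, ?_⟩, hni.symm⟩
    have h3 := (hI i hi).2
    rw [← hni, hNsg, abs_le] at h3
    have h4 : ((j : ℝ) - 1 / 2) * η ≤ ((i.val : ℝ) + 1) * η + η / 8 := by linarith [h3.2]
    have h5 : (j : ℝ) - 1 / 2 ≤ (i.val : ℝ) + 1 + 1 / 8 := by
      by_contra h
      push Not at h
      nlinarith
    have h6 : (j : ℝ) < (i.val : ℝ) + 1 + 1 := by linarith
    have h7 : j < i.val + 1 + 1 := by exact_mod_cast h6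
    omega
  · rintro ⟨i, ⟨hi, hji⟩, rfl⟩
    obtain ⟨h1, h2⟩ := hI i hi
    refine ⟨h1, ?_⟩
    set z : ℝ := (N : ℝ) * sg (xs α (g i) - θ) with hz
    rw [abs_le] at h2
    have hji' : (j : ℝ) ≤ (i.val : ℝ) + 1 := by exact_mod_cast hji
    have hik : (i.val : ℝ) + 1 ≤ k := by
      have := i.isLt
      exact_mod_cast this
    have hy0 : 0 ≤ z - ((j : ℝ) - 1 / 2) * η := by nlinarith [h2.1]
    have hyL : z - ((j : ℝ) - 1 / 2) * η < L := by nlinarith [h2.2]
    have hfr : Int.fract (xs α (g i) - (θ + ((j : ℝ) - 1 / 2) * η / N)) =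
        (z - ((j : ℝ) - 1 / 2) * η) / N := by
      rw [Int.fract_eq_iff]
      refine ⟨div_nonneg hy0 hN0.le, ?_, round (xs α (g i) - θ), ?_⟩
      · rw [div_lt_iff₀ hN0]
        linarith
      · have h3 : z / N = xs α (g i) - θ - (round (xs α (g i) - θ) : ℝ) := by
          rw [hz]
          unfold sg
          field_simp
        rw [sub_div, h3]
        ring
    rw [hfr, mul_div_cancel₀ _ hN0.ne']
    exact hyL

theorem exact_of_pat {α : ℝ} (h : ∀ m : ℕ, 1 ≤ m → ∃ k : ℕ, m ≤ k ∧ PatThm α m k) (m : ℕ) {L : ℝ}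
    (hL : 0 < L) : ∃ c : ℝ, 0 < c ∧ ∀ᶠ N : ℕ in atTop,
      ENNReal.ofReal c ≤ MeasureTheory.volume {θ : ℝ | θ ∈ Set.Ico (0 : ℝ) 1 ∧ cn α N L θ = m} := by
  obtain ⟨k, hmk, hpat⟩ := h (max m 1) (le_max_right _ _)
  have hk0 : (0 : ℝ) ≤ k := Nat.cast_nonneg k
  set η : ℝ := L / (k + 2) with hη
  have hη0 : 0 < η := by positivity
  have hηL : η * (k + 2) = L := by rw [hη]; field_simp
  obtain ⟨c, hc, hev⟩ := hpat (2 * L + 1) (η / 8) (fun i : Fin k => ((i.val : ℝ) + 1) * η)
    (by positivity) (by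
      intro i i' hii
      have h1 : (1 : ℝ) ≤ |(i.val : ℝ) - i'.val| := by
        have h2 : (i.val : ℤ) - i'.val ≠ 0 := by
          intro h3
          apply hii
          apply Fin.ext
          omega
        have h4 : (1 : ℤ) ≤ |(i.val : ℤ) - i'.val| := Int.one_le_abs h2
        exact_mod_cast h4
      have h2 : ((i.val : ℝ) + 1) * η - ((i'.val : ℝ) + 1) * η = ((i.val : ℝ) - i'.val) * η := by
        ring
      rw [h2, abs_mul, abs_of_pos hη0]
      nlinarith)
    (by
      intro i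
      have h1 : (i.val : ℝ) + 1 ≤ k := by
        have := i.isLt
        exact_mod_cast this
      have h2 : (0 : ℝ) ≤ ((i.val : ℝ) + 1) * η := by positivity
      rw [abs_of_nonneg h2]
      nlinarith)
  refine ⟨c / (k + 1), by positivity, ?_⟩
  have hbig : ∀ᶠ N : ℕ in atTop, 2 * (2 * L + 1) < (N : ℝ) :=
    tendsto_natCast_atTop_atTop.eventually_gt_atTop _
  filter_upwards [hev, hbig] with N hNA hN
  obtain ⟨A, -, hA01, hAvol, hApat⟩ := hNA
  set E : Set ℝ := {θ : ℝ | cn α N L θ = m} with hEdef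
  have hE : MeasurableSet E := cn_meas α N L m
  have hper : ∀ θ : ℝ, θ ∈ E ↔ θ + 1 ∈ E := by
    intro θ
    have h1 : cn α N L (θ + 1) = cn α N L θ := by
      unfold cn
      congr 1
      apply Finset.filter_congr
      intro n _
      rw [show xs α n - (θ + 1) = xs α n - θ - 1 by ring, Int.fract_sub_one]
    simp only [hEdef, Set.mem_ofPred_eq, h1]
  set s : ℕ → ℝ := fun j => ((j : ℝ) - 1 / 2) * η / N with hs
  have hcover : A ⊆ ⋃ j ∈ Icc 1 (k + 1), {θ | θ ∈ A ∧ θ + s j ∈ E} := by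
    intro θ hθ
    obtain ⟨I, g, hIm, hI, hT⟩ := hApat θ hθ
    obtain ⟨j, hj1, hjk, hjm⟩ := exists_level I (le_trans (le_max_left m 1) hIm)
    rw [Set.mem_iUnion₂]
    refine ⟨j, Finset.mem_Icc.2 ⟨hj1, hjk⟩, hθ, ?_⟩
    exact exact_at hη0 hηL hN hj1 hjk hjm hI hT
  have hvol : MeasureTheory.volume A ≤ ((k : ENNReal) + 1) * MeasureTheory.volume (E ∩ Set.Ico 0 1) := by
    calc MeasureTheory.volume A
        ≤ MeasureTheory.volume (⋃ j ∈ Icc 1 (k + 1), {θ | θ ∈ A ∧ θ + s j ∈ E}) :=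
          MeasureTheory.measure_mono hcover
      _ ≤ ∑ j ∈ Icc 1 (k + 1), MeasureTheory.volume {θ | θ ∈ A ∧ θ + s j ∈ E} :=
          MeasureTheory.measure_biUnion_finset_le _ _
      _ ≤ ∑ j ∈ Icc 1 (k + 1), MeasureTheory.volume (E ∩ Set.Ico 0 1) := by
          apply Finset.sum_le_sum
          intro j _
          exact vol_shift hE hper (fun θ hθ => hA01 hθ.1) (s j) (fun θ hθ => hθ.2)
      _ = _ := by
          rw [Finset.sum_const, Nat.card_Icc, nsmul_eq_mul]
          push_cast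
          simp
  have hEeq : {θ : ℝ | θ ∈ Set.Ico (0 : ℝ) 1 ∧ cn α N L θ = m} = E ∩ Set.Ico 0 1 := by
    ext θ
    simp only [hEdef, Set.mem_ofPred_eq, Set.mem_inter_iff]
    exact and_comm
  rw [hEeq, ENNReal.ofReal_div_of_pos (by positivity)]
  have hk1 : ENNReal.ofReal ((k : ℝ) + 1) = (k : ENNReal) + 1 := by
    rw [ENNReal.ofReal_add hk0 zero_le_one, ENNReal.ofReal_natCast, ENNReal.ofReal_one]
  rw [hk1]
  apply ENNReal.div_le_of_le_mul
  rw [mul_comm]
  exact hAvol.trans hvol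

end Pool.Agent.H47.WS
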