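import Pool.Agent.H47.WS.ABasis

/-!
JOB WS-A6. Many shifts near every target.
-/

set_option autoImplicit false

open Finset Filter Topology

namespace Pool.Agent.H47.WS

open Pool.Agent.H16 Pool.Agent.H81.AS

/-- one element of the family -/
theorem rz_elem {c α : ℝ} {f : ℕ} (hf : 1 ≤ f) {ℓ w t ε Q u0 v0 : ℝ} {q r a b : ℤ}
    (hr : 1 ≤ r) (hrq : r ≤ q) (hqQ : (q : ℝ) ≤ Q) (hA : |(q : ℝ) * α - a| ≤ 1 / Q)
    (hB : |(r : ℝ) * α - b| ≤ (1 + 1 / c) / Q) {K : ℕ}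
    (h1 : 2 * f * K * Q ≤ Real.exp ℓ / 18) (h2 : f * K * ((2 + 1 / c) / Q) ≤ ε * w)
    (h3 : |t * w| + ε * w < 1 / 2)
    (e1 : f * (u0 * q + v0 * r) = Real.exp ℓ / 18)
    (e2 : f * (u0 * ((q : ℝ) * α - a) + v0 * ((r : ℝ) * α - b)) = t * w)
    (u v : ℤ) (hu : |(u : ℝ) - u0| ≤ K) (hv : |(v : ℝ) - v0| ≤ K) :
    0 ≤ (f : ℤ) * (u * q + v * r) ∧ (((f : ℤ) * (u * q + v * r) : ℤ) : ℝ) ≤ Real.exp ℓ / 9 ∧
      sg ((((f : ℤ) * (u * q + v * r) : ℤ) : ℝ) * α) =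
        f * (u * ((q : ℝ) * α - a) + v * ((r : ℝ) * α - b)) ∧
      |f * (u * ((q : ℝ) * α - a) + v * ((r : ℝ) * α - b)) - t * w| ≤ ε * w := by
  have hfR : (1 : ℝ) ≤ f := by exact_mod_cast hf
  have hr1 : (1 : ℝ) ≤ r := by exact_mod_cast hr
  have hrq' : (r : ℝ) ≤ q := by exact_mod_cast hrq
  have hq1 : (1 : ℝ) ≤ q := hr1.trans hrq'
  have hQ : 0 < Q := by linarith
  have hK0 : (0 : ℝ) ≤ K := Nat.cast_nonneg K
  -- first coordinate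
  have a1 : |f * ((u - u0) * q + (v - v0) * r)| ≤ Real.exp ℓ / 18 := by
    have b1 : |((u : ℝ) - u0) * q + (v - v0) * r| ≤ K * Q + K * Q := by
      refine (abs_add_le _ _).trans ?_
      rw [abs_mul, abs_mul]
      have : |(q : ℝ)| ≤ Q := by rw [abs_of_nonneg (by linarith)]; exact hqQ
      have : |(r : ℝ)| ≤ Q := by rw [abs_of_nonneg (by linarith)]; linarith
      gcongr
    rw [abs_mul, abs_of_nonneg (by linarith : (0 : ℝ) ≤ f)]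
    calc (f : ℝ) * |((u : ℝ) - u0) * q + (v - v0) * r| ≤ f * (K * Q + K * Q) := by gcongr
      _ = 2 * f * K * Q := by ring
      _ ≤ _ := h1
  have a2 : |f * ((u - u0) * ((q : ℝ) * α - a) + (v - v0) * ((r : ℝ) * α - b))| ≤ ε * w := by
    have b1 : |((u : ℝ) - u0) * ((q : ℝ) * α - a) + (v - v0) * ((r : ℝ) * α - b)| ≤
        K * (1 / Q) + K * ((1 + 1 / c) / Q) := by
      refine (abs_add_le _ _).trans ?_
      rw [abs_mul, abs_mul]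
      gcongr
    rw [abs_mul, abs_of_nonneg (by linarith : (0 : ℝ) ≤ f)]
    calc (f : ℝ) * |((u : ℝ) - u0) * ((q : ℝ) * α - a) + (v - v0) * ((r : ℝ) * α - b)|
        ≤ f * (K * (1 / Q) + K * ((1 + 1 / c) / Q)) := by gcongr
      _ = f * K * ((2 + 1 / c) / Q) := by ring
      _ ≤ _ := h2
  have c1 : (((f : ℤ) * (u * q + v * r) : ℤ) : ℝ) =
      Real.exp ℓ / 18 + f * ((u - u0) * q + (v - v0) * r) := by
    push_cast
    rw [← e1]; ring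
  have c2 : f * (u * ((q : ℝ) * α - a) + v * ((r : ℝ) * α - b)) =
      t * w + f * ((u - u0) * ((q : ℝ) * α - a) + (v - v0) * ((r : ℝ) * α - b)) := by
    rw [← e2]; ring
  have d1 := abs_le.mp a1
  refine ⟨?_, ?_, ?_, ?_⟩
  · have : (0 : ℝ) ≤ (((f : ℤ) * (u * q + v * r) : ℤ) : ℝ) := by rw [c1]; linarith [d1.1]
    exact_mod_cast this
  · rw [c1]; linarith [d1.2]
  · apply sg_of_near (g := (f : ℤ) * (u * a + v * b))
    · push_cast; ring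
    · rw [c2]
      refine (abs_add_le _ _).trans_lt ?_
      linarith
  · rw [c2]
    rw [add_sub_cancel_left]
    exact a2

theorem rz_core {c α : ℝ} {f : ℕ} (hf : 1 ≤ f) {ℓ w t ε Q : ℝ} {q r a b : ℤ} (hr : 1 ≤ r)
    (hrq : r ≤ q) (hqQ : (q : ℝ) ≤ Q) (hdet : q * b - r * a = 1)
    (hA : |(q : ℝ) * α - a| ≤ 1 / Q) (hB : |(r : ℝ) * α - b| ≤ (1 + 1 / c) / Q) (K : ℕ)
    (h1 : 2 * f * K * Q ≤ Real.exp ℓ / 18) (h2 : f * K * ((2 + 1 / c) / Q) ≤ ε * w)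
    (h3 : |t * w| + ε * w < 1 / 2) :
    K * K ≤ #(RZ α f ℓ w t ε) := by
  have hfR : (1 : ℝ) ≤ f := by exact_mod_cast hf
  have hf0 : (f : ℝ) ≠ 0 := by positivity
  have hD : (q : ℝ) * ((r : ℝ) * α - b) - r * ((q : ℝ) * α - a) = -1 := by
    have h : ((q * b - r * a : ℤ) : ℝ) = 1 := by rw [hdet]; norm_num
    push_cast at h
    linear_combination -h
  obtain ⟨u0, hu0⟩ : ∃ u0 : ℝ, u0 = -(Real.exp ℓ / 18 * ((r : ℝ) * α - b) - r * (t * w)) / f :=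
    ⟨_, rfl⟩
  obtain ⟨v0, hv0⟩ : ∃ v0 : ℝ, v0 = -(q * (t * w) - Real.exp ℓ / 18 * ((q : ℝ) * α - a)) / f :=
    ⟨_, rfl⟩
  have fu : f * u0 = -(Real.exp ℓ / 18 * ((r : ℝ) * α - b) - r * (t * w)) := by
    rw [hu0]; field_simp
  have fv : f * v0 = -(q * (t * w) - Real.exp ℓ / 18 * ((q : ℝ) * α - a)) := by
    rw [hv0]; field_simp
  have e1 : f * (u0 * q + v0 * r) = Real.exp ℓ / 18 := by
    linear_combination (q : ℝ) * fu + r * fv - (Real.exp ℓ / 18) * hD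
  have e2 : f * (u0 * ((q : ℝ) * α - a) + v0 * ((r : ℝ) * α - b)) = t * w := by
    linear_combination ((q : ℝ) * α - a) * fu + ((r : ℝ) * α - b) * fv - (t * w) * hD
  have near : ∀ (z : ℝ) (i : ℕ), i < K → |((⌊z⌋ + (i : ℤ) : ℤ) : ℝ) - z| ≤ K := by
    intro z i hi
    have h1 := Int.floor_le z
    have h2 := Int.lt_floor_add_one z
    have h3 : (i : ℝ) + 1 ≤ K := by exact_mod_cast hi
    have h4 : (0 : ℝ) ≤ i := Nat.cast_nonneg i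
    push_cast
    rw [abs_le]
    constructor <;> linarith
  have key := fun (i j : ℕ) (hi : i < K) (hj : j < K) =>
    rz_elem hf hr hrq hqQ hA hB h1 h2 h3 e1 e2 (⌊u0⌋ + (i : ℤ)) (⌊v0⌋ + (j : ℤ)) (near u0 i hi)
      (near v0 j hj)
  let F : ℕ × ℕ → ℕ := fun x =>
    ((f : ℤ) * ((⌊u0⌋ + (x.1 : ℤ)) * q + (⌊v0⌋ + (x.2 : ℤ)) * r)).toNat
  have hF : ∀ x ∈ range K ×ˢ range K, ((F x : ℕ) : ℤ) =
      (f : ℤ) * ((⌊u0⌋ + (x.1 : ℤ)) * q + (⌊v0⌋ + (x.2 : ℤ)) * r) := by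
    intro x hx
    rw [mem_product, mem_range, mem_range] at hx
    exact Int.toNat_of_nonneg (key x.1 x.2 hx.1 hx.2).1
  have hFR : ∀ x ∈ range K ×ˢ range K, ((F x : ℕ) : ℝ) =
      (((f : ℤ) * ((⌊u0⌋ + (x.1 : ℤ)) * q + (⌊v0⌋ + (x.2 : ℤ)) * r) : ℤ) : ℝ) := by
    intro x hx
    rw [← hF x hx]; norm_cast
  have hcard : #(range K ×ˢ range K) = K * K := by rw [card_product, card_range]
  rw [← hcard]
  apply card_le_card_of_injOn F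
  · intro x hx
    have hx' := hx
    rw [mem_coe, mem_product, mem_range, mem_range] at hx
    obtain ⟨k1, k2, k3, k4⟩ := key x.1 x.2 hx.1 hx.2
    rw [← hFR x hx'] at k2 k3
    rw [mem_coe, RZ, mem_filter, mem_Icc]
    refine ⟨⟨Nat.zero_le _, ?_⟩, ?_, ?_⟩
    · exact Nat.le_floor k2
    · have : (f : ℤ) ∣ ((F x : ℕ) : ℤ) := by rw [hF x hx']; exact dvd_mul_right _ _
      exact_mod_cast this
    · rw [k3]; exact k4
  · intro x hx x' hx' hxx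
    have hy := hx
    have hy' := hx'
    rw [mem_coe, mem_product, mem_range, mem_range] at hx hx'
    obtain ⟨-, -, k3, -⟩ := key x.1 x.2 hx.1 hx.2
    obtain ⟨-, -, k3', -⟩ := key x'.1 x'.2 hx'.1 hx'.2
    have e : (f : ℤ) * ((⌊u0⌋ + (x.1 : ℤ)) * q + (⌊v0⌋ + (x.2 : ℤ)) * r) =
        (f : ℤ) * ((⌊u0⌋ + (x'.1 : ℤ)) * q + (⌊v0⌋ + (x'.2 : ℤ)) * r) := by
      rw [← hF x hy, ← hF x' hy', hxx]
    rw [e, k3'] at k3
    have hfZ : (f : ℤ) ≠ 0 := by positivity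
    have e' := mul_left_cancel₀ hfZ e
    have eR : (((⌊u0⌋ + (x.1 : ℤ)) * q + (⌊v0⌋ + (x.2 : ℤ)) * r : ℤ) : ℝ) =
        (((⌊u0⌋ + (x'.1 : ℤ)) * q + (⌊v0⌋ + (x'.2 : ℤ)) * r : ℤ) : ℝ) := by rw [e']
    have k5 := mul_left_cancel₀ hf0 k3
    have g' : (((⌊u0⌋ + (x.1 : ℤ)) * a + (⌊v0⌋ + (x.2 : ℤ)) * b : ℤ) : ℝ) =
        (((⌊u0⌋ + (x'.1 : ℤ)) * a + (⌊v0⌋ + (x'.2 : ℤ)) * b : ℤ) : ℝ) := by
      push_cast at eR k5 ⊢
      linear_combination α * eR + k5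
    have g : (⌊u0⌋ + (x.1 : ℤ)) * a + (⌊v0⌋ + (x.2 : ℤ)) * b =
        (⌊u0⌋ + (x'.1 : ℤ)) * a + (⌊v0⌋ + (x'.2 : ℤ)) * b := by exact_mod_cast g'
    have r1 : (x.1 : ℤ) = x'.1 := by
      linear_combination b * e' - r * g - ((x.1 : ℤ) - x'.1) * hdet
    have r2 : (x.2 : ℤ) = x'.2 := by
      linear_combination q * g - a * e' - ((x.2 : ℤ) - x'.2) * hdet
    exact Prod.ext (by exact_mod_cast r1) (by exact_mod_cast r2)

theorem rz_card {c α : ℝ} (hc : 0 < c) (hα : BA c α) {f : ℕ} (hf : 1 ≤ f) {s₁ s₂ ε T : ℝ} (hs₁ : 0 < s₁)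
    (hε : 0 < ε) (hT : 0 ≤ T) : ∃ c0 : ℝ, 0 < c0 ∧ ∀ᶠ ℓ : ℝ in atTop, ∀ w t : ℝ,
      s₁ * ℓ ≤ w * Real.exp ℓ → w * Real.exp ℓ ≤ s₂ * ℓ → |t| ≤ T →
        c0 * ℓ ≤ (#(RZ α f ℓ w t ε) : ℝ) := by
  have hfR : (1 : ℝ) ≤ f := by exact_mod_cast hf
  have hf0 : (0 : ℝ) < f := by linarith
  have hC : (0 : ℝ) < 2 + 1 / c := by positivity
  obtain ⟨c1, hc1, hc1a, hc1b⟩ : ∃ c1 : ℝ, 0 < c1 ∧ 36 * f * c1 ≤ 1 ∧
      f * c1 * (2 + 1 / c) ≤ ε * s₁ := by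
    refine ⟨min (1 / (36 * f)) (ε * s₁ / (f * (2 + 1 / c))), by positivity, ?_, ?_⟩
    · calc 36 * (f : ℝ) * (min (1 / (36 * (f : ℝ))) (ε * s₁ / (f * (2 + 1 / c))) : ℝ)
          ≤ 36 * f * (1 / (36 * f)) := by gcongr; exact min_le_left _ _
        _ = 1 := by field_simp
    · calc (f : ℝ) * (min (1 / (36 * (f : ℝ))) (ε * s₁ / (f * (2 + 1 / c))) : ℝ) * (2 + 1 / c)
          ≤ f * (ε * s₁ / (f * (2 + 1 / c))) * (2 + 1 / c) := by gcongr; exact min_le_right _ _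
        _ = ε * s₁ := by field_simp
  refine ⟨c1 ^ 2 / 4, by positivity, ?_⟩
  have lim1 : Tendsto (fun ℓ : ℝ => (T + ε) * s₂ * (ℓ ^ 1 * Real.exp (-ℓ))) atTop (𝓝 0) := by
    have := (Real.tendsto_pow_mul_exp_neg_atTop_nhds_zero 1).const_mul ((T + ε) * s₂)
    simpa using this
  have ev1 : ∀ᶠ ℓ : ℝ in atTop, (T + ε) * s₂ * (ℓ ^ 1 * Real.exp (-ℓ)) < 1 / 2 :=
    lim1.eventually (gt_mem_nhds (by norm_num))
  filter_upwards [ev1, eventually_ge_atTop (1 : ℝ), eventually_ge_atTop ((2 / c1) ^ 2)]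
    with ℓ hℓ1 hℓ2 hℓ3 w t hw1 hw2 ht
  have hℓ0 : (0 : ℝ) < ℓ := by linarith
  have hs : 0 < Real.sqrt ℓ := Real.sqrt_pos.mpr hℓ0
  have hss : Real.sqrt ℓ * Real.sqrt ℓ = ℓ := Real.mul_self_sqrt hℓ0.le
  have he : 0 < Real.exp ℓ := Real.exp_pos ℓ
  have hw0 : 0 < w := by
    have : 0 < w * Real.exp ℓ := lt_of_lt_of_le (by positivity) hw1
    exact (pos_iff_pos_of_mul_pos this).mpr he
  set Q : ℝ := Real.exp ℓ / Real.sqrt ℓ with hQdef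
  have hQ0 : 0 < Q := by positivity
  have hQs : Q * Real.sqrt ℓ = Real.exp ℓ := by rw [hQdef]; field_simp
  have hQ1 : 1 ≤ Q := by
    rw [hQdef, le_div_iff₀ hs, one_mul]
    calc Real.sqrt ℓ ≤ ℓ := by
          rw [Real.sqrt_le_left hℓ0.le]
          nlinarith
      _ ≤ ℓ + 1 := by linarith
      _ ≤ Real.exp ℓ := Real.add_one_le_exp ℓ
  obtain ⟨q, r, a, b, hr, hrq, hqQ, hdet, hA, hB⟩ := basis hc hα hQ1
  set K : ℕ := ⌊c1 * Real.sqrt ℓ⌋₊ with hK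
  have hK1 : (K : ℝ) ≤ c1 * Real.sqrt ℓ := Nat.floor_le (by positivity)
  have hK2 : c1 * Real.sqrt ℓ / 2 ≤ K := by
    have h1 : c1 * Real.sqrt ℓ < K + 1 := Nat.lt_floor_add_one _
    have h2 : 2 / c1 ≤ Real.sqrt ℓ := Real.le_sqrt_of_sq_le hℓ3
    have h3 : 2 ≤ c1 * Real.sqrt ℓ := by
      rw [div_le_iff₀ hc1] at h2; linarith
    linarith
  have hcore : K * K ≤ #(RZ α f ℓ w t ε) := by
    refine rz_core (c := c) hf hr hrq hqQ hdet hA hB K ?_ ?_ ?_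
    · calc 2 * (f : ℝ) * K * Q ≤ 2 * f * (c1 * Real.sqrt ℓ) * Q := by gcongr
        _ = 2 * f * c1 * (Q * Real.sqrt ℓ) := by ring
        _ = 2 * f * c1 * Real.exp ℓ := by rw [hQs]
        _ = (36 * f * c1) * (Real.exp ℓ / 18) := by ring
        _ ≤ 1 * (Real.exp ℓ / 18) := by gcongr
        _ = _ := one_mul _
    · have h5 : f * K * ((2 + 1 / c) / Q) * Real.exp ℓ ≤ ε * w * Real.exp ℓ := by
        calc (f : ℝ) * K * ((2 + 1 / c) / Q) * Real.exp ℓ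
            ≤ f * (c1 * Real.sqrt ℓ) * ((2 + 1 / c) / Q) * Real.exp ℓ := by gcongr
          _ = f * c1 * (2 + 1 / c) * (Real.sqrt ℓ * (Real.exp ℓ / Q)) := by ring
          _ = f * c1 * (2 + 1 / c) * ℓ := by
              rw [← hQs]
              congr 1
              rw [mul_div_cancel_left₀ _ hQ0.ne']
              exact hss
          _ ≤ ε * s₁ * ℓ := by gcongr
          _ = ε * (s₁ * ℓ) := by ring
          _ ≤ ε * (w * Real.exp ℓ) := by gcongr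
          _ = _ := by ring
      exact le_of_mul_le_mul_right h5 he
    · have h6 : |t * w| ≤ T * w := by
        rw [abs_mul, abs_of_pos hw0]; gcongr
      have h7 : w ≤ s₂ * (ℓ ^ 1 * Real.exp (-ℓ)) := by
        rw [Real.exp_neg, pow_one, ← mul_assoc, ← div_eq_mul_inv, le_div_iff₀ he]
        exact hw2
      calc |t * w| + ε * w ≤ (T + ε) * w := by linarith
        _ ≤ (T + ε) * (s₂ * (ℓ ^ 1 * Real.exp (-ℓ))) := by gcongr
        _ = (T + ε) * s₂ * (ℓ ^ 1 * Real.exp (-ℓ)) := by ring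
        _ < 1 / 2 := hℓ1
  calc c1 ^ 2 / 4 * ℓ = (c1 * Real.sqrt ℓ / 2) * (c1 * Real.sqrt ℓ / 2) := by
        linear_combination (-(c1 ^ 2 / 4)) * hss
    _ ≤ (K : ℝ) * K := by gcongr
    _ ≤ _ := by exact_mod_cast hcore

end Pool.Agent.H47.WS
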