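import Mathlib

/-!
Definitions used in the statement of IsolatedClusters (MP_e95273_nt).
-/

set_option autoImplicit false

namespace Pool.Agent.H47.WS

/-- `y 1 ≤ ... ≤ y N` is an increasing rearrangement of `x 1, ..., x N` -/
def IsRearr (x y : ℕ → ℝ) (N : ℕ) : Prop :=
  (∃ σ : ℕ → ℕ, Set.BijOn σ (Set.Icc 1 N) (Set.Icc 1 N) ∧ ∀ n ∈ Set.Icc 1 N, y n = x (σ n)) ∧
    ∀ i j : ℕ, 1 ≤ i → i ≤ j → j ≤ N → y i ≤ y j

/-- `y j, ..., y (j + r)` is a cluster of width less than `1 / (C N)` with gaps larger than `C / N` on both sides -/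
def Clu (C : ℝ) (N : ℕ) (y : ℕ → ℝ) (j r : ℕ) : Prop :=
  2 ≤ j ∧ j + r + 1 ≤ N ∧ C < N * (y j - y (j - 1)) ∧ N * (y (j + r) - y j) < 1 / C ∧
    C < N * (y (j + r + 1) - y (j + r))

end Pool.Agent.H47.WS
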