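import Pool.Agent.H47.WS.AMeas
import Pool.Agent.H47.WS.StA

/-!
JOB WS-A12. Long and short gaps, from the pattern theorem.
-/

set_option autoImplicit false

open Finset Filter Topology

namespace Pool.Agent.H47.WS

open Pool.Agent.H1.PP

/-- a set of indices which is near every `θ` of a set of positive measure has positive proportion -/
theorem many_near {x : ℕ → ℝ} {N : ℕ} (B : Finset ℕ) {A : Set ℝ} {T c : ℝ} (hT : 0 ≤ T) (hN : 0 < N)
    (hA : ENNReal.ofReal c ≤ MeasureTheory.volume A)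
    (hAB : ∀ θ ∈ A, θ ∈ Set.Ico (0 : ℝ) 1 ∧ ∃ n ∈ B, (N : ℝ) * |sg (θ - x n)| ≤ T) : c * N ≤ 6 * T * #B := by
  have hNr : (0 : ℝ) < N := by exact_mod_cast hN
  have hsub : A ⊆ ⋃ n ∈ B, Jn (x n) (T / N) := by
    intro θ hθ
    obtain ⟨h01, n, hn, hle⟩ := hAB θ hθ
    refine Set.mem_biUnion (Finset.mem_coe.2 hn) ?_
    refine ⟨h01, ?_⟩
    rw [le_div_iff₀ hNr]
    linarith [hle, mul_comm (N : ℝ) |sg (θ - x n)|]
  have h1 : ENNReal.ofReal c ≤ ENNReal.ofReal (#B * (6 * (T / N))) := by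
    calc ENNReal.ofReal c ≤ MeasureTheory.volume A := hA
      _ ≤ MeasureTheory.volume (⋃ n ∈ B, Jn (x n) (T / N)) := MeasureTheory.measure_mono hsub
      _ ≤ ∑ n ∈ B, MeasureTheory.volume (Jn (x n) (T / N)) := MeasureTheory.measure_biUnion_finset_le _ _
      _ ≤ ∑ _n ∈ B, ENNReal.ofReal (6 * (T / N)) :=
          Finset.sum_le_sum fun n _ => Jn_vol_le (x n) (div_nonneg hT hNr.le)
      _ = ENNReal.ofReal (#B * (6 * (T / N))) := by
          rw [Finset.sum_const, nsmul_eq_mul, ENNReal.ofReal_mul (Nat.cast_nonneg _), ENNReal.ofReal_natCast]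
  have h2 : c ≤ #B * (6 * (T / N)) :=
    (ENNReal.ofReal_le_ofReal_iff (by positivity)).1 h1
  have h3 : (#B : ℝ) * (6 * (T / N)) * N = 6 * T * #B := by
    field_simp
  calc c * N ≤ (#B : ℝ) * (6 * (T / N)) * N := mul_le_mul_of_nonneg_right h2 hNr.le
    _ = 6 * T * #B := h3

theorem gap_count {N : ℕ} (B : Finset ℕ) {y : ℕ → ℝ} {A : Set ℝ} {T c : ℝ} (hT : 0 < T) (hN : 0 < N)
    (hNc : 3 * (T / N) ≤ c / 2) (hA01 : A ⊆ Set.Ico 0 1)
    (hA : ENNReal.ofReal c ≤ MeasureTheory.volume A)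
    (hB : ∀ θ ∈ A, T / N ≤ θ → θ ≤ 1 - 2 * (T / N) → ∃ n ∈ B, (N : ℝ) * |sg (θ - y n)| ≤ T) :
    c / 2 * N ≤ 6 * T * #B := by
  have hNr : (0 : ℝ) < N := by exact_mod_cast hN
  have hTN : 0 < T / N := div_pos hT hNr
  set A' : Set ℝ := A ∩ Set.Icc (T / N) (1 - 2 * (T / N)) with hA'
  have hcov : A ⊆ A' ∪ (Set.Ico 0 (T / N) ∪ Set.Ioo (1 - 2 * (T / N)) 1) := by
    intro θ hθ
    have h01 := hA01 hθ
    by_cases h1 : θ < T / N
    · exact Or.inr (Or.inl ⟨h01.1, h1⟩)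
    · by_cases h2 : 1 - 2 * (T / N) < θ
      · exact Or.inr (Or.inr ⟨h2, h01.2⟩)
      · exact Or.inl ⟨hθ, not_lt.1 h1, not_lt.1 h2⟩
  have hv : ENNReal.ofReal c ≤ MeasureTheory.volume A' + ENNReal.ofReal (3 * (T / N)) := by
    calc ENNReal.ofReal c ≤ MeasureTheory.volume A := hA
      _ ≤ MeasureTheory.volume (A' ∪ (Set.Ico 0 (T / N) ∪ Set.Ioo (1 - 2 * (T / N)) 1)) :=
          MeasureTheory.measure_mono hcov
      _ ≤ MeasureTheory.volume A' + MeasureTheory.volume (Set.Ico 0 (T / N) ∪ Set.Ioo (1 - 2 * (T / N)) 1) :=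
          MeasureTheory.measure_union_le _ _
      _ ≤ MeasureTheory.volume A' + (MeasureTheory.volume (Set.Ico 0 (T / N)) +
            MeasureTheory.volume (Set.Ioo (1 - 2 * (T / N)) 1)) := by
          gcongr
          exact MeasureTheory.measure_union_le _ _
      _ = MeasureTheory.volume A' + ENNReal.ofReal (3 * (T / N)) := by
          rw [Real.volume_Ico, Real.volume_Ioo, ← ENNReal.ofReal_add (by linarith) (by linarith)]
          congr 2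
          ring
  have hv' : ENNReal.ofReal (c / 2) ≤ MeasureTheory.volume A' := by
    have h1 : ENNReal.ofReal (c - 3 * (T / N)) ≤ MeasureTheory.volume A' := by
      rw [ENNReal.ofReal_sub _ (by positivity)]
      exact tsub_le_iff_right.2 hv
    exact le_trans (ENNReal.ofReal_le_ofReal (by linarith)) h1
  exact many_near (x := y) B hT.le hN hv' fun θ hθ =>
    ⟨hA01 hθ.1, hB θ hθ.1 hθ.2.1 hθ.2.2⟩

theorem sg_of_abs_lt {v : ℝ} (h : |v| < 1 / 2) : sg v = v := by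
  have h1 := abs_lt.1 h
  have : round v = 0 := by
    rw [round_eq, Int.floor_eq_zero_iff]
    constructor <;> linarith [h1.1, h1.2]
  simp [sg, this]

theorem sub_eq_sg {x θ δ : ℝ} (hx : x ∈ Set.Ico (0 : ℝ) 1) (hδ : 0 < δ) (h1 : δ ≤ θ) (h2 : θ ≤ 1 - 2 * δ)
    (h : |sg (x - θ)| ≤ δ) : x - θ = sg (x - θ) := by
  have hs : sg (x - θ) = x - θ - round (x - θ) := rfl
  obtain ⟨ha, hb⟩ := abs_le.1 h
  have h3 : (-1 : ℝ) < round (x - θ) := by linarith [hx.1, hx.2]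
  have h4 : (round (x - θ) : ℝ) < 1 := by linarith [hx.1, hx.2]
  have h5 : round (x - θ) = 0 := by
    have h6 : (-1 : ℤ) < round (x - θ) := by exact_mod_cast h3
    have h7 : round (x - θ) < (1 : ℤ) := by exact_mod_cast h4
    omega
  rw [hs, h5]
  simp

theorem xs_mem (α : ℝ) (n : ℕ) : xs α n ∈ Set.Ico (0 : ℝ) 1 := ⟨Int.fract_nonneg _, Int.fract_lt_one _⟩

theorem point_of {α T θ : ℝ} {N n : ℕ} (hT : 0 < T) (hN : 0 < N) (h1 : T / N ≤ θ) (h2 : θ ≤ 1 - 2 * (T / N))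
    (h : |(N : ℝ) * sg (xs α n - θ)| ≤ T) : (N : ℝ) * (xs α n - θ) = N * sg (xs α n - θ) := by
  have hNr : (0 : ℝ) < N := by exact_mod_cast hN
  have h3 : |sg (xs α n - θ)| ≤ T / N := by
    rw [le_div_iff₀ hNr]
    rw [abs_mul, abs_of_pos hNr] at h
    linarith [mul_comm (N : ℝ) |sg (xs α n - θ)|]
  rw [← sub_eq_sg (xs_mem α n) (div_pos hT hNr) h1 h2 h3]

theorem near_of {T θ x : ℝ} {N : ℕ} (hN : 0 < N) (hTN : T / N < 1 / 2) (h : |(N : ℝ) * (x - θ)| ≤ T) :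
    (N : ℝ) * |sg (θ - x)| ≤ T ∧ sg (x - θ) = x - θ := by
  have hNr : (0 : ℝ) < N := by exact_mod_cast hN
  have h3 : |x - θ| ≤ T / N := by
    rw [le_div_iff₀ hNr]
    rw [abs_mul, abs_of_pos hNr] at h
    linarith [mul_comm (N : ℝ) |x - θ|]
  constructor
  · rw [sg_of_abs_lt (v := θ - x) (by rw [abs_sub_comm]; linarith), abs_sub_comm]
    rwa [abs_mul, abs_of_pos hNr] at h
  · exact sg_of_abs_lt (by linarith)

theorem long_near {α C T : ℝ} {k N : ℕ} (hC : 0 < C) (hT : (k : ℝ) + C + 2 ≤ T) (hN : 0 < N)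
    (hTN : T / N < 1 / 2) {y : ℕ → ℝ} (hy : IsRearr (xs α) y N) {θ : ℝ}
    (hP : Pat α N (fun i : Fin k => ((i : ℕ) : ℝ)) T (1 / 4) 1 θ) (h1 : T / N ≤ θ) (h2 : θ ≤ 1 - 2 * (T / N)) :
    ∃ j ∈ (Icc 1 (N - 1)).filter (fun j => C < N * (y (j + 1) - y j)) ∪ {N}, (N : ℝ) * |sg (θ - y j)| ≤ T := by
  have hNr : (0 : ℝ) < N := by exact_mod_cast hN
  have hk0 : (0 : ℝ) ≤ k := Nat.cast_nonneg k
  have hT0 : 0 < T := by linarith
  obtain ⟨I, g, hI, hg, hno⟩ := hP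
  have hIne : I.Nonempty := Finset.card_pos.1 (by omega)
  set i0 := I.max' hIne with hi0
  have hi0I : i0 ∈ I := I.max'_mem hIne
  obtain ⟨hg0, hz⟩ := hg i0 hi0I
  simp only at hz
  have hi0k : ((i0 : ℕ) : ℝ) ≤ k - 1 := by
    have : (i0 : ℕ) + 1 ≤ k := i0.2
    have : ((i0 : ℕ) : ℝ) + 1 ≤ k := by exact_mod_cast this
    linarith
  have hi00 : (0 : ℝ) ≤ ((i0 : ℕ) : ℝ) := Nat.cast_nonneg _
  obtain ⟨hz1, hz2⟩ := abs_le.1 hz
  have hzT : |(N : ℝ) * sg (xs α (g i0) - θ)| ≤ T := abs_le.2 ⟨by linarith, by linarith⟩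
  have hpt := point_of hT0 hN h1 h2 hzT
  obtain ⟨⟨σ, hσ, hyσ⟩, hmono⟩ := hy
  obtain ⟨j, hj, hjσ⟩ := hσ.surjOn (show g i0 ∈ Set.Icc 1 N from ⟨(Finset.mem_Icc.1 hg0).1, (Finset.mem_Icc.1 hg0).2⟩)
  have hyj : y j = xs α (g i0) := by rw [hyσ j hj, hjσ]
  have hnearj : (N : ℝ) * |sg (θ - y j)| ≤ T := by
    rw [hyj]
    exact (near_of hN hTN (by rw [hpt]; exact hzT)).1
  by_cases hjN : j = N
  · refine ⟨N, by simp, ?_⟩
    rw [← hjN] at hnearj ⊢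
    exact hnearj
  have hj1 : 1 ≤ j := hj.1
  have hj2 : j ≤ N := hj.2
  have hj3 : j + 1 ∈ Set.Icc 1 N := ⟨by omega, by omega⟩
  have hne : σ (j + 1) ≠ g i0 := by
    intro he
    have := hσ.injOn hj3 hj (he.trans hjσ.symm)
    omega
  have hyj1 : y (j + 1) = xs α (σ (j + 1)) := hyσ _ hj3
  have hle : y j ≤ y (j + 1) := hmono j (j + 1) hj1 (by omega) hj3.2
  have hbig : T < N * (xs α (σ (j + 1)) - θ) := by
    by_contra hcon
    push Not at hcon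
    have hlow : (N : ℝ) * (xs α (g i0) - θ) ≤ N * (xs α (σ (j + 1)) - θ) := by
      apply mul_le_mul_of_nonneg_left _ hNr.le
      rw [← hyj, ← hyj1]
      linarith
    have habs : |(N : ℝ) * (xs α (σ (j + 1)) - θ)| ≤ T := abs_le.2 ⟨by rw [hpt] at hlow; linarith, hcon⟩
    have hsg := (near_of hN hTN habs).2
    have hσm := hσ.mapsTo hj3
    obtain ⟨i, hi, hgi⟩ := hno (σ (j + 1)) (Finset.mem_Icc.2 ⟨hσm.1, hσm.2⟩) (by rw [hsg]; exact habs)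
    have hile : i ≤ i0 := I.le_max' i hi
    have hine : i ≠ i0 := by
      rintro rfl
      exact hne hgi
    have hilt : i < i0 := lt_of_le_of_ne hile hine
    have hilt' : ((i : ℕ) : ℝ) + 1 ≤ ((i0 : ℕ) : ℝ) := by
      have : (i : ℕ) + 1 ≤ (i0 : ℕ) := hilt
      exact_mod_cast this
    obtain ⟨_, hzi⟩ := hg i hi
    simp only at hzi
    obtain ⟨_, hzi2⟩ := abs_le.1 hzi
    rw [← hgi, hsg] at hzi2
    rw [hpt] at hlow
    linarith
  refine ⟨j, ?_, hnearj⟩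
  rw [Finset.mem_union]
  left
  rw [Finset.mem_filter, Finset.mem_Icc]
  refine ⟨⟨hj1, by omega⟩, ?_⟩
  have : (N : ℝ) * (y (j + 1) - y j) = N * (xs α (σ (j + 1)) - θ) - N * (xs α (g i0) - θ) := by
    rw [hyj, hyj1]
    ring
  rw [this, hpt]
  linarith

theorem short_near {α C T η : ℝ} {k N : ℕ} (hC : 0 < C) (hη : η = 1 / (2 * C * (k + 1))) (hT : k * η + 1 ≤ T)
    (hN : 0 < N) (hTN : T / N < 1 / 2) {y : ℕ → ℝ} (hy : IsRearr (xs α) y N) {θ : ℝ}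
    (hP : Pat α N (fun i : Fin k => ((i : ℕ) : ℝ) * η) T (η / 4) 2 θ) (h1 : T / N ≤ θ)
    (h2 : θ ≤ 1 - 2 * (T / N)) :
    ∃ j ∈ (Icc 1 (N - 1)).filter (fun j => N * (y (j + 1) - y j) < 1 / C), (N : ℝ) * |sg (θ - y j)| ≤ T := by
  have hNr : (0 : ℝ) < N := by exact_mod_cast hN
  have hk0 : (0 : ℝ) ≤ k := Nat.cast_nonneg k
  have hη0 : 0 < η := by rw [hη]; positivity
  have hη1 : (k + 1) * η < 1 / C := by
    rw [hη]
    have : ((k : ℝ) + 1) * (1 / (2 * C * (k + 1))) = 1 / C / 2 := by field_simp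
    rw [this]
    have : 0 < 1 / C := by positivity
    linarith
  have hkη : 0 ≤ k * η := by positivity
  have hT0 : 0 < T := by linarith
  obtain ⟨I, g, hI, hg, hno⟩ := hP
  obtain ⟨a, ha, b, hb, hab⟩ := Finset.one_lt_card.1 (show 1 < #I by omega)
  obtain ⟨i0, hi0, i1, hi1, hlt⟩ : ∃ i0 ∈ I, ∃ i1 ∈ I, i0 < i1 := by
    rcases lt_or_gt_of_ne hab with h | h
    · exact ⟨a, ha, b, hb, h⟩
    · exact ⟨b, hb, a, ha, h⟩
  have hlt' : ((i0 : ℕ) : ℝ) + 1 ≤ ((i1 : ℕ) : ℝ) := by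
    have : (i0 : ℕ) + 1 ≤ (i1 : ℕ) := hlt
    exact_mod_cast this
  have hi1k : ((i1 : ℕ) : ℝ) + 1 ≤ k := by
    have : (i1 : ℕ) + 1 ≤ k := i1.2
    exact_mod_cast this
  have hi00 : (0 : ℝ) ≤ ((i0 : ℕ) : ℝ) := Nat.cast_nonneg _
  obtain ⟨hg0, hz0⟩ := hg i0 hi0
  obtain ⟨hg1, hz1⟩ := hg i1 hi1
  simp only at hz0 hz1
  obtain ⟨hz01, hz02⟩ := abs_le.1 hz0
  obtain ⟨hz11, hz12⟩ := abs_le.1 hz1
  have e1 : 0 ≤ ((i0 : ℕ) : ℝ) * η := by positivity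
  have e2 : (((i0 : ℕ) : ℝ) + 1) * η ≤ ((i1 : ℕ) : ℝ) * η := mul_le_mul_of_nonneg_right hlt' hη0.le
  have e3 : (((i1 : ℕ) : ℝ) + 1) * η ≤ k * η := mul_le_mul_of_nonneg_right hi1k hη0.le
  have hzT0 : |(N : ℝ) * sg (xs α (g i0) - θ)| ≤ T := abs_le.2 ⟨by nlinarith, by nlinarith⟩
  have hzT1 : |(N : ℝ) * sg (xs α (g i1) - θ)| ≤ T := abs_le.2 ⟨by nlinarith, by nlinarith⟩
  have hpt0 := point_of hT0 hN h1 h2 hzT0
  have hpt1 := point_of hT0 hN h1 h2 hzT1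
  obtain ⟨⟨σ, hσ, hyσ⟩, hmono⟩ := hy
  obtain ⟨j, hj, hjσ⟩ := hσ.surjOn (show g i0 ∈ Set.Icc 1 N from ⟨(Finset.mem_Icc.1 hg0).1, (Finset.mem_Icc.1 hg0).2⟩)
  obtain ⟨j', hj', hjσ'⟩ := hσ.surjOn
    (show g i1 ∈ Set.Icc 1 N from ⟨(Finset.mem_Icc.1 hg1).1, (Finset.mem_Icc.1 hg1).2⟩)
  have hyj : y j = xs α (g i0) := by rw [hyσ j hj, hjσ]
  have hyj' : y j' = xs α (g i1) := by rw [hyσ j' hj', hjσ']
  have hdiff : (N : ℝ) * (y j' - y j) = N * sg (xs α (g i1) - θ) - N * sg (xs α (g i0) - θ) := by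
    rw [← hpt0, ← hpt1, hyj, hyj']
    ring
  have hpos : 0 < (N : ℝ) * (y j' - y j) := by
    rw [hdiff]
    nlinarith
  have hsmall : (N : ℝ) * (y j' - y j) < 1 / C := by
    rw [hdiff]
    nlinarith
  have hjj : j < j' := by
    by_contra hcon
    push Not at hcon
    have := hmono j' j hj'.1 hcon hj.2
    have : (N : ℝ) * (y j' - y j) ≤ 0 := mul_nonpos_of_nonneg_of_nonpos hNr.le (by linarith)
    linarith
  have hjN : j + 1 ≤ N := le_trans hjj hj'.2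
  refine ⟨j, ?_, ?_⟩
  · rw [Finset.mem_filter, Finset.mem_Icc]
    refine ⟨⟨hj.1, by omega⟩, lt_of_le_of_lt ?_ hsmall⟩
    have := hmono (j + 1) j' (by omega) hjj hj'.2
    exact mul_le_mul_of_nonneg_left (by linarith) hNr.le
  · rw [hyj]
    exact (near_of hN hTN (by rw [hpt0]; exact hzT0)).1

theorem long_count {α : ℝ} {k : ℕ} (h : PatThm α 1 k) {C : ℝ} (hC : 0 < C) :
    ∃ c : ℝ, 0 < c ∧ ∀ᶠ N : ℕ in atTop, ∀ y : ℕ → ℝ, IsRearr (xs α) y N →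
      c * N ≤ #((Icc 1 (N - 1)).filter (fun j => C < N * (y (j + 1) - y j))) := by
  set T : ℝ := k + C + 2 with hTdef
  have hk0 : (0 : ℝ) ≤ k := Nat.cast_nonneg k
  have hT0 : 0 < T := by linarith
  obtain ⟨c, hc, hev⟩ := h T (1 / 4) (fun i : Fin k => ((i : ℕ) : ℝ)) (by norm_num)
    (by
      intro i j hij
      have hne : (i : ℕ) ≠ (j : ℕ) := fun he => hij (Fin.ext he)
      have h1 : (1 : ℝ) ≤ |((i : ℕ) : ℝ) - ((j : ℕ) : ℝ)| := by
        have : (1 : ℤ) ≤ |((i : ℕ) : ℤ) - ((j : ℕ) : ℤ)| := Int.one_le_abs (by omega)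
        exact_mod_cast this
      linarith)
    (by
      intro i
      have : (i : ℕ) + 1 ≤ k := i.2
      have h1 : ((i : ℕ) : ℝ) + 1 ≤ k := by exact_mod_cast this
      have h2 : (0 : ℝ) ≤ ((i : ℕ) : ℝ) := Nat.cast_nonneg _
      rw [abs_of_nonneg h2]
      linarith)
  refine ⟨c / (24 * T), by positivity, ?_⟩
  have hbig : ∀ᶠ N : ℕ in atTop, 24 * T / c + 6 * T / c + 2 * T + 1 ≤ (N : ℝ) :=
    tendsto_natCast_atTop_atTop.eventually_ge_atTop _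
  filter_upwards [hev, hbig] with N hN hNbig y hy
  obtain ⟨A, _, hA01, hAv, hAP⟩ := hN
  have hp1 : 0 ≤ 24 * T / c := by positivity
  have hp2 : 0 ≤ 6 * T / c := by positivity
  have hNr : (0 : ℝ) < N := by linarith
  have hN0 : 0 < N := by exact_mod_cast hNr
  have hTN : T / N < 1 / 2 := by
    rw [div_lt_iff₀ hNr]
    linarith
  have hNc : 3 * (T / N) ≤ c / 2 := by
    have h1 : 6 * T / c ≤ N := by linarith
    rw [div_le_iff₀ hc] at h1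
    rw [mul_div_assoc', div_le_iff₀ hNr]
    linarith
  have hcount := gap_count
    ((Icc 1 (N - 1)).filter (fun j => C < N * (y (j + 1) - y j)) ∪ {N}) (y := y) hT0 hN0 hNc hA01 hAv
    (fun θ hθ h1 h2 => long_near hC le_rfl hN0 hTN hy (hAP θ hθ) h1 h2)
  have hcard : (#((Icc 1 (N - 1)).filter (fun j => C < N * (y (j + 1) - y j)) ∪ {N}) : ℝ) ≤
      #((Icc 1 (N - 1)).filter (fun j => C < N * (y (j + 1) - y j))) + 1 := by
    have := Finset.card_union_le ((Icc 1 (N - 1)).filter (fun j => C < N * (y (j + 1) - y j))) {N}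
    rw [Finset.card_singleton] at this
    exact_mod_cast this
  have h24 : 24 * T ≤ c * N := by
    have h1 : 24 * T / c ≤ N := by linarith
    rw [div_le_iff₀ hc] at h1
    linarith
  have h3 : c / 2 * N ≤ 6 * T * (#((Icc 1 (N - 1)).filter (fun j => C < N * (y (j + 1) - y j))) + 1) :=
    le_trans hcount (mul_le_mul_of_nonneg_left hcard (by positivity))
  rw [div_mul_eq_mul_div, div_le_iff₀ (by positivity)]
  nlinarith

theorem short_count {α : ℝ} {k : ℕ} (h : PatThm α 2 k) {C : ℝ} (hC : 0 < C) :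
    ∃ c : ℝ, 0 < c ∧ ∀ᶠ N : ℕ in atTop, ∀ y : ℕ → ℝ, IsRearr (xs α) y N →
      c * N ≤ #((Icc 1 (N - 1)).filter (fun j => N * (y (j + 1) - y j) < 1 / C)) := by
  set η : ℝ := 1 / (2 * C * (k + 1)) with hη
  have hk0 : (0 : ℝ) ≤ k := Nat.cast_nonneg k
  have hη0 : 0 < η := by rw [hη]; positivity
  set T : ℝ := k * η + 1 with hTdef
  have hT0 : 0 < T := by positivity
  obtain ⟨c, hc, hev⟩ := h T (η / 4) (fun i : Fin k => ((i : ℕ) : ℝ) * η) (by positivity)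
    (by
      intro i j hij
      have hne : (i : ℕ) ≠ (j : ℕ) := fun he => hij (Fin.ext he)
      have h1 : (1 : ℝ) ≤ |((i : ℕ) : ℝ) - ((j : ℕ) : ℝ)| := by
        have : (1 : ℤ) ≤ |((i : ℕ) : ℤ) - ((j : ℕ) : ℤ)| := Int.one_le_abs (by omega)
        exact_mod_cast this
      rw [← sub_mul, abs_mul, abs_of_pos hη0]
      nlinarith)
    (by
      intro i
      have : (i : ℕ) + 1 ≤ k := i.2
      have h1 : ((i : ℕ) : ℝ) + 1 ≤ k := by exact_mod_cast this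
      have h2 : (0 : ℝ) ≤ ((i : ℕ) : ℝ) := Nat.cast_nonneg _
      rw [abs_of_nonneg (by positivity)]
      nlinarith)
  refine ⟨c / (12 * T), by positivity, ?_⟩
  have hbig : ∀ᶠ N : ℕ in atTop, 6 * T / c + 2 * T + 1 ≤ (N : ℝ) :=
    tendsto_natCast_atTop_atTop.eventually_ge_atTop _
  filter_upwards [hev, hbig] with N hN hNbig y hy
  obtain ⟨A, _, hA01, hAv, hAP⟩ := hN
  have hp2 : 0 ≤ 6 * T / c := by positivity
  have hNr : (0 : ℝ) < N := by linarith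
  have hN0 : 0 < N := by exact_mod_cast hNr
  have hTN : T / N < 1 / 2 := by
    rw [div_lt_iff₀ hNr]
    linarith
  have hNc : 3 * (T / N) ≤ c / 2 := by
    have h1 : 6 * T / c ≤ N := by linarith
    rw [div_le_iff₀ hc] at h1
    rw [mul_div_assoc', div_le_iff₀ hNr]
    linarith
  have hcount := gap_count
    ((Icc 1 (N - 1)).filter (fun j => N * (y (j + 1) - y j) < 1 / C)) (y := y) hT0 hN0 hNc hA01 hAv
    (fun θ hθ h1 h2 => short_near hC hη le_rfl hN0 hTN hy (hAP θ hθ) h1 h2)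
  rw [div_mul_eq_mul_div, div_le_iff₀ (by positivity)]
  linarith

theorem ncard_eq_filter (N : ℕ) (p : ℕ → Prop) [DecidablePred p] :
    Set.ncard {n : ℕ | 1 ≤ n ∧ n ≤ N - 1 ∧ p n} = #((Icc 1 (N - 1)).filter p) := by
  rw [← Set.ncard_coe_finset]
  congr 1
  ext n
  simp [and_assoc]

theorem gaps_of_pat {α : ℝ} (h : ∀ m : ℕ, 1 ≤ m → ∃ k : ℕ, m ≤ k ∧ PatThm α m k) {C : ℝ} (hC : 0 < C) :
    ∃ c : ℝ, 0 < c ∧ ∀ᶠ N : ℕ in atTop, ∀ y : ℕ → ℝ, IsRearr (xs α) y N →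
      c * N ≤ (Set.ncard {n : ℕ | 1 ≤ n ∧ n ≤ N - 1 ∧ C < N * (y (n + 1) - y n)} : ℝ) ∧
      c * N ≤ (Set.ncard {n : ℕ | 1 ≤ n ∧ n ≤ N - 1 ∧ N * (y (n + 1) - y n) < 1 / C} : ℝ) := by
  obtain ⟨k1, _, hp1⟩ := h 1 le_rfl
  obtain ⟨k2, _, hp2⟩ := h 2 (by norm_num)
  obtain ⟨c1, hc1, h1⟩ := long_count hp1 hC
  obtain ⟨c2, hc2, h2⟩ := short_count hp2 hC
  refine ⟨min c1 c2, lt_min hc1 hc2, ?_⟩
  filter_upwards [h1, h2] with N hN1 hN2 y hy
  have hN0 : (0 : ℝ) ≤ N := Nat.cast_nonneg N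
  rw [ncard_eq_filter, ncard_eq_filter]
  exact ⟨le_trans (mul_le_mul_of_nonneg_right (min_le_left _ _) hN0) (hN1 y hy),
    le_trans (mul_le_mul_of_nonneg_right (min_le_right _ _) hN0) (hN2 y hy)⟩

end Pool.Agent.H47.WS
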