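import Pool.Agent.H47.WS.ADefs

/-!
JOB WS-A5. Labels: from a window of integers to a window of natural numbers.
-/

set_option autoImplicit false

open Finset Filter Topology

namespace Pool.Agent.H47.WS

open Pool.Agent.H16 Pool.Agent.H81.AS

theorem lab_nonneg (M : ℕ) {h : ℤ} (hh : 0 ≤ h) : (lab M h : ℤ) = h := by
  unfold lab
  rw [if_pos hh, Int.toNat_of_nonneg hh]

theorem lab_neg (M : ℕ) {h : ℤ} (hh : h < 0) (hM : -h ≤ M) : (lab M h : ℤ) = h + M := by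
  unfold lab
  rw [if_neg (not_le.2 hh), Int.toNat_of_nonneg (by linarith)]

/-- labels are congruent to the integers modulo the divisors of `M` -/
theorem lab_sub_dvd {M : ℕ} {h : ℤ} (hM : -h ≤ M) {p : ℕ} (hp : p ∣ M) :
    (p : ℤ) ∣ (lab M h : ℤ) - h := by
  rcases lt_or_ge h 0 with hh | hh
  · rw [lab_neg M hh hM, add_sub_cancel_left]
    exact_mod_cast hp
  · rw [lab_nonneg M hh, sub_self]
    exact dvd_zero _

theorem lab_dvd_iff {M : ℕ} {h : ℤ} (hM : -h ≤ M) {p : ℕ} (hp : p ∣ M) (n : ℕ) :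
    p ∣ n + lab M h ↔ (p : ℤ) ∣ (n : ℤ) + h := by
  rw [← Int.natCast_dvd_natCast]
  push_cast
  have e : (n : ℤ) + lab M h = ((n : ℤ) + h) + ((lab M h : ℤ) - h) := by ring
  rw [e]
  exact dvd_add_left (lab_sub_dvd hM hp)

theorem ev_lab : ∀ᶠ ℓ : ℝ in atTop, (zf ℓ : ℝ) ≤ Real.exp ℓ ∧ 10 ≤ ℓ ∧ 1 ≤ Real.log ℓ := by
  filter_upwards [ev_z, eventually_ge_atTop (10 : ℝ),
    Real.tendsto_log_atTop.eventually (eventually_ge_atTop (1 : ℝ))] with ℓ hz h1 h2
  obtain ⟨z1, z2, z3, z4, z5, z6⟩ := hz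
  refine ⟨?_, h1, h2⟩
  have h3 : (1 : ℝ) ≤ Real.log ℓ ^ 3 := one_le_pow₀ h2
  have h4 : ℓ / Real.log ℓ ^ 3 ≤ ℓ := div_le_self (by linarith) h3
  have h5 := Real.add_one_le_exp ℓ
  linarith

theorem win_lab {lam : ℝ} (hlam : 0 < lam) : ∀ᶠ ℓ : ℝ in atTop, ∀ G : Finset ℤ, WinZ lam ℓ G → ∀ M : ℕ,
    (∀ p : ℕ, p.Prime → (p : ℝ) ≤ Real.exp ℓ → p ∣ M) → 6 * Real.exp ℓ < M → Win lam ℓ (G.image (lab M)) := by
  filter_upwards [ev_lab] with ℓ hl G hG M hM hM6
  obtain ⟨hzf, hl10, hlog⟩ := hl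
  have hexp0 : 0 < Real.exp ℓ := Real.exp_pos ℓ
  have hexp10 : 10 ≤ Real.exp ℓ := by
    have := Real.add_one_le_exp ℓ
    linarith
  have hlt : ∀ h ∈ G, -h ≤ (M : ℤ) := by
    intro h hh
    have h1 := hG.small h hh
    have h2 := neg_le_abs (h : ℝ)
    have h3 : (-(h : ℝ)) ≤ (M : ℝ) := by linarith
    exact_mod_cast h3
  refine ⟨?_, ?_, ?_, ?_⟩
  · have h1 : (#(G.image (lab M)) : ℝ) ≤ #G := by exact_mod_cast card_image_le
    exact h1.trans hG.card
  · intro e ν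
    classical
    have hsub : (G.image (lab M)).filter (fun h => Nat.Coprime (ν + h) (WW ℓ e)) ⊆
        (G.filter (fun h => ∀ p ∈ (Nat.primesLE (zf ℓ)).erase e,
          ¬ (p : ℤ) ∣ (ν : ℤ) + h)).image (lab M) := by
      intro x hx
      rw [mem_filter, mem_image] at hx
      obtain ⟨⟨h, hh, rfl⟩, hc⟩ := hx
      rw [mem_image]
      refine ⟨h, mem_filter.2 ⟨hh, ?_⟩, rfl⟩
      intro p hp hdvd
      have hpm := (mem_erase.1 hp).2
      have hpp : p.Prime := (Nat.mem_primesLE.1 hpm).2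
      have hple : p ≤ zf ℓ := (Nat.mem_primesLE.1 hpm).1
      have hpe : (p : ℝ) ≤ Real.exp ℓ := le_trans (by exact_mod_cast hple) hzf
      have h1 : p ∣ ν + lab M h := (lab_dvd_iff (hlt h hh) (hM p hpp hpe) ν).2 hdvd
      have h2 : p ∣ WW ℓ e := dvd_prod_of_mem (fun q => q) hp
      exact hpp.one_lt.ne' (Nat.dvd_one.1 (hc ▸ Nat.dvd_gcd h1 h2))
    have h1 := (card_le_card hsub).trans card_image_le
    have h2 : (#((G.image (lab M)).filter (fun h => Nat.Coprime (ν + h) (WW ℓ e))) : ℝ) ≤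
        (#(G.filter (fun h => ∀ p ∈ (Nat.primesLE (zf ℓ)).erase e,
          ¬ (p : ℤ) ∣ (ν : ℤ) + h)) : ℝ) := by exact_mod_cast h1
    exact h2.trans (hG.sieve e ν)
  · intro h₁ hh₁ h₂ hh₂ hlt12
    obtain ⟨a, ha, rfl⟩ := mem_image.1 hh₁
    obtain ⟨b, hb, rfl⟩ := mem_image.1 hh₂
    set s := (primesIoc ⌊ℓ⌋₊ ⌊Real.exp ℓ⌋₊).filter (fun p => p ∣ lab M b - lab M a) with hs
    have hab : b - a ≠ 0 := by
      intro h0
      have : b = a := by linarith
      rw [this] at hlt12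
      exact lt_irrefl _ hlt12
    set d := (b - a).natAbs with hd
    have hd0 : d ≠ 0 := Int.natAbs_ne_zero.2 hab
    have hdle : (d : ℝ) ≤ 6 * Real.exp ℓ := by
      have h1 := hG.small a ha
      have h2 := hG.small b hb
      have h3 : (d : ℝ) = |((b - a : ℤ) : ℝ)| := by
        rw [hd, Nat.cast_natAbs, Int.cast_abs]
      rw [h3]
      push_cast
      have h4 := abs_sub (b : ℝ) (a : ℝ)
      linarith
    have hmem : ∀ p ∈ s, p ∈ d.primeFactors ∧ ℓ ≤ (p : ℝ) := by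
      intro p hp
      rw [hs, mem_filter, mem_primesIoc] at hp
      obtain ⟨⟨h1, h2, hpp⟩, h3⟩ := hp
      have hpe : (p : ℝ) ≤ Real.exp ℓ :=
        le_trans (by exact_mod_cast h2) (Nat.floor_le hexp0.le)
      have hpM := hM p hpp hpe
      have h4 : (p : ℤ) ∣ (lab M b : ℤ) - lab M a := by
        have := Int.natCast_dvd_natCast.2 h3
        rwa [Nat.cast_sub hlt12.le] at this
      have h5 := lab_sub_dvd (hlt b hb) hpM
      have h6 := lab_sub_dvd (hlt a ha) hpM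
      have h7 : (p : ℤ) ∣ b - a := by
        have e : b - a = ((lab M b : ℤ) - lab M a) - ((lab M b : ℤ) - b) + ((lab M a : ℤ) - a) := by
          ring
        rw [e]
        exact dvd_add (dvd_sub h4 h5) h6
      refine ⟨Nat.mem_primeFactors.2 ⟨hpp, Int.natCast_dvd.1 h7, hd0⟩, ?_⟩
      have h8 := Nat.lt_floor_add_one ℓ
      have h9 : ((⌊ℓ⌋₊ : ℝ) + 1) ≤ p := by exact_mod_cast h1
      linarith
    have hprod : (∏ p ∈ s, (p : ℝ)) ≤ 6 * Real.exp ℓ := by
      have h1 : ∏ p ∈ s, p ∣ d :=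
        (prod_dvd_prod_of_subset _ _ _ (fun p hp => (hmem p hp).1)).trans
          (Nat.prod_primeFactors_dvd d)
      have h2 := Nat.le_of_dvd (Nat.pos_of_ne_zero hd0) h1
      have h3 : ((∏ p ∈ s, p : ℕ) : ℝ) ≤ d := by exact_mod_cast h2
      push_cast at h3
      exact h3.trans hdle
    have hpow : ℓ ^ #s ≤ ∏ p ∈ s, (p : ℝ) := by
      rw [← prod_const]
      exact prod_le_prod (fun p _ => by linarith) (fun p hp => (hmem p hp).2)
    have h1 : (#s : ℝ) * Real.log ℓ ≤ Real.log 6 + ℓ := by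
      have h2 := Real.log_le_log (by positivity) (hpow.trans hprod)
      rwa [Real.log_pow, Real.log_mul (by norm_num) hexp0.ne', Real.log_exp] at h2
    have h6 : Real.log 6 ≤ 6 - 1 := Real.log_le_sub_one_of_pos (by norm_num)
    have h7 : (#s : ℝ) ≤ 2 * ℓ / Real.log ℓ := by
      rw [le_div_iff₀ (by linarith)]
      linarith
    have h8 : 2 * ℓ / Real.log ℓ = 2 * (ℓ / Real.log ℓ) := by ring
    have h9 : 0 ≤ ℓ / Real.log ℓ := by positivity
    show (#s : ℝ) ≤ 4 * (ℓ / Real.log ℓ)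
    linarith
  · intro n hn h hh
    obtain ⟨a, ha, rfl⟩ := mem_image.1 hh
    rw [mem_Ioc] at hn
    refine ⟨((n : ℤ) + a).natAbs, ?_, ?_⟩
    · have h1 : (n : ℝ) ≤ Real.exp ℓ := le_trans (by exact_mod_cast hn.2) (Nat.floor_le hexp0.le)
      have h2 := hG.small a ha
      have h3 : ((((n : ℤ) + a).natAbs : ℕ) : ℝ) = |(n : ℝ) + a| := by
        rw [Nat.cast_natAbs, Int.cast_abs]
        push_cast
        rfl
      rw [h3]
      have h4 := abs_add_le (n : ℝ) (a : ℝ)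
      have h5 : |(n : ℝ)| = n := abs_of_nonneg (Nat.cast_nonneg n)
      have h6 : Real.exp (2 * ℓ) = Real.exp ℓ * Real.exp ℓ := by
        rw [← Real.exp_add]
        congr 1
        ring
      rw [h6]
      nlinarith
    · intro q hq hqe
      rw [lab_dvd_iff (hlt a ha) (hM q hq hqe) n]
      exact Int.natCast_dvd

end Pool.Agent.H47.WS
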