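import Pool.Agent.H47.WS.ABasis

/-!
JOB WS-A8. Measure facts.
-/

set_option autoImplicit false

open Finset Filter Topology

namespace Pool.Agent.H47.WS

theorem Jn_meas (x δ : ℝ) : MeasurableSet (Jn x δ) := by
  have hr : Measurable (fun y : ℝ => round y) := by
    have : (fun y : ℝ => round y) = fun y : ℝ => ⌊y + 1 / 2⌋ := by
      funext y
      exact round_eq y
    rw [this]
    exact Int.measurable_floor.comp (measurable_id.add_const _)
  have hs : Measurable (fun y : ℝ => |sg (y - x)|) := by
    have h1 : Measurable (fun y : ℝ => sg y) := by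
      unfold sg
      exact measurable_id.sub ((measurable_of_countable (fun n : ℤ => (n : ℝ))).comp hr)
    exact (continuous_abs.measurable).comp (h1.comp (measurable_id.sub_const x))
  have : Jn x δ = Set.Ico (0 : ℝ) 1 ∩ {θ | |sg (θ - x)| ≤ δ} := by
    ext θ
    rfl
  rw [this]
  exact measurableSet_Ico.inter (measurableSet_le hs measurable_const)

theorem Jn_vol_ge (x : ℝ) {δ : ℝ} (h0 : 0 ≤ δ) (h1 : δ ≤ 1 / 2) :
    ENNReal.ofReal δ ≤ MeasureTheory.volume (Jn x δ) := by
  have hf0 := Int.fract_nonneg x
  have hf1 := Int.fract_lt_one x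
  have hx : x = Int.fract x + ⌊x⌋ := (Int.fract_add_floor x).symm
  have key : ∀ θ : ℝ, |θ - Int.fract x| ≤ δ → |sg (θ - x)| ≤ δ := by
    intro θ hθ
    have h2 := abs_sg_le (θ - x) (-⌊x⌋)
    have h3 : θ - x - ((-⌊x⌋ : ℤ) : ℝ) = θ - Int.fract x := by
      push_cast
      linarith
    rw [h3] at h2
    exact h2.trans hθ
  by_cases hc : Int.fract x + δ < 1
  · have hsub : Set.Icc (Int.fract x) (Int.fract x + δ) ⊆ Jn x δ := by
      intro θ hθ
      refine ⟨⟨hf0.trans hθ.1, lt_of_le_of_lt hθ.2 hc⟩, key θ ?_⟩
      rw [abs_le]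
      constructor <;> linarith [hθ.1, hθ.2]
    calc ENNReal.ofReal δ = MeasureTheory.volume (Set.Icc (Int.fract x) (Int.fract x + δ)) := by
          rw [Real.volume_Icc]
          congr 1
          ring
      _ ≤ _ := MeasureTheory.measure_mono hsub
  · have hsub : Set.Icc (Int.fract x - δ) (Int.fract x) ⊆ Jn x δ := by
      intro θ hθ
      refine ⟨⟨by linarith [hθ.1], lt_of_le_of_lt hθ.2 hf1⟩, key θ ?_⟩
      rw [abs_le]
      constructor <;> linarith [hθ.1, hθ.2]
    calc ENNReal.ofReal δ = MeasureTheory.volume (Set.Icc (Int.fract x - δ) (Int.fract x)) := by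
          rw [Real.volume_Icc]
          congr 1
          ring
      _ ≤ _ := MeasureTheory.measure_mono hsub

theorem Jn_vol_le (x : ℝ) {δ : ℝ} (h0 : 0 ≤ δ) : MeasureTheory.volume (Jn x δ) ≤ ENNReal.ofReal (6 * δ) := by
  have hf0 := Int.fract_nonneg x
  have hf1 := Int.fract_lt_one x
  have hx : x = Int.fract x + ⌊x⌋ := (Int.fract_add_floor x).symm
  by_cases hd : 1 / 2 ≤ δ
  · calc MeasureTheory.volume (Jn x δ) ≤ MeasureTheory.volume (Set.Ico (0 : ℝ) 1) :=
          MeasureTheory.measure_mono (fun θ hθ => hθ.1)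
      _ = ENNReal.ofReal 1 := by rw [Real.volume_Ico]; norm_num
      _ ≤ _ := ENNReal.ofReal_le_ofReal (by linarith)
  · push Not at hd
    have hsub : Jn x δ ⊆ Set.Icc (Int.fract x - 1 - δ) (Int.fract x - 1 + δ) ∪
        (Set.Icc (Int.fract x - δ) (Int.fract x + δ) ∪
          Set.Icc (Int.fract x + 1 - δ) (Int.fract x + 1 + δ)) := by
      intro θ hθ
      obtain ⟨⟨ht0, ht1⟩, hs⟩ := hθ
      set g : ℤ := round (θ - x) + ⌊x⌋ with hg
      have hs' : |θ - Int.fract x - g| ≤ δ := by
        have : sg (θ - x) = θ - Int.fract x - g := by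
          unfold sg
          rw [hg]
          push_cast
          linarith
        rw [← this]
        exact hs
      rw [abs_le] at hs'
      have hg1 : (g : ℝ) < 2 := by linarith [hs'.1, hs'.2]
      have hg2 : (-2 : ℝ) < g := by linarith [hs'.1, hs'.2]
      have hg1' : g < 2 := by exact_mod_cast hg1
      have hg2' : -2 < g := by exact_mod_cast hg2
      have hcase : g = -1 ∨ g = 0 ∨ g = 1 := by omega
      rcases hcase with h | h | h
      · left
        rw [h] at hs'
        push_cast at hs'
        constructor <;> linarith [hs'.1, hs'.2]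
      · right; left
        rw [h] at hs'
        push_cast at hs'
        constructor <;> linarith [hs'.1, hs'.2]
      · right; right
        rw [h] at hs'
        push_cast at hs'
        constructor <;> linarith [hs'.1, hs'.2]
    calc MeasureTheory.volume (Jn x δ) ≤ _ := MeasureTheory.measure_mono hsub
      _ ≤ MeasureTheory.volume (Set.Icc (Int.fract x - 1 - δ) (Int.fract x - 1 + δ)) +
          (MeasureTheory.volume (Set.Icc (Int.fract x - δ) (Int.fract x + δ)) +
          MeasureTheory.volume (Set.Icc (Int.fract x + 1 - δ) (Int.fract x + 1 + δ))) :=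
          (MeasureTheory.measure_union_le _ _).trans
            (add_le_add le_rfl (MeasureTheory.measure_union_le _ _))
      _ = ENNReal.ofReal (2 * δ) + (ENNReal.ofReal (2 * δ) + ENNReal.ofReal (2 * δ)) := by
          rw [Real.volume_Icc, Real.volume_Icc, Real.volume_Icc]
          congr 2 <;> ring_nf
      _ = ENNReal.ofReal (6 * δ) := by
          rw [← ENNReal.ofReal_add (by linarith) (by linarith),
            ← ENNReal.ofReal_add (by linarith) (by linarith)]
          congr 1
          ring

/-- a union of sets with bounded overlap -/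
theorem vol_union {ι : Type*} (G : Finset ι) (J : ι → Set ℝ) (hJ : ∀ n ∈ G, MeasurableSet (J n)) {M : ℕ}
    {v : ℝ} (hv : ∀ n ∈ G, ENNReal.ofReal v ≤ MeasureTheory.volume (J n))
    (hM : ∀ θ : ℝ, ∀ G' ⊆ G, (∀ n ∈ G', θ ∈ J n) → #G' ≤ M) :
    (#G : ENNReal) * ENNReal.ofReal v ≤ M * MeasureTheory.volume (⋃ n ∈ G, J n) := by
  classical
  have hU : MeasurableSet (⋃ n ∈ G, J n) := Finset.measurableSet_biUnion G hJ
  calc (#G : ENNReal) * ENNReal.ofReal v = ∑ n ∈ G, ENNReal.ofReal v := by
        rw [Finset.sum_const, nsmul_eq_mul]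
    _ ≤ ∑ n ∈ G, MeasureTheory.volume (J n) := Finset.sum_le_sum hv
    _ = ∑ n ∈ G, ∫⁻ θ, (J n).indicator (fun _ => (1 : ENNReal)) θ := by
        refine Finset.sum_congr rfl fun n hn => ?_
        rw [MeasureTheory.lintegral_indicator (hJ n hn)]
        simp
    _ = ∫⁻ θ, ∑ n ∈ G, (J n).indicator (fun _ => (1 : ENNReal)) θ := by
        rw [MeasureTheory.lintegral_finset_sum']
        intro n hn
        exact (measurable_const.indicator (hJ n hn)).aemeasurable
    _ ≤ ∫⁻ θ, (⋃ n ∈ G, J n).indicator (fun _ => (M : ENNReal)) θ := by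
        refine MeasureTheory.lintegral_mono fun θ => ?_
        by_cases hθ : θ ∈ ⋃ n ∈ G, J n
        · rw [Set.indicator_of_mem hθ]
          have h1 : ∑ n ∈ G, (J n).indicator (fun _ => (1 : ENNReal)) θ =
              (#(G.filter (fun n => θ ∈ J n)) : ENNReal) := by
            rw [Finset.card_filter]
            push_cast
            refine Finset.sum_congr rfl fun n _ => ?_
            by_cases h : θ ∈ J n
            · simp [h]
            · simp [h]
          rw [h1]
          have h2 : #(G.filter (fun n => θ ∈ J n)) ≤ M := hM θ (G.filter (fun n => θ ∈ J n))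
            (Finset.filter_subset _ _) (fun n hn => (Finset.mem_filter.mp hn).2)
          exact Nat.cast_le.mpr h2
        · rw [Set.indicator_of_notMem hθ]
          have : ∀ n ∈ G, (J n).indicator (fun _ => (1 : ENNReal)) θ = 0 := by
            intro n hn
            refine Set.indicator_of_notMem (fun h => hθ ?_) _
            exact Set.mem_biUnion hn h
          rw [Finset.sum_eq_zero this]
    _ = M * MeasureTheory.volume (⋃ n ∈ G, J n) := by
        rw [MeasureTheory.lintegral_indicator hU]
        simp

end Pool.Agent.H47.WS
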