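import Pool.Agent.H47.WS.ADefs

/-!
JOB WS-A7. Transversals of disjoint sets.
-/

set_option autoImplicit false

open Finset Filter Topology

namespace Pool.Agent.H47.WS

theorem fam_card {k : ℕ} (R : Fin k → Finset ℕ) (hR : ∀ i j, i ≠ j → Disjoint (R i) (R j)) :
    #(fam R) = ∏ i, #(R i) := by
  unfold fam
  rw [Finset.card_image_of_injOn, Fintype.card_piFinset]
  intro f hf g hg hfg
  have hf' : ∀ i, f i ∈ R i := fun i => (Fintype.mem_piFinset.1 (Finset.mem_coe.1 hf)) i
  have hg' : ∀ i, g i ∈ R i := fun i => (Fintype.mem_piFinset.1 (Finset.mem_coe.1 hg)) i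
  have hfg' : (univ.image f : Finset ℕ) = univ.image g := hfg
  funext i
  have h1 : f i ∈ (univ.image g : Finset ℕ) := by
    rw [← hfg']
    exact Finset.mem_image_of_mem f (Finset.mem_univ i)
  obtain ⟨j, _, hj⟩ := Finset.mem_image.1 h1
  by_cases hij : i = j
  · subst hij
    exact hj.symm
  · exfalso
    have h2 : f i ∈ R j := hj ▸ hg' j
    exact (Finset.disjoint_left.1 (hR i j hij)) (hf' i) h2

theorem fam_mem {k : ℕ} (R : Fin k → Finset ℕ) (hR : ∀ i j, i ≠ j → Disjoint (R i) (R j)) {H : Finset ℕ}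
    (hH : H ∈ fam R) : #H = k ∧ ∃ f : Fin k → ℕ, Function.Injective f ∧ H = univ.image f ∧ ∀ i, f i ∈ R i := by
  unfold fam at hH
  obtain ⟨f, hf, hfH⟩ := Finset.mem_image.1 hH
  have hf' : ∀ i, f i ∈ R i := fun i => (Fintype.mem_piFinset.1 hf) i
  have hinj : Function.Injective f := by
    intro i j hij
    by_contra hne
    have h2 : f i ∈ R j := hij ▸ hf' j
    exact (Finset.disjoint_left.1 (hR i j hne)) (hf' i) h2
  refine ⟨?_, f, hinj, hfH.symm, hf'⟩
  rw [← hfH, Finset.card_image_of_injective _ hinj, Finset.card_univ, Fintype.card_fin]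

end Pool.Agent.H47.WS
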