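import Pool.Agent.H47.WS.ABasis
import Pool.Agent.H47.WS.ASieve

/-!
JOB WS-A4. The integer window hypotheses.
-/

set_option autoImplicit false

open Finset Filter Topology

namespace Pool.Agent.H47.WS

open Pool.Agent.H16 Pool.Agent.H81.AS

/-- the cube of the logarithm is small compared with the square root -/
theorem AWin_log {ε : ℝ} (hε : 0 < ε) : ∀ᶠ ℓ : ℝ in atTop, Real.log ℓ ^ 3 ≤ ε * √ℓ := by
  have h1 : (fun x : ℝ => Real.log (√x) ^ 3) =o[atTop] (fun x : ℝ => √x) :=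
    (Real.isLittleO_pow_log_id_atTop (n := 3)).comp_tendsto Real.tendsto_sqrt_atTop
  filter_upwards [h1.bound (show (0 : ℝ) < ε / 8 by positivity), eventually_ge_atTop (1 : ℝ)] with
    ℓ h2 h3
  have h4 : Real.log ℓ = 2 * Real.log (√ℓ) := by
    rw [Real.log_sqrt (by linarith)]
    ring
  have h5 : 0 ≤ Real.log (√ℓ) := Real.log_nonneg (Real.one_le_sqrt.2 h3)
  rw [Real.norm_of_nonneg (by positivity), Real.norm_of_nonneg (Real.sqrt_nonneg _)] at h2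
  rw [h4]
  nlinarith

/-- the size of the box is at most `zf ℓ` -/
theorem AWin_zf (D : ℝ) (hD : 0 < D) : ∀ᶠ ℓ : ℝ in atTop, D * √ℓ ≤ zf ℓ := by
  filter_upwards [AWin_log (show (0 : ℝ) < 1 / (D + 1) by positivity),
    eventually_ge_atTop (3 : ℝ)] with ℓ h1 h3
  have hl : 1 ≤ Real.log ℓ := by
    rw [Real.le_log_iff_exp_le (by linarith)]
    have := Real.exp_one_lt_d9
    linarith
  have hs : 1 ≤ √ℓ := Real.one_le_sqrt.2 (by linarith)
  have hl3 : 0 < Real.log ℓ ^ 3 := by positivity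
  have h5 : (D + 1) * √ℓ ≤ ℓ / Real.log ℓ ^ 3 := by
    rw [le_div_iff₀ hl3]
    have h6 : (D + 1) * Real.log ℓ ^ 3 ≤ √ℓ := by
      have h7 : (D + 1) * Real.log ℓ ^ 3 ≤ (D + 1) * (1 / (D + 1) * √ℓ) :=
        mul_le_mul_of_nonneg_left h1 (by positivity)
      have h8 : (D + 1) * (1 / (D + 1) * √ℓ) = √ℓ := by
        field_simp
      linarith
    have h9 : √ℓ * √ℓ = ℓ := Real.mul_self_sqrt (by linarith)
    calc (D + 1) * √ℓ * Real.log ℓ ^ 3 = √ℓ * ((D + 1) * Real.log ℓ ^ 3) := by ring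
      _ ≤ √ℓ * √ℓ := mul_le_mul_of_nonneg_left h6 (Real.sqrt_nonneg _)
      _ = ℓ := h9
  have h10 : ℓ / Real.log ℓ ^ 3 < (zf ℓ : ℝ) + 1 := Nat.lt_floor_add_one _
  linarith

theorem winZ_lattice {c α s : ℝ} (hc : 0 < c) (hα : BA c α) (hs : 0 < s) : ∃ lam : ℝ, 0 < lam ∧
    ∀ᶠ ℓ : ℝ in atTop, ∀ (X : ℕ) (w : ℝ), (X : ℝ) ≤ 3 * Real.exp ℓ → w * Real.exp ℓ ≤ s * ℓ →
      WinZ lam ℓ (GZ α X w) := by
  obtain ⟨C, hC0, hC⟩ := box_sieve
  set B0 : ℝ := 3 * (1 + 1 / c) + s with hB0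
  have hc1 : 0 < 1 / c := by positivity
  have hB3 : 3 ≤ B0 := by
    rw [hB0]
    linarith
  refine ⟨9 * B0 ^ 2 + 18 * C * B0 ^ 2, by positivity, ?_⟩
  filter_upwards [AWin_zf (3 * B0) (by linarith), eventually_ge_atTop (3 : ℝ)] with ℓ hz h3 X w hX hw
  have hl : 1 ≤ Real.log ℓ := by
    rw [Real.le_log_iff_exp_le (by linarith)]
    have := Real.exp_one_lt_d9
    linarith
  have hℓ0 : 0 < ℓ := by linarith
  have hs1 : 1 ≤ √ℓ := Real.one_le_sqrt.2 (by linarith)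
  have hs0 : 0 < √ℓ := by linarith
  have hss : √ℓ * √ℓ = ℓ := Real.mul_self_sqrt (by linarith)
  have hsl : √ℓ ≤ ℓ := by nlinarith
  have hE : ℓ ≤ Real.exp ℓ := by
    have := Real.add_one_le_exp ℓ
    linarith
  have hE0 := Real.exp_pos ℓ
  set Q : ℝ := Real.exp ℓ / √ℓ with hQdef
  have hQ1 : 1 ≤ Q := by
    rw [hQdef, le_div_iff₀ hs0]
    linarith
  have hQ0 : 0 < Q := by linarith
  obtain ⟨q, r, a, b, hr1, hrq, hqQ, hdet, hA, hB⟩ := basis hc hα hQ1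
  have hcop : IsCoprime q r := ⟨b, -a, by linarith⟩
  have hrQ : (r : ℝ) ≤ Q := le_trans (by exact_mod_cast hrq) hqQ
  set K0 : ℕ := ⌈B0 * √ℓ⌉₊ with hK0
  set K : ℕ := 2 * K0 + 1 with hK
  have hK0l : B0 * √ℓ ≤ K0 := Nat.le_ceil _
  have hK0u : (K0 : ℝ) < B0 * √ℓ + 1 := Nat.ceil_lt_add_one (by positivity)
  have hKR : (K : ℝ) = 2 * K0 + 1 := by
    rw [hK]
    push_cast
    ring
  have hBs : 3 ≤ B0 * √ℓ := by nlinarith
  have hKu : (K : ℝ) ≤ 3 * B0 * √ℓ := by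
    rw [hKR]
    linarith
  have hKl : √ℓ ≤ (K : ℝ) := by
    rw [hKR]
    nlinarith
  have hK2 : 2 ≤ K := by
    have h1 : (2 : ℝ) ≤ K := by
      rw [hKR]
      linarith
    exact_mod_cast h1
  have hKz : K ≤ zf ℓ := by
    have h1 : (K : ℝ) ≤ zf ℓ := hKu.trans hz
    exact_mod_cast h1
  have hKsq : (K : ℝ) ^ 2 ≤ 9 * B0 ^ 2 * ℓ := by
    have h1 : (K : ℝ) ^ 2 ≤ (3 * B0 * √ℓ) ^ 2 :=
      pow_le_pow_left₀ (Nat.cast_nonneg _) hKu 2
    have h2 : (3 * B0 * √ℓ) ^ 2 = 9 * B0 ^ 2 * (√ℓ * √ℓ) := by ring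
    rw [hss] at h2
    linarith
  have hlogK : Real.log ℓ / 2 ≤ Real.log K := by
    rw [← Real.log_sqrt (by linarith)]
    exact Real.log_le_log hs0 hKl
  -- coordinates
  have hco : ∀ h ∈ GZ α X w, ∃ x ∈ range K ×ˢ range K,
      h = ((x.1 : ℤ) - K0) * q + ((x.2 : ℤ) - K0) * r := by
    intro h hh
    obtain ⟨h1, h2⟩ := Finset.mem_filter.1 hh
    obtain ⟨h4, h5⟩ := Finset.mem_Icc.1 h1
    have hhX : |(h : ℝ)| ≤ 3 * Real.exp ℓ := by
      refine le_trans ?_ hX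
      rw [abs_le]
      constructor
      · exact_mod_cast h4
      · exact_mod_cast h5
    obtain ⟨u, v, huv, hu, hv⟩ := coords (by omega) hrQ (by omega) hqQ hdet hA hB h hhX h2
    have hEQ : Real.exp ℓ / Q = √ℓ := by
      rw [hQdef]
      field_simp
    have hQw : Q * w ≤ s * √ℓ := by
      have e : Q * w = w * Real.exp ℓ / √ℓ := by
        rw [hQdef]
        ring
      rw [e, div_le_iff₀ hs0]
      have e2 : s * √ℓ * √ℓ = s * ℓ := by
        rw [mul_assoc, hss]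
      linarith
    have hu' : |(u : ℝ)| ≤ B0 * √ℓ := by
      refine hu.trans ?_
      have e : 3 * Real.exp ℓ * ((1 + 1 / c) / Q) = 3 * (1 + 1 / c) * (Real.exp ℓ / Q) := by ring
      rw [e, hEQ, hB0]
      linarith
    have hv' : |(v : ℝ)| ≤ B0 * √ℓ := by
      refine hv.trans ?_
      have e : 3 * Real.exp ℓ * (1 / Q) = 3 * (Real.exp ℓ / Q) := by ring
      rw [e, hEQ, hB0]
      nlinarith
    have hu2 : |u| ≤ (K0 : ℤ) := by
      have h6 : |(u : ℝ)| ≤ (K0 : ℝ) := hu'.trans hK0l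
      exact_mod_cast h6
    have hv2 : |v| ≤ (K0 : ℤ) := by
      have h6 : |(v : ℝ)| ≤ (K0 : ℝ) := hv'.trans hK0l
      exact_mod_cast h6
    rw [abs_le] at hu2 hv2
    refine ⟨((u + K0).toNat, (v + K0).toNat), ?_, ?_⟩
    · rw [Finset.mem_product, Finset.mem_range, Finset.mem_range]
      constructor
      · show (u + K0).toNat < K
        omega
      · show (v + K0).toNat < K
        omega
    · show h = (((u + K0).toNat : ℤ) - K0) * q + (((v + K0).toNat : ℤ) - K0) * r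
      rw [Int.toNat_of_nonneg (by omega), Int.toNat_of_nonneg (by omega), huv]
      ring
  refine ⟨?_, ?_, ?_⟩
  · have h1 : GZ α X w ⊆ (range K ×ˢ range K).image
        (fun x => ((x.1 : ℤ) - K0) * q + ((x.2 : ℤ) - K0) * r) := by
      intro h hh
      obtain ⟨x, hx, hx2⟩ := hco h hh
      exact Finset.mem_image.2 ⟨x, hx, hx2.symm⟩
    have h2 : #(GZ α X w) ≤ K * K := by
      refine (Finset.card_le_card h1).trans (Finset.card_image_le.trans ?_)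
      rw [Finset.card_product, Finset.card_range]
    have h3 : (#(GZ α X w) : ℝ) ≤ (K : ℝ) ^ 2 := by
      have h4 : (#(GZ α X w) : ℝ) ≤ ((K * K : ℕ) : ℝ) := by exact_mod_cast h2
      refine h4.trans (le_of_eq ?_)
      push_cast
      ring
    have h5 : 0 ≤ 18 * C * B0 ^ 2 * ℓ := by positivity
    calc (#(GZ α X w) : ℝ) ≤ 9 * B0 ^ 2 * ℓ := h3.trans hKsq
      _ ≤ (9 * B0 ^ 2 + 18 * C * B0 ^ 2) * ℓ := by linarith
  · intro h hh
    obtain ⟨h1, h2⟩ := Finset.mem_filter.1 hh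
    obtain ⟨h4, h5⟩ := Finset.mem_Icc.1 h1
    refine le_trans ?_ hX
    rw [abs_le]
    constructor
    · exact_mod_cast h4
    · exact_mod_cast h5
  · intro e ν
    have h1 : (GZ α X w).filter (fun h => ∀ p ∈ (Nat.primesLE (zf ℓ)).erase e, ¬ (p : ℤ) ∣ ν + h) ⊆
        ((range K ×ˢ range K).filter (fun x => ∀ p ∈ (Nat.primesLE K).erase e,
          ¬ (p : ℤ) ∣ (ν - K0 * q - K0 * r) + x.1 * q + x.2 * r)).image
        (fun x => ((x.1 : ℤ) - K0) * q + ((x.2 : ℤ) - K0) * r) := by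
      intro h hh
      obtain ⟨hh1, hh2⟩ := Finset.mem_filter.1 hh
      obtain ⟨x, hx, hx2⟩ := hco h hh1
      refine Finset.mem_image.2 ⟨x, Finset.mem_filter.2 ⟨hx, ?_⟩, hx2.symm⟩
      intro p hp hdvd
      obtain ⟨hp1, hp2⟩ := Finset.mem_erase.1 hp
      rw [Nat.mem_primesLE] at hp2
      refine hh2 p (Finset.mem_erase.2 ⟨hp1, ?_⟩) ?_
      · rw [Nat.mem_primesLE]
        exact ⟨hp2.1.trans hKz, hp2.2⟩
      · have e1 : ν + h = (ν - K0 * q - K0 * r) + x.1 * q + x.2 * r := by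
          rw [hx2]
          ring
        rw [e1]
        exact hdvd
    have h2 := hC K hK2 q r (ν - K0 * q - K0 * r) hcop e
    have h4 : (#((GZ α X w).filter (fun h => ∀ p ∈ (Nat.primesLE (zf ℓ)).erase e,
        ¬ (p : ℤ) ∣ ν + h)) : ℝ) ≤ C * ((K : ℝ) ^ 2 / Real.log K) := by
      refine le_trans ?_ h2
      exact_mod_cast (Finset.card_le_card h1).trans Finset.card_image_le
    refine h4.trans ?_
    have hl2 : 0 < Real.log ℓ / 2 := by linarith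
    have h5 : (K : ℝ) ^ 2 / Real.log K ≤ (9 * B0 ^ 2 * ℓ) / (Real.log ℓ / 2) :=
      div_le_div₀ (by positivity) hKsq hl2 hlogK
    have h6 : (9 * B0 ^ 2 * ℓ) / (Real.log ℓ / 2) = 18 * B0 ^ 2 * (ℓ / Real.log ℓ) := by
      field_simp
      ring
    rw [h6] at h5
    have h7 : 0 ≤ 9 * B0 ^ 2 * (ℓ / Real.log ℓ) := by positivity
    calc C * ((K : ℝ) ^ 2 / Real.log K) ≤ C * (18 * B0 ^ 2 * (ℓ / Real.log ℓ)) :=
          mul_le_mul_of_nonneg_left h5 hC0.le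
      _ ≤ (9 * B0 ^ 2 + 18 * C * B0 ^ 2) * (ℓ / Real.log ℓ) := by linarith

end Pool.Agent.H47.WS
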