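import Pool.Agent.H47.WS.Master
import Pool.Agent.H47.WS.AWin
import Pool.Agent.H47.WS.ALab
import Pool.Agent.H47.WS.AFam
import Pool.Agent.H47.WS.ATrans
import Pool.Agent.H47.WS.AMeas
import Pool.Agent.H47.WS.ACheb

/-!
JOB WS-A10. The pattern theorem.
-/

set_option autoImplicit false

open Finset Filter Topology

namespace Pool.Agent.H47.WS

open Pool.Agent.H16 Pool.Agent.H81.AS Pool.Agent.H1.PP

/-- the parameter `ℓ` attached to `N` -/
noncomputable def lN (N : ℕ) : ℝ := Real.log (Nat.nth Nat.Prime (N - 1)) - 1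

theorem tendsto_lN : Tendsto lN atTop atTop := by
  have h1 : Tendsto (fun N : ℕ => N - 1) atTop atTop := tendsto_sub_atTop_nat 1
  have h2 : Tendsto (Nat.nth Nat.Prime) atTop atTop :=
    (Nat.nth_strictMono Nat.infinite_setOfPred_prime).tendsto_atTop
  have h3 : Tendsto (fun N : ℕ => ((Nat.nth Nat.Prime (N - 1) : ℕ) : ℝ)) atTop atTop :=
    (tendsto_natCast_atTop_atTop (R := ℝ)).comp (h2.comp h1)
  have h4 : Tendsto (fun N : ℕ => Real.log ((Nat.nth Nat.Prime (N - 1) : ℕ) : ℝ)) atTop atTop :=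
    Real.tendsto_log_atTop.comp h3
  have h5 := tendsto_atTop_add_const_right atTop (-1 : ℝ) h4
  exact h5.congr (fun N => by rw [lN, sub_eq_add_neg])

theorem sg_fract (y θ : ℝ) : sg (Int.fract y - θ) = sg (y - θ) := by
  have h : Int.fract y - θ = (y - θ) + ((-⌊y⌋ : ℤ) : ℝ) := by
    rw [Int.fract]; push_cast; ring
  rw [h, sg_add_int]

theorem mem_GZ {α : ℝ} {X : ℕ} {w : ℝ} {h : ℤ} : h ∈ GZ α X w ↔ (-(X : ℤ) ≤ h ∧ h ≤ X) ∧ |sg (h * α)| ≤ w := by
  rw [GZ, Finset.mem_filter, Finset.mem_Icc]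

theorem mem_RZ {α : ℝ} {f : ℕ} {ℓ w t ε : ℝ} {h : ℕ} : h ∈ RZ α f ℓ w t ε ↔
    h ≤ ⌊Real.exp ℓ / 9⌋₊ ∧ f ∣ h ∧ |sg (h * α) - t * w| ≤ ε * w := by
  rw [RZ, Finset.mem_filter, Finset.mem_Icc]
  constructor
  · rintro ⟨⟨_, h1⟩, h2⟩; exact ⟨h1, h2⟩
  · rintro ⟨h1, h2⟩; exact ⟨⟨Nat.zero_le _, h1⟩, h2⟩

theorem RZ_le {α : ℝ} {f : ℕ} {ℓ w t ε : ℝ} {h : ℕ} (hh : h ∈ RZ α f ℓ w t ε) : (h : ℝ) ≤ Real.exp ℓ / 9 :=
  (Nat.le_floor_iff (by positivity)).1 (mem_RZ.1 hh).1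

theorem RZ_sg {α : ℝ} {f : ℕ} {ℓ w t ε : ℝ} {h : ℕ} (hw : 0 ≤ w) (hh : h ∈ RZ α f ℓ w t ε) :
    |sg (h * α)| ≤ (|t| + ε) * w := by
  have h1 := (mem_RZ.1 hh).2.2
  have h2 : |sg (h * α)| ≤ |sg (h * α) - t * w| + |t * w| := by
    have := abs_add_le (sg (h * α) - t * w) (t * w)
    rwa [sub_add_cancel] at this
  rw [abs_mul, abs_of_nonneg hw] at h2
  nlinarith

/-- the pattern at a point -/
theorem pat_point {α : ℝ} {N k m : ℕ} (hN : 1 ≤ N) {t : Fin k → ℝ} {T ε ℓ υ w θ : ℝ} {X M n : ℕ}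
    {f : Fin k → ℕ} (hX : X = Nat.nth Nat.Prime (N - 1)) (hw : w = 1 / (N : ℝ)) (hε : 0 < ε)
    (hT : ∀ i, |t i| + ε ≤ T) (hsmall : (T + ε) * w < 1 / 2) (hX3 : (X : ℝ) ≤ 3 * Real.exp ℓ)
    (hX1 : 10 / 9 * Real.exp ℓ ≤ X) (hM : 6 * Real.exp ℓ < M)
    (hMp : ∀ p : ℕ, p.Prime → (p : ℝ) ≤ Real.exp ℓ → p ∣ M) (hz : (zz υ ℓ : ℝ) ≤ Real.exp ℓ)
    (hn0 : 0 < n) (hn1 : (n : ℝ) ≤ Real.exp ℓ) (hf : Function.Injective f)
    (hfR : ∀ i, f i ∈ RZ α k.factorial ℓ w (t i) (ε / 2))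
    (hm : m ≤ #((univ.image f).filter (fun h => (n + h).Prime)))
    (hgood : ∀ h ∈ (GZ α X ((T + ε) * w)).image (lab M),
      (∀ p ∈ Nat.primesLE (zz υ ℓ), ¬ p ∣ n + h) → h ∈ univ.image f)
    (hbad : ∀ h ∈ GZ α X ((T + ε) * w), ∀ p ∈ Nat.primesLE (zz υ ℓ), (p : ℤ) ≠ n + h)
    (hθ : |sg (θ - n * α)| ≤ ε / 2 * w) : Pat α N t T ε m θ := by
  have hNpos : (0 : ℝ) < N := by exact_mod_cast hN
  have hwpos : 0 < w := by rw [hw]; positivity
  have hNw : (N : ℝ) * w = 1 := by rw [hw]; field_simp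
  have hθ' : |sg (n * α - θ)| ≤ ε / 2 * w := by
    rw [← abs_sg_neg, neg_sub]; exact hθ
  have hnf : ∀ i, n + f i ≤ X := by
    intro i
    have h1 := RZ_le (hfR i)
    have h2 : ((n + f i : ℕ) : ℝ) ≤ X := by push_cast; linarith
    exact_mod_cast h2
  have hex : ∀ i, ∃ gi : ℕ, (n + f i).Prime → gi ∈ Icc 1 N ∧ Nat.nth Nat.Prime (gi - 1) = n + f i := by
    intro i
    by_cases hp : (n + f i).Prime
    · obtain ⟨gi, h1, h2⟩ := nth_index hN hp (hX ▸ hnf i)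
      exact ⟨gi, fun _ => ⟨h1, h2⟩⟩
    · exact ⟨0, fun h => absurd h hp⟩
  choose g hg using hex
  refine ⟨univ.filter (fun i => (n + f i).Prime), g, ?_, ?_, ?_⟩
  · have h1 : (univ.image f).filter (fun h => (n + h).Prime) =
        (univ.filter (fun i => (n + f i).Prime)).image f := by
      rw [Finset.filter_image]
    rw [h1, Finset.card_image_of_injective _ hf] at hm
    exact hm
  · intro i hi
    have hp : (n + f i).Prime := (Finset.mem_filter.1 hi).2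
    obtain ⟨h1, h2⟩ := hg i hp
    refine ⟨h1, ?_⟩
    have hx : sg (xs α (g i) - θ) = sg (((n : ℝ) * α - θ) + (f i : ℝ) * α) := by
      rw [xs, sg_fract, h2]
      congr 1
      push_cast; ring
    have h3 := RZ_sg hwpos.le (hfR i)
    have h4 : |sg ((n : ℝ) * α - θ)| + |sg ((f i : ℝ) * α)| < 1 / 2 := by
      have := hT i
      nlinarith
    rw [hx, sg_add h4]
    have h5 := (mem_RZ.1 (hfR i)).2.2
    have h6 : (N : ℝ) * (sg ((n : ℝ) * α - θ) + sg ((f i : ℝ) * α)) - t i =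
        N * sg ((n : ℝ) * α - θ) + N * (sg ((f i : ℝ) * α) - t i * w) := by
      have : t i = t i * (N * w) := by rw [hNw, mul_one]
      linear_combination -this
    rw [h6]
    refine (abs_add_le _ _).trans ?_
    rw [abs_mul, abs_mul, abs_of_pos hNpos]
    have h7 : (N : ℝ) * |sg ((n : ℝ) * α - θ)| ≤ N * (ε / 2 * w) :=
      mul_le_mul_of_nonneg_left hθ' hNpos.le
    have h8 : (N : ℝ) * |sg ((f i : ℝ) * α) - t i * w| ≤ N * (ε / 2 * w) :=
      mul_le_mul_of_nonneg_left h5 hNpos.le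
    have h9 : (N : ℝ) * (ε / 2 * w) = ε / 2 := by linear_combination (ε / 2) * hNw
    linarith
  · intro n' hn' hT'
    obtain ⟨hn1', hnN⟩ := Finset.mem_Icc.1 hn'
    set p := Nat.nth Nat.Prime (n' - 1) with hp
    have hpp : p.Prime := Nat.prime_nth_prime _
    have hpX : p ≤ X := by
      rw [hp, hX]
      exact (Nat.nth_monotone Nat.infinite_setOfPred_prime) (by omega)
    have hnX : n ≤ X := by
      have h2 : (n : ℝ) ≤ X := by linarith [Real.exp_pos ℓ]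
      exact_mod_cast h2
    have hxs : sg (xs α n' - θ) = sg ((p : ℝ) * α - θ) := by
      rw [xs, sg_fract]
    rw [hxs, abs_mul, abs_of_pos hNpos] at hT'
    have hTw : |sg ((p : ℝ) * α - θ)| ≤ T * w := by
      have h1 : w * ((N : ℝ) * |sg ((p : ℝ) * α - θ)|) ≤ w * T := mul_le_mul_of_nonneg_left hT' hwpos.le
      have h2 : w * ((N : ℝ) * |sg ((p : ℝ) * α - θ)|) = |sg ((p : ℝ) * α - θ)| := by
        linear_combination |sg ((p : ℝ) * α - θ)| * hNw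
      linarith
    set h : ℤ := (p : ℤ) - n with hh
    have hG : h ∈ GZ α X ((T + ε) * w) := by
      rw [mem_GZ]
      refine ⟨⟨by omega, by omega⟩, ?_⟩
      have e1 : ((h : ℤ) : ℝ) * α = ((p : ℝ) * α - θ) + (θ - n * α) := by
        rw [hh]; push_cast; ring
      rw [e1]
      refine (abs_sg_add _ _).trans ?_
      nlinarith
    have hnot : ∀ q ∈ Nat.primesLE (zz υ ℓ), ¬ q ∣ n + lab M h := by
      intro q hq hdvd
      have hqp : q.Prime := Nat.prime_of_mem_primesLE hq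
      have hqle : q ≤ zz υ ℓ := Nat.le_of_mem_primesLE hq
      have hqe : (q : ℝ) ≤ Real.exp ℓ := le_trans (by exact_mod_cast hqle) hz
      have hqdp : (q : ℤ) ∣ (p : ℤ) := by
        have hd : (q : ℤ) ∣ ((n + lab M h : ℕ) : ℤ) := by exact_mod_cast hdvd
        by_cases h0 : 0 ≤ h
        · push_cast at hd
          rw [lab_nonneg M h0] at hd
          have : (n : ℤ) + h = p := by omega
          rwa [this] at hd
        · have hMX : -h ≤ M := by
            have : (X : ℝ) < M := by linarith [Real.exp_pos ℓ]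
            have : X < M := by exact_mod_cast this
            omega
          push_cast at hd
          rw [lab_neg M (by omega) hMX] at hd
          have e : (n : ℤ) + (h + M) = p + M := by omega
          rw [e] at hd
          have hqM : (q : ℤ) ∣ (M : ℤ) := by exact_mod_cast hMp q hqp hqe
          exact (Int.dvd_add_left hqM).1 hd
      have hqdp' : q ∣ p := by exact_mod_cast hqdp
      have hqeq : q = p := (Nat.prime_dvd_prime_iff_eq hqp hpp).1 hqdp'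
      exact hbad h hG q hq (by rw [hqeq]; omega)
    have hin := hgood _ (Finset.mem_image_of_mem _ hG) hnot
    obtain ⟨i, -, hi⟩ := Finset.mem_image.1 hin
    have hfi := RZ_le (hfR i)
    have h0 : 0 ≤ h := by
      by_contra hneg
      have hMX' : (X : ℝ) < M := by linarith [Real.exp_pos ℓ]
      have hMX : -h ≤ M := by
        have : X < M := by exact_mod_cast hMX'
        omega
      have e := lab_neg M (by omega) hMX
      rw [← hi] at e
      have e2 : ((f i : ℕ) : ℝ) = (h : ℝ) + M := by exact_mod_cast e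
      have e3 : -(X : ℝ) ≤ (h : ℝ) := by
        have : -(X : ℤ) ≤ h := by omega
        exact_mod_cast this
      linarith [Real.exp_pos ℓ]
    have e := lab_nonneg M h0
    rw [← hi] at e
    have hpe : n + f i = p := by omega
    have hpi : (n + f i).Prime := hpe ▸ hpp
    refine ⟨i, Finset.mem_filter.2 ⟨Finset.mem_univ _, hpi⟩, ?_⟩
    obtain ⟨h1, h2⟩ := hg i hpi
    have h3 : Nat.nth Nat.Prime (g i - 1) = Nat.nth Nat.Prime (n' - 1) := by rw [h2, hpe]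
    have h4 := Nat.nth_injective Nat.infinite_setOfPred_prime h3
    have h5 := (Finset.mem_Icc.1 h1).1
    omega

/-- the bad `n` -/
noncomputable def badN (α : ℝ) (X : ℕ) (w' ℓ υ : ℝ) : Finset ℕ :=
  (Ioc 0 ⌊Real.exp ℓ⌋₊).filter (fun n => ∃ h ∈ GZ α X w', ∃ p ∈ Nat.primesLE (zz υ ℓ), (p : ℤ) = n + h)

theorem bad_card (α : ℝ) (X : ℕ) (w' ℓ υ : ℝ) : #(badN α X w' ℓ υ) ≤ zz υ ℓ * #(GZ α X w') := by
  classical
  have hsub : badN α X w' ℓ υ ⊆ ((Icc 1 (zz υ ℓ)) ×ˢ GZ α X w').image (fun x => ((x.1 : ℤ) - x.2).toNat) := by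
    intro n hn
    obtain ⟨-, h, hh, p, hp, hpn⟩ := Finset.mem_filter.1 hn
    refine Finset.mem_image.2 ⟨(p, h), Finset.mem_product.2 ⟨Finset.mem_Icc.2 ⟨?_, ?_⟩, hh⟩, ?_⟩
    · exact (Nat.prime_of_mem_primesLE hp).one_lt.le
    · exact Nat.le_of_mem_primesLE hp
    · simp only; omega
  refine (Finset.card_le_card hsub).trans (Finset.card_image_le.trans ?_)
  rw [Finset.card_product, Nat.card_Icc, Nat.add_sub_cancel]

theorem RZ_disj {α : ℝ} {f : ℕ} {ℓ w t t' ε : ℝ} (hw : 0 < w) (hε : 0 < ε) (htt : 2 * ε < |t - t'|) :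
    Disjoint (RZ α f ℓ w t (ε / 2)) (RZ α f ℓ w t' (ε / 2)) := by
  rw [Finset.disjoint_left]
  intro h h1 h2
  have e1 := (mem_RZ.1 h1).2.2
  have e2 := (mem_RZ.1 h2).2.2
  have e3 : |t - t'| * w ≤ ε * w := by
    have e4 : |(t - t') * w| ≤ |sg (h * α) - t' * w| + |sg (h * α) - t * w| := by
      have : (t - t') * w = (sg (h * α) - t' * w) - (sg (h * α) - t * w) := by ring
      rw [this]
      exact abs_sub _ _
    rw [abs_mul, abs_of_pos hw] at e4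
    linarith
  have e5 := le_of_mul_le_mul_right e3 hw
  linarith

/-- the deterministic part for one `N` -/
theorem pattern_core {α : ℝ} {N k m : ℕ} (hN : 1 ≤ N) (hk : 1 ≤ k) {t : Fin k → ℝ}
    {T ε ℓ υ w lam c0 c s₁ : ℝ} {X : ℕ}
    (hX : X = Nat.nth Nat.Prime (N - 1)) (hw : w = 1 / (N : ℝ)) (hε : 0 < ε)
    (hsep : ∀ i j, i ≠ j → 2 * ε < |t i - t j|)
    (hT : ∀ i, |t i| + ε ≤ T) (hsmall : (T + ε) * w < 1 / 2) (hX3 : (X : ℝ) ≤ 3 * Real.exp ℓ)
    (hX1 : 10 / 9 * Real.exp ℓ ≤ X) (hℓ : 0 < ℓ) (hlam : 0 < lam) (hc : 0 < c) (hυ : υ ≤ 1 / 4) (hs₁ : 0 < s₁)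
    (hc0 : 0 < c0) (hws : s₁ * ℓ ≤ w * Real.exp ℓ)
    (hwin : WinZ lam ℓ (GZ α X ((T + ε) * w)))
    (hlab : ∀ G : Finset ℤ, WinZ lam ℓ G → ∀ M : ℕ,
      (∀ p : ℕ, p.Prime → (p : ℝ) ≤ Real.exp ℓ → p ∣ M) → 6 * Real.exp ℓ < M → Win lam ℓ (G.image (lab M)))
    (hR : ∀ i, c0 * ℓ ≤ (#(RZ α k.factorial ℓ w (t i) (ε / 2)) : ℝ))
    (hbig : Real.exp (ℓ / 4) * (lam * ℓ) ≤ c / 2 * Real.exp ℓ)
    (hW : ∀ Γ : Finset ℕ, Win lam ℓ Γ →
      ∀ F : Finset (Finset ℕ),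
        (∀ H ∈ F, #H = k ∧ H ⊆ Γ ∧ ∀ h ∈ H, k.factorial ∣ h ∧ (h : ℝ) ≤ Real.exp ℓ / 9) →
        c0 ^ k * ℓ ^ k ≤ (#F : ℝ) →
        c * Real.exp ℓ ≤ (#((Ioc 0 ⌊Real.exp ℓ⌋₊).filter (fun n => ∃ H ∈ F,
          m ≤ #(H.filter (fun h => (n + h).Prime)) ∧
            ∀ h ∈ Γ, (∀ p ∈ Nat.primesLE (zz υ ℓ), ¬ p ∣ n + h) → h ∈ H)) : ℝ)) :
    ∃ A : Set ℝ, MeasurableSet A ∧ A ⊆ Set.Ico 0 1 ∧
      ENNReal.ofReal (c * ε * s₁ / (4 * lam)) ≤ MeasureTheory.volume A ∧ ∀ θ ∈ A, Pat α N t T ε m θ := by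
  classical
  have hNpos : (0 : ℝ) < N := by exact_mod_cast hN
  have hwpos : 0 < w := by rw [hw]; positivity
  have he := Real.exp_pos ℓ
  have hT0 : ε ≤ T := by
    have := hT ⟨0, hk⟩
    linarith [abs_nonneg (t ⟨0, hk⟩)]
  set G := GZ α X ((T + ε) * w) with hGdef
  set M : ℕ := (6 * ⌈Real.exp ℓ⌉₊ + 1) * primorial ⌊Real.exp ℓ⌋₊ with hMdef
  have hM : 6 * Real.exp ℓ < M := by
    have h1 : (1 : ℕ) ≤ primorial ⌊Real.exp ℓ⌋₊ := primorial_pos _
    have h2 : (6 * ⌈Real.exp ℓ⌉₊ + 1) ≤ M := by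
      rw [hMdef]; exact Nat.le_mul_of_pos_right _ h1
    have h3 : ((6 * ⌈Real.exp ℓ⌉₊ + 1 : ℕ) : ℝ) ≤ M := by exact_mod_cast h2
    push_cast at h3
    linarith [Nat.le_ceil (Real.exp ℓ)]
  have hMp : ∀ p : ℕ, p.Prime → (p : ℝ) ≤ Real.exp ℓ → p ∣ M := by
    intro p hp hpe
    have h1 : p ≤ ⌊Real.exp ℓ⌋₊ := Nat.le_floor hpe
    exact Dvd.dvd.mul_left (hp.dvd_primorial_iff.2 h1) _
  have hz : (zz υ ℓ : ℝ) ≤ Real.exp (ℓ / 4) := by
    refine (Nat.floor_le (Real.exp_pos _).le).trans ?_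
    exact Real.exp_le_exp.2 (by nlinarith)
  have hz' : (zz υ ℓ : ℝ) ≤ Real.exp ℓ := hz.trans (Real.exp_le_exp.2 (by linarith))
  set Γ := G.image (lab M) with hΓ
  have hΓwin : Win lam ℓ Γ := hlab G hwin M hMp hM
  set R : Fin k → Finset ℕ := fun i => RZ α k.factorial ℓ w (t i) (ε / 2) with hRdef
  have hdisj : ∀ i j, i ≠ j → Disjoint (R i) (R j) := fun i j hij => RZ_disj hwpos hε (hsep i j hij)
  have hFcard : c0 ^ k * ℓ ^ k ≤ (#(fam R) : ℝ) := by
    rw [fam_card R hdisj, Nat.cast_prod, ← mul_pow]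
    have : ∏ _i : Fin k, (c0 * ℓ) ≤ ∏ i : Fin k, (#(R i) : ℝ) :=
      Finset.prod_le_prod (fun i _ => by positivity) (fun i _ => hR i)
    rwa [Finset.prod_const, Finset.card_univ, Fintype.card_fin] at this
  have hXfl : ⌊Real.exp ℓ⌋₊ ≤ X := by
    have h1 : (⌊Real.exp ℓ⌋₊ : ℝ) ≤ X := (Nat.floor_le he.le).trans (by linarith)
    exact_mod_cast h1
  have hF : ∀ H ∈ fam R, #H = k ∧ H ⊆ Γ ∧ ∀ h ∈ H, k.factorial ∣ h ∧ (h : ℝ) ≤ Real.exp ℓ / 9 := by
    intro H hH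
    obtain ⟨h1, f, hf, rfl, hfR⟩ := fam_mem R hdisj hH
    refine ⟨h1, ?_, ?_⟩
    · intro h hh
      obtain ⟨i, -, rfl⟩ := Finset.mem_image.1 hh
      have hle := RZ_le (hfR i)
      have hsgi := RZ_sg hwpos.le (hfR i)
      refine Finset.mem_image.2 ⟨(f i : ℤ), ?_, ?_⟩
      · rw [hGdef, mem_GZ]
        have h2 : f i ≤ X := by
          have : ((f i : ℕ) : ℝ) ≤ X := by linarith
          exact_mod_cast this
        refine ⟨⟨by omega, by exact_mod_cast h2⟩, ?_⟩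
        push_cast
        refine hsgi.trans (mul_le_mul_of_nonneg_right ?_ hwpos.le)
        linarith [hT i]
      · have := lab_nonneg M (h := (f i : ℤ)) (by positivity)
        exact_mod_cast this
    · intro h hh
      obtain ⟨i, -, rfl⟩ := Finset.mem_image.1 hh
      exact ⟨(mem_RZ.1 (hfR i)).2.1, RZ_le (hfR i)⟩
  have hmain := hW Γ hΓwin (fam R) hF hFcard
  set Gd := (Ioc 0 ⌊Real.exp ℓ⌋₊).filter (fun n => ∃ H ∈ fam R,
          m ≤ #(H.filter (fun h => (n + h).Prime)) ∧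
            ∀ h ∈ Γ, (∀ p ∈ Nat.primesLE (zz υ ℓ), ¬ p ∣ n + h) → h ∈ H) with hgood
  set GG := Gd \ badN α X ((T + ε) * w) ℓ υ with hGG
  have hGGcard : c / 2 * Real.exp ℓ ≤ (#GG : ℝ) := by
    have h1 : #Gd ≤ #GG + #(badN α X ((T + ε) * w) ℓ υ) := by
      rw [hGG]
      have := Finset.le_card_sdiff (badN α X ((T + ε) * w) ℓ υ) Gd
      omega
    have h2 : (#(badN α X ((T + ε) * w) ℓ υ) : ℝ) ≤ Real.exp (ℓ / 4) * (lam * ℓ) := by
      have h3 : (#(badN α X ((T + ε) * w) ℓ υ) : ℝ) ≤ (zz υ ℓ : ℝ) * #G := by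
        exact_mod_cast bad_card α X ((T + ε) * w) ℓ υ
      exact h3.trans (mul_le_mul hz hwin.card (by positivity) (Real.exp_pos _).le)
    have h3 : (#Gd : ℝ) ≤ #GG + #(badN α X ((T + ε) * w) ℓ υ) := by exact_mod_cast h1
    linarith
  set J : ℕ → Set ℝ := fun n => Jn (n * α) (ε / 2 * w) with hJ
  refine ⟨⋃ n ∈ GG, J n, ?_, ?_, ?_, ?_⟩
  · exact Finset.measurableSet_biUnion _ (fun n _ => Jn_meas _ _)
  · intro θ hθ
    simp only [Set.mem_iUnion] at hθ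
    obtain ⟨n, -, hn⟩ := hθ
    exact hn.1
  · have hover : ∀ θ : ℝ, ∀ G' ⊆ GG, (∀ n ∈ G', θ ∈ J n) → #G' ≤ ⌊lam * ℓ⌋₊ := by
      intro θ G' hG' hθ
      rcases G'.eq_empty_or_nonempty with h0 | ⟨n0, hn0⟩
      · rw [h0]; simp
      have hmem : ∀ n ∈ G', n ≤ ⌊Real.exp ℓ⌋₊ := by
        intro n hn
        have h1 := hG' hn
        rw [hGG, Finset.mem_sdiff, hgood, Finset.mem_filter, Finset.mem_Ioc] at h1
        exact h1.1.1.2
      have hinj : #G' ≤ #G := by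
        refine Finset.card_le_card_of_injOn (fun n => (n : ℤ) - n0) ?_ ?_
        · intro n hn
          have hn' : n ∈ G' := hn
          have h1 := hmem n hn'
          have h2 := hmem n0 hn0
          simp only [Finset.mem_coe]
          rw [hGdef, mem_GZ]
          refine ⟨⟨by omega, by omega⟩, ?_⟩
          have e1 : (((n : ℤ) - n0 : ℤ) : ℝ) * α = (θ - n0 * α) + -(θ - n * α) := by
            push_cast; ring
          rw [e1]
          refine (abs_sg_add _ _).trans ?_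
          rw [abs_sg_neg]
          have h3 := (hθ n hn').2
          have h4 := (hθ n0 hn0).2
          nlinarith
        · intro a _ b _ hab
          simp only at hab
          omega
      refine Nat.le_floor ?_
      exact (by exact_mod_cast hinj : (#G' : ℝ) ≤ #G).trans hwin.card
    have hJv : ∀ n ∈ GG, ENNReal.ofReal (ε / 2 * w) ≤ MeasureTheory.volume (J n) := by
      intro n _
      refine Jn_vol_ge _ (by positivity) ?_
      nlinarith
    have hvol := vol_union GG J (fun n _ => Jn_meas _ _) hJv hover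
    have hpos : 0 < lam * ℓ := by positivity
    have h1 : ENNReal.ofReal (lam * ℓ) * ENNReal.ofReal (c * ε * s₁ / (4 * lam)) ≤
        ENNReal.ofReal (lam * ℓ) * MeasureTheory.volume (⋃ n ∈ GG, J n) := by
      calc ENNReal.ofReal (lam * ℓ) * ENNReal.ofReal (c * ε * s₁ / (4 * lam))
          = ENNReal.ofReal (c * ε / 4 * (s₁ * ℓ)) := by
            rw [← ENNReal.ofReal_mul hpos.le]
            congr 1
            field_simp
        _ ≤ ENNReal.ofReal ((#GG : ℝ) * (ε / 2 * w)) := by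
            refine ENNReal.ofReal_le_ofReal ?_
            have e1 : c / 2 * Real.exp ℓ * (ε / 2 * w) ≤ (#GG : ℝ) * (ε / 2 * w) :=
              mul_le_mul_of_nonneg_right hGGcard (by positivity)
            have e2 : c * ε / 4 * (s₁ * ℓ) ≤ c * ε / 4 * (w * Real.exp ℓ) :=
              mul_le_mul_of_nonneg_left hws (by positivity)
            nlinarith
        _ = (#GG : ENNReal) * ENNReal.ofReal (ε / 2 * w) := by
            rw [ENNReal.ofReal_mul (by positivity), ENNReal.ofReal_natCast]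
        _ ≤ (⌊lam * ℓ⌋₊ : ENNReal) * MeasureTheory.volume (⋃ n ∈ GG, J n) := hvol
        _ ≤ ENNReal.ofReal (lam * ℓ) * MeasureTheory.volume (⋃ n ∈ GG, J n) := by
            gcongr
            rw [← ENNReal.ofReal_natCast]
            exact ENNReal.ofReal_le_ofReal (Nat.floor_le hpos.le)
    have h2 : ENNReal.ofReal (lam * ℓ) ≠ 0 := by
      rw [Ne, ENNReal.ofReal_eq_zero]; linarith
    exact (ENNReal.mul_le_mul_iff_right h2 ENNReal.ofReal_ne_top).1 h1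
  · intro θ hθ
    simp only [Set.mem_iUnion] at hθ
    obtain ⟨n, hn, hnθ⟩ := hθ
    rw [hGG, Finset.mem_sdiff, hgood, Finset.mem_filter, Finset.mem_Ioc] at hn
    obtain ⟨⟨⟨hn0, hn1⟩, H, hH, hmH, hHg⟩, hnb⟩ := hn
    obtain ⟨-, f, hf, rfl, hfR⟩ := fam_mem R hdisj hH
    refine pat_point hN hX hw hε hT hsmall hX3 hX1 hM hMp hz' hn0
      ((Nat.le_floor_iff he.le).1 hn1) hf hfR hmH hHg ?_ hnθ.2
    intro h hh p hp hpn
    exact hnb (Finset.mem_filter.2 ⟨Finset.mem_Ioc.2 ⟨hn0, hn1⟩, h, hh, p, hp, hpn⟩)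

theorem ev_big {lam c : ℝ} (hlam : 0 < lam) (hc : 0 < c) :
    ∀ᶠ ℓ : ℝ in atTop, Real.exp (ℓ / 4) * (lam * ℓ) ≤ c / 2 * Real.exp ℓ := by
  filter_upwards [eventually_ge_atTop (16 * lam / c), eventually_ge_atTop 0] with ℓ h1 h0
  have e1 : ℓ ≤ 4 * Real.exp (ℓ / 4) := by
    have := Real.add_one_le_exp (ℓ / 4)
    linarith
  have e2 : Real.exp (ℓ / 4) * Real.exp (ℓ / 4) = Real.exp (ℓ / 2) := by
    rw [← Real.exp_add]; congr 1; ring
  have e3 : Real.exp (ℓ / 2) * Real.exp (ℓ / 2) = Real.exp ℓ := by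
    rw [← Real.exp_add]; congr 1; ring
  have e4 : 8 * lam / c ≤ Real.exp (ℓ / 2) := by
    have h2 := Real.add_one_le_exp (ℓ / 2)
    have h3 : 8 * lam / c = (16 * lam / c) / 2 := by ring
    rw [h3]; linarith
  have e5 : 8 * lam ≤ Real.exp (ℓ / 2) * c := by
    rwa [div_le_iff₀ hc] at e4
  calc Real.exp (ℓ / 4) * (lam * ℓ) ≤ Real.exp (ℓ / 4) * (lam * (4 * Real.exp (ℓ / 4))) := by
        gcongr
    _ = 4 * lam * Real.exp (ℓ / 2) := by rw [← e2]; ring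
    _ ≤ c / 2 * Real.exp ℓ := by
        rw [← e3]
        have := mul_le_mul_of_nonneg_right e5 (Real.exp_pos (ℓ / 2)).le
        nlinarith

/-- shifts of a point of `[1, e^ℓ]` stay below `X`; the good `n` cover a set of positive measure -/
theorem pattern {c α : ℝ} (hc : 0 < c) (hα : BA c α) (m : ℕ) (hm : 1 ≤ m) : ∃ k : ℕ, m ≤ k ∧ PatThm α m k := by
  obtain ⟨k, hk, hW⟩ := wmaster m hm
  refine ⟨k, by omega, ?_⟩
  intro T ε t hε hsep hT
  obtain ⟨C, hC, hcheb⟩ := cheb_nth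
  have hk1 : 1 ≤ k := by omega
  have hCpos : 0 < C := by linarith
  have hT0 : ε ≤ T := by
    have := hT ⟨0, hk1⟩
    linarith [abs_nonneg (t ⟨0, hk1⟩)]
  have hTε : 0 < T + ε := by linarith
  obtain ⟨lam, hlam, hwin⟩ := winZ_lattice hc hα (s := (T + ε) * (2 * C)) (by positivity)
  obtain ⟨c0, hc0, hrz⟩ := rz_card hc hα (f := k.factorial) (Nat.factorial_pos k) (s₁ := 1 / (3 * C))
    (s₂ := 2 * C) (ε := ε / 2) (T := T) (by positivity) (by positivity) (by linarith)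
  obtain ⟨c', υ, hc', -, hυ, hmas⟩ := hW lam (c0 ^ k) hlam (by positivity)
  refine ⟨c' * ε * (1 / (3 * C)) / (4 * lam), by positivity, ?_⟩
  have hev := hwin.and (hrz.and (hmas.and ((win_lab hlam).and ((ev_big hlam hc').and
    (eventually_ge_atTop (1 : ℝ))))))
  filter_upwards [tendsto_lN.eventually hev, hcheb, eventually_ge_atTop 1,
    eventually_gt_atTop ⌈2 * (T + ε)⌉₊] with N hN hch hN1 hN2
  obtain ⟨h1, h2, h3, h4, h5, h6⟩ := hN
  set ℓ := lN N with hℓ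
  set X := Nat.nth Nat.Prime (N - 1) with hX
  have hNpos : (0 : ℝ) < N := by exact_mod_cast hN1
  have hXpos : (0 : ℝ) < X := by exact_mod_cast (Nat.prime_nth_prime (N - 1)).pos
  have hlog : Real.log X = ℓ + 1 := by rw [hℓ, lN]; ring
  have hXe : (X : ℝ) = Real.exp ℓ * Real.exp 1 := by
    rw [← Real.exp_add, ← hlog, Real.exp_log hXpos]
  have he := Real.exp_pos ℓ
  have he1 := Real.exp_one_gt_d9
  have he2 := Real.exp_one_lt_d9
  obtain ⟨hc1, hc2⟩ := hch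
  rw [hlog] at hc1 hc2
  have hX3 : (X : ℝ) ≤ 3 * Real.exp ℓ := by rw [hXe]; nlinarith
  have hX1 : 10 / 9 * Real.exp ℓ ≤ X := by rw [hXe]; nlinarith
  have hup : 1 / (N : ℝ) * Real.exp ℓ ≤ 2 * C * ℓ := by
    rw [one_div_mul_eq_div, div_le_iff₀ hNpos]
    have e1 : Real.exp ℓ ≤ C * (N * (ℓ + 1)) := by nlinarith
    have e2 : C * (N * (ℓ + 1)) ≤ C * (N * (2 * ℓ)) := by gcongr; linarith
    linarith
  have hlo : 1 / (3 * C) * ℓ ≤ 1 / (N : ℝ) * Real.exp ℓ := by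
    rw [one_div_mul_eq_div, one_div_mul_eq_div, div_le_div_iff₀ (by positivity) hNpos]
    have e1 : (N : ℝ) * ℓ ≤ C * (3 * Real.exp ℓ) := by
      calc (N : ℝ) * ℓ ≤ N * (ℓ + 1) := by gcongr; linarith
        _ ≤ C * X := hc2
        _ ≤ C * (3 * Real.exp ℓ) := by gcongr
    linarith
  have hsmall : (T + ε) * (1 / (N : ℝ)) < 1 / 2 := by
    have e1 : 2 * (T + ε) < N := lt_of_le_of_lt (Nat.le_ceil _) (by exact_mod_cast hN2)
    rw [mul_one_div, div_lt_iff₀ hNpos]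
    linarith
  refine pattern_core (w := 1 / (N : ℝ)) (ℓ := ℓ) (υ := υ) (c0 := c0) (X := X) hN1 hk1 hX rfl hε hsep hT hsmall
    hX3 hX1 (by linarith) hlam hc' hυ (by positivity) hc0 hlo (h1 X _ hX3 ?_) h4 ?_ h5 h3
  · have e1 : (T + ε) * (1 / (N : ℝ) * Real.exp ℓ) ≤ (T + ε) * (2 * C * ℓ) :=
      mul_le_mul_of_nonneg_left hup hTε.le
    linarith
  · intro i
    exact h2 _ (t i) hlo hup (by linarith [hT i])

end Pool.Agent.H47.WS
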