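import Pool.Agent.H81.AS.Defs
import Pool.Agent.H16.PG4

/-!
Project WS (MP_e95273_nt), window version of the anti-sieve of H81/AS: the environment.

The positions are the elements of an arbitrary finite set `Γ` (a window) with few elements, few elements in
every class prime to `W`, and differences with few prime factors. Compared with H81/AS/Defs.lean:
`W` is the product of the primes up to `zf ℓ ≈ ℓ/(log ℓ)^3`, and the primes dividing a difference of two positions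
are removed from the large primes.
-/

set_option autoImplicit false

open Finset Filter Topology

namespace Pool.Agent.H47.WS

open Pool.Agent.H16 Pool.Agent.H81.AS

/-- small sieving primes -/
noncomputable def PP (δ ℓ : ℝ) (e : ℕ) : Finset ℕ := (primesIoc (zf ℓ) (zz δ ℓ)).erase e

/-- the primes dividing a difference of two positions -/
def Bd (Γ : Finset ℕ) : Finset ℕ := (Γ ×ˢ Γ).biUnion (fun x => (x.2 - x.1).primeFactors)

/-- large primes -/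
noncomputable def QQ (δ υ ℓ : ℝ) (e : ℕ) (Γ : Finset ℕ) : Finset ℕ :=
  ((primesIoc (zz δ ℓ) (zz υ ℓ)).erase e) \ Bd Γ

/-- the modulus -/
noncomputable def WW (ℓ : ℝ) (e : ℕ) : ℕ := ∏ p ∈ (Nat.primesLE (zf ℓ)).erase e, p

/-- the positions -/
noncomputable def Po (Γ : Finset ℕ) (ℓ : ℝ) (e b : ℕ) : Finset ℕ :=
  Γ.filter (fun h => Nat.Coprime (b + h) (WW ℓ e))

/-- `∏_{p ∈ P} (1 - 1/p)` -/
noncomputable def V1 (δ ℓ : ℝ) (e : ℕ) : ℝ := ∏ p ∈ PP δ ℓ e, (1 - 1 / (p : ℝ))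

/-- the integers -/
noncomputable def Sb (ℓ : ℝ) (e b : ℕ) : Finset ℕ :=
  (Ioc 0 ⌊Real.exp ℓ⌋₊).filter (fun n => n ≡ b [MOD WW ℓ e])

/-- the hypotheses on the window -/
structure Win (lam ℓ : ℝ) (Γ : Finset ℕ) : Prop where
  card : (#Γ : ℝ) ≤ lam * ℓ
  sieve : ∀ e ν : ℕ, (#(Γ.filter (fun h => Nat.Coprime (ν + h) (WW ℓ e))) : ℝ) ≤ lam * (ℓ / Real.log ℓ)
  diff : ∀ h ∈ Γ, ∀ h' ∈ Γ, h < h' →
    (#((primesIoc ⌊ℓ⌋₊ ⌊Real.exp ℓ⌋₊).filter (fun p => p ∣ h' - h)) : ℝ) ≤ 4 * (ℓ / Real.log ℓ)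
  val : ∀ n ∈ Ioc 0 ⌊Real.exp ℓ⌋₊, ∀ h ∈ Γ, ∃ m : ℕ, (m : ℝ) ≤ Real.exp (2 * ℓ) ∧
    ∀ q : ℕ, q.Prime → (q : ℝ) ≤ Real.exp ℓ → (q ∣ n + h ↔ q ∣ m)

end Pool.Agent.H47.WS
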