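import Pool.Agent.H81.AS.Env
import Pool.Agent.H47.WS.Defs

/-!
Elementary facts about the environment (adapted from H81/AS/Env.lean; `wz` is replaced by `zf`).
-/

set_option autoImplicit false

open Finset Filter Topology

namespace Pool.Agent.H47.WS

open Pool.Agent.H16 Pool.Agent.H81.AS

theorem ev_zf (K : ℝ) : ∀ᶠ ℓ : ℝ in atTop, 100 ≤ Real.log (zf ℓ) ∧ K ≤ zf ℓ := by
  have h1 : Tendsto (fun ℓ : ℝ => (zf ℓ : ℝ)) atTop atTop :=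
    tendsto_natCast_atTop_atTop.comp tendsto_zf
  filter_upwards [h1.eventually_ge_atTop K, ev_z] with ℓ h2 h3
  exact ⟨h3.1, h2⟩

theorem ev_zz {δ : ℝ} (hδ : 0 < δ) (K : ℝ) : ∀ᶠ ℓ : ℝ in atTop,
    zf ℓ ≤ zz δ ℓ ∧ K ≤ Real.log (zz δ ℓ) ∧ δ * ℓ / 2 ≤ Real.log (zz δ ℓ) ∧ Real.log (zz δ ℓ) ≤ δ * ℓ ∧
      (zz δ ℓ : ℝ) ≤ Real.exp (δ * ℓ) ∧ Real.exp (δ * ℓ) / 2 ≤ zz δ ℓ := by
  filter_upwards [Pool.Agent.H81.AS.ev_zz hδ K, ev_sq_le_exp hδ 1, ev_z, eventually_ge_atTop (1 : ℝ)]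
    with ℓ h1 h2 h3 h4
  refine ⟨?_, h1.2⟩
  have h5 : (zf ℓ : ℝ) ≤ ℓ := by
    have h6 : 1 ≤ Real.log (zf ℓ) ^ 3 := one_le_pow₀ (by linarith [h3.1])
    calc (zf ℓ : ℝ) = zf ℓ * 1 := (mul_one _).symm
      _ ≤ zf ℓ * Real.log (zf ℓ) ^ 3 := mul_le_mul_of_nonneg_left h6 (Nat.cast_nonneg _)
      _ ≤ ℓ := h3.2.2.1
  have h7 : (zf ℓ : ℝ) ≤ zz δ ℓ := by
    have := h1.2.2.2.2.2
    linarith
  exact_mod_cast h7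

lemma WW_pos_aux (ℓ : ℝ) (e : ℕ) : 0 < WW ℓ e :=
  prod_pos fun _ hp => (prime_of_mem_era hp).pos

theorem ev_WW {ε : ℝ} (hε : 0 < ε) : ∀ᶠ ℓ : ℝ in atTop, ∀ e : ℕ,
    (WW ℓ e : ℝ) ≤ Real.exp (ε * ℓ) ∧ Real.log (WW ℓ e) ≤ ℓ / (2 * (Real.log ℓ) ^ 2) := by
  filter_upwards [ev_W ε hε] with ℓ h e
  exact ⟨(h e).2, (h e).1⟩

theorem WW_pos (ℓ : ℝ) (e : ℕ) : 0 < WW ℓ e := WW_pos_aux ℓ e

theorem WW_squarefree (ℓ : ℝ) (e : ℕ) : Squarefree (WW ℓ e) := by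
  refine (Finset.squarefree_prod_of_pairwise_isCoprime (fun p hp q hq hpq => ?_)
    (fun p hp => (prime_of_mem_era hp).squarefree))
  exact Nat.coprime_iff_isRelPrime.1
    ((Nat.coprime_primes (prime_of_mem_era hp) (prime_of_mem_era hq)).2 hpq)

theorem prime_dvd_WW {ℓ : ℝ} {e p : ℕ} (hp : p.Prime) : p ∣ WW ℓ e ↔ p ≤ zf ℓ ∧ p ≠ e := by
  unfold WW
  rw [Prime.dvd_finsetProd_iff hp.prime]
  constructor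
  · rintro ⟨q, hq, hpq⟩
    have h1 : p = q := (Nat.prime_dvd_prime_iff_eq hp (prime_of_mem_era hq)).1 hpq
    subst h1
    exact ⟨Nat.le_of_mem_primesLE (mem_of_mem_erase hq), ne_of_mem_erase hq⟩
  · rintro ⟨h1, h2⟩
    exact ⟨p, mem_erase.2 ⟨h2, Nat.mem_primesLE.2 ⟨h1, hp⟩⟩, dvd_rfl⟩

/-- primes of `PP` and `QQ` do not divide `WW` -/
theorem PQ_coprime {δ υ ℓ : ℝ} {e p : ℕ} {Γ : Finset ℕ} (hδ : zf ℓ ≤ zz δ ℓ)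
    (hp : p ∈ PP δ ℓ e ∪ QQ δ υ ℓ e Γ) : p.Prime ∧ zf ℓ < p ∧ Nat.Coprime p (WW ℓ e) := by
  have h1 : p.Prime ∧ zf ℓ < p := by
    rcases mem_union.1 hp with h | h
    · obtain ⟨h2, _, h3⟩ := mem_primesIoc.1 (mem_of_mem_erase h)
      exact ⟨h3, h2⟩
    · obtain ⟨h2, _, h3⟩ := mem_primesIoc.1 (mem_of_mem_erase (Finset.mem_sdiff.1 h).1)
      exact ⟨h3, hδ.trans_lt h2⟩
  refine ⟨h1.1, h1.2, (Nat.Prime.coprime_iff_not_dvd h1.1).2 fun h2 => ?_⟩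
  have h3 := ((prime_dvd_WW h1.1).1 h2).1
  omega

theorem WW_totient_ratio (ℓ : ℝ) (e : ℕ) :
    (((WW ℓ e).totient : ℕ) : ℝ) / (WW ℓ e : ℝ) = ∏ p ∈ (Nat.primesLE (zf ℓ)).erase e, (1 - 1 / (p : ℝ)) := by
  have hW : (WW ℓ e : ℝ) ≠ 0 := by exact_mod_cast (WW_pos ℓ e).ne'
  have h1 := Nat.totient_eq_mul_prod_factors (WW ℓ e)
  have h2 : (WW ℓ e).primeFactors = (Nat.primesLE (zf ℓ)).erase e :=
    Nat.primeFactors_prod fun p hp => prime_of_mem_era hp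
  rw [h2] at h1
  have h3 : (((WW ℓ e).totient : ℕ) : ℝ) =
      (WW ℓ e : ℝ) * ∏ p ∈ (Nat.primesLE (zf ℓ)).erase e, (1 - (p : ℝ)⁻¹) := by
    have h4 := congrArg (fun q : ℚ => (q : ℝ)) h1
    push_cast at h4
    exact h4
  rw [h3, mul_div_cancel_left₀ _ hW]
  simp only [one_div]

lemma V1_aux {δ ℓ : ℝ} {e p : ℕ} (hp : p ∈ PP δ ℓ e) : 0 < 1 - 1 / (p : ℝ) ∧ 1 - 1 / (p : ℝ) ≤ 1 := by
  have h1 : (2:ℝ) ≤ p := by exact_mod_cast (mem_primesIoc.1 (mem_of_mem_erase hp)).2.2.two_le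
  have h2 : 1 / (p : ℝ) ≤ 1 / 2 := one_div_le_one_div_of_le two_pos h1
  have h3 : 0 ≤ 1 / (p : ℝ) := by positivity
  constructor <;> linarith

theorem V1_pos (δ ℓ : ℝ) (e : ℕ) : 0 < V1 δ ℓ e := prod_pos fun _ hp => (V1_aux hp).1

theorem V1_le_one (δ ℓ : ℝ) (e : ℕ) : V1 δ ℓ e ≤ 1 :=
  prod_le_one (fun _ hp => (V1_aux hp).1.le) fun _ hp => (V1_aux hp).2


/-! ### membership -/

theorem mem_QQ {δ υ ℓ : ℝ} {e p : ℕ} {Γ : Finset ℕ} :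
    p ∈ QQ δ υ ℓ e Γ ↔ p ≠ e ∧ zz δ ℓ < p ∧ p ≤ zz υ ℓ ∧ p.Prime ∧ p ∉ Bd Γ := by
  unfold QQ
  rw [Finset.mem_sdiff, Finset.mem_erase, mem_primesIoc]
  tauto

theorem QQ_sub {δ υ ℓ : ℝ} {e : ℕ} {Γ : Finset ℕ} : QQ δ υ ℓ e Γ ⊆ Pool.Agent.H81.AS.QQ δ υ ℓ e := by
  intro p hp
  exact (Finset.mem_sdiff.1 hp).1

theorem QQ_prime {δ υ ℓ : ℝ} {e : ℕ} {Γ : Finset ℕ} : ∀ p ∈ QQ δ υ ℓ e Γ, p.Prime :=
  fun _ hp => (mem_QQ.1 hp).2.2.2.1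

/-- positions are incongruent modulo the large primes -/
theorem QQ_inj {δ υ ℓ : ℝ} {e : ℕ} {Γ : Finset ℕ} : ∀ p ∈ QQ δ υ ℓ e Γ, ∀ h ∈ Γ, ∀ h' ∈ Γ,
    h ≡ h' [MOD p] → h = h' := by
  have key : ∀ p ∈ QQ δ υ ℓ e Γ, ∀ h ∈ Γ, ∀ h' ∈ Γ, h < h' → ¬ h ≡ h' [MOD p] := by
    intro p hp h hh h' hh' hlt hmod
    obtain ⟨-, -, -, hpr, hB⟩ := mem_QQ.1 hp
    apply hB
    unfold Bd
    rw [mem_biUnion]
    refine ⟨(h, h'), mem_product.2 ⟨hh, hh'⟩, ?_⟩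
    rw [Nat.mem_primeFactors]
    exact ⟨hpr, (Nat.modEq_iff_dvd' hlt.le).1 hmod, by simp only; omega⟩
  intro p hp h hh h' hh' hmod
  rcases lt_trichotomy h h' with hlt | heq | hlt
  · exact absurd hmod (key p hp h hh h' hh' hlt)
  · exact heq
  · exact absurd hmod.symm (key p hp h' hh' h hh hlt)

/-- the number of excluded primes is small -/
theorem Bd_card {lam : ℝ} (hlam : 0 < lam) : ∀ᶠ ℓ : ℝ in atTop, ∀ Γ : Finset ℕ, Win lam ℓ Γ →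
    ∀ P : Finset ℕ, P ⊆ primesIoc ⌊ℓ⌋₊ ⌊Real.exp ℓ⌋₊ → (#(P ∩ Bd Γ) : ℝ) ≤ (lam * ℓ) ^ 2 * (4 * ℓ) := by
  filter_upwards [eventually_ge_atTop (1 : ℝ), Real.tendsto_log_atTop.eventually_ge_atTop (1 : ℝ)]
    with ℓ hℓ hlog Γ hΓ P hP
  have h1 : P ∩ Bd Γ ⊆ ((Γ ×ˢ Γ).filter (fun x => x.1 < x.2)).biUnion
      (fun x => (primesIoc ⌊ℓ⌋₊ ⌊Real.exp ℓ⌋₊).filter (fun p => p ∣ x.2 - x.1)) := by
    intro p hp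
    obtain ⟨hp1, hp2⟩ := mem_inter.1 hp
    unfold Bd at hp2
    obtain ⟨x, hx, hpx⟩ := mem_biUnion.1 hp2
    obtain ⟨-, hd, hne⟩ := Nat.mem_primeFactors.1 hpx
    exact mem_biUnion.2 ⟨x, mem_filter.2 ⟨hx, by omega⟩, mem_filter.2 ⟨hP hp1, hd⟩⟩
  have h2 : (#(P ∩ Bd Γ) : ℝ) ≤ ∑ x ∈ (Γ ×ˢ Γ).filter (fun x => x.1 < x.2),
      (#((primesIoc ⌊ℓ⌋₊ ⌊Real.exp ℓ⌋₊).filter (fun p => p ∣ x.2 - x.1)) : ℝ) := by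
    exact_mod_cast (card_le_card h1).trans card_biUnion_le
  have h3 : ∑ x ∈ (Γ ×ˢ Γ).filter (fun x => x.1 < x.2),
      (#((primesIoc ⌊ℓ⌋₊ ⌊Real.exp ℓ⌋₊).filter (fun p => p ∣ x.2 - x.1)) : ℝ) ≤
      ∑ _x ∈ (Γ ×ˢ Γ).filter (fun x => x.1 < x.2), 4 * ℓ := by
    apply sum_le_sum
    intro x hx
    obtain ⟨hx1, hx2⟩ := mem_filter.1 hx
    refine (hΓ.diff x.1 (mem_product.1 hx1).1 x.2 (mem_product.1 hx1).2 hx2).trans ?_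
    have : ℓ / Real.log ℓ ≤ ℓ := div_le_self (by linarith) hlog
    linarith
  rw [sum_const, nsmul_eq_mul] at h3
  have h4 : (#((Γ ×ˢ Γ).filter (fun x => x.1 < x.2)) : ℝ) ≤ (lam * ℓ) ^ 2 := by
    have h5 : (#((Γ ×ˢ Γ).filter (fun x => x.1 < x.2)) : ℝ) ≤ (#Γ : ℝ) * #Γ := by
      exact_mod_cast (card_filter_le _ _).trans (card_product _ _).le
    have h6 := hΓ.card
    have h7 : (#Γ : ℝ) * #Γ ≤ (lam * ℓ) * (lam * ℓ) := mul_le_mul h6 h6 (Nat.cast_nonneg _) (by positivity)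
    linarith [sq (lam * ℓ)]
  exact h2.trans (h3.trans (mul_le_mul_of_nonneg_right h4 (by linarith)))

end Pool.Agent.H47.WS
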