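import Pool.Agent.H81.AS.Adm
import Pool.Agent.H47.WS.Env

/-!
The number of admissible classes (adapted from H81/AS/Adm.lean).
-/

set_option autoImplicit false

open Finset Filter Topology

namespace Pool.Agent.H47.WS

open Pool.Agent.H16 Pool.Agent.H81.AS

open Pool.Agent.H81.AS.AdmAux in
theorem adm_count (k : ℕ) (hk : 1 ≤ k) : ∃ c : ℝ, 0 < c ∧ ∀ (ℓ : ℝ) (e : ℕ) (H : Finset ℕ), #H = k →
    (∀ h ∈ H, k.factorial ∣ h) →
    c * ((WW ℓ e : ℝ) * ((((WW ℓ e).totient : ℕ) : ℝ) / (WW ℓ e : ℝ)) ^ k) ≤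
      (#((range (WW ℓ e)).filter (fun b => ∀ h ∈ H, Nat.Coprime (b + h) (WW ℓ e))) : ℝ) := by
  refine ⟨(1 / ((k : ℝ) + 1)) ^ (2 * k) *
    Real.exp (-(2 * (k : ℝ) ^ 2 * ∑' n : ℕ, 1 / (n : ℝ) ^ 2)), by positivity, ?_⟩
  intro ℓ e H hH hdiv
  have hP : ∀ p ∈ (Nat.primesLE (zf ℓ)).erase e, p.Prime := by
    intro p hp
    exact (Nat.mem_primesLE.1 (mem_of_mem_erase hp)).2
  rw [WW_totient_ratio]
  have h1 : (#((range (WW ℓ e)).filter (fun b => ∀ h ∈ H, Nat.Coprime (b + h) (WW ℓ e))) : ℝ) =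
      ∏ p ∈ (Nat.primesLE (zf ℓ)).erase e, (cnt H p : ℝ) := by
    have := cnt_prod H _ hP
    unfold WW
    unfold cnt at this
    rw [this]
    push_cast
    rfl
  have h2 : (WW ℓ e : ℝ) = ∏ p ∈ (Nat.primesLE (zf ℓ)).erase e, (p : ℝ) := by
    unfold WW
    push_cast
    rfl
  rw [h1, h2]
  set P := (Nat.primesLE (zf ℓ)).erase e with hPd
  have h3 : ∏ p ∈ P, (gf k p * ((p : ℝ) * (1 - 1 / (p : ℝ)) ^ k)) ≤ ∏ p ∈ P, (cnt H p : ℝ) := by
    apply Finset.prod_le_prod
    · intro p hp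
      have hp2 : (2 : ℝ) ≤ p := by exact_mod_cast (hP p hp).two_le
      have : 0 ≤ 1 - 1 / (p : ℝ) := by
        rw [sub_nonneg, div_le_one (by linarith)]; linarith
      exact mul_nonneg (gf_nonneg k p) (mul_nonneg (by linarith) (pow_nonneg this k))
    · intro p hp
      have hp' := hP p hp
      have hp0 : (0 : ℝ) < p := by exact_mod_cast hp'.pos
      have e1 : gf k p * ((p : ℝ) * (1 - 1 / (p : ℝ)) ^ k) =
          p * (gf k p * (1 - 1 / (p : ℝ)) ^ k) := by ring
      rw [e1]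
      rcases le_or_gt p k with h | h
      · have h4 := gf_le (ν := 1) hk hp' (fun _ => rfl) (fun h' => absurd h' (not_lt.2 h))
        have h5 := mul_le_mul_of_nonneg_left h4 hp0.le
        have h6 := cnt_small hp' h hdiv
        have h7 : (p : ℝ) * (1 - 1 / p) = p - 1 := by field_simp
        linarith
      · have h4 := gf_le (ν := k) hk hp' (fun h' => absurd h (not_lt.2 h')) (fun _ => rfl)
        have h5 := mul_le_mul_of_nonneg_left h4 hp0.le
        have h6 := cnt_large H hp'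
        rw [hH] at h6
        have h7 : (p : ℝ) * (1 - k / p) = p - k := by field_simp
        linarith
  rw [prod_mul_distrib, prod_mul_distrib, prod_pow] at h3
  refine le_trans ?_ h3
  apply mul_le_mul_of_nonneg_right (prod_gf k P)
  apply mul_nonneg
  · exact prod_nonneg fun p _ => Nat.cast_nonneg p
  · apply pow_nonneg
    apply prod_nonneg
    intro p hp
    have hp2 : (2 : ℝ) ≤ p := by exact_mod_cast (hP p hp).two_le
    rw [sub_nonneg, div_le_one (by linarith)]; linarith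

end Pool.Agent.H47.WS
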