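import Mathlib

/-!
JOB CB-1. The number of boxes inside a parallelogram.
-/

set_option autoImplicit false

open Finset

namespace Pool.Agent.H47.WS

/-- disjoint boxes of side `K` inside the parallelogram `|x q + y r| ≤ X`, `u ≤ x A + y B ≤ v`, of area `2 X (v - u)` -/
theorem boxes_area {q r A B : ℝ} (hdet : |q * B - r * A| = 1) {K : ℝ} (hK : 0 < K) {X u v : ℝ} (hX : 0 ≤ X)
    (huv : u ≤ v) (S : Finset (ℤ × ℤ))
    (hS : ∀ s ∈ S, ∀ x y : ℝ, s.1 * K ≤ x → x < (s.1 + 1) * K → s.2 * K ≤ y → y < (s.2 + 1) * K →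
      |x * q + y * r| ≤ X ∧ u ≤ x * A + y * B ∧ x * A + y * B ≤ v) :
    (#S : ℝ) * K ^ 2 ≤ 2 * X * (v - u) := by
  classical
  let M : Matrix (Fin 2) (Fin 2) ℝ := !![q, r; A, B]
  let L : (Fin 2 → ℝ) →ₗ[ℝ] (Fin 2 → ℝ) := Matrix.toLin' M
  have hL : LinearMap.det L = q * B - r * A := by
    rw [LinearMap.det_toLin', Matrix.det_fin_two]
    simp [M]
  have hL1 : |LinearMap.det L| = 1 := by rw [hL, hdet]
  have hL0 : LinearMap.det L ≠ 0 := by
    intro h
    rw [h] at hL1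
    simp at hL1
  let R : Set (Fin 2 → ℝ) := Set.Icc ![-X, u] ![X, v]
  have hR : MeasureTheory.volume R = ENNReal.ofReal (2 * X * (v - u)) := by
    show MeasureTheory.volume (Set.Icc ![-X, u] ![X, v]) = _
    rw [Real.volume_Icc_pi, Fin.prod_univ_two]
    simp only [Matrix.cons_val_zero, Matrix.cons_val_one]
    rw [← ENNReal.ofReal_mul (by linarith)]
    congr 1
    ring
  have hP : MeasureTheory.volume (L ⁻¹' R) = ENNReal.ofReal (2 * X * (v - u)) := by
    rw [MeasureTheory.Measure.addHaar_preimage_linearMap _ hL0, hR, abs_inv, hL1]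
    simp
  let bx : ℤ × ℤ → Set (Fin 2 → ℝ) := fun s =>
    Set.pi Set.univ (fun i => Set.Ico ((![(s.1 : ℝ) * K, s.2 * K] : Fin 2 → ℝ) i)
      ((![((s.1 : ℝ) + 1) * K, (s.2 + 1) * K] : Fin 2 → ℝ) i))
  have hbx : ∀ s, ∀ z, z ∈ bx s ↔ ((s.1 : ℝ) * K ≤ z 0 ∧ z 0 < (s.1 + 1) * K) ∧
      ((s.2 : ℝ) * K ≤ z 1 ∧ z 1 < (s.2 + 1) * K) := by
    intro s z
    simp only [bx, Set.mem_pi, Set.mem_univ, true_implies, Set.mem_Ico, Fin.forall_fin_two,
      Matrix.cons_val_zero, Matrix.cons_val_one]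
  have hvol : ∀ s, MeasureTheory.volume (bx s) = ENNReal.ofReal (K ^ 2) := by
    intro s
    simp only [bx]
    rw [Real.volume_pi_Ico, Fin.prod_univ_two]
    simp only [Matrix.cons_val_zero, Matrix.cons_val_one]
    have h1 : ((s.1 : ℝ) + 1) * K - s.1 * K = K := by ring
    have h2 : ((s.2 : ℝ) + 1) * K - s.2 * K = K := by ring
    rw [h1, h2, ← ENNReal.ofReal_mul hK.le]
    congr 1
    ring
  have hmeas : ∀ s, MeasurableSet (bx s) := by
    intro s
    exact MeasurableSet.univ_pi fun i => measurableSet_Ico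
  have huniq : ∀ (a b : ℤ) (x : ℝ), (a : ℝ) * K ≤ x → x < (a + 1) * K → (b : ℝ) * K ≤ x →
      x < (b + 1) * K → a = b := by
    intro a b x h1 h2 h3 h4
    have h5 : (a : ℝ) < b + 1 := lt_of_mul_lt_mul_right (h1.trans_lt h4) hK.le
    have h6 : (b : ℝ) < a + 1 := lt_of_mul_lt_mul_right (h3.trans_lt h2) hK.le
    have h7 : a < b + 1 := by exact_mod_cast h5
    have h8 : b < a + 1 := by exact_mod_cast h6
    omega
  have hdisj : Set.PairwiseDisjoint (S : Set (ℤ × ℤ)) bx := by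
    intro s _ s' _ hne
    rw [Function.onFun, Set.disjoint_left]
    intro z hz hz'
    rw [hbx] at hz hz'
    apply hne
    exact Prod.ext (huniq _ _ _ hz.1.1 hz.1.2 hz'.1.1 hz'.1.2)
      (huniq _ _ _ hz.2.1 hz.2.2 hz'.2.1 hz'.2.2)
  have hsub : (⋃ s ∈ S, bx s) ⊆ L ⁻¹' R := by
    intro z hz
    simp only [Set.mem_iUnion] at hz
    obtain ⟨s, hs, hz⟩ := hz
    rw [hbx] at hz
    obtain ⟨h1, h2, h3⟩ := hS s hs (z 0) (z 1) hz.1.1 hz.1.2 hz.2.1 hz.2.2
    have h0 : L z 0 = z 0 * q + z 1 * r := by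
      simp [L, M, Matrix.mulVec, dotProduct, Fin.sum_univ_two]
      ring
    have h0' : L z 1 = z 0 * A + z 1 * B := by
      simp [L, M, Matrix.mulVec, dotProduct, Fin.sum_univ_two]
      ring
    rw [abs_le] at h1
    show L z ∈ Set.Icc ![-X, u] ![X, v]
    rw [Set.mem_Icc, Pi.le_def, Pi.le_def, Fin.forall_fin_two, Fin.forall_fin_two]
    simp only [Matrix.cons_val_zero, Matrix.cons_val_one, h0, h0']
    exact ⟨⟨h1.1, h2⟩, h1.2, h3⟩
  have hsum : MeasureTheory.volume (⋃ s ∈ S, bx s) = (#S : ENNReal) * ENNReal.ofReal (K ^ 2) := by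
    rw [MeasureTheory.measure_biUnion_finset hdisj (fun s _ => hmeas s)]
    simp [hvol]
  have hle : (#S : ENNReal) * ENNReal.ofReal (K ^ 2) ≤ ENNReal.ofReal (2 * X * (v - u)) := by
    rw [← hsum, ← hP]
    exact MeasureTheory.measure_mono hsub
  rw [← ENNReal.ofReal_natCast, ← ENNReal.ofReal_mul (Nat.cast_nonneg _)] at hle
  exact (ENNReal.ofReal_le_ofReal_iff (by
    have := mul_nonneg hX (sub_nonneg.2 huv)
    linarith)).1 hle

end Pool.Agent.H47.WS
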