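import Pool.Agent.H47.WS.ADefs

/-!
Project CB (MP_e95273_nt): upper bounds for the correlations of `{p_n α}`, definitions.
-/

set_option autoImplicit false

open Finset Filter Topology

namespace Pool.Agent.H47.WS

open Pool.Agent.H16 Pool.Agent.H81.AS Pool.Agent.H1.PP

/-- the integers `|h| ≤ X` with `h α - round (h α) ∈ [u, v]` -/
noncomputable def WI (α : ℝ) (X : ℕ) (u v : ℝ) : Finset ℤ :=
  (Icc (-(X : ℤ)) X).filter (fun h => u ≤ sg (h * α) ∧ sg (h * α) ≤ v)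

/-- the tuples of primes `f 0, ..., f k ≤ X`, pairwise distinct, with `(f j - f 0) α` in `[u j, v j]` modulo one -/
noncomputable def TU (α : ℝ) (X k : ℕ) (u v : Fin k → ℝ) : Finset (Fin (k + 1) → ℕ) :=
  (Fintype.piFinset (fun _ : Fin (k + 1) => (Icc 1 X).filter Nat.Prime)).filter (fun f =>
    Function.Injective f ∧ ∀ j : Fin k, (f j.succ : ℤ) - f 0 ∈ WI α X (u j) (v j))

/-- hypotheses on the parameters -/
structure HW (s₁ s₂ ℓ : ℝ) (X k : ℕ) (u v : Fin k → ℝ) : Prop where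
  X1 : (X : ℝ) ≤ Real.exp ℓ
  len : ∀ j, s₁ * ℓ ≤ (v j - u j) * Real.exp ℓ
  u1 : ∀ j, |u j| * Real.exp ℓ ≤ s₂ * ℓ
  v1 : ∀ j, |v j| * Real.exp ℓ ≤ s₂ * ℓ

/-- the bound -/
noncomputable def BB (ℓ : ℝ) (k : ℕ) (u v : Fin k → ℝ) : ℝ :=
  Real.exp ℓ / ℓ * ∏ j, ((v j - u j) * Real.exp ℓ / ℓ)

end Pool.Agent.H47.WS
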