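import Pool.Agent.H47.WS.CDefs
import Pool.Agent.H47.WS.ABasis
import Pool.Agent.H47.WS.AWin

/-!
JOB CB-4. The tuples with a small prime are negligible.
-/

set_option autoImplicit false

open Finset Filter Topology

namespace Pool.Agent.H47.WS

open Pool.Agent.H16 Pool.Agent.H81.AS Pool.Agent.H1.PP

theorem CExc_mem {α w : ℝ} {X k : ℕ} {u v : Fin k → ℝ} (huv : ∀ j, |u j| ≤ w ∧ |v j| ≤ w) (hw : 0 ≤ w)
    {f : Fin (k + 1) → ℕ} (hf : f ∈ TU α X k u v) (i j : Fin (k + 1)) :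
    (f j : ℤ) - f i ∈ GZ α X (2 * w) := by
  unfold TU at hf
  rw [mem_filter, Fintype.mem_piFinset] at hf
  obtain ⟨hf1, -, hf2⟩ := hf
  have hX : ∀ j, 1 ≤ f j ∧ f j ≤ X := fun j => by
    have := hf1 j
    rw [mem_filter, mem_Icc] at this
    exact this.1
  have key : ∀ j : Fin (k + 1), |sg ((((f j : ℤ) - f 0 : ℤ) : ℝ) * α)| ≤ w := by
    intro j
    refine Fin.cases ?_ (fun j => ?_) j
    · have e : sg ((((f 0 : ℤ) - f 0 : ℤ) : ℝ) * α) = 0 := by
        simp [sg]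
      rw [e, abs_zero]
      exact hw
    · have := hf2 j
      unfold WI at this
      rw [mem_filter] at this
      obtain ⟨-, h1, h2⟩ := this
      rw [abs_le]
      have h3 := (abs_le.1 (huv j).1).1
      have h4 := (abs_le.1 (huv j).2).2
      constructor <;> linarith
  unfold GZ
  rw [mem_filter, mem_Icc]
  refine ⟨by have := hX i; have := hX j; omega, ?_⟩
  have e : ((((f j : ℤ) - f i : ℤ) : ℝ) * α) =
      (((f j : ℤ) - f 0 : ℤ) : ℝ) * α + -((((f i : ℤ) - f 0 : ℤ) : ℝ) * α) := by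
    push_cast
    ring
  rw [e]
  refine (abs_sg_add _ _).trans ?_
  rw [abs_sg_neg]
  linarith [key i, key j]

theorem CExc_card {α w : ℝ} {X k z : ℕ} {u v : Fin k → ℝ} (huv : ∀ j, |u j| ≤ w ∧ |v j| ≤ w) (hw : 0 ≤ w) :
    #((TU α X k u v).filter (fun f => ∃ i, f i ≤ z)) ≤ (k + 1) * (z * #(GZ α X (2 * w)) ^ (k + 1)) := by
  classical
  have h1 : (TU α X k u v).filter (fun f => ∃ i, f i ≤ z) ⊆
      (univ : Finset (Fin (k + 1))).biUnion (fun i => (TU α X k u v).filter (fun f => f i ≤ z)) := by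
    intro f hf
    rw [mem_filter] at hf
    obtain ⟨hf1, i, hi⟩ := hf
    rw [mem_biUnion]
    exact ⟨i, mem_univ _, mem_filter.2 ⟨hf1, hi⟩⟩
  refine (card_le_card h1).trans (card_biUnion_le.trans ?_)
  have h2 : ∀ i ∈ (univ : Finset (Fin (k + 1))),
      #((TU α X k u v).filter (fun f => f i ≤ z)) ≤ z * #(GZ α X (2 * w)) ^ (k + 1) := by
    intro i _
    have h3 : #(Icc 1 z ×ˢ Fintype.piFinset (fun _ : Fin (k + 1) => GZ α X (2 * w))) =
        z * #(GZ α X (2 * w)) ^ (k + 1) := by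
      rw [card_product, Fintype.card_piFinset, Nat.card_Icc, prod_const, card_univ, Fintype.card_fin,
        Nat.add_sub_cancel]
    rw [← h3]
    refine card_le_card_of_injOn (fun f => (f i, fun j => (f j : ℤ) - f i)) ?_ ?_
    · intro f hf
      rw [mem_coe, mem_filter] at hf
      rw [mem_coe, mem_product, mem_Icc, Fintype.mem_piFinset]
      have h4 : 1 ≤ f i := by
        have h5 := hf.1
        unfold TU at h5
        rw [mem_filter, Fintype.mem_piFinset] at h5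
        have := h5.1 i
        rw [mem_filter, mem_Icc] at this
        exact this.1.1
      exact ⟨⟨h4, hf.2⟩, fun j => CExc_mem huv hw hf.1 i j⟩
    · intro f hf g hg h
      simp only [Prod.mk.injEq] at h
      funext j
      have h5 := congrFun h.2 j
      have h6 := h.1
      omega
  refine (sum_le_card_nsmul _ _ _ h2).trans ?_
  rw [card_univ, Fintype.card_fin, smul_eq_mul]

theorem exc_sum (k : ℕ) {c α s₁ s₂ δ : ℝ} (hc : 0 < c) (hα : BA c α) (hs₁ : 0 < s₁) (hs₂ : 0 < s₂) (hδ : 0 < δ)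
    (hδ1 : δ ≤ 1 / 2) : ∀ᶠ ℓ : ℝ in atTop, ∀ (X : ℕ) (u v : Fin k → ℝ), HW s₁ s₂ ℓ X k u v →
      (#((TU α X k u v).filter (fun f => ∃ i, f i ≤ zz δ ℓ)) : ℝ) ≤ BB ℓ k u v := by
  obtain ⟨lam, hlam, hev⟩ := winZ_lattice hc hα (show (0 : ℝ) < 2 * s₂ by positivity)
  have hg : ∀ᶠ ℓ : ℝ in atTop, ((k : ℝ) + 1) * lam ^ (k + 1) * ℓ ^ (k + 2) ≤
      s₁ ^ k * Real.exp (1 / 2 * ℓ) := by
    have h := (isLittleO_pow_exp_pos_mul_atTop (k + 2) (show (0 : ℝ) < 1 / 2 by norm_num)).def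
      (show (0 : ℝ) < s₁ ^ k / (((k : ℝ) + 1) * lam ^ (k + 1)) by positivity)
    filter_upwards [h, eventually_gt_atTop 0] with ℓ h1 h2
    rw [Real.norm_eq_abs, Real.norm_eq_abs, abs_of_pos (pow_pos h2 _), abs_of_pos (Real.exp_pos _),
      div_mul_eq_mul_div, le_div_iff₀ (by positivity)] at h1
    linarith
  filter_upwards [hev, hg, eventually_gt_atTop 0] with ℓ h1 h2 h0 X u v hW
  have hE : 0 < Real.exp ℓ := Real.exp_pos _
  set w : ℝ := s₂ * ℓ / Real.exp ℓ with hw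
  have hw0 : 0 ≤ w := by positivity
  have huv : ∀ j, |u j| ≤ w ∧ |v j| ≤ w := fun j =>
    ⟨by rw [hw, le_div_iff₀ hE]; exact hW.u1 j, by rw [hw, le_div_iff₀ hE]; exact hW.v1 j⟩
  have hc1 := CExc_card (z := zz δ ℓ) (α := α) (X := X) huv hw0
  have hG : (#(GZ α X (2 * w)) : ℝ) ≤ lam * ℓ := by
    refine (h1 X (2 * w) (by linarith [hW.X1, hE]) ?_).card
    rw [hw]
    apply le_of_eq
    field_simp
  have hz : (zz δ ℓ : ℝ) ≤ Real.exp (1 / 2 * ℓ) :=
    (Nat.floor_le (Real.exp_pos _).le).trans (Real.exp_le_exp.2 (by nlinarith))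
  have hB : Real.exp ℓ / ℓ * s₁ ^ k ≤ BB ℓ k u v := by
    unfold BB
    refine mul_le_mul_of_nonneg_left ?_ (by positivity)
    calc s₁ ^ k = ∏ _j : Fin k, s₁ := by simp
      _ ≤ _ := prod_le_prod (fun _ _ => hs₁.le) (fun j _ => by
        rw [le_div_iff₀ h0]
        exact hW.len j)
  refine le_trans ?_ hB
  calc (#((TU α X k u v).filter (fun f => ∃ i, f i ≤ zz δ ℓ)) : ℝ)
      ≤ (((k + 1) * (zz δ ℓ * #(GZ α X (2 * w)) ^ (k + 1)) : ℕ) : ℝ) := by exact_mod_cast hc1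
    _ = ((k : ℝ) + 1) * (zz δ ℓ * (#(GZ α X (2 * w)) : ℝ) ^ (k + 1)) := by push_cast; ring
    _ ≤ ((k : ℝ) + 1) * (Real.exp (1 / 2 * ℓ) * (lam * ℓ) ^ (k + 1)) := by gcongr
    _ ≤ Real.exp ℓ / ℓ * s₁ ^ k := by
      rw [show Real.exp ℓ / ℓ * s₁ ^ k = Real.exp ℓ * s₁ ^ k / ℓ by ring, le_div_iff₀ h0]
      have e : Real.exp ℓ = Real.exp (1 / 2 * ℓ) * Real.exp (1 / 2 * ℓ) := by
        rw [← Real.exp_add]
        ring_nf
      rw [e]
      have h5 := mul_le_mul_of_nonneg_left h2 (Real.exp_pos (1 / 2 * ℓ)).le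
      calc ((k : ℝ) + 1) * (Real.exp (1 / 2 * ℓ) * (lam * ℓ) ^ (k + 1)) * ℓ
          = Real.exp (1 / 2 * ℓ) * (((k : ℝ) + 1) * lam ^ (k + 1) * ℓ ^ (k + 2)) := by
            rw [mul_pow]
            ring
        _ ≤ _ := h5
        _ = _ := by ring

end Pool.Agent.H47.WS
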