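import Mathlib

/-!
Definition used in the statement of the upper bound for the correlations (MP_e95273_nt).
-/

set_option autoImplicit false

namespace Pool.Agent.H47.WS

/-- the number of tuples `(n_0, ..., n_k)` of pairwise distinct integers of `[1, N]` with
`N (x_{n_0} - x_{n_j}) ∈ [a_j, b_j]` for all `j` -/
noncomputable def CT (x : ℕ → ℝ) (N : ℕ) {k : ℕ} (a b : Fin k → ℝ) : ℕ :=
  Set.ncard {f : Fin (k + 1) → ℕ | Function.Injective f ∧ (∀ j, f j ∈ Set.Icc 1 N) ∧
    ∀ j : Fin k, (N : ℝ) * (x (f 0) - x (f j.succ)) ∈ Set.Icc (a j) (b j)}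

end Pool.Agent.H47.WS
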