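import Pool.Agent.H47.WS.CMain
import Pool.Agent.H47.WS.CExc
import Pool.Agent.H47.WS.ACheb
import Pool.Agent.H47.WS.CStD

/-!
JOB CB-6. The upper bound for the correlations of all orders.
-/

set_option autoImplicit false

open Finset Filter Topology

namespace Pool.Agent.H47.WS

open Pool.Agent.H16 Pool.Agent.H81.AS Pool.Agent.H1.PP

theorem ct_le_tu {α : ℝ} {N k : ℕ} (hN : 1 ≤ N) (a b : Fin k → ℝ) (hab : ∀ j, |a j| < N / 2 ∧ |b j| < N / 2) :
    CT (xs α) N a b ≤
      #(TU α (Nat.nth Nat.Prime (N - 1)) k (fun j => -(b j) / N) (fun j => -(a j) / N)) := by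
  have hinf := Nat.infinite_setOfPred_prime
  have hN0 : (0 : ℝ) < N := by exact_mod_cast hN
  set F : (Fin (k + 1) → ℕ) → (Fin (k + 1) → ℕ) := fun f j => Nat.nth Nat.Prime (f j - 1) with hF
  unfold CT
  set S : Set (Fin (k + 1) → ℕ) := {f | Function.Injective f ∧ (∀ j, f j ∈ Set.Icc 1 N) ∧
    ∀ j : Fin k, (N : ℝ) * (xs α (f 0) - xs α (f j.succ)) ∈ Set.Icc (a j) (b j)} with hS
  have hinj : Set.InjOn F S := by
    intro f hf g hg hfg
    funext j
    have h1 : Nat.nth Nat.Prime (f j - 1) = Nat.nth Nat.Prime (g j - 1) := congrFun hfg j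
    have h2 := Nat.nth_injective hinf h1
    have h3 := (hf.2.1 j).1
    have h4 := (hg.2.1 j).1
    omega
  have hsub : F '' S ⊆ (↑(TU α (Nat.nth Nat.Prime (N - 1)) k (fun j => -(b j) / N)
      (fun j => -(a j) / N)) : Set (Fin (k + 1) → ℕ)) := by
    rintro _ ⟨f, ⟨hf1, hf2, hf3⟩, rfl⟩
    have hle : ∀ j, F f j ≤ Nat.nth Nat.Prime (N - 1) := by
      intro j
      have h1 := (hf2 j).2
      exact (Nat.nth_le_nth hinf).2 (by omega)
    have hpr : ∀ j, (F f j).Prime := fun j => Nat.nth_mem_of_infinite hinf _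
    rw [Finset.mem_coe, TU, Finset.mem_filter, Fintype.mem_piFinset]
    refine ⟨fun j => ?_, ?_, ?_⟩
    · rw [Finset.mem_filter, Finset.mem_Icc]
      exact ⟨⟨(hpr j).one_le, hle j⟩, hpr j⟩
    · intro i j hij
      have h2 := Nat.nth_injective hinf (show Nat.nth Nat.Prime (f i - 1) = Nat.nth Nat.Prime (f j - 1) from hij)
      have h3 := (hf2 i).1
      have h4 := (hf2 j).1
      exact hf1 (by omega)
    · intro j
      obtain ⟨h5, h6⟩ := hf3 j
      obtain ⟨h7, h8⟩ := hab j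
      have h0l := hle 0
      have hjl := hle j.succ
      rw [WI, Finset.mem_filter, Finset.mem_Icc]
      set y : ℝ := xs α (f j.succ) - xs α (f 0) with hy
      have h5' : a j ≤ -((N : ℝ) * y) := by rw [hy]; linarith
      have h6' : -((N : ℝ) * y) ≤ b j := by rw [hy]; linarith
      have h9 := (abs_lt.1 h7).1
      have h10 := (abs_lt.1 h8).2
      have hyl : |y| < 1 / 2 := by
        rw [abs_lt]
        constructor
        · by_contra hcon
          push Not at hcon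
          nlinarith
        · by_contra hcon
          push Not at hcon
          nlinarith
      have hsg : sg ((((F f j.succ : ℕ) : ℤ) - ((F f 0 : ℕ) : ℤ) : ℤ) * α) = y := by
        refine sg_of_near (g := ⌊(F f j.succ : ℝ) * α⌋ - ⌊(F f 0 : ℝ) * α⌋) ?_ hyl
        have e1 : xs α (f j.succ) = (F f j.succ : ℝ) * α - ⌊(F f j.succ : ℝ) * α⌋ := rfl
        have e2 : xs α (f 0) = (F f 0 : ℝ) * α - ⌊(F f 0 : ℝ) * α⌋ := rfl
        rw [hy, e1, e2]
        push_cast
        ring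
      rw [hsg]
      refine ⟨⟨by omega, by omega⟩, ?_, ?_⟩
      · rw [div_le_iff₀ hN0]
        linarith
      · rw [le_div_iff₀ hN0]
        linarith
  rw [← Set.ncard_image_of_injOn hinj, ← Set.ncard_coe_finset]
  exact Set.ncard_le_ncard hsub (Finset.finite_toSet _)

theorem corr_bdd (k : ℕ) : ∃ C : ℝ, 0 < C ∧ ∀ c α : ℝ, 0 < c → BA c α → ∀ a b : Fin k → ℝ, (∀ j, a j < b j) →
    ∀ᶠ N : ℕ in atTop, (CT (xs α) N a b : ℝ) ≤ C * (∏ j, (b j - a j)) * N := by
  obtain ⟨C₁, hC₁, hcheb⟩ := cheb_nth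
  obtain ⟨δ, C, hδ, hδ1, hC, hmain⟩ := main_sum k
  have hC₁0 : 0 < C₁ := by linarith
  refine ⟨(1 + C) * C₁ ^ (k + 1), by positivity, ?_⟩
  intro c α hc hα a b hab
  obtain ⟨m, hm, hmj⟩ : ∃ m : ℝ, 0 < m ∧ ∀ j, m ≤ b j - a j := by
    rcases Nat.eq_zero_or_pos k with rfl | hk
    · exact ⟨1, one_pos, fun j => j.elim0⟩
    · haveI : Nonempty (Fin k) := ⟨⟨0, hk⟩⟩
      obtain ⟨j₀, hj₀⟩ := Finite.exists_min (fun j : Fin k => b j - a j)
      exact ⟨b j₀ - a j₀, sub_pos.2 (hab j₀), hj₀⟩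
  obtain ⟨M, hM, hMj⟩ : ∃ M : ℝ, 0 < M ∧ ∀ j, |a j| ≤ M ∧ |b j| ≤ M := by
    refine ⟨1 + ∑ j, (|a j| + |b j|), by positivity, fun j => ?_⟩
    have h1 : |a j| + |b j| ≤ ∑ j, (|a j| + |b j|) :=
      Finset.single_le_sum (f := fun j => |a j| + |b j|) (fun i _ => by positivity) (Finset.mem_univ j)
    have h2 := abs_nonneg (a j)
    have h3 := abs_nonneg (b j)
    constructor <;> linarith
  have hs1 : 0 < m / C₁ := by positivity
  have hs2 : 0 < C₁ * M := by positivity
  have h1 := hmain c α (m / C₁) (C₁ * M) hc hα hs1 hs2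
  have h2 := exc_sum k hc hα hs1 hs2 hδ hδ1
  have hXt : Tendsto (fun N : ℕ => (Nat.nth Nat.Prime (N - 1) : ℝ)) atTop atTop := by
    refine tendsto_atTop_mono (f := fun N : ℕ => (N : ℝ)) ?_ tendsto_natCast_atTop_atTop
    intro N
    have h3 := Nat.add_two_le_nth_prime (N - 1)
    exact_mod_cast (by omega : N ≤ Nat.nth Nat.Prime (N - 1))
  have hlt : Tendsto (fun N : ℕ => Real.log (Nat.nth Nat.Prime (N - 1) : ℝ)) atTop atTop :=
    Real.tendsto_log_atTop.comp hXt
  have hNM : ∀ᶠ N : ℕ in atTop, 2 * M < N :=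
    tendsto_natCast_atTop_atTop.eventually_gt_atTop (2 * M)
  filter_upwards [hcheb, hlt.eventually h1, hlt.eventually h2, hNM, eventually_ge_atTop 1,
    hlt.eventually_ge_atTop 1, hXt.eventually_ge_atTop 1] with N hch hmn hex hNM hN hl1 hX1
  set X : ℕ := Nat.nth Nat.Prime (N - 1) with hX
  set ℓ : ℝ := Real.log X with hℓ
  have hX0 : (0 : ℝ) < X := by linarith
  have hexp : Real.exp ℓ = X := Real.exp_log hX0
  have hN0 : (0 : ℝ) < N := by exact_mod_cast hN
  have hℓ0 : 0 < ℓ := by linarith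
  have hXN1 : (X : ℝ) / N ≤ C₁ * ℓ := by
    rw [div_le_iff₀ hN0]
    linarith [hch.1]
  have hXN2 : ℓ / C₁ ≤ (X : ℝ) / N := by
    rw [div_le_div_iff₀ hC₁0 hN0]
    linarith [hch.2]
  have hHW : HW (m / C₁) (C₁ * M) ℓ X k (fun j => -(b j) / N) (fun j => -(a j) / N) := by
    constructor
    · rw [hexp]
    · intro j
      rw [hexp]
      have e1 : (-(a j) / N - -(b j) / N) * (X : ℝ) = (b j - a j) * (X / N) := by
        field_simp
        ring
      have e2 : m / C₁ * ℓ = m * (ℓ / C₁) := by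
        field_simp
      show m / C₁ * ℓ ≤ (-(a j) / N - -(b j) / N) * (X : ℝ)
      rw [e1, e2]
      exact mul_le_mul (hmj j) hXN2 (by positivity) (sub_nonneg.2 (hab j).le)
    · intro j
      rw [hexp]
      show |-(b j) / N| * (X : ℝ) ≤ C₁ * M * ℓ
      rw [abs_div, abs_neg, abs_of_pos hN0]
      have e1 : |b j| / N * (X : ℝ) = |b j| * (X / N) := by
        field_simp
      rw [e1]
      calc |b j| * ((X : ℝ) / N) ≤ M * (C₁ * ℓ) :=
            mul_le_mul (hMj j).2 hXN1 (by positivity) hM.le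
        _ = C₁ * M * ℓ := by ring
    · intro j
      rw [hexp]
      show |-(a j) / N| * (X : ℝ) ≤ C₁ * M * ℓ
      rw [abs_div, abs_neg, abs_of_pos hN0]
      have e1 : |a j| / N * (X : ℝ) = |a j| * (X / N) := by
        field_simp
      rw [e1]
      calc |a j| * ((X : ℝ) / N) ≤ M * (C₁ * ℓ) :=
            mul_le_mul (hMj j).1 hXN1 (by positivity) hM.le
        _ = C₁ * M * ℓ := by ring
  have hA := hmn X _ _ hHW
  have hB := hex X _ _ hHW
  have hCT : CT (xs α) N a b ≤ #(TU α X k (fun j => -(b j) / N) (fun j => -(a j) / N)) :=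
    ct_le_tu hN a b (fun j => ⟨by linarith [(hMj j).1], by linarith [(hMj j).2]⟩)
  set T := TU α X k (fun j => -(b j) / N) (fun j => -(a j) / N) with hT
  have hsplit : (#T : ℝ) ≤ (#(T.filter (fun f => ∃ i, f i ≤ zz δ ℓ)) : ℝ) +
      (#(T.filter (fun f => ∀ i, zz δ ℓ < f i)) : ℝ) := by
    have h3 : T ⊆ T.filter (fun f => ∃ i, f i ≤ zz δ ℓ) ∪ T.filter (fun f => ∀ i, zz δ ℓ < f i) := by
      intro f hf
      rw [Finset.mem_union, Finset.mem_filter, Finset.mem_filter]
      by_cases h : ∃ i, f i ≤ zz δ ℓ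
      · exact Or.inl ⟨hf, h⟩
      · push Not at h
        exact Or.inr ⟨hf, h⟩
    have h4 := (Finset.card_le_card h3).trans (Finset.card_union_le _ _)
    exact_mod_cast h4
  have hBB : BB ℓ k (fun j => -(b j) / N) (fun j => -(a j) / N) ≤
      C₁ ^ (k + 1) * (∏ j, (b j - a j)) * N := by
    unfold BB
    rw [hexp]
    have h3 : (X : ℝ) / ℓ ≤ C₁ * N := by
      rw [div_le_iff₀ hℓ0]
      linarith [hch.1]
    have h4 : ∏ j, ((-(a j) / N - -(b j) / N) * (X : ℝ) / ℓ) ≤ ∏ j, (C₁ * (b j - a j)) := by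
      refine Finset.prod_le_prod (fun j _ => ?_) (fun j _ => ?_)
      · have e1 : (-(a j) / N - -(b j) / N) * (X : ℝ) / ℓ = (b j - a j) * (X / N) / ℓ := by
          field_simp
          ring
        rw [e1]
        have := sub_nonneg.2 (hab j).le
        positivity
      · have e1 : (-(a j) / N - -(b j) / N) * (X : ℝ) / ℓ = (b j - a j) * (X / N) / ℓ := by
          field_simp
          ring
        rw [e1, div_le_iff₀ hℓ0]
        calc (b j - a j) * ((X : ℝ) / N) ≤ (b j - a j) * (C₁ * ℓ) :=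
              mul_le_mul_of_nonneg_left hXN1 (sub_nonneg.2 (hab j).le)
          _ = C₁ * (b j - a j) * ℓ := by ring
    have h5 : ∏ j, (C₁ * (b j - a j)) = C₁ ^ k * ∏ j, (b j - a j) := by
      rw [Finset.prod_mul_distrib, Finset.prod_const, Finset.card_univ, Fintype.card_fin]
    have h6 : 0 ≤ ∏ j, (b j - a j) := Finset.prod_nonneg (fun j _ => sub_nonneg.2 (hab j).le)
    calc (X : ℝ) / ℓ * ∏ j, ((-(a j) / N - -(b j) / N) * (X : ℝ) / ℓ)
        ≤ (X : ℝ) / ℓ * ∏ j, (C₁ * (b j - a j)) := mul_le_mul_of_nonneg_left h4 (by positivity)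
      _ ≤ C₁ * N * ∏ j, (C₁ * (b j - a j)) := by
          refine mul_le_mul_of_nonneg_right h3 ?_
          rw [h5]
          positivity
      _ = C₁ ^ (k + 1) * (∏ j, (b j - a j)) * N := by
          rw [h5]
          ring
  calc (CT (xs α) N a b : ℝ) ≤ (#T : ℝ) := by exact_mod_cast hCT
    _ ≤ (1 + C) * BB ℓ k (fun j => -(b j) / N) (fun j => -(a j) / N) := by linarith
    _ ≤ (1 + C) * (C₁ ^ (k + 1) * (∏ j, (b j - a j)) * N) :=
        mul_le_mul_of_nonneg_left hBB (by positivity)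
    _ = (1 + C) * C₁ ^ (k + 1) * (∏ j, (b j - a j)) * N := by ring

end Pool.Agent.H47.WS
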