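import Pool.Agent.H47.WS.Mom

/-!
JOB CB-3. `mom_single` with `δ` independent of the window, and an upper bound for `V1`.
-/

set_option autoImplicit false

open Finset Filter Topology

namespace Pool.Agent.H47.WS

open Pool.Agent.H16 Pool.Agent.H81.AS

theorem mom_abs (p : ℕ) (hp : 1 ≤ p) : ∃ δ : ℝ, 0 < δ ∧ δ ≤ 1 / 2 ∧ ∀ lam : ℝ, 0 < lam →
    ∀ᶠ ℓ : ℝ in atTop, ∀ Γ : Finset ℕ, Win lam ℓ Γ → ∀ e b : ℕ, ∀ U : Finset ℕ,
      U ⊆ Po Γ ℓ e b → #U = p →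
      ∑ n ∈ Sb ℓ e b, ro (PP δ ℓ e) U n ≤ 5 * (Real.exp ℓ / (WW ℓ e : ℝ)) * V1 δ ℓ e ^ p := by
  obtain ⟨C0, hC0, hfl⟩ := flp_exists
  obtain ⟨cv, hcv, hV⟩ := V1_bounds
  set s : ℕ := C0 * (2 * p) with hs
  have hFL : FLP (2 * p) s := hfl (2 * p) s (by omega) le_rfl
  have hs0 : (0 : ℝ) ≤ s := Nat.cast_nonneg _
  obtain ⟨δ, hδ, hδ0, hδh⟩ : ∃ δ : ℝ, 0 < δ ∧ δ ≤ 1 / (8 * (8 * (s : ℝ) + 10)) ∧ δ ≤ 1 / 2 := by
    refine ⟨1 / (8 * (8 * (s : ℝ) + 10)), by positivity, le_rfl, ?_⟩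
    exact one_div_le_one_div_of_le two_pos (by linarith)
  refine ⟨δ, hδ, hδh, ?_⟩
  intro lam hlam
  have hlev : 4 * (1 / 32 : ℝ) + δ * (8 * (s : ℝ) + 10) < 1 / 2 := by
    have : δ * (8 * (s : ℝ) + 10) ≤ 1 / 8 := by
      calc δ * (8 * (s : ℝ) + 10) ≤ 1 / (8 * (8 * (s : ℝ) + 10)) * (8 * (s : ℝ) + 10) :=
            mul_le_mul_of_nonneg_right hδ0 (by positivity)
        _ = 1 / 8 := by field_simp
    linarith
  have hrem := rem_int (K := p) (s := s) (δ := δ) (υ := δ) (τ := 1 / 32) hδ (by norm_num) hlev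
  have hδ1 : δ ≤ 1 := by
    refine hδ0.trans ?_
    rw [div_le_one (by positivity)]
    nlinarith
  have hvv := vv_comp p hlam hδ hδ1 (ε := 1) one_pos
  have hwz := ev_zf (4 * (p : ℝ))
  have hzz := ev_zz hδ 0
  have hWW := ev_WW (ε := 1 / 8) (by norm_num)
  have hVb := hV δ hδ
  have hfin : ∀ᶠ ℓ : ℝ in atTop, (1 + 2 * (δ * ℓ)) * Real.exp (ℓ / 2) ≤
      Real.exp (7 / 8 * ℓ) * (cv / (δ * ℓ)) ^ p := by
    have hlo := isLittleO_pow_exp_pos_mul_atTop (p + 1) (b := 3 / 8) (by norm_num)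
    have hc1 : 0 < (1 / ((1 + 2 * δ) * (δ / cv) ^ p) : ℝ) := by positivity
    filter_upwards [hlo.def hc1, eventually_ge_atTop 1] with ℓ h1 h2
    have hℓ : 0 < ℓ := by linarith
    rw [Real.norm_of_nonneg (by positivity), Real.norm_of_nonneg (by positivity)] at h1
    have h3 : (1 + 2 * δ) * (δ / cv) ^ p * ℓ ^ (p + 1) ≤ Real.exp (3 / 8 * ℓ) := by
      have := mul_le_mul_of_nonneg_left h1 (show 0 ≤ (1 + 2 * δ) * (δ / cv) ^ p by positivity)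
      refine this.trans (le_of_eq ?_)
      field_simp
    have h4 : (1 + 2 * (δ * ℓ)) ≤ (1 + 2 * δ) * ℓ := by nlinarith
    have h5 : Real.exp (7 / 8 * ℓ) = Real.exp (ℓ / 2) * Real.exp (3 / 8 * ℓ) := by
      rw [← Real.exp_add]; congr 1; ring
    rw [h5]
    calc (1 + 2 * (δ * ℓ)) * Real.exp (ℓ / 2) ≤ (1 + 2 * δ) * ℓ * Real.exp (ℓ / 2) :=
          mul_le_mul_of_nonneg_right h4 (Real.exp_pos _).le
      _ = Real.exp (ℓ / 2) * ((1 + 2 * δ) * (δ / cv) ^ p * ℓ ^ (p + 1)) * (cv / (δ * ℓ)) ^ p := by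
          rw [div_pow, div_pow, mul_pow]
          field_simp
          ring
      _ ≤ Real.exp (ℓ / 2) * Real.exp (3 / 8 * ℓ) * (cv / (δ * ℓ)) ^ p := by
          apply mul_le_mul_of_nonneg_right _ (by positivity)
          exact mul_le_mul_of_nonneg_left h3 (Real.exp_pos _).le
  filter_upwards [hrem, hvv, hwz, hzz, hWW, hVb, hfin, eventually_gt_atTop 0] with
    ℓ hrem hvv hwz hzz hWW hVb hfin hℓ Γ hΓ e b U hU hUp
  have hUI : U ⊆ Γ := hU.trans (Finset.filter_subset _ _)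
  obtain ⟨hwz1, hwz2⟩ := hwz
  obtain ⟨hz1, -, hz3, hz4, -, -⟩ := hzz
  have hWpos : (0 : ℝ) < WW ℓ e := by exact_mod_cast WW_pos ℓ e
  set X : ℝ := Real.exp ℓ / (WW ℓ e : ℝ) with hX
  have hXpos : 0 < X := by positivity
  set z : ℕ := zz δ ℓ with hz
  have hD := dist_int (e := e) (υ := δ) (Γ := Γ) hz1 b ((z : ℝ) ^ (4 * s + 5) * ((∏ q ∈ prs (∅ : Finset (ℕ × ℕ)) ∪ prs (∅ : Finset (ℕ × ℕ)), q : ℕ) : ℝ))
  have hpb := pair_bound (K := p) (s := s) hFL (w := zf ℓ) (z := z) hwz1 hwz2 hz1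
    (P := PP δ ℓ e) (Q := QQ δ δ ℓ e Γ) (Z := ∅) (U := U) (S := Sb ℓ e b)
    (Finset.erase_subset _ _) (by
      intro q hq
      have := mem_QQ.1 hq
      exact ⟨this.2.2.2.1, this.2.1⟩) (by simp) hUp.le hD
    (E := ∅) (E' := ∅) (by simp) (by simp) le_rfl
  have hprs : prs (∅ : Finset (ℕ × ℕ)) = ∅ := by simp [prs]
  simp only [hprs, Finset.union_empty, Finset.prod_empty, mul_one, one_mul, gE] at hpb
  have hvU := hvv Γ hΓ e ∅ U (by simp) hUI (by simp) (by simp) hUp.le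
  rw [hUp, one_mul] at hvU
  have hremE := hrem Γ e
  have hsing : ∑ D ∈ (PP δ ℓ e).powerset.filter (fun D => (∏ p ∈ D, p) ≤ zz δ ℓ ^ (4 * s + 5)),
            (p : ℝ) ^ #D * 2 ≤ Real.exp (ℓ / 2) := by
    refine le_trans ?_ hremE
    have h0 : (∅ : Finset ℕ) ∈ (QQ δ δ ℓ e Γ).powerset.filter
        (fun Q' => ((∏ p ∈ Q', p : ℕ) : ℝ) ≤ Real.exp ((1 / 32) * ℓ) ^ 2) := by
      simp only [Finset.mem_filter, Finset.empty_mem_powerset, Finset.prod_empty, Nat.cast_one, true_and]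
      exact one_le_pow₀ (Real.one_le_exp (by positivity))
    have := Finset.single_le_sum (f := fun Q' => (24 * (p : ℝ)) ^ #Q' *
          ∑ D ∈ (PP δ ℓ e).powerset.filter (fun D => (∏ p ∈ D, p) ≤ zz δ ℓ ^ (4 * s + 5)),
            (p : ℝ) ^ #D * 2) (fun i _ => by positivity) h0
    simpa using this
  have hVpos := V1_pos δ ℓ e
  have hVlow := (hVb e).2.2
  have hXlow : Real.exp (7 / 8 * ℓ) ≤ X := by
    rw [hX, le_div_iff₀ hWpos]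
    calc Real.exp (7 / 8 * ℓ) * (WW ℓ e : ℝ) ≤ Real.exp (7 / 8 * ℓ) * Real.exp (1 / 8 * ℓ) :=
          mul_le_mul_of_nonneg_left (hWW e).1 (Real.exp_pos _).le
      _ = Real.exp ℓ := by rw [← Real.exp_add]; congr 1; ring
  rw [← hz] at hsing
  generalize hSD : (∑ D ∈ (PP δ ℓ e).powerset with ∏ q ∈ D, q ≤ z ^ (4 * s + 5), (p : ℝ) ^ #D * 2) = SD
    at hpb hsing
  have hSD0 : 0 ≤ SD := by
    rw [← hSD]; apply Finset.sum_nonneg; intro i _; positivity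
  have hR : (1 + 2 * Real.log z) * SD ≤ X * V1 δ ℓ e ^ p := by
    have hlz : 0 ≤ Real.log z := le_trans (by positivity) hz3
    calc (1 + 2 * Real.log z) * SD
        ≤ (1 + 2 * (δ * ℓ)) * Real.exp (ℓ / 2) := by
          apply mul_le_mul (by linarith) hsing hSD0
          positivity
      _ ≤ Real.exp (7 / 8 * ℓ) * (cv / (δ * ℓ)) ^ p := hfin
      _ ≤ X * V1 δ ℓ e ^ p := by
          apply mul_le_mul hXlow _ (by positivity) hXpos.le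
          exact pow_le_pow_left₀ (by positivity) hVlow p
  have hvv1 : VV (PP δ ℓ e) ∅ U ≤ 2 * V1 δ ℓ e ^ p := by
    have := (abs_le.1 hvU).2
    linarith
  have h12 : (1 / 2 : ℝ) ^ s ≤ 1 := pow_le_one₀ (by norm_num) (by norm_num)
  have h12' : (0 : ℝ) ≤ (1 / 2 : ℝ) ^ s := by positivity
  have hVVnn : 0 ≤ VV (PP δ ℓ e) ∅ U := by
    have := (abs_le.1 hvU).1
    linarith
  have hb := (abs_le.1 hpb).2
  have hXV : 0 ≤ X * VV (PP δ ℓ e) ∅ U := by positivity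
  have hXV2 : X * VV (PP δ ℓ e) ∅ U ≤ X * (2 * V1 δ ℓ e ^ p) :=
    mul_le_mul_of_nonneg_left hvv1 hXpos.le
  have hh : (1 / 2 : ℝ) ^ s * (X * VV (PP δ ℓ e) ∅ U) ≤ X * VV (PP δ ℓ e) ∅ U := by
    nlinarith
  nlinarith

theorem V1_upper : ∃ C : ℝ, 0 < C ∧ ∀ δ : ℝ, 0 < δ → ∀ᶠ ℓ : ℝ in atTop, ∀ e : ℕ,
    V1 δ ℓ e ≤ C * (Real.log ℓ / (δ * ℓ)) := by
  obtain ⟨c, hc, hV⟩ := Vp_ge
  obtain ⟨c', hc', hVb⟩ := V1_bounds
  refine ⟨4 / c, by positivity, fun δ hδ => ?_⟩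
  filter_upwards [hVb δ hδ, ev_z, eventually_gt_atTop (0 : ℝ)] with ℓ hb hz hℓ e
  obtain ⟨hz1, hz2, -⟩ := hz
  have hlz : 0 < Real.log (zf ℓ) := by linarith
  have hlℓ : 0 < Real.log ℓ := by linarith
  have h2 : 2 ≤ zf ℓ := two_le_of_log_pos hlz
  have hφ : c / Real.log ℓ ≤ (((WW ℓ e).totient : ℕ) : ℝ) / (WW ℓ e : ℝ) := by
    rw [WW_totient_ratio]
    have h3 := (hV (zf ℓ) h2).trans
      (prod_erase_bounds (s := Nat.primesLE (zf ℓ)) (fun p hp => (Nat.mem_primesLE.1 hp).2) e).1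
    exact (div_le_div_of_nonneg_left hc.le hlz hz2).trans h3
  have hV1 := V1_pos δ ℓ e
  have h4 : V1 δ ℓ e * (c / Real.log ℓ) ≤ 4 / (δ * ℓ) :=
    (mul_le_mul_of_nonneg_left hφ hV1.le).trans (hb e).2.1
  have h5 : 0 < c / Real.log ℓ := by positivity
  calc V1 δ ℓ e ≤ (4 / (δ * ℓ)) / (c / Real.log ℓ) := by rwa [le_div_iff₀ h5]
    _ = 4 / c * (Real.log ℓ / (δ * ℓ)) := by field_simp

end Pool.Agent.H47.WS
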