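import Pool.Agent.H47.WS.CWin
import Pool.Agent.H47.WS.CMom
import Pool.Agent.H47.WS.ALab
import Pool.Agent.H47.WS.AWin

/-!
JOB CB-5. The tuples without small primes.
-/

set_option autoImplicit false

open Finset Filter Topology

namespace Pool.Agent.H47.WS

open Pool.Agent.H16 Pool.Agent.H81.AS Pool.Agent.H1.PP

theorem cm_ro_nonneg (P U : Finset ℕ) (n : ℕ) : 0 ≤ ro P U n := by
  unfold ro
  refine prod_nonneg (fun p _ => ?_)
  unfold hit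
  split_ifs <;> norm_num

theorem cm_ro_one {P U : Finset ℕ} {n : ℕ} (h : ∀ p ∈ P, ∀ x ∈ U, ¬ p ∣ n + x) : ro P U n = 1 := by
  unfold ro
  apply prod_eq_one
  intro p hp
  have h0 : hit U n p = 0 := by
    unfold hit
    rw [if_neg]
    rintro ⟨x, hx, hd⟩
    exact h p hp x hx hd
  rw [h0, sub_zero]

theorem cm_mem_GZ {α : ℝ} {X : ℕ} {w : ℝ} {h : ℤ} : h ∈ GZ α X w ↔ (-(X : ℤ) ≤ h ∧ h ≤ X) ∧ |sg (h * α)| ≤ w := by
  rw [GZ, Finset.mem_filter, Finset.mem_Icc]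

theorem cm_WI_sub {α : ℝ} {X : ℕ} {u v w : ℝ} (hu : |u| ≤ w) (hv : |v| ≤ w) : WI α X u v ⊆ GZ α X w := by
  intro h hh
  unfold WI at hh
  rw [mem_filter, mem_Icc] at hh
  rw [cm_mem_GZ]
  refine ⟨hh.1, ?_⟩
  rw [abs_le] at hu hv ⊢
  constructor
  · linarith [hh.2.1]
  · linarith [hh.2.2]

theorem cm_lab_inj {α E w : ℝ} {X M : ℕ} (hX : (X : ℝ) ≤ E) (hM : 6 * E < M) :
    Set.InjOn (lab M) (GZ α X w : Set ℤ) := by
  intro g hg g' hg' hgg
  obtain ⟨⟨h1, h2⟩, -⟩ := cm_mem_GZ.1 (Finset.mem_coe.1 hg)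
  obtain ⟨⟨h3, h4⟩, -⟩ := cm_mem_GZ.1 (Finset.mem_coe.1 hg')
  have hX0 : (0 : ℝ) ≤ X := Nat.cast_nonneg X
  have hXM : (2 * X : ℕ) < M := by
    have : ((2 * X : ℕ) : ℝ) < M := by
      push_cast
      linarith
    exact_mod_cast this
  rcases lt_or_ge g 0 with a | a
  · have e1 := lab_neg M a (by omega)
    rcases lt_or_ge g' 0 with b | b
    · have e2 := lab_neg M b (by omega)
      rw [hgg] at e1
      omega
    · have e2 := lab_nonneg M b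
      rw [hgg] at e1
      omega
  · have e1 := lab_nonneg M a
    rcases lt_or_ge g' 0 with b | b
    · have e2 := lab_neg M b (by omega)
      rw [hgg] at e1
      omega
    · have e2 := lab_nonneg M b
      rw [hgg] at e1
      omega

/-- the admissible shifts for the class `b` -/
noncomputable def cmH (α ℓ : ℝ) (X k : ℕ) (u v : Fin k → ℝ) (b : ℕ) : Finset (Fin k → ℤ) :=
  (Fintype.piFinset (fun j => (WI α X (u j) (v j)).filter
    (fun h => ∀ p ∈ (Nat.primesLE (zf ℓ)).erase 0, ¬ (p : ℤ) ∣ (b : ℤ) + h))).filter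
    (fun h => Function.Injective h ∧ ∀ j, h j ≠ 0)

open Classical in
/-- the integers of the class `b` such that `n` and all `n + h j` are large primes -/
noncomputable def cmN (δ ℓ : ℝ) (k : ℕ) (b : ℕ) (h : Fin k → ℤ) : Finset ℕ :=
  (Sb ℓ 0 b).filter (fun n => (n.Prime ∧ zz δ ℓ < n) ∧ ∀ j, ∃ q : ℕ, (q : ℤ) = n + h j ∧ q.Prime ∧ zz δ ℓ < q)

theorem cm_cover {k : ℕ} {α δ ℓ : ℝ} {X : ℕ} {u v : Fin k → ℝ} (hz : zf ℓ ≤ zz δ ℓ)
    (hXE : (X : ℝ) ≤ Real.exp ℓ) :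
    (TU α X k u v).filter (fun f => ∀ i, zz δ ℓ < f i) ⊆
      ((range (WW ℓ 0)).filter (fun b => (WW ℓ 0).Coprime b)).biUnion (fun b =>
        (cmH α ℓ X k u v b).biUnion (fun h => (cmN δ ℓ k b h).image
          (fun n => (Fin.cons n (fun j => ((n : ℤ) + h j).toNat) : Fin (k + 1) → ℕ)))) := by
  classical
  intro f hf
  rw [mem_filter] at hf
  obtain ⟨hf1, hbig⟩ := hf
  unfold TU at hf1
  rw [mem_filter, Fintype.mem_piFinset] at hf1
  obtain ⟨hpr, hinj, hWI⟩ := hf1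
  have hpr' : ∀ i, (1 ≤ f i ∧ f i ≤ X) ∧ (f i).Prime := by
    intro i
    have := hpr i
    rwa [mem_filter, mem_Icc] at this
  have hW := WW_pos ℓ 0
  have hnd : ∀ i, ∀ p : ℕ, p.Prime → p ≤ zf ℓ → ¬ p ∣ f i := by
    intro i p hp hpz hd
    have h1 := (Nat.prime_dvd_prime_iff_eq hp (hpr' i).2).1 hd
    have h2 := hbig i
    omega
  have hmod : ∀ p : ℕ, p ∣ WW ℓ 0 → ((p : ℤ) ∣ ((f 0 % WW ℓ 0 : ℕ) : ℤ) - f 0) := by
    intro p hp
    have h1 : ((WW ℓ 0 : ℕ) : ℤ) ∣ ((f 0 % WW ℓ 0 : ℕ) : ℤ) - f 0 := by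
      have h2 : f 0 % WW ℓ 0 ≡ f 0 [MOD WW ℓ 0] := Nat.mod_modEq _ _
      have h3 := (Nat.modEq_iff_dvd.1 h2)
      have h4 : ((f 0 % WW ℓ 0 : ℕ) : ℤ) - f 0 = -((f 0 : ℤ) - ((f 0 % WW ℓ 0 : ℕ) : ℤ)) := by ring
      rw [h4]
      exact (dvd_neg).2 h3
    exact (Int.natCast_dvd_natCast.2 hp).trans h1
  rw [mem_biUnion]
  refine ⟨f 0 % WW ℓ 0, ?_, ?_⟩
  · rw [mem_filter, mem_range]
    refine ⟨Nat.mod_lt _ hW, ?_⟩
    show Nat.gcd (WW ℓ 0) (f 0 % WW ℓ 0) = 1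
    rw [Nat.gcd_comm, ← Nat.gcd_rec]
    refine Nat.Coprime.symm ?_
    rw [Nat.Prime.coprime_iff_not_dvd (hpr' 0).2]
    intro hd
    have := ((prime_dvd_WW (hpr' 0).2).1 hd).1
    exact hnd 0 _ (hpr' 0).2 this dvd_rfl
  · rw [mem_biUnion]
    refine ⟨fun j => (f j.succ : ℤ) - f 0, ?_, ?_⟩
    · unfold cmH
      rw [mem_filter, Fintype.mem_piFinset]
      refine ⟨?_, ?_, ?_⟩
      · intro j
        rw [mem_filter]
        refine ⟨hWI j, ?_⟩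
        intro p hp hd
        have hpp : p.Prime := Nat.prime_of_mem_primesLE (mem_of_mem_erase hp)
        have hpz : p ≤ zf ℓ := Nat.le_of_mem_primesLE (mem_of_mem_erase hp)
        have hpW : p ∣ WW ℓ 0 := (prime_dvd_WW hpp).2 ⟨hpz, hpp.ne_zero⟩
        have h1 := hmod p hpW
        have h2 : (p : ℤ) ∣ (f j.succ : ℤ) := by
          have e : (f j.succ : ℤ) = (((f 0 % WW ℓ 0 : ℕ) : ℤ) + ((f j.succ : ℤ) - f 0)) -
            (((f 0 % WW ℓ 0 : ℕ) : ℤ) - f 0) := by ring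
          rw [e]
          exact dvd_sub hd h1
        exact hnd _ p hpp hpz (Int.natCast_dvd_natCast.1 h2)
      · intro i j hij
        have h1 : (f i.succ : ℤ) = f j.succ := by
          have : (f i.succ : ℤ) - f 0 = (f j.succ : ℤ) - f 0 := hij
          linarith
        have h2 : f i.succ = f j.succ := by exact_mod_cast h1
        exact Fin.succ_injective _ (hinj h2)
      · intro j hj
        have h1 : (f j.succ : ℤ) = f 0 := by linarith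
        have h2 : f j.succ = f 0 := by exact_mod_cast h1
        exact Fin.succ_ne_zero j (hinj h2)
    · rw [mem_image]
      refine ⟨f 0, ?_, ?_⟩
      · unfold cmN Sb
        rw [mem_filter, mem_filter, mem_Ioc]
        refine ⟨⟨⟨(hpr' 0).1.1, ?_⟩, ?_⟩, ⟨(hpr' 0).2, hbig 0⟩, ?_⟩
        · apply Nat.le_floor
          refine le_trans ?_ hXE
          exact_mod_cast (hpr' 0).1.2
        · exact (Nat.mod_modEq _ _).symm
        · intro j
          exact ⟨f j.succ, by ring, (hpr' _).2, hbig _⟩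
      · funext i
        refine Fin.cases ?_ (fun j => ?_) i
        · rfl
        · rw [Fin.cons_succ]
          have e : ((f 0 : ℤ) + ((f j.succ : ℤ) - f 0)) = (f j.succ : ℤ) := by ring
          rw [e]
          rfl

theorem cm_inner {k : ℕ} {α δ ℓ w : ℝ} {X M : ℕ} {u v : Fin k → ℝ} (hw : 0 ≤ w)
    (hzE : (zz δ ℓ : ℝ) ≤ Real.exp ℓ) (hz : zf ℓ ≤ zz δ ℓ)
    (hXE : (X : ℝ) ≤ Real.exp ℓ) (hsub : ∀ j, WI α X (u j) (v j) ⊆ GZ α X w)
    (hM : 6 * Real.exp ℓ < M) (hMp : ∀ p : ℕ, p.Prime → (p : ℝ) ≤ Real.exp ℓ → p ∣ M)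
    (hmom : ∀ e b : ℕ, ∀ U : Finset ℕ,
      U ⊆ Po ((GZ α X w).image (lab M)) ℓ e b → #U = k + 1 →
      ∑ n ∈ Sb ℓ e b, ro (PP δ ℓ e) U n ≤ 5 * (Real.exp ℓ / (WW ℓ e : ℝ)) * V1 δ ℓ e ^ (k + 1))
    {b : ℕ} (hb : (WW ℓ 0).Coprime b) {h : Fin k → ℤ} (hh : h ∈ cmH α ℓ X k u v b) :
    (#(cmN δ ℓ k b h) : ℝ) ≤ 5 * (Real.exp ℓ / (WW ℓ 0 : ℝ)) * V1 δ ℓ 0 ^ (k + 1) := by
  classical
  unfold cmH at hh
  rw [mem_filter, Fintype.mem_piFinset] at hh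
  obtain ⟨hh1, hinj, hne⟩ := hh
  have hG : ∀ g ∈ insert 0 (univ.image h), g ∈ GZ α X w := by
    intro g hg
    rw [mem_insert, mem_image] at hg
    rcases hg with rfl | ⟨j, -, rfl⟩
    · rw [cm_mem_GZ]
      refine ⟨⟨by omega, by omega⟩, ?_⟩
      have : sg (((0 : ℤ) : ℝ) * α) = 0 := by
        rw [Int.cast_zero, zero_mul]
        simp [sg]
      rw [this, abs_zero]
      exact hw
    · exact hsub j (mem_filter.1 (hh1 j)).1
  have hX0 : (0 : ℝ) ≤ X := Nat.cast_nonneg X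
  have hXM : X < M := by
    have : (X : ℝ) < M := by
      linarith
    exact_mod_cast this
  have hGM : ∀ g ∈ GZ α X w, -g ≤ (M : ℤ) := by
    intro g hg
    have := (cm_mem_GZ.1 hg).1.1
    omega
  have hndb : ∀ g ∈ insert 0 (univ.image h), ∀ p ∈ (Nat.primesLE (zf ℓ)).erase 0, ¬ (p : ℤ) ∣ (b : ℤ) + g := by
    intro g hg p hp
    rw [mem_insert, mem_image] at hg
    rcases hg with rfl | ⟨j, -, rfl⟩
    · rw [add_zero]
      intro hd
      have hpp : p.Prime := Nat.prime_of_mem_primesLE (mem_of_mem_erase hp)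
      have hpz : p ≤ zf ℓ := Nat.le_of_mem_primesLE (mem_of_mem_erase hp)
      have hpW : p ∣ WW ℓ 0 := (prime_dvd_WW hpp).2 ⟨hpz, hpp.ne_zero⟩
      have hpb : p ∣ b := Int.natCast_dvd_natCast.1 hd
      exact hpp.one_lt.ne' (Nat.dvd_one.1 (hb ▸ Nat.dvd_gcd hpW hpb))
    · exact (mem_filter.1 (hh1 j)).2 p hp
  set U : Finset ℕ := (insert 0 (univ.image h)).image (lab M) with hU
  have hUcard : #U = k + 1 := by
    rw [hU, card_image_of_injOn]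
    · rw [card_insert_of_notMem, card_image_of_injective _ hinj, card_univ, Fintype.card_fin]
      rw [mem_image]
      rintro ⟨j, -, hj⟩
      exact hne j hj
    · exact (cm_lab_inj hXE hM).mono (fun g hg => Finset.mem_coe.2 (hG g (Finset.mem_coe.1 hg)))
  have hUsub : U ⊆ Po ((GZ α X w).image (lab M)) ℓ 0 b := by
    intro x hx
    rw [hU, mem_image] at hx
    obtain ⟨g, hg, rfl⟩ := hx
    unfold Po
    rw [mem_filter]
    refine ⟨mem_image_of_mem _ (hG g hg), ?_⟩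
    refine Nat.coprime_of_dvd ?_
    intro p hpp hd1 hd2
    obtain ⟨hpz, hp0⟩ := (prime_dvd_WW hpp).1 hd2
    have hpE : (p : ℝ) ≤ Real.exp ℓ := by
      refine le_trans ?_ hzE
      exact_mod_cast hpz.trans hz
    have hd3 := (lab_dvd_iff (hGM g (hG g hg)) (hMp p hpp hpE) b).1 hd1
    exact hndb g hg p (mem_erase.2 ⟨hp0, Nat.mem_primesLE.2 ⟨hpz, hpp⟩⟩) hd3
  have hm := hmom 0 b U hUsub hUcard
  refine le_trans ?_ hm
  have h1 : (#(cmN δ ℓ k b h) : ℝ) = ∑ n ∈ cmN δ ℓ k b h, ro (PP δ ℓ 0) U n := by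
    rw [Finset.card_eq_sum_ones, Nat.cast_sum]
    refine sum_congr rfl (fun n hn => ?_)
    unfold cmN at hn
    rw [mem_filter] at hn
    obtain ⟨-, ⟨hn1, hn2⟩, hn3⟩ := hn
    rw [cm_ro_one, Nat.cast_one]
    intro p hp x hx hd
    obtain ⟨hp1, hp2, hpp⟩ := mem_primesIoc.1 (mem_of_mem_erase hp)
    have hpE : (p : ℝ) ≤ Real.exp ℓ := by
      refine le_trans ?_ hzE
      exact_mod_cast hp2
    rw [hU, mem_image] at hx
    obtain ⟨g, hg, rfl⟩ := hx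
    have hd3 := (lab_dvd_iff (hGM g (hG g hg)) (hMp p hpp hpE) n).1 hd
    rw [mem_insert, mem_image] at hg
    rcases hg with rfl | ⟨j, -, rfl⟩
    · rw [add_zero] at hd3
      have h4 := (Nat.prime_dvd_prime_iff_eq hpp hn1).1 (Int.natCast_dvd_natCast.1 hd3)
      omega
    · obtain ⟨q, hq1, hq2, hq3⟩ := hn3 j
      rw [← hq1] at hd3
      have h4 := (Nat.prime_dvd_prime_iff_eq hpp hq2).1 (Int.natCast_dvd_natCast.1 hd3)
      omega
  rw [h1]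
  refine sum_le_sum_of_subset_of_nonneg ?_ (fun n _ _ => cm_ro_nonneg _ _ _)
  exact filter_subset _ _

theorem main_sum (k : ℕ) : ∃ δ C : ℝ, 0 < δ ∧ δ ≤ 1 / 2 ∧ 0 < C ∧ ∀ c α s₁ s₂ : ℝ, 0 < c → BA c α → 0 < s₁ →
    0 < s₂ → ∀ᶠ ℓ : ℝ in atTop, ∀ (X : ℕ) (u v : Fin k → ℝ), HW s₁ s₂ ℓ X k u v →
      (#((TU α X k u v).filter (fun f => ∀ i, zz δ ℓ < f i)) : ℝ) ≤ C * BB ℓ k u v := by
  classical
  obtain ⟨δ, hδ, hδ2, hmom⟩ := mom_abs (k + 1) (by omega)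
  obtain ⟨Cs, hCs, hsieve⟩ := win_sieve
  obtain ⟨Cv, hCv, hV⟩ := V1_upper
  obtain ⟨c₁, hc₁, hVb⟩ := V1_bounds
  refine ⟨δ, 20 / δ * (Cs * Cv / δ) ^ k, hδ, hδ2, by positivity, ?_⟩
  intro c α s₁ s₂ hc hα hs₁ hs₂
  obtain ⟨lam, hlam, hwin⟩ := winZ_lattice hc hα hs₂
  filter_upwards [hmom lam hlam, hsieve c α s₁ hc hα hs₁, hV δ hδ, hVb δ hδ, hwin, win_lab hlam,
    ev_zz hδ 1, eventually_gt_atTop (0 : ℝ), Real.tendsto_log_atTop.eventually_gt_atTop (0 : ℝ)]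
    with ℓ h1 h2 h3 h4 h5 h6 h7 h8 h9 X u v hHW
  obtain ⟨hz, -, -, -, hzE, -⟩ := h7
  have hE := Real.exp_pos ℓ
  have hzE' : (zz δ ℓ : ℝ) ≤ Real.exp ℓ := by
    refine hzE.trans (Real.exp_le_exp.2 ?_)
    nlinarith
  set w : ℝ := s₂ * ℓ / Real.exp ℓ with hw
  have hw0 : 0 ≤ w := by positivity
  have hsub : ∀ j, WI α X (u j) (v j) ⊆ GZ α X w := by
    intro j
    apply cm_WI_sub
    · rw [hw, le_div_iff₀ hE]
      exact hHW.u1 j
    · rw [hw, le_div_iff₀ hE]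
      exact hHW.v1 j
  have hWZ : WinZ lam ℓ (GZ α X w) := by
    apply h5 X w
    · have := hHW.X1
      linarith
    · rw [hw, div_mul_cancel₀ _ hE.ne']
  set M : ℕ := (6 * ⌈Real.exp ℓ⌉₊ + 1) * primorial ⌊Real.exp ℓ⌋₊ with hMdef
  have hM : 6 * Real.exp ℓ < M := by
    have h1 : (1 : ℕ) ≤ primorial ⌊Real.exp ℓ⌋₊ := primorial_pos _
    have h2 : (6 * ⌈Real.exp ℓ⌉₊ + 1) ≤ M := by
      rw [hMdef]; exact Nat.le_mul_of_pos_right _ h1
    have h3 : ((6 * ⌈Real.exp ℓ⌉₊ + 1 : ℕ) : ℝ) ≤ M := by exact_mod_cast h2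
    push_cast at h3
    linarith [Nat.le_ceil (Real.exp ℓ)]
  have hMp : ∀ p : ℕ, p.Prime → (p : ℝ) ≤ Real.exp ℓ → p ∣ M := by
    intro p hp hpe
    have h1 : p ≤ ⌊Real.exp ℓ⌋₊ := Nat.le_floor hpe
    exact Dvd.dvd.mul_left (hp.dvd_primorial_iff.2 h1) _
  have hWin := h6 _ hWZ M hMp hM
  have hmom' := h1 _ hWin
  set K : ℝ := 5 * (Real.exp ℓ / (WW ℓ 0 : ℝ)) * V1 δ ℓ 0 ^ (k + 1) with hK
  have hWpos : (0 : ℝ) < WW ℓ 0 := by exact_mod_cast WW_pos ℓ 0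
  have hV1 := V1_pos δ ℓ 0
  have hK0 : 0 ≤ K := by positivity
  have hcard1 : (#((TU α X k u v).filter (fun f => ∀ i, zz δ ℓ < f i)) : ℝ) ≤
      ∑ b ∈ (range (WW ℓ 0)).filter (fun b => (WW ℓ 0).Coprime b),
        ∑ h ∈ cmH α ℓ X k u v b, (#(cmN δ ℓ k b h) : ℝ) := by
    have e1 := card_le_card (cm_cover (k := k) (α := α) (u := u) (v := v) hz hHW.X1)
    have e2 : #((TU α X k u v).filter (fun f => ∀ i, zz δ ℓ < f i)) ≤
      ∑ b ∈ (range (WW ℓ 0)).filter (fun b => (WW ℓ 0).Coprime b),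
        ∑ h ∈ cmH α ℓ X k u v b, #(cmN δ ℓ k b h) := by
      refine e1.trans (card_biUnion_le.trans (sum_le_sum fun b _ => ?_))
      exact card_biUnion_le.trans (sum_le_sum fun h _ => card_image_le)
    exact_mod_cast e2
  set R : ℝ := ∏ j : Fin k, (Cs * ((v j - u j) * Real.exp ℓ / Real.log ℓ)) with hR
  have hvu : ∀ j, 0 < v j - u j := by
    intro j
    have h10 := hHW.len j
    have h11 : 0 < s₁ * ℓ := by positivity
    by_contra hneg
    push Not at hneg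
    nlinarith
  have hR0 : 0 ≤ R := prod_nonneg fun j _ => by
    have := hvu j
    positivity
  have hHcard : ∀ b : ℕ, (#(cmH α ℓ X k u v b) : ℝ) ≤ R := by
    intro b
    have e1 : #(cmH α ℓ X k u v b) ≤ ∏ j : Fin k, #((WI α X (u j) (v j)).filter
        (fun h => ∀ p ∈ (Nat.primesLE (zf ℓ)).erase 0, ¬ (p : ℤ) ∣ (b : ℤ) + h)) := by
      unfold cmH
      refine (card_filter_le _ _).trans ?_
      rw [Fintype.card_piFinset]
    have e2 : (#(cmH α ℓ X k u v b) : ℝ) ≤ ∏ j : Fin k, (#((WI α X (u j) (v j)).filter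
        (fun h => ∀ p ∈ (Nat.primesLE (zf ℓ)).erase 0, ¬ (p : ℤ) ∣ (b : ℤ) + h)) : ℝ) := by
      exact_mod_cast e1
    refine e2.trans ?_
    refine prod_le_prod (fun j _ => Nat.cast_nonneg _) (fun j _ => ?_)
    exact h2 X (u j) (v j) hHW.X1 (hHW.len j) 0 b
  have hcard2 : (#((TU α X k u v).filter (fun f => ∀ i, zz δ ℓ < f i)) : ℝ) ≤
      ((WW ℓ 0).totient : ℝ) * (R * K) := by
    refine hcard1.trans ?_
    have e1 : ∀ b ∈ (range (WW ℓ 0)).filter (fun b => (WW ℓ 0).Coprime b),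
        ∑ h ∈ cmH α ℓ X k u v b, (#(cmN δ ℓ k b h) : ℝ) ≤ R * K := by
      intro b hb
      have e2 : ∑ h ∈ cmH α ℓ X k u v b, (#(cmN δ ℓ k b h) : ℝ) ≤
          ∑ _h ∈ cmH α ℓ X k u v b, K := by
        refine sum_le_sum fun h hh => ?_
        exact cm_inner hw0 hzE' hz hHW.X1 hsub hM hMp hmom' (mem_filter.1 hb).2 hh
      refine e2.trans ?_
      rw [sum_const, nsmul_eq_mul]
      exact mul_le_mul_of_nonneg_right (hHcard b) hK0
    refine (sum_le_sum e1).trans ?_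
    rw [sum_const, nsmul_eq_mul, ← Nat.totient_eq_card_coprime]
  refine hcard2.trans ?_
  have hφ := (h4 0).2.1
  have hVu := h3 0
  have hδℓ : 0 < δ * ℓ := by positivity
  have e1 : ((WW ℓ 0).totient : ℝ) * (R * K) =
      5 * Real.exp ℓ * (V1 δ ℓ 0 * (((WW ℓ 0).totient : ℝ) / (WW ℓ 0 : ℝ))) * V1 δ ℓ 0 ^ k * R := by
    rw [hK, pow_succ]
    field_simp
  have e2 : V1 δ ℓ 0 ^ k ≤ (Cv * (Real.log ℓ / (δ * ℓ))) ^ k := pow_le_pow_left₀ hV1.le hVu k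
  have e3 : 5 * Real.exp ℓ * (V1 δ ℓ 0 * (((WW ℓ 0).totient : ℝ) / (WW ℓ 0 : ℝ))) * V1 δ ℓ 0 ^ k * R ≤
      5 * Real.exp ℓ * (4 / (δ * ℓ)) * (Cv * (Real.log ℓ / (δ * ℓ))) ^ k * R := by
    refine mul_le_mul_of_nonneg_right ?_ hR0
    refine mul_le_mul ?_ e2 (by positivity) (by positivity)
    exact mul_le_mul_of_nonneg_left hφ (by positivity)
  rw [e1]
  refine e3.trans (le_of_eq ?_)
  have e4 : R = (Cs / Real.log ℓ) ^ k * ∏ j : Fin k, ((v j - u j) * Real.exp ℓ) := by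
    rw [hR]
    have : ∀ j : Fin k, Cs * ((v j - u j) * Real.exp ℓ / Real.log ℓ) =
        (Cs / Real.log ℓ) * ((v j - u j) * Real.exp ℓ) := fun j => by ring
    rw [prod_congr rfl (fun j _ => this j), prod_mul_distrib, prod_const, card_univ, Fintype.card_fin]
  have e5 : BB ℓ k u v = Real.exp ℓ / ℓ * ((1 / ℓ) ^ k * ∏ j : Fin k, ((v j - u j) * Real.exp ℓ)) := by
    unfold BB
    have : ∀ j : Fin k, (v j - u j) * Real.exp ℓ / ℓ = (1 / ℓ) * ((v j - u j) * Real.exp ℓ) :=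
      fun j => by ring
    rw [prod_congr rfl (fun j _ => this j), prod_mul_distrib, prod_const, card_univ, Fintype.card_fin]
  rw [e4, e5]
  have e6 : (Cv * (Real.log ℓ / (δ * ℓ))) ^ k * (Cs / Real.log ℓ) ^ k = (Cs * Cv / δ) ^ k * (1 / ℓ) ^ k := by
    rw [← mul_pow, ← mul_pow]
    congr 1
    field_simp
  have e7 : 5 * Real.exp ℓ * (4 / (δ * ℓ)) = 20 / δ * (Real.exp ℓ / ℓ) := by
    field_simp
    norm_num
  rw [e7]
  linear_combination (20 / δ * (Real.exp ℓ / ℓ) * ∏ j : Fin k, ((v j - u j) * Real.exp ℓ)) * e6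

end Pool.Agent.H47.WS
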