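import Pool.Agent.H47.WS.CDefs
import Pool.Agent.H47.WS.CArea
import Pool.Agent.H47.WS.ABasis
import Pool.Agent.H47.WS.ASieve
import Pool.Agent.H47.WS.AWin

/-!
JOB CB-2. Elements of a window in a class prime to all small primes, with an absolute constant.
-/

set_option autoImplicit false

open Finset Filter Topology

namespace Pool.Agent.H47.WS

open Pool.Agent.H16 Pool.Agent.H81.AS Pool.Agent.H1.PP

/-- exact coordinates -/
theorem coords_eq {α : ℝ} {q r a b : ℤ} (hdet : q * b - r * a = 1) (h : ℤ) :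
    ∃ x y : ℤ, h = x * q + y * r ∧ sg (h * α) = x * ((q : ℝ) * α - a) + y * ((r : ℝ) * α - b) := by
  have hdR : (q : ℝ) * b - r * a = 1 := by exact_mod_cast hdet
  set g : ℤ := round ((h : ℝ) * α) with hg
  have hs : sg (h * α) = (h : ℝ) * α - g := rfl
  refine ⟨h * b - g * r, q * g - a * h, ?_, ?_⟩
  · linear_combination (-h) * hdet
  · rw [hs]
    push_cast
    linear_combination (-((h : ℝ) * α - g)) * hdR

/-- the fibre of a box -/
theorem CWin_fibre {C0 : ℝ} (hC : ∀ K : ℕ, 2 ≤ K → ∀ q r ν : ℤ, IsCoprime q r → ∀ e : ℕ,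
    (#((range K ×ˢ range K).filter (fun x => ∀ p ∈ (Nat.primesLE K).erase e,
      ¬ (p : ℤ) ∣ ν + x.1 * q + x.2 * r)) : ℝ) ≤ C0 * ((K : ℝ) ^ 2 / Real.log K))
    {K Z : ℕ} (hK : 2 ≤ K) (hKZ : K ≤ Z) {q r ν : ℤ} (hqr : IsCoprime q r) (e : ℕ) (xf yf : ℤ → ℤ)
    (hxy : ∀ h, h = xf h * q + yf h * r) (G : Finset ℤ) (s : ℤ × ℤ)
    (hG : ∀ h ∈ G, ∀ p ∈ (Nat.primesLE Z).erase e, ¬ (p : ℤ) ∣ ν + h)
    (hs : ∀ h ∈ G, (xf h / (K : ℤ), yf h / (K : ℤ)) = s) :
    (#G : ℝ) ≤ C0 * ((K : ℝ) ^ 2 / Real.log K) := by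
  refine le_trans ?_ (hC K hK q r (ν + s.1 * K * q + s.2 * K * r) hqr e)
  have hK0 : (0 : ℤ) < K := by omega
  have h1 : ∀ h ∈ G, xf h = s.1 * K + xf h % K ∧ yf h = s.2 * K + yf h % K := by
    intro h hh
    have h2 := hs h hh
    have h3 : xf h / (K : ℤ) = s.1 := congrArg Prod.fst h2
    have h4 : yf h / (K : ℤ) = s.2 := congrArg Prod.snd h2
    have h5 := Int.emod_add_mul_ediv (xf h) K
    have h6 := Int.emod_add_mul_ediv (yf h) K
    rw [h3] at h5
    rw [h4] at h6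
    constructor
    · linarith
    · linarith
  have h2 : #G ≤ #((range K ×ˢ range K).filter (fun x => ∀ p ∈ (Nat.primesLE K).erase e,
      ¬ (p : ℤ) ∣ (ν + s.1 * K * q + s.2 * K * r) + x.1 * q + x.2 * r)) := by
    refine Finset.card_le_card_of_injOn (fun h => ((xf h % K).toNat, (yf h % K).toNat)) ?_ ?_
    · intro h hh
      have hh' : h ∈ G := hh
      have e1 := Int.emod_nonneg (xf h) hK0.ne'
      have e2 := Int.emod_lt_of_pos (xf h) hK0
      have e3 := Int.emod_nonneg (yf h) hK0.ne'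
      have e4 := Int.emod_lt_of_pos (yf h) hK0
      have goal : ((xf h % K).toNat, (yf h % K).toNat) ∈
          (range K ×ˢ range K).filter (fun x => ∀ p ∈ (Nat.primesLE K).erase e,
            ¬ (p : ℤ) ∣ (ν + s.1 * K * q + s.2 * K * r) + x.1 * q + x.2 * r) := by
        rw [Finset.mem_filter, Finset.mem_product, Finset.mem_range, Finset.mem_range]
        refine ⟨⟨?_, ?_⟩, ?_⟩
        · show (xf h % K).toNat < K
          omega
        · show (yf h % K).toNat < K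
          omega
        · intro p hp
          obtain ⟨hp1, hp2⟩ := Finset.mem_erase.1 hp
          rw [Nat.mem_primesLE] at hp2
          have h7 := hG h hh' p (Finset.mem_erase.2 ⟨hp1, by
            rw [Nat.mem_primesLE]
            exact ⟨hp2.1.trans hKZ, hp2.2⟩⟩)
          have h8 : (ν + s.1 * K * q + s.2 * K * r) + (((xf h % K).toNat : ℕ) : ℤ) * q +
              (((yf h % K).toNat : ℕ) : ℤ) * r = ν + h := by
            rw [Int.toNat_of_nonneg e1, Int.toNat_of_nonneg e3]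
            obtain ⟨h9, h10⟩ := h1 h hh'
            have h11 := hxy h
            have h12 : xf h % K = xf h - s.1 * K := by linarith
            have h13 : yf h % K = yf h - s.2 * K := by linarith
            rw [h12, h13]
            linear_combination -h11
          show ¬ (p : ℤ) ∣ (ν + s.1 * K * q + s.2 * K * r) + (((xf h % K).toNat : ℕ) : ℤ) * q +
              (((yf h % K).toNat : ℕ) : ℤ) * r
          rw [h8]
          exact h7
      exact goal
    · intro h hh h' hh' heq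
      have hh1 : h ∈ G := hh
      have hh2 : h' ∈ G := hh'
      have e1 := Int.emod_nonneg (xf h) hK0.ne'
      have e3 := Int.emod_nonneg (yf h) hK0.ne'
      have e1' := Int.emod_nonneg (xf h') hK0.ne'
      have e3' := Int.emod_nonneg (yf h') hK0.ne'
      have h3 : (xf h % K).toNat = (xf h' % K).toNat := congrArg Prod.fst heq
      have h4 : (yf h % K).toNat = (yf h' % K).toNat := congrArg Prod.snd heq
      have h5 : xf h % K = xf h' % K := by omega
      have h6 : yf h % K = yf h' % K := by omega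
      obtain ⟨h9, h10⟩ := h1 h hh1
      obtain ⟨h9', h10'⟩ := h1 h' hh2
      have h11 : xf h = xf h' := by rw [h9, h9', h5]
      have h12 : yf h = yf h' := by rw [h10, h10', h6]
      rw [hxy h, hxy h', h11, h12]
  exact_mod_cast h2

theorem CWin_boxes {α A B Q : ℝ} {q r : ℤ} (hq0 : 0 ≤ q) (hr0 : 0 ≤ r) (hqQ : (q : ℝ) ≤ Q)
    (hrQ : (r : ℝ) ≤ Q) (hdet : |(q : ℝ) * B - r * A| = 1) {K : ℕ} (hK : 0 < K) {X u v : ℝ}
    (hX : 0 ≤ X) (huv : u ≤ v) (xf yf : ℤ → ℤ) (hxy : ∀ h, h = xf h * q + yf h * r)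
    (hsg : ∀ h : ℤ, sg (h * α) = xf h * A + yf h * B) (G : Finset ℤ)
    (hG : ∀ h ∈ G, |(h : ℝ)| ≤ X ∧ u ≤ sg (h * α) ∧ sg (h * α) ≤ v) :
    (#(G.image (fun h => (xf h / (K : ℤ), yf h / (K : ℤ)))) : ℝ) * (K : ℝ) ^ 2 ≤
      2 * (X + 2 * K * Q) * ((v + K * (|A| + |B|)) - (u - K * (|A| + |B|))) := by
  have hKR : (0 : ℝ) < K := by exact_mod_cast hK
  have hK0 : (0 : ℤ) < K := by exact_mod_cast hK
  have hqR : (0 : ℝ) ≤ q := by exact_mod_cast hq0
  have hrR : (0 : ℝ) ≤ r := by exact_mod_cast hr0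
  have hQ0 : 0 ≤ Q := hqR.trans hqQ
  have hAB : 0 ≤ (K : ℝ) * (|A| + |B|) := by positivity
  refine boxes_area hdet hKR (by positivity) (by linarith) _ ?_
  intro s hs x y hx1 hx2 hy1 hy2
  obtain ⟨h, hh, rfl⟩ := Finset.mem_image.1 hs
  obtain ⟨g1, g2, g3⟩ := hG h hh
  simp only at hx1 hx2 hy1 hy2
  have a1 : ((xf h / (K : ℤ) : ℤ) : ℝ) * K ≤ xf h := by
    exact_mod_cast Int.ediv_mul_le (xf h) hK0.ne'
  have a2 : (xf h : ℝ) < ((xf h / (K : ℤ) : ℤ) + 1) * K := by
    exact_mod_cast Int.lt_ediv_add_one_mul_self (xf h) hK0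
  have a3 : ((yf h / (K : ℤ) : ℤ) : ℝ) * K ≤ yf h := by
    exact_mod_cast Int.ediv_mul_le (yf h) hK0.ne'
  have a4 : (yf h : ℝ) < ((yf h / (K : ℤ) : ℤ) + 1) * K := by
    exact_mod_cast Int.lt_ediv_add_one_mul_self (yf h) hK0
  have dx : |x - xf h| ≤ K := by
    rw [abs_le]
    constructor
    · nlinarith
    · nlinarith
  have dy : |y - yf h| ≤ K := by
    rw [abs_le]
    constructor
    · nlinarith
    · nlinarith
  have hhR : (h : ℝ) = xf h * q + yf h * r := by exact_mod_cast hxy h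
  have e1 : x * q + y * r = (h : ℝ) + ((x - xf h) * q + (y - yf h) * r) := by
    rw [hhR]
    ring
  have e2 : x * A + y * B = sg (h * α) + ((x - xf h) * A + (y - yf h) * B) := by
    rw [hsg h]
    ring
  have b1 : |(x - xf h) * A + (y - yf h) * B| ≤ K * (|A| + |B|) := by
    refine (abs_add_le _ _).trans ?_
    rw [abs_mul, abs_mul, mul_add]
    exact add_le_add (mul_le_mul_of_nonneg_right dx (abs_nonneg _))
      (mul_le_mul_of_nonneg_right dy (abs_nonneg _))
  have b2 : |(x - xf h) * q + (y - yf h) * r| ≤ 2 * K * Q := by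
    refine (abs_add_le _ _).trans ?_
    rw [abs_mul, abs_mul, abs_of_nonneg hqR, abs_of_nonneg hrR]
    have c1 : |x - xf h| * q ≤ K * Q := mul_le_mul dx hqQ hqR hKR.le
    have c2 : |y - yf h| * r ≤ K * Q := mul_le_mul dy hrQ hrR hKR.le
    linarith
  refine ⟨?_, ?_, ?_⟩
  · rw [e1]
    refine (abs_add_le _ _).trans ?_
    linarith
  · rw [e2]
    have := (abs_le.1 b1).1
    linarith
  · rw [e2]
    have := (abs_le.1 b1).2
    linarith

theorem win_sieve : ∃ C : ℝ, 0 < C ∧ ∀ c α s₁ : ℝ, 0 < c → BA c α → 0 < s₁ → ∀ᶠ ℓ : ℝ in atTop,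
    ∀ (X : ℕ) (u v : ℝ), (X : ℝ) ≤ Real.exp ℓ → s₁ * ℓ ≤ (v - u) * Real.exp ℓ → ∀ (e : ℕ) (ν : ℤ),
      (#((WI α X u v).filter (fun h => ∀ p ∈ (Nat.primesLE (zf ℓ)).erase e, ¬ (p : ℤ) ∣ ν + h)) : ℝ) ≤
        C * ((v - u) * Real.exp ℓ / Real.log ℓ) := by
  obtain ⟨C0, hC0, hC⟩ := box_sieve
  refine ⟨64 * C0, by positivity, ?_⟩
  intro c α s₁ hc hα hs
  have htt : Tendsto (fun ℓ : ℝ => √(√ℓ)) atTop atTop :=
    Real.tendsto_sqrt_atTop.comp Real.tendsto_sqrt_atTop
  filter_upwards [AWin_zf 1 one_pos, eventually_ge_atTop (256 : ℝ),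
    htt.eventually_ge_atTop (2 * (2 + 1 / c) / s₁)] with ℓ hz h256 ht X u v hX huv e ν
  have hc1 : 0 < 1 / c := by positivity
  have hℓ0 : 0 < ℓ := by linarith
  set t : ℝ := √(√ℓ) with htdef
  have hs0 : 0 < √ℓ := Real.sqrt_pos.2 hℓ0
  have ht0 : 0 < t := Real.sqrt_pos.2 hs0
  have htt2 : t * t = √ℓ := Real.mul_self_sqrt hs0.le
  have hss : √ℓ * √ℓ = ℓ := Real.mul_self_sqrt hℓ0.le
  have ht4 : t * t * (t * t) = ℓ := by rw [htt2, hss]
  have h16 : 16 ≤ √ℓ := by
    rw [show (16 : ℝ) = √(16 ^ 2) from (Real.sqrt_sq (by norm_num)).symm]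
    exact Real.sqrt_le_sqrt (by linarith)
  have h4 : 4 ≤ t := by
    rw [show (4 : ℝ) = √(4 ^ 2) from (Real.sqrt_sq (by norm_num)).symm]
    exact Real.sqrt_le_sqrt (by linarith)
  set K : ℕ := ⌊t⌋₊ with hK
  have hKt : (K : ℝ) ≤ t := Nat.floor_le ht0.le
  have hKt2 : t / 2 ≤ (K : ℝ) := by
    have := Nat.lt_floor_add_one t
    rw [← hK] at this
    linarith
  have hK2 : 2 ≤ K := by
    have h1 : (2 : ℝ) ≤ K := by linarith
    exact_mod_cast h1
  have hKR : (0 : ℝ) < K := by linarith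
  have hKz : K ≤ zf ℓ := by
    have h1 : (K : ℝ) ≤ zf ℓ := by
      have h2 : t ≤ √ℓ := by
        rw [← htt2]
        nlinarith
      linarith
    exact_mod_cast h1
  have hlogℓ : 0 < Real.log ℓ := Real.log_pos (by linarith)
  have hlogK : Real.log ℓ / 8 ≤ Real.log K := by
    have h1 : Real.log (t / 2) ≤ Real.log K := Real.log_le_log (by linarith) hKt2
    have h2 : Real.log ℓ = 4 * Real.log t := by
      rw [← ht4, Real.log_mul (by positivity) (by positivity), Real.log_mul ht0.ne' ht0.ne']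
      ring
    have h3 : Real.log (t / 2) = Real.log t - Real.log 2 := Real.log_div ht0.ne' (by norm_num)
    have h5 : Real.log (4 : ℝ) ≤ Real.log t := Real.log_le_log (by norm_num) h4
    have h6 : Real.log (4 : ℝ) = 2 * Real.log 2 := by
      rw [show (4 : ℝ) = 2 * 2 by norm_num, Real.log_mul (by norm_num) (by norm_num)]
      ring
    linarith
  have hlogK0 : 0 < Real.log K := by linarith
  have hE0 := Real.exp_pos ℓ
  have hE : ℓ ≤ Real.exp ℓ := by
    have := Real.add_one_le_exp ℓ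
    linarith
  set Q : ℝ := Real.exp ℓ / √ℓ with hQdef
  have hQ1 : 1 ≤ Q := by
    rw [hQdef, le_div_iff₀ hs0, one_mul]
    nlinarith
  have hQ0 : 0 < Q := by linarith
  obtain ⟨q, r, a, b, hr1, hrq, hqQ, hdet, hA, hB⟩ := basis hc hα hQ1
  have hcop : IsCoprime q r := ⟨b, -a, by linarith⟩
  have hrQ : (r : ℝ) ≤ Q := le_trans (by exact_mod_cast hrq) hqQ
  choose xf yf hxy hsg using coords_eq (α := α) hdet
  set A : ℝ := (q : ℝ) * α - a with hAdef
  set B : ℝ := (r : ℝ) * α - b with hBdef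
  have hdetR : |(q : ℝ) * B - r * A| = 1 := by
    have hdR : (q : ℝ) * b - r * a = 1 := by exact_mod_cast hdet
    have : (q : ℝ) * B - r * A = -1 := by
      rw [hAdef, hBdef]
      linear_combination -hdR
    rw [this]
    norm_num
  set F : Finset ℤ := (WI α X u v).filter
    (fun h => ∀ p ∈ (Nat.primesLE (zf ℓ)).erase e, ¬ (p : ℤ) ∣ ν + h) with hF
  have huv0 : 0 < v - u := by
    by_contra hcon
    have h1 : v - u ≤ 0 := not_lt.1 hcon
    have h2 : (v - u) * Real.exp ℓ ≤ 0 := mul_nonpos_of_nonpos_of_nonneg h1 hE0.le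
    have h3 : 0 < s₁ * ℓ := by positivity
    linarith
  have hFW : ∀ h ∈ F, |(h : ℝ)| ≤ (X : ℝ) ∧ u ≤ sg (h * α) ∧ sg (h * α) ≤ v := by
    intro h hh
    obtain ⟨h1, -⟩ := Finset.mem_filter.1 hh
    obtain ⟨h2, h3, h4'⟩ := Finset.mem_filter.1 h1
    obtain ⟨h5, h6⟩ := Finset.mem_Icc.1 h2
    refine ⟨?_, h3, h4'⟩
    rw [abs_le]
    constructor
    · exact_mod_cast h5
    · exact_mod_cast h6
  have hbox := CWin_boxes (α := α) (A := A) (B := B) (Q := Q) (by omega) (by omega) hqQ hrQ hdetR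
    (K := K) (by omega) (Nat.cast_nonneg X) (by linarith : u ≤ v) xf yf hxy hsg F hFW
  set S : Finset (ℤ × ℤ) := F.image (fun h => (xf h / (K : ℤ), yf h / (K : ℤ))) with hS
  -- the fibres
  have hcard : (#F : ℝ) ≤ #S * (C0 * ((K : ℝ) ^ 2 / Real.log K)) := by
    have h1 : #F = ∑ s ∈ S, #(F.filter (fun h => (xf h / (K : ℤ), yf h / (K : ℤ)) = s)) :=
      Finset.card_eq_sum_card_image _ _
    rw [h1]
    push_cast
    rw [← nsmul_eq_mul]
    refine Finset.sum_le_card_nsmul _ _ _ fun s _ => ?_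
    refine CWin_fibre hC hK2 hKz hcop e xf yf hxy _ s ?_ ?_ (ν := ν)
    · intro h hh
      exact (Finset.mem_filter.1 (Finset.mem_filter.1 hh).1).2
    · intro h hh
      exact (Finset.mem_filter.1 hh).2
  -- the numerical estimates
  have hKQ : 2 * K * Q ≤ Real.exp ℓ := by
    have h1 : 2 * (K : ℝ) ≤ √ℓ := by
      rw [← htt2]
      nlinarith
    calc 2 * K * Q ≤ √ℓ * Q := mul_le_mul_of_nonneg_right h1 hQ0.le
      _ = Real.exp ℓ := by
        rw [hQdef]
        field_simp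
  have hAB : 2 * (K * (|A| + |B|)) ≤ v - u := by
    have h1 : |A| + |B| ≤ (2 + 1 / c) / Q := by
      have : (2 + 1 / c) / Q = 1 / Q + (1 + 1 / c) / Q := by ring
      rw [this]
      exact add_le_add hA hB
    have h2 : 2 * ((K : ℝ) * (|A| + |B|)) ≤ 2 * (t * ((2 + 1 / c) / Q)) := by
      have h3 : (K : ℝ) * (|A| + |B|) ≤ t * ((2 + 1 / c) / Q) :=
        mul_le_mul hKt h1 (by positivity) ht0.le
      linarith
    refine h2.trans ?_
    have h3 : 2 * (t * ((2 + 1 / c) / Q)) = 2 * (2 + 1 / c) * (t * (t * t)) / Real.exp ℓ := by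
      rw [hQdef, ← htt2]
      field_simp
    rw [h3, div_le_iff₀ hE0]
    refine le_trans ?_ huv
    have h5 : 2 * (2 + 1 / c) ≤ t * s₁ := (div_le_iff₀ hs).1 ht
    have h6 : s₁ * ℓ = (t * s₁) * (t * (t * t)) := by
      rw [← ht4]
      ring
    rw [h6]
    exact mul_le_mul_of_nonneg_right h5 (by positivity)
  have hX' : (X : ℝ) + 2 * K * Q ≤ 2 * Real.exp ℓ := by linarith
  have hV' : (v + K * (|A| + |B|)) - (u - K * (|A| + |B|)) ≤ 2 * (v - u) := by linarith
  have hSK : (#S : ℝ) * (K : ℝ) ^ 2 ≤ 8 * (Real.exp ℓ * (v - u)) := by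
    refine hbox.trans ?_
    have h1 : 0 ≤ (v + K * (|A| + |B|)) - (u - K * (|A| + |B|)) := by
      have : 0 ≤ (K : ℝ) * (|A| + |B|) := by positivity
      linarith
    calc 2 * ((X : ℝ) + 2 * K * Q) * ((v + K * (|A| + |B|)) - (u - K * (|A| + |B|)))
        ≤ 2 * (2 * Real.exp ℓ) * (2 * (v - u)) := by
          apply mul_le_mul (by linarith) hV' h1 (by positivity)
      _ = 8 * (Real.exp ℓ * (v - u)) := by ring
  calc (#F : ℝ) ≤ #S * (C0 * ((K : ℝ) ^ 2 / Real.log K)) := hcard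
    _ = C0 * ((#S : ℝ) * (K : ℝ) ^ 2) / Real.log K := by ring
    _ ≤ C0 * (8 * (Real.exp ℓ * (v - u))) / (Real.log ℓ / 8) := by
      apply div_le_div₀ (by positivity) (mul_le_mul_of_nonneg_left hSK hC0.le) (by linarith) hlogK
    _ = 64 * C0 * ((v - u) * Real.exp ℓ / Real.log ℓ) := by
      field_simp
      ring

end Pool.Agent.H47.WS
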