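import Pool.Agent.H81.AS.DistI
import Pool.Agent.H47.WS.Env

/-!
The distribution hypothesis for the integers (adapted from H81/AS/DistI.lean).
-/

set_option autoImplicit false

open Finset Filter Topology

namespace Pool.Agent.H47.WS

open Pool.Agent.H16 Pool.Agent.H81.AS

private lemma crt_ex (D : Finset ℕ) (hD : ∀ p ∈ D, p.Prime) (b : ℕ → ℕ) (W b0 : ℕ)
    (hc : ∀ p ∈ D, Nat.Coprime p W) :
    ∃ c : ℕ, ∀ n : ℕ, (n ≡ b0 [MOD W] ∧ ∀ p ∈ D, n ≡ b p [MOD p]) ↔ n ≡ c [MOD W * ∏ p ∈ D, p] := by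
  classical
  induction D using Finset.induction_on with
  | empty => exact ⟨b0, fun n => by simp⟩
  | insert p D hp ih =>
    obtain ⟨c, hc'⟩ := ih (fun q hq => hD q (mem_insert_of_mem hq))
      (fun q hq => hc q (mem_insert_of_mem hq))
    have hpp := hD p (mem_insert_self p D)
    have hcop : Nat.Coprime (W * ∏ q ∈ D, q) p := by
      apply Nat.Coprime.mul_left
      · exact (hc p (mem_insert_self p D)).symm
      · apply Nat.Coprime.prod_left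
        intro q hq
        rw [Nat.coprime_primes (hD q (mem_insert_of_mem hq)) hpp]
        rintro rfl
        exact hp hq
    obtain ⟨c', h1, h2⟩ := Nat.chineseRemainder hcop c (b p)
    refine ⟨c', fun n => ?_⟩
    have h3 := Nat.modEq_and_modEq_iff_modEq_mul (a := n) (b := c') hcop
    rw [prod_insert hp, mul_comm p, ← mul_assoc, ← h3]
    constructor
    · rintro ⟨h4, h5⟩
      exact ⟨((hc' n).1 ⟨h4, fun q hq => h5 q (mem_insert_of_mem hq)⟩).trans h1.symm,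
        (h5 p (mem_insert_self p D)).trans h2.symm⟩
    · rintro ⟨h4, h5⟩
      obtain ⟨h6, h7⟩ := (hc' n).2 (h4.trans h1)
      refine ⟨h6, fun q hq => ?_⟩
      rcases mem_insert.1 hq with rfl | hq
      · exact h5.trans h2
      · exact h7 q hq

private lemma count_Ioc (N c M : ℕ) (hM : 0 < M) :
    |(#((Ioc 0 N).filter (fun n => n ≡ c [MOD M])) : ℝ) - (N : ℝ) / M| ≤ 1 := by
  have h := Nat.Ioc_filter_modEq_card 0 N hM c
  have hM' : (0 : ℚ) < M := by exact_mod_cast hM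
  set F := (Ioc 0 N).filter (fun n => n ≡ c [MOD M]) with hF
  have h1 : (⌊((0 : ℕ) - (c : ℚ)) / (M : ℚ)⌋ : ℤ) ≤ ⌊((N : ℚ) - c) / (M : ℚ)⌋ := by
    apply Int.floor_le_floor
    apply div_le_div_of_nonneg_right _ hM'.le
    have : (0 : ℚ) ≤ N := by positivity
    push_cast
    linarith
  have h2 : (#F : ℤ) = ⌊((N : ℚ) - c) / (M : ℚ)⌋ - ⌊((0 : ℕ) - (c : ℚ)) / (M : ℚ)⌋ := by
    rw [h, max_eq_left]
    linarith
  have h3 : |(#F : ℚ) - (N : ℚ) / M| ≤ 1 := by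
    have e1 : (#F : ℚ) = (⌊((N : ℚ) - c) / (M : ℚ)⌋ : ℚ) - (⌊((0 : ℕ) - (c : ℚ)) / (M : ℚ)⌋ : ℚ) := by
      exact_mod_cast congrArg (fun z : ℤ => (z : ℚ)) h2
    have a1 := Int.floor_le (((N : ℚ) - c) / (M : ℚ))
    have a2 := Int.lt_floor_add_one (((N : ℚ) - c) / (M : ℚ))
    have a3 := Int.floor_le (((0 : ℕ) - (c : ℚ)) / (M : ℚ))
    have a4 := Int.lt_floor_add_one (((0 : ℕ) - (c : ℚ)) / (M : ℚ))
    have e2 : ((N : ℚ) - c) / (M : ℚ) - ((0 : ℕ) - (c : ℚ)) / (M : ℚ) = (N : ℚ) / M := by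
      push_cast
      ring
    rw [e1, abs_le]
    constructor <;> linarith
  have h4 := (Rat.cast_le (K := ℝ)).2 h3
  push_cast at h4
  exact h4

theorem dist_int {δ υ ℓ : ℝ} {e : ℕ} {Γ : Finset ℕ} (hw : zf ℓ ≤ zz δ ℓ) (b : ℕ) (Lv : ℝ) :
    Dist (PP δ ℓ e) (QQ δ υ ℓ e Γ) ∅ (Sb ℓ e b) (fun _ => 1) (Real.exp ℓ / (WW ℓ e : ℝ)) Lv (fun _ => 2) := by
  refine ⟨fun _ _ => zero_le_one, by positivity, fun _ _ => by norm_num, by simp, ?_⟩
  intro D hD _ b' _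
  have hDp : ∀ p ∈ D, p.Prime ∧ Nat.Coprime p (WW ℓ e) := fun p hp =>
    ⟨(PQ_coprime hw (hD hp)).1, (PQ_coprime hw (hD hp)).2.2⟩
  obtain ⟨c, hc⟩ := crt_ex D (fun p hp => (hDp p hp).1) b' (WW ℓ e) b (fun p hp => (hDp p hp).2)
  have hM : 0 < WW ℓ e * ∏ p ∈ D, p :=
    Nat.mul_pos (WW_pos ℓ e) (prod_pos fun p hp => (hDp p hp).1.pos)
  have h1 : (Sb ℓ e b).filter (fun n => ∀ p ∈ D, n ≡ b' p [MOD p]) =
      (Ioc 0 ⌊Real.exp ℓ⌋₊).filter (fun n => n ≡ c [MOD WW ℓ e * ∏ p ∈ D, p]) := by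
    unfold Sb
    rw [filter_filter]
    exact filter_congr fun n _ => hc n
  rw [h1, sum_const, nsmul_eq_mul, mul_one]
  have h2 := count_Ioc ⌊Real.exp ℓ⌋₊ c _ hM
  have h3 : Real.exp ℓ / (WW ℓ e : ℝ) * ∏ p ∈ D, gd ∅ p =
      Real.exp ℓ / ((WW ℓ e * ∏ p ∈ D, p : ℕ) : ℝ) := by
    unfold gd
    simp only [card_empty, Nat.cast_zero, sub_zero, prod_div_distrib, prod_const_one]
    push_cast
    rw [div_mul_div_comm, mul_one]
  rw [h3]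
  have hM1 : (1 : ℝ) ≤ ((WW ℓ e * ∏ p ∈ D, p : ℕ) : ℝ) := by exact_mod_cast hM
  set M : ℝ := ((WW ℓ e * ∏ p ∈ D, p : ℕ) : ℝ) with hMdef
  have hM0 : 0 < M := by linarith
  have h4 : |(⌊Real.exp ℓ⌋₊ : ℝ) / M - Real.exp ℓ / M| ≤ 1 := by
    rw [← sub_div, abs_div, abs_of_pos hM0, div_le_one hM0]
    refine le_trans ?_ hM1
    have a1 := Nat.floor_le (Real.exp_pos ℓ).le
    have a2 := Nat.lt_floor_add_one (Real.exp ℓ)
    rw [abs_le]
    constructor <;> linarith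
  have h5 := abs_sub_le ((#((Ioc 0 ⌊Real.exp ℓ⌋₊).filter
    (fun n => n ≡ c [MOD WW ℓ e * ∏ p ∈ D, p])) : ℕ) : ℝ) ((⌊Real.exp ℓ⌋₊ : ℝ) / M) (Real.exp ℓ / M)
  linarith

theorem rem_int {K s : ℕ} {δ υ τ : ℝ} (hδ : 0 < δ) (hτ : 0 < τ)
    (hlev : 4 * τ + δ * (8 * (s : ℝ) + 10) < 1 / 2) :
    ∀ᶠ ℓ : ℝ in atTop, ∀ (Γ : Finset ℕ) (e : ℕ),
      ∑ Q' ∈ (QQ δ υ ℓ e Γ).powerset.filter (fun Q' => ((∏ p ∈ Q', p : ℕ) : ℝ) ≤ Real.exp (τ * ℓ) ^ 2),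
        (24 * (K : ℝ)) ^ #Q' *
          ∑ D ∈ (PP δ ℓ e).powerset.filter (fun D => (∏ p ∈ D, p) ≤ zz δ ℓ ^ (4 * s + 5)),
            (K : ℝ) ^ #D * 2 ≤ Real.exp (ℓ / 2) := by
  have hc : 0 < 1 / 2 - (4 * τ + δ * (8 * (s : ℝ) + 10)) := by linarith
  filter_upwards [ev_zf (K : ℝ), ev_zz hδ (24 * (K : ℝ)),
    eventually_ge_atTop (Real.log 2 / (1 / 2 - (4 * τ + δ * (8 * (s : ℝ) + 10)))),
    eventually_gt_atTop 0] with ℓ h1 h2 h3 hℓ Γ e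
  obtain ⟨-, hKw⟩ := h1
  obtain ⟨hwz, hKz, -, -, hzu, -⟩ := h2
  have hzK : 24 * (K : ℝ) ≤ zz δ ℓ := by
    rcases Nat.eq_zero_or_pos (zz δ ℓ) with h0 | h0
    · rw [h0] at hKz ⊢
      simpa using hKz
    · have h0' : (0 : ℝ) < zz δ ℓ := by exact_mod_cast h0
      have := Real.log_le_sub_one_of_pos h0'
      linarith
  set T2 : ℝ := Real.exp (τ * ℓ) ^ 2 with hT2
  have hT20 : 0 ≤ T2 := by positivity
  set Z : ℝ := (zz δ ℓ : ℝ) ^ (4 * s + 5) with hZ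
  have hZ0 : 0 ≤ Z := by positivity
  -- inner sums
  have hin : ∑ D ∈ (PP δ ℓ e).powerset.filter (fun D => (∏ p ∈ D, p) ≤ zz δ ℓ ^ (4 * s + 5)),
      (K : ℝ) ^ #D * 2 ≤ Z * (Z * 2) := by
    have hmem : ∀ D ∈ (PP δ ℓ e).powerset.filter (fun D => (∏ p ∈ D, p) ≤ zz δ ℓ ^ (4 * s + 5)),
        (∀ p ∈ D, p.Prime ∧ zf ℓ < p) ∧ ((∏ p ∈ D, p : ℕ) : ℝ) ≤ Z := by
      intro D hD
      rw [mem_filter, mem_powerset] at hD
      refine ⟨fun p hp => ?_, ?_⟩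
      · have := hD.1 hp
        unfold PP at this
        rw [mem_erase, mem_primesIoc] at this
        exact ⟨this.2.2.2, this.2.1⟩
      · rw [hZ]
        exact_mod_cast hD.2
    have hcard := card_D_le _ (fun D hD p hp => ((hmem D hD).1 p hp).1) Z hZ0
      (fun D hD => (hmem D hD).2)
    have hterm : ∀ D ∈ (PP δ ℓ e).powerset.filter (fun D => (∏ p ∈ D, p) ≤ zz δ ℓ ^ (4 * s + 5)),
        (K : ℝ) ^ #D * 2 ≤ Z * 2 := by
      intro D hD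
      refine mul_le_mul_of_nonneg_right (le_trans ?_ (hmem D hD).2) (by norm_num)
      push_cast
      rw [← prod_const]
      refine prod_le_prod (fun _ _ => by positivity) fun p hp => ?_
      have h5 : (zf ℓ : ℝ) < p := by exact_mod_cast ((hmem D hD).1 p hp).2
      linarith
    refine (sum_le_sum hterm).trans ?_
    rw [sum_const, nsmul_eq_mul]
    exact mul_le_mul_of_nonneg_right hcard (by positivity)
  have hmemQ : ∀ Q' ∈ (QQ δ υ ℓ e Γ).powerset.filter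
      (fun Q' => ((∏ p ∈ Q', p : ℕ) : ℝ) ≤ Real.exp (τ * ℓ) ^ 2),
      (∀ p ∈ Q', p.Prime ∧ zz δ ℓ < p) ∧ ((∏ p ∈ Q', p : ℕ) : ℝ) ≤ T2 := by
    intro D hD
    rw [mem_filter, mem_powerset] at hD
    refine ⟨fun p hp => ?_, hD.2⟩
    have := hD.1 hp
    rw [mem_QQ] at this
    exact ⟨this.2.2.2.1, this.2.1⟩
  have hcardQ := card_D_le _ (fun D hD p hp => ((hmemQ D hD).1 p hp).1) T2 hT20
    (fun D hD => (hmemQ D hD).2)
  have hin0 : 0 ≤ ∑ D ∈ (PP δ ℓ e).powerset.filter (fun D => (∏ p ∈ D, p) ≤ zz δ ℓ ^ (4 * s + 5)),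
      (K : ℝ) ^ #D * 2 := sum_nonneg fun _ _ => by positivity
  have htermQ : ∀ Q' ∈ (QQ δ υ ℓ e Γ).powerset.filter
      (fun Q' => ((∏ p ∈ Q', p : ℕ) : ℝ) ≤ Real.exp (τ * ℓ) ^ 2),
      (24 * (K : ℝ)) ^ #Q' *
          ∑ D ∈ (PP δ ℓ e).powerset.filter (fun D => (∏ p ∈ D, p) ≤ zz δ ℓ ^ (4 * s + 5)),
            (K : ℝ) ^ #D * 2 ≤ T2 * (Z * (Z * 2)) := by
    intro Q' hQ'
    refine mul_le_mul (le_trans ?_ (hmemQ Q' hQ').2) hin hin0 hT20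
    push_cast
    rw [← prod_const]
    refine prod_le_prod (fun _ _ => by positivity) fun p hp => ?_
    have h5 : (zz δ ℓ : ℝ) < p := by exact_mod_cast ((hmemQ Q' hQ').1 p hp).2
    linarith
  refine (sum_le_sum htermQ).trans ?_
  rw [sum_const, nsmul_eq_mul]
  have h6 : (#((QQ δ υ ℓ e Γ).powerset.filter
      (fun Q' => ((∏ p ∈ Q', p : ℕ) : ℝ) ≤ Real.exp (τ * ℓ) ^ 2)) : ℝ) * (T2 * (Z * (Z * 2))) ≤
      T2 * (T2 * (Z * (Z * 2))) := mul_le_mul_of_nonneg_right hcardQ (by positivity)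
  refine h6.trans ?_
  have hZe : Z ≤ Real.exp ((4 * s + 5) * (δ * ℓ)) := by
    rw [hZ]
    have : Real.exp ((4 * s + 5) * (δ * ℓ)) = Real.exp (δ * ℓ) ^ (4 * s + 5) := by
      rw [← Real.exp_nat_mul]
      push_cast
      rfl
    rw [this]
    exact pow_le_pow_left₀ (by positivity) hzu _
  have hTe : T2 = Real.exp (2 * (τ * ℓ)) := by
    rw [hT2, ← Real.exp_nat_mul]
    push_cast
    rfl
  have h2e : (2 : ℝ) ≤ Real.exp ((1 / 2 - (4 * τ + δ * (8 * (s : ℝ) + 10))) * ℓ) := by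
    refine (Real.exp_log (show (0 : ℝ) < 2 by norm_num)).symm.le.trans (Real.exp_le_exp.2 ?_)
    rw [div_le_iff₀ hc] at h3
    linarith
  calc T2 * (T2 * (Z * (Z * 2))) ≤ Real.exp (2 * (τ * ℓ)) * (Real.exp (2 * (τ * ℓ)) *
        (Real.exp ((4 * s + 5) * (δ * ℓ)) * (Real.exp ((4 * s + 5) * (δ * ℓ)) *
          Real.exp ((1 / 2 - (4 * τ + δ * (8 * (s : ℝ) + 10))) * ℓ)))) := by
        rw [hTe]
        gcongr
    _ = Real.exp (ℓ / 2) := by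
        rw [← Real.exp_add, ← Real.exp_add, ← Real.exp_add, ← Real.exp_add]
        congr 1
        ring

end Pool.Agent.H47.WS
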