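import Pool.Agent.H81.AS.Env2
import Pool.Agent.H47.WS.Env

/-!
Mertens bounds for the environment (adapted from H81/AS/Env2.lean).
-/

set_option autoImplicit false

open Finset Filter Topology

namespace Pool.Agent.H47.WS

open Pool.Agent.H16 Pool.Agent.H81.AS

lemma V1_mul (δ ℓ : ℝ) (e : ℕ) (h : zf ℓ ≤ zz δ ℓ) :
    V1 δ ℓ e * ((((WW ℓ e).totient : ℕ) : ℝ) / (WW ℓ e : ℝ)) =
      ∏ p ∈ (Nat.primesLE (zz δ ℓ)).erase e, (1 - 1 / (p : ℝ)) := by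
  rw [WW_totient_ratio, V1, PP, primesLE_eq_union _ _ h, Finset.erase_union_distrib,
    Finset.prod_union, mul_comm]
  exact Finset.disjoint_of_subset_left (Finset.erase_subset _ _)
    (Finset.disjoint_of_subset_right (Finset.erase_subset _ _) (disj_primes _ _))

/-- PROOF: `V1 * φ(W)/W = ∏_{p ≤ z, p ≠ e} (1-1/p)`, which is `Vp z` or `Vp z / (1-1/e)`, hence between `Vp z`
and `2 Vp z`; `c / log z ≤ Vp z ≤ 1 / log z` (`Vp_ge`, `Vp_le` in H16/Vprod.lean), `δℓ/2 ≤ log z ≤ δℓ`. -/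
theorem V1_bounds : ∃ c : ℝ, 0 < c ∧ ∀ δ : ℝ, 0 < δ → ∀ᶠ ℓ : ℝ in atTop, ∀ e : ℕ,
    c / (δ * ℓ) ≤ V1 δ ℓ e * ((((WW ℓ e).totient : ℕ) : ℝ) / (WW ℓ e : ℝ)) ∧
    V1 δ ℓ e * ((((WW ℓ e).totient : ℕ) : ℝ) / (WW ℓ e : ℝ)) ≤ 4 / (δ * ℓ) ∧
    c / (δ * ℓ) ≤ V1 δ ℓ e := by
  obtain ⟨c, hc, hV⟩ := Vp_ge
  refine ⟨c, hc, fun δ hδ => ?_⟩
  filter_upwards [ev_zz hδ 1, eventually_gt_atTop (0 : ℝ)] with ℓ hz hℓ e
  obtain ⟨h1, h2, h3, h4, -, -⟩ := hz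
  have hδℓ : 0 < δ * ℓ := mul_pos hδ hℓ
  have hlog : 0 < Real.log (zz δ ℓ) := by linarith
  have hz2 := two_le_of_log_pos hlog
  have hb := prod_erase_bounds (s := Nat.primesLE (zz δ ℓ)) (fun p hp => (Nat.mem_primesLE.1 hp).2) e
  have hm := V1_mul δ ℓ e h1
  have h5 : c / (δ * ℓ) ≤ V1 δ ℓ e * ((((WW ℓ e).totient : ℕ) : ℝ) / (WW ℓ e : ℝ)) := by
    rw [hm]
    refine le_trans ?_ ((hV _ hz2).trans hb.1)
    exact div_le_div_of_nonneg_left hc.le hlog h4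
  refine ⟨h5, ?_, ?_⟩
  · rw [hm]
    refine hb.2.trans ?_
    have h6 := Vp_le (zz δ ℓ) hz2
    have h7 : 1 / Real.log (zz δ ℓ) ≤ 1 / (δ * ℓ / 2) :=
      one_div_le_one_div_of_le (by positivity) h3
    have h8 : 2 * (1 / (δ * ℓ / 2)) = 4 / (δ * ℓ) := by field_simp; norm_num
    have h9 : ∏ p ∈ Nat.primesLE (zz δ ℓ), (1 - 1 / (p : ℝ)) = Vp (zz δ ℓ) := rfl
    rw [h9]
    linarith
  · refine h5.trans ?_
    have h6 : (((WW ℓ e).totient : ℕ) : ℝ) / (WW ℓ e : ℝ) ≤ 1 := by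
      apply div_le_one_of_le₀ _ (Nat.cast_nonneg _)
      exact_mod_cast Nat.totient_le _
    have := V1_pos δ ℓ e
    nlinarith

theorem QQ_prod : ∃ C : ℝ, 1 ≤ C ∧ ∀ δ υ : ℝ, 0 < δ → δ ≤ υ → ∀ᶠ ℓ : ℝ in atTop, ∀ (Γ : Finset ℕ) (e : ℕ),
    ∏ p ∈ QQ δ υ ℓ e Γ, (1 + 1 / ((p : ℝ) - 1)) ≤ C * υ / δ := by
  obtain ⟨C, hC, h⟩ := Pool.Agent.H81.AS.QQ_prod
  refine ⟨C, hC, fun δ υ hδ hυ => ?_⟩
  filter_upwards [h δ υ hδ hυ] with ℓ hℓ Γ e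
  refine le_trans ?_ (hℓ e)
  apply Finset.prod_le_prod_of_subset_of_one_le QQ_sub
  · intro p hp
    have hp2 : (2 : ℝ) ≤ p := by exact_mod_cast (QQ_prime p hp).two_le
    have : 0 ≤ 1 / ((p : ℝ) - 1) := div_nonneg zero_le_one (by linarith)
    linarith
  · intro p hp _
    have hp2 : (2 : ℝ) ≤ p := by
      exact_mod_cast (mem_primesIoc.1 (Finset.mem_of_mem_erase hp)).2.2.two_le
    have : 0 ≤ 1 / ((p : ℝ) - 1) := div_nonneg zero_le_one (by linarith)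
    linarith

theorem QQ_sq {δ ε : ℝ} (hδ : 0 < δ) (hε : 0 < ε) (υ : ℝ) : ∀ᶠ ℓ : ℝ in atTop, ∀ (Γ : Finset ℕ) (e : ℕ),
    ∑ p ∈ QQ δ υ ℓ e Γ, 1 / ((p : ℝ) - 1) ^ 2 ≤ ε := by
  filter_upwards [Pool.Agent.H81.AS.QQ_sq hδ hε υ] with ℓ hℓ Γ e
  exact (Finset.sum_le_sum_of_subset_of_nonneg QQ_sub (fun _ _ _ => by positivity)).trans (hℓ e)

end Pool.Agent.H47.WS
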