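import Pool.Agent.H81.AS.Inner
import Pool.Agent.H47.WS.Env2

/-!
The inner weights (adapted from H81/AS/Inner.lean; the excluded primes are `e` and the primes of `Bd Γ`).
-/

set_option autoImplicit false

open Finset Filter Topology

namespace Pool.Agent.H47.WS

open Pool.Agent.H16 Pool.Agent.H81.AS

/-- the excluded primes -/
noncomputable def Ex (δ υ ℓ : ℝ) (e : ℕ) (Γ : Finset ℕ) : Finset ℕ :=
  {e} ∪ (primesIoc (zz δ ℓ) (zz υ ℓ) ∩ Bd Γ)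

lemma QQ_eq_PE (δ υ ℓ : ℝ) (e : ℕ) (Γ : Finset ℕ) :
    QQ δ υ ℓ e Γ = PE (zz δ ℓ) (zz υ ℓ) (Ex δ υ ℓ e Γ) := by
  ext p
  rw [mem_QQ, mem_PE]
  unfold Ex
  rw [Finset.mem_union, Finset.mem_inter, Finset.mem_singleton, mem_primesIoc]
  tauto

theorem ev_Ex {lam δ υ : ℝ} (hlam : 0 < lam) (hδ : 0 < δ) (hυ : υ ≤ 1) : ∀ᶠ ℓ : ℝ in atTop,
    ∀ Γ : Finset ℕ, Win lam ℓ Γ → ∀ e : ℕ, 2 * #(Ex δ υ ℓ e Γ) ≤ zz δ ℓ := by
  have hlo := isLittleO_pow_exp_pos_mul_atTop 3 hδ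
  have hc : (0 : ℝ) < 1 / (4 * (1 + 4 * lam ^ 2)) := by positivity
  filter_upwards [Bd_card hlam, ev_zz hδ 1, ev_sq_le_exp hδ 1, hlo.def hc,
    eventually_ge_atTop (1 : ℝ)] with ℓ hB hz hsq hlo hℓ Γ hΓ e
  have hℓ0 : 0 < ℓ := by linarith
  have hsub : primesIoc (zz δ ℓ) (zz υ ℓ) ⊆ primesIoc ⌊ℓ⌋₊ ⌊Real.exp ℓ⌋₊ := by
    intro p hp
    obtain ⟨h1, h2, h3⟩ := mem_primesIoc.1 hp
    rw [mem_primesIoc]
    have h4 : ⌊ℓ⌋₊ ≤ zz δ ℓ := by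
      have h5 : (⌊ℓ⌋₊ : ℝ) ≤ zz δ ℓ := by
        have := Nat.floor_le hℓ0.le
        have h6 := hz.2.2.2.2.2
        linarith
      exact_mod_cast h5
    refine ⟨by omega, h2.trans ?_, h3⟩
    unfold zz
    apply Nat.floor_le_floor
    apply Real.exp_le_exp.2
    nlinarith
  have h1 := hB Γ hΓ _ hsub
  have h2 : (#(Ex δ υ ℓ e Γ) : ℝ) ≤ 1 + (lam * ℓ) ^ 2 * (4 * ℓ) := by
    have h3 : #(Ex δ υ ℓ e Γ) ≤ 1 + #(primesIoc (zz δ ℓ) (zz υ ℓ) ∩ Bd Γ) := by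
      unfold Ex
      refine (Finset.card_union_le _ _).trans ?_
      rw [Finset.card_singleton]
    have h4 : (#(Ex δ υ ℓ e Γ) : ℝ) ≤ 1 + (#(primesIoc (zz δ ℓ) (zz υ ℓ) ∩ Bd Γ) : ℝ) := by
      exact_mod_cast h3
    linarith
  rw [Real.norm_of_nonneg (by positivity), Real.norm_of_nonneg (by positivity)] at hlo
  have h5 : 1 + (lam * ℓ) ^ 2 * (4 * ℓ) ≤ (1 + 4 * lam ^ 2) * ℓ ^ 3 := by
    have : (1 : ℝ) ≤ ℓ ^ 3 := one_le_pow₀ hℓ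
    nlinarith
  have h6 : (1 + 4 * lam ^ 2) * ℓ ^ 3 ≤ Real.exp (δ * ℓ) / 4 := by
    calc (1 + 4 * lam ^ 2) * ℓ ^ 3 ≤ (1 + 4 * lam ^ 2) * (1 / (4 * (1 + 4 * lam ^ 2)) * Real.exp (δ * ℓ)) :=
          mul_le_mul_of_nonneg_left hlo (by positivity)
      _ = Real.exp (δ * ℓ) / 4 := by field_simp
  have h7 := hz.2.2.2.2.2
  have h8 : 2 * (#(Ex δ υ ℓ e Γ) : ℝ) ≤ zz δ ℓ := by linarith
  exact_mod_cast h8

/-- upper bound by the Euler product -/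
lemma Sfi_le_prod (δ υ υ' ℓ : ℝ) (e : ℕ) (Γ : Finset ℕ) :
    Sfi (QQ δ υ ℓ e Γ) (Real.exp (υ' * ℓ)) ≤ ∏ p ∈ QQ δ υ' ℓ e Γ, (1 + 1 / ((p : ℝ) - 1)) := by
  classical
  have hprod : ∏ p ∈ QQ δ υ' ℓ e Γ, (1 + 1 / ((p : ℝ) - 1)) = ∑ D ∈ (QQ δ υ' ℓ e Γ).powerset, pf D := by
    rw [Finset.prod_one_add]
    rfl
  rw [hprod]
  unfold Sfi
  have h1 : ∑ D ∈ (QQ δ υ ℓ e Γ).powerset, (if (pd D : ℝ) ≤ Real.exp (υ' * ℓ) then (1 : ℝ) else 0) * pf D =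
      ∑ D ∈ (QQ δ υ ℓ e Γ).powerset.filter (fun D => (pd D : ℝ) ≤ Real.exp (υ' * ℓ)), pf D := by
    rw [Finset.sum_filter]
    apply Finset.sum_congr rfl
    intro D _
    split_ifs <;> simp
  rw [h1]
  apply Finset.sum_le_sum_of_subset_of_nonneg
  · intro D hD
    rw [Finset.mem_filter, Finset.mem_powerset] at hD
    rw [Finset.mem_powerset]
    intro p hp
    have hpQ := hD.1 hp
    have hpdvd : p ∣ pd D := Finset.dvd_prod_of_mem _ hp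
    have hpos : 0 < pd D := Finset.prod_pos (fun q hq => (QQ_prime q (hD.1 hq)).pos)
    have hple : (p : ℝ) ≤ Real.exp (υ' * ℓ) := by
      have : (p : ℝ) ≤ pd D := by exact_mod_cast Nat.le_of_dvd hpos hpdvd
      linarith [hD.2]
    rw [mem_QQ] at hpQ ⊢
    exact ⟨hpQ.1, hpQ.2.1, Nat.le_floor hple, hpQ.2.2.2⟩
  · intro D hD _
    exact pf_nonneg_of_prime QQ_prime hD

/-- lower bound -/
lemma Sfi_ge {δ υ υ' c ℓ : ℝ} {e : ℕ} {Γ : Finset ℕ} (hE : 2 * #(Ex δ υ ℓ e Γ) ≤ zz δ ℓ) (hcV : ∀ n : ℕ, 2 ≤ n → c / Real.log n ≤ Vp n) (hc : 0 < c)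
    (hυ' : 0 ≤ υ') (hℓ : 0 ≤ ℓ) (hδ : 0 < δ) (hz : 2 ≤ zz δ ℓ) (hzl : Real.log (zz δ ℓ) ≤ δ * ℓ)
    (hy : Real.exp (υ' * ℓ) ≤ zz υ ℓ) :
    (c / 4) * υ' / δ ≤ Sfi (QQ δ υ ℓ e Γ) (Real.exp (υ' * ℓ)) := by
  classical
  have hQE := QQ_eq_PE δ υ ℓ e Γ
  have hS := S1d_lower (zz δ ℓ) (zz υ ℓ) hz (Ex δ υ ℓ e Γ) hE (Real.exp (υ' * ℓ))
    (Real.one_le_exp (by positivity)) hy
  rw [← hQE] at hS
  have hSle : S1d (QQ δ υ ℓ e Γ) (Real.exp (υ' * ℓ)) ≤ Sfi (QQ δ υ ℓ e Γ) (Real.exp (υ' * ℓ)) := by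
    rw [S1d_eq]
    unfold Sfi
    apply Finset.sum_le_sum
    intro D hD
    have hpr : ∀ p ∈ D, p.Prime := fun p hp => QQ_prime p (Finset.mem_powerset.mp hD hp)
    have hle : 1 / ((∏ p ∈ D, p : ℕ) : ℝ) ≤ pf D := by
      unfold pf
      rw [Nat.cast_prod, one_div, ← Finset.prod_inv_distrib]
      apply Finset.prod_le_prod
      · intro p _; positivity
      · intro p hp
        have h2 : (2 : ℝ) ≤ p := by exact_mod_cast (hpr p hp).two_le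
        rw [← one_div]
        exact one_div_le_one_div_of_le (by linarith) (by linarith)
    change (if (pd D : ℝ) ≤ Real.exp (υ' * ℓ) then (1 : ℝ) else 0) / ((∏ p ∈ D, p : ℕ) : ℝ) ≤ _
    split_ifs
    · rw [one_mul]; exact hle
    · simp
  refine le_trans ?_ hSle
  refine le_trans ?_ hS
  rw [Real.log_exp]
  have hlz : 0 < Real.log (zz δ ℓ) := Real.log_pos (by exact_mod_cast hz)
  have hδℓ : 0 < δ * ℓ := lt_of_lt_of_le hlz hzl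
  have hℓ' : 0 < ℓ := by
    rcases hℓ.lt_or_eq with h | h
    · exact h
    · rw [← h] at hδℓ; simp at hδℓ
  have h1 : c / (δ * ℓ) ≤ Vp (zz δ ℓ) := by
    refine le_trans ?_ (hcV _ hz)
    exact div_le_div_of_nonneg_left hc.le hlz hzl
  calc (c / 4) * υ' / δ = υ' * ℓ * (c / (δ * ℓ) / 4) := by field_simp
    _ ≤ υ' * ℓ * (Vp (zz δ ℓ) / 4) := by
        apply mul_le_mul_of_nonneg_left _ (by positivity)
        linarith

theorem inner_exists (m : ℕ) {cT : ℝ} (hcT : 0 < cT) : ∃ (k n₀ : ℕ) (η₁ δ₁ : ℝ), m + 1 ≤ k ∧ 1 ≤ n₀ ∧ 0 < η₁ ∧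
    2 ^ (n₀ - 1) * η₁ ≤ 1 / 1024 ∧ 0 < δ₁ ∧ ∀ lam δ υ : ℝ, 0 < lam → 0 < δ → δ ≤ δ₁ → 1 / 1024 < υ → υ ≤ 1 / 2 →
    ∀ᶠ ℓ : ℝ in atTop, ∀ Γ : Finset ℕ, Win lam ℓ Γ → ∀ e : ℕ,
      16 * ((m : ℝ) + 1) * ∑ D ∈ (QQ δ υ ℓ e Γ).powerset, gst n₀ (η₁ * ℓ) (pd D) ^ 2 * pf D ≤
        cT * δ * k * (∑ D ∈ (QQ δ υ ℓ e Γ).powerset, gst n₀ (η₁ * ℓ) (pd D) * pf D) ^ 2 ∧
      2 * ((k : ℝ) - 1) * ∑ D ∈ (QQ δ υ ℓ e Γ).powerset, gst n₀ (η₁ * ℓ) (pd D) ^ 2 * pf D * Real.log (pd D) ≤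
        (∑ D ∈ (QQ δ υ ℓ e Γ).powerset, gst n₀ (η₁ * ℓ) (pd D) ^ 2 * pf D) * (ℓ / 128) := by
  obtain ⟨c, hc, hcV⟩ := Vp_ge
  obtain ⟨C, hC1, hQprod⟩ := QQ_prod
  have hC : 0 < C := by linarith
  obtain ⟨n, k, hn, hmk, hk1, hk2⟩ := in_choice m hcT (show 0 < c / 4 by positivity) hC
  set η : ℝ := (1 / 2 : ℝ) ^ n / 512 with hη
  have hηpos : 0 < η := by positivity
  have hηn : 2 ^ (n - 1) * η = 1 / 1024 := by
    obtain ⟨j, rfl⟩ : ∃ j, n = j + 1 := ⟨n - 1, by omega⟩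
    rw [hη, Nat.add_sub_cancel, pow_succ]
    have : (2 : ℝ) ^ j * (1 / 2 : ℝ) ^ j = 1 := by rw [← mul_pow]; norm_num
    calc (2 : ℝ) ^ j * ((1 / 2 : ℝ) ^ j * (1 / 2) / 512) = ((2 : ℝ) ^ j * (1 / 2 : ℝ) ^ j) / 1024 := by ring
      _ = _ := by rw [this]
  refine ⟨k, n, η, η, hmk, hn, hηpos, hηn.le, hηpos, ?_⟩
  intro lam δ υ hlam hδ hδη hυ hυ2
  have hscale : ∀ i < n, (2 : ℝ) ^ i * η ≤ 1 / 1024 := by
    intro i hi
    rw [← hηn]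
    apply mul_le_mul_of_nonneg_right _ hηpos.le
    exact pow_le_pow_right₀ (by norm_num) (by omega)
  have hscale1 : ∀ i : ℕ, η ≤ (2 : ℝ) ^ i * η := by
    intro i
    have : (1 : ℝ) ≤ 2 ^ i := one_le_pow₀ (by norm_num)
    nlinarith
  have hev1 : ∀ᶠ ℓ : ℝ in atTop, ∀ i ∈ Finset.range n, ∀ (Γ : Finset ℕ) (e : ℕ),
      ∏ p ∈ QQ δ (2 ^ i * η) ℓ e Γ, (1 + 1 / ((p : ℝ) - 1)) ≤ C * (2 ^ i * η) / δ := by
    rw [Filter.eventually_all_finset]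
    intro i _
    exact hQprod δ (2 ^ i * η) hδ (hδη.trans (hscale1 i))
  have hev2 := ev_zz hδ (Real.log 2)
  have hev3 := ev_zz (show 0 < υ by linarith) 1
  have hev4 : ∀ᶠ ℓ : ℝ in atTop, Real.exp (1 / 1024 * ℓ) ≤ Real.exp (υ * ℓ) / 2 := by
    filter_upwards [eventually_ge_atTop (Real.log 2 / (υ - 1 / 1024))] with ℓ hℓ
    have h1 : Real.log 2 ≤ (υ - 1 / 1024) * ℓ := by
      rw [div_le_iff₀ (by linarith)] at hℓ
      linarith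
    have h2 : Real.exp (υ * ℓ) = Real.exp (1 / 1024 * ℓ) * Real.exp ((υ - 1 / 1024) * ℓ) := by
      rw [← Real.exp_add]; ring_nf
    have h3 : 2 ≤ Real.exp ((υ - 1 / 1024) * ℓ) := by
      rw [← Real.exp_log (show (0 : ℝ) < 2 by norm_num)]
      exact Real.exp_le_exp.mpr h1
    rw [h2]
    nlinarith [Real.exp_pos (1 / 1024 * ℓ)]
  filter_upwards [hev1, hev2, hev3, hev4, ev_Ex hlam hδ (show υ ≤ 1 by linarith), eventually_gt_atTop (0 : ℝ)]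
    with ℓ h1 h2 h3 h4 hEx hℓ Γ hΓ e
  have hz2 : 2 ≤ zz δ ℓ := by
    by_contra hlt
    have h01 : zz δ ℓ = 0 ∨ zz δ ℓ = 1 := by omega
    have hl := h2.2.1
    have hpos := Real.log_pos (show (1 : ℝ) < 2 by norm_num)
    rcases h01 with h | h <;> rw [h] at hl <;> simp at hl <;> linarith
  have hy : ∀ i < n, Real.exp (2 ^ i * η * ℓ) ≤ zz υ ℓ := by
    intro i hi
    calc Real.exp (2 ^ i * η * ℓ) ≤ Real.exp (1 / 1024 * ℓ) := by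
          apply Real.exp_le_exp.mpr
          exact mul_le_mul_of_nonneg_right (hscale i hi) hℓ.le
      _ ≤ Real.exp (υ * ℓ) / 2 := h4
      _ ≤ _ := h3.2.2.2.2.2
  have hgY : ∀ i : ℕ, gY (η * ℓ) i = Real.exp (2 ^ i * η * ℓ) := by
    intro i; unfold gY; ring_nf
  set Q := QQ δ υ ℓ e Γ with hQ
  have hδℓ : 0 < δ * ℓ := by positivity
  obtain ⟨a1, a2, a3, a4⟩ := in_bounds (n := n) (ρ := η * ℓ) (c := c / 4) (C := C) (L := δ * ℓ) (Q := Q)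
    QQ_prime hn (by positivity) (by positivity) hC.le hδℓ
    (by
      intro i hi
      rw [hgY]
      have := Sfi_ge (e := e) (Γ := Γ) (hEx Γ hΓ e) hcV hc (υ' := 2 ^ i * η) (by positivity) hℓ.le hδ hz2 h2.2.2.2.1 (hy i hi)
      refine le_trans (le_of_eq ?_) this
      field_simp)
    (by
      intro i hi
      rw [hgY]
      refine (Sfi_le_prod δ υ (2 ^ i * η) ℓ e Γ).trans ((h1 i (Finset.mem_range.mpr hi) Γ e).trans (le_of_eq ?_))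
      field_simp)
  set A1 := ∑ D ∈ Q.powerset, gst n (η * ℓ) (pd D) * pf D with hA1
  set A2 := ∑ D ∈ Q.powerset, gst n (η * ℓ) (pd D) ^ 2 * pf D with hA2
  set A3 := ∑ D ∈ Q.powerset, gst n (η * ℓ) (pd D) ^ 2 * pf D * Real.log (pd D) with hA3
  have e1 : c / 4 * n * (η * ℓ) / (2 * (δ * ℓ)) = (c / 4) * n * η / (2 * δ) := by field_simp
  have e2 : c / 4 * (η * ℓ) / (δ * ℓ) = (c / 4) * η / δ := by field_simp
  have e3 : 8 * C * (η * ℓ) / (δ * ℓ) = 8 * C * η / δ := by field_simp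
  have e4 : 4 * C * n * (η * ℓ) ^ 2 / (δ * ℓ) = 4 * C * n * η ^ 2 * ℓ / δ := by field_simp
  rw [e1] at a1
  rw [e2] at a2
  rw [e3] at a3
  rw [e4] at a4
  have hk : (1 : ℝ) ≤ k := by
    have : 1 ≤ k := by omega
    exact_mod_cast this
  constructor
  · have hA1sq : ((c / 4) * n * η / (2 * δ)) ^ 2 ≤ A1 ^ 2 := pow_le_pow_left₀ (by positivity) a1 2
    calc 16 * ((m : ℝ) + 1) * A2 ≤ 16 * ((m : ℝ) + 1) * (8 * C * η / δ) := by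
          apply mul_le_mul_of_nonneg_left a3 (by positivity)
      _ = (512 * ((m : ℝ) + 1) * C) * (η / (4 * δ)) := by ring
      _ ≤ (cT * k * (c / 4) ^ 2 * n ^ 2 * η) * (η / (4 * δ)) := by
          apply mul_le_mul_of_nonneg_right hk2 (by positivity)
      _ = cT * δ * k * ((c / 4) * n * η / (2 * δ)) ^ 2 := by field_simp; ring
      _ ≤ cT * δ * k * A1 ^ 2 := by
          apply mul_le_mul_of_nonneg_left hA1sq (by positivity)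
  · calc 2 * ((k : ℝ) - 1) * A3 ≤ 2 * ((k : ℝ) - 1) * (4 * C * n * η ^ 2 * ℓ / δ) := by
          apply mul_le_mul_of_nonneg_left a4
          linarith
      _ = (1024 * ((k : ℝ) - 1) * C * n * η) * (η * ℓ / (128 * δ)) := by ring
      _ ≤ (c / 4) * (η * ℓ / (128 * δ)) := by
          apply mul_le_mul_of_nonneg_right hk1 (by positivity)
      _ = ((c / 4) * η / δ) * (ℓ / 128) := by ring
      _ ≤ A2 * (ℓ / 128) := by
          apply mul_le_mul_of_nonneg_right a2 (by positivity)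

end Pool.Agent.H47.WS
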