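import Pool.Agent.H81.AS.Outer
import Pool.Agent.H47.WS.Inner

/-!
The outer weights (adapted from H81/AS/Outer.lean).
-/

set_option autoImplicit false

open Finset Filter Topology

namespace Pool.Agent.H47.WS

open Pool.Agent.H16 Pool.Agent.H81.AS

lemma Sp_lower {c : ℝ} (hc : 0 < c) (hcV : ∀ n : ℕ, 2 ≤ n → c / Real.log n ≤ Vp n) (z y : ℕ)
    (E : Finset ℕ) (hE : 2 * #E ≤ z) (hz : 2 ≤ z) (Y : ℝ) (hY : 1 ≤ Y) (hYy : Y ≤ y) :
    c / 4 * (Real.log Y / Real.log z) ≤
      ∑ D ∈ (PE z y E).powerset.filter (fun D => (pd D : ℝ) ≤ Y), pf D := by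
  classical
  have hz1 : (1 : ℝ) < z := by exact_mod_cast (show 1 < z by omega)
  have hlz : 0 < Real.log z := Real.log_pos hz1
  have h1 := S1d_lower z y hz E hE Y hY hYy
  have h2 := hcV z hz
  have h3 : 0 ≤ Real.log Y := Real.log_nonneg hY
  calc c / 4 * (Real.log Y / Real.log z) = Real.log Y * (c / Real.log z / 4) := by ring
    _ ≤ Real.log Y * (Vp z / 4) := by
        apply mul_le_mul_of_nonneg_left _ h3
        linarith
    _ ≤ _ := h1
    _ ≤ _ := by
        unfold S1d lev pd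
        apply Finset.sum_le_sum
        intro D hD
        have hD' := Finset.mem_powerset.mp (Finset.mem_filter.mp hD).1
        unfold pf
        rw [Nat.cast_prod, one_div, ← Finset.prod_inv_distrib]
        apply Finset.prod_le_prod
        · intro p _
          positivity
        · intro p hp
          have h4 : (2 : ℝ) ≤ p := by
            exact_mod_cast (mem_PE.mp (hD' hp)).1.2.2.two_le
          rw [← one_div]
          apply one_div_le_one_div_of_le <;> linarith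

theorem outer_exists : ∃ (A : ℕ) (CA c₀ : ℝ), 2 ≤ A ∧ 0 < CA ∧ 0 < c₀ ∧ ∀ (J : ℕ) (lam ε υ δ : ℝ), 1 ≤ J →
    0 < lam → 0 < ε → ε < υ → υ ≤ 1 → 0 < δ → δ ≤ c₀ * ε / (A : ℝ) ^ J → ∀ᶠ ℓ : ℝ in atTop,
    ∀ Γ : Finset ℕ, Win lam ℓ Γ → ∀ e : ℕ, ∃ α : ℕ → ℝ,
      (∀ r, 0 ≤ α r) ∧ (∀ r, α r ≤ 1) ∧
      (∀ r, α r ≠ 0 → Real.exp (ε / (A : ℝ) ^ J * ℓ) < (r : ℝ) ∧ (r : ℝ) ≤ Real.exp (ε * ℓ)) ∧
      ∑ D ∈ (QQ δ υ ℓ e Γ).powerset, α (pd D) * pf D = 1 ∧
      ∑ D ∈ (QQ δ υ ℓ e Γ).powerset, α (pd D) ^ 2 * pf D * Real.log (pd D) ≤ CA * δ * ℓ / J := by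
  classical
  obtain ⟨c, hc, hcV⟩ := Vp_ge
  set A : ℕ := max 2 ⌈8 / c ^ 2⌉₊ with hA
  have hA2 : 2 ≤ A := le_max_left _ _
  have hA2' : (2 : ℝ) ≤ A := by exact_mod_cast hA2
  have hA8 : 8 / c ^ 2 ≤ (A : ℝ) := (Nat.le_ceil _).trans (by exact_mod_cast le_max_right _ _)
  have hA8' : 1 / c ≤ c * A / 8 := by
    rw [div_le_iff₀ (by positivity)] at hA8
    rw [div_le_div_iff₀ hc (by norm_num)]
    nlinarith
  have hA0 : (0 : ℝ) < A := by linarith
  refine ⟨A, 8 / c, min 1 (c * A / 8), hA2, by positivity, by positivity, ?_⟩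
  intro J lam ε υ δ hJ hlam hε hευ hυ1 hδ hδ1
  have hAJ : (1 : ℝ) ≤ (A : ℝ) ^ J := one_le_pow₀ (by linarith)
  have hAJ0 : (0 : ℝ) < (A : ℝ) ^ J := by linarith
  have hδ2 : δ ≤ ε / (A : ℝ) ^ J := by
    refine hδ1.trans ?_
    apply div_le_div_of_nonneg_right _ hAJ0.le
    have := min_le_left 1 (c * A / 8)
    nlinarith
  have hδ3 : δ ≤ c * A / 8 * (ε / (A : ℝ) ^ J) := by
    refine hδ1.trans ?_
    rw [mul_div_assoc]
    apply mul_le_mul_of_nonneg_right (min_le_right _ _)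
    positivity
  have hυ : 0 < υ := by linarith
  filter_upwards [ev_zz hδ 2, ev_zz hυ 2, eventually_gt_atTop (0 : ℝ),
    eventually_ge_atTop (Real.log 2 / (υ - ε)), ev_Ex hlam hδ hυ1] with ℓ h1 h2 h3 h4 hEx Γ hΓ e
  obtain ⟨-, h1a, -, h1b, -, -⟩ := h1
  obtain ⟨-, -, -, -, -, h2a⟩ := h2
  set z := zz δ ℓ with hz
  set y' := zz υ ℓ with hy'
  have hz2 : 2 ≤ z := by
    by_contra h
    have h5 : z ≤ 1 := by omega
    have h6 : (z : ℝ) ≤ 1 := by exact_mod_cast h5
    have h7 : Real.log z ≤ 0 := Real.log_nonpos (Nat.cast_nonneg _) h6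
    linarith
  have hz0 : (0 : ℝ) < z := by exact_mod_cast (show 0 < z by omega)
  have hlz : 0 < Real.log z := by linarith
  have hεy : Real.exp (ε * ℓ) ≤ y' := by
    refine le_trans ?_ h2a
    rw [le_div_iff₀ (by norm_num)]
    have h5 : Real.log 2 ≤ ℓ * (υ - ε) := by
      rw [div_le_iff₀ (by linarith)] at h4
      exact h4
    calc Real.exp (ε * ℓ) * 2 = Real.exp (ε * ℓ) * Real.exp (Real.log 2) := by rw [Real.exp_log (by norm_num)]
      _ = Real.exp (ε * ℓ + Real.log 2) := (Real.exp_add _ _).symm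
      _ ≤ Real.exp (υ * ℓ) := by
          apply Real.exp_le_exp.mpr
          nlinarith
  set y : ℕ → ℝ := fun j => Real.exp (ε * ((A : ℝ) ^ j / (A : ℝ) ^ J) * ℓ) with hy
  have hylog : ∀ j, Real.log (y j) = ε * ((A : ℝ) ^ j / (A : ℝ) ^ J) * ℓ := fun j => Real.log_exp _
  have hymono : Monotone y := by
    intro i j hij
    apply Real.exp_le_exp.mpr
    apply mul_le_mul_of_nonneg_right _ h3.le
    apply mul_le_mul_of_nonneg_left _ hε.le
    apply div_le_div_of_nonneg_right _ hAJ0.le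
    exact pow_le_pow_right₀ (by linarith) hij
  have hy0 : y 0 = Real.exp (ε / (A : ℝ) ^ J * ℓ) := by
    simp only [hy, pow_zero]
    congr 1
    ring
  have hyJ : y J = Real.exp (ε * ℓ) := by
    simp only [hy]
    rw [div_self hAJ0.ne', mul_one]
  have hy1 : 1 ≤ y 0 := by
    rw [hy0]
    apply Real.one_le_exp
    positivity
  have hzy0 : (z : ℝ) ≤ y 0 := by
    rw [hy0, ← Real.log_le_iff_le_exp hz0]
    refine h1b.trans ?_
    apply mul_le_mul_of_nonneg_right hδ2 h3.le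
  have hzy : ∀ j, (z : ℝ) ≤ y j := fun j => hzy0.trans (hymono (Nat.zero_le j))
  have hy1' : ∀ j, 1 ≤ y j := fun j => hy1.trans (hymono (Nat.zero_le j))
  have hyy : ∀ j, j ≤ J → y j ≤ y' := fun j hj => (hymono hj).trans (by rw [hyJ]; exact hεy)
  set Q := QQ δ υ ℓ e Γ with hQ
  have hQe : Q = PE z y' (Ex δ υ ℓ e Γ) := QQ_eq_PE δ υ ℓ e Γ
  have hpf : ∀ D ∈ Q.powerset, 0 ≤ pf D := by
    intro D hD
    unfold pf
    apply Finset.prod_nonneg
    intro p hp
    have h5 := Finset.mem_powerset.mp hD hp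
    rw [hQe] at h5
    have h6 : (2 : ℝ) ≤ p := by exact_mod_cast (mem_PE.mp h5).1.2.2.two_le
    have h7 : 0 < (p : ℝ) - 1 := by linarith
    positivity
  set R : ℕ → ℝ := fun j => ∑ D ∈ Q.powerset.filter
    (fun D => y j < (pd D : ℝ) ∧ (pd D : ℝ) ≤ y (j + 1)), pf D with hR
  -- lower bound for R
  have hRlow : ∀ j, j < J → c * A / 8 * (Real.log (y j) / Real.log z) ≤ R j := by
    intro j hj
    have h5 := Sp_lower hc hcV z y' (Ex δ υ ℓ e Γ) (hEx Γ hΓ e) hz2 (y (j + 1)) (hy1' _) (hyy _ (by omega))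
    have h6 := Sp_upper hc hcV z y' hz2 Q (by rw [hQe]; exact Finset.filter_subset _ _) (y j) (hzy j)
    have h7 : ∑ D ∈ Q.powerset.filter (fun D => (pd D : ℝ) ≤ y (j + 1)), pf D =
        R j + ∑ D ∈ Q.powerset.filter (fun D => (pd D : ℝ) ≤ y j), pf D := by
      rw [hR]
      show _ = ∑ D ∈ _, pf D + ∑ D ∈ _, pf D
      rw [← Finset.sum_union]
      · apply Finset.sum_congr _ (fun _ _ => rfl)
        ext D
        simp only [Finset.mem_union, Finset.mem_filter]
        have h8 := hymono (Nat.le_succ j)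
        constructor
        · rintro ⟨h9, h10⟩
          by_cases h11 : y j < (pd D : ℝ)
          · exact Or.inl ⟨h9, h11, h10⟩
          · exact Or.inr ⟨h9, not_lt.mp h11⟩
        · rintro (⟨h9, -, h10⟩ | ⟨h9, h10⟩)
          · exact ⟨h9, h10⟩
          · exact ⟨h9, h10.trans h8⟩
      · rw [Finset.disjoint_left]
        intro D h8 h9
        have h10 := (Finset.mem_filter.mp h8).2.1
        have h11 := (Finset.mem_filter.mp h9).2
        linarith
    rw [← hQe] at h5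
    have h8 : Real.log (y (j + 1)) = A * Real.log (y j) := by
      rw [hylog, hylog, pow_succ]
      ring
    have h9 : 0 ≤ Real.log (y j) / Real.log z := by
      have := Real.log_nonneg (hy1' j)
      positivity
    rw [h8, h7] at h5
    have h10 : Real.log (y j) / (c * Real.log z) = 1 / c * (Real.log (y j) / Real.log z) := by
      field_simp
    rw [h10] at h6
    have h11 : c / 4 * (A * Real.log (y j) / Real.log z) = c * A / 4 * (Real.log (y j) / Real.log z) := by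
      ring
    rw [h11] at h5
    nlinarith [mul_le_mul_of_nonneg_right hA8' h9]
  have hRlow2 : ∀ j, j < J → c * A / 8 * (ε * ((A : ℝ) ^ j / (A : ℝ) ^ J)) / δ ≤ R j := by
    intro j hj
    refine le_trans ?_ (hRlow j hj)
    rw [hylog, mul_div_assoc]
    apply mul_le_mul_of_nonneg_left _ (by positivity)
    rw [div_le_div_iff₀ hδ hlz]
    have h5 : 0 ≤ ε * ((A : ℝ) ^ j / (A : ℝ) ^ J) := by positivity
    nlinarith [mul_le_mul_of_nonneg_left h1b h5]
  obtain ⟨α, g1, g2, g3, g4, g5⟩ := outer_abs Q.powerset pf pd hpf y hymono hy1 J hJ (8 / c * δ * ℓ) R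
    (fun j => rfl) (by
      intro j hj
      refine le_trans ?_ (hRlow2 j hj)
      rw [le_div_iff₀ hδ, one_mul]
      refine hδ3.trans ?_
      apply mul_le_mul_of_nonneg_left _ (by positivity)
      rw [div_eq_mul_one_div]
      apply mul_le_mul_of_nonneg_left _ hε.le
      apply div_le_div_of_nonneg_right _ hAJ0.le
      exact one_le_pow₀ (by linarith)) (by
      intro j hj
      have h5 := hRlow2 j hj
      have h6 : 0 ≤ 8 / c * δ * ℓ := by positivity
      refine le_trans ?_ (mul_le_mul_of_nonneg_left h5 h6)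
      rw [hylog, pow_succ]
      apply le_of_eq
      field_simp)
  refine ⟨α, g1, g2, ?_, g4, ?_⟩
  · intro r hr
    have := g3 r hr
    rw [hy0, hyJ] at this
    exact this
  · exact g5

end Pool.Agent.H47.WS
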