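import Pool.Agent.H47.WS.Env2

/-!
The number of positions: `#Po * V1 ≤ Cp lam / δ`, uniformly in `e`, `b` (from the hypothesis `Win.sieve`).
-/

set_option autoImplicit false

open Finset Filter Topology

namespace Pool.Agent.H47.WS

open Pool.Agent.H16 Pool.Agent.H81.AS

theorem po_card : ∃ Cp : ℝ, 0 < Cp ∧ ∀ lam δ : ℝ, 0 < lam → 0 < δ → ∀ᶠ ℓ : ℝ in atTop, ∀ Γ : Finset ℕ,
    Win lam ℓ Γ → ∀ e b : ℕ, (#(Po Γ ℓ e b) : ℝ) * V1 δ ℓ e ≤ Cp * lam / δ := by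
  obtain ⟨c, hc, hVc⟩ := Vp_ge
  obtain ⟨c', hc', hV1⟩ := V1_bounds
  refine ⟨4 / c, by positivity, fun lam δ hlam hδ => ?_⟩
  filter_upwards [ev_z, hV1 δ hδ, Real.tendsto_log_atTop.eventually_ge_atTop (1 : ℝ),
    eventually_gt_atTop (0 : ℝ)] with ℓ hz hV hlog hℓ Γ hΓ e b
  obtain ⟨hz1, hz2, -, -, -, -⟩ := hz
  have hzf2 : 2 ≤ zf ℓ := two_le_of_log_pos (by linarith)
  have hcard : (#(Po Γ ℓ e b) : ℝ) ≤ lam * (ℓ / Real.log ℓ) := hΓ.sieve e b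
  have hlz : 0 < Real.log (zf ℓ) := by linarith
  have hVV := (hV e).2.1
  rw [WW_totient_ratio] at hVV
  have hge : c / Real.log (zf ℓ) ≤ ∏ p ∈ (Nat.primesLE (zf ℓ)).erase e, (1 - 1 / (p : ℝ)) :=
    (hVc (zf ℓ) hzf2).trans (prod_erase_bounds (fun p hp => (Nat.mem_primesLE.1 hp).2) e).1
  have hge2 : c / Real.log ℓ ≤ c / Real.log (zf ℓ) := div_le_div_of_nonneg_left hc.le hlz hz2
  have hV1p := V1_pos δ ℓ e
  have h1 : V1 δ ℓ e * (c / Real.log ℓ) ≤ 4 / (δ * ℓ) :=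
    (mul_le_mul_of_nonneg_left (hge2.trans hge) hV1p.le).trans hVV
  have hlog0 : 0 < Real.log ℓ := by linarith
  have h2 : V1 δ ℓ e ≤ 4 / (δ * ℓ) * (Real.log ℓ / c) := by
    have h3 : V1 δ ℓ e = V1 δ ℓ e * (c / Real.log ℓ) * (Real.log ℓ / c) := by
      field_simp
    rw [h3]
    exact mul_le_mul_of_nonneg_right h1 (by positivity)
  calc (#(Po Γ ℓ e b) : ℝ) * V1 δ ℓ e ≤
      (lam * (ℓ / Real.log ℓ)) * (4 / (δ * ℓ) * (Real.log ℓ / c)) :=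
        mul_le_mul hcard h2 hV1p.le (by positivity)
    _ = 4 / c * lam / δ := by
        field_simp

end Pool.Agent.H47.WS
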