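import Pool.Agent.H47.WS.TPI
import Pool.Agent.H47.WS.DistP
import Pool.Agent.H81.AS.XTB

/-!
The transfer principle for the primes (adapted from H81/AS/TPP.lean).
-/

set_option autoImplicit false

open Finset Filter Topology

namespace Pool.Agent.H47.WS

open Pool.Agent.H16 Pool.Agent.H81.AS

theorem tpp {K s κ : ℕ} (hK : 1 ≤ K) (hκ : 2 * κ ≤ K) (hFL : FLP (2 * K) s) {lam δ υ τ Λ r : ℝ}
    (hlam : 0 < lam) (hδ : 0 < δ) (hδ1 : δ ≤ 1) (hυ : δ ≤ υ) (hυ2 : υ ≤ 1 / 2) (hτ : 0 < τ)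
    (hlev : 2 * τ + δ * (4 * (s : ℝ) + 5) < 1 / 4) (hΛ : 0 ≤ Λ) (hr : 1 ≤ r)
    (hcard : ∀ᶠ ℓ : ℝ in atTop, ∀ Γ : Finset ℕ, Win lam ℓ Γ → ∀ e b : ℕ,
      (#(Po Γ ℓ e b) : ℝ) * V1 δ ℓ e ≤ Λ)
    (hprod : ∀ᶠ ℓ : ℝ in atTop, ∀ (Γ : Finset ℕ) (e : ℕ), ∏ p ∈ QQ δ υ ℓ e Γ, (1 + 1 / ((p : ℝ) - 1)) ≤ r)
    {ε₁ : ℝ} (hε : 0 < ε₁) :
    ∀ᶠ ℓ : ℝ in atTop, ∃ e : ℕ, ∀ Γ : Finset ℕ, Win lam ℓ Γ → ∀ b i : ℕ, ∀ Po' Hb : Finset ℕ,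
      i ∈ Po Γ ℓ e b → (i : ℝ) ≤ Real.exp ℓ / 9 → Po' ⊆ Po Γ ℓ e b →
      Hb ⊆ Po Γ ℓ e b → i ∉ Hb ∪ Po' →
      ∀ C : Finset (ℕ × ℕ) → ℝ, (∀ E ∈ (Po' ×ˢ QQ δ υ ℓ e Γ).powerset, |C E| ≤ 1) →
      (∀ E ∈ (Po' ×ˢ QQ δ υ ℓ e Γ).powerset, C E ≠ 0 → #(Hb ∪ pos E) ≤ κ ∧ (nn E : ℝ) ≤ Real.exp (τ * ℓ)) →
      |∑ n ∈ Sb ℓ e b, aw ℓ (zz υ ℓ) (n + i) * Psi (PP δ ℓ e) (QQ δ υ ℓ e Γ) Po' Hb C n ^ 2 -
          XT ℓ (zz υ ℓ) / (((WW ℓ e).totient : ℕ) : ℝ) * Dg (QQ δ υ ℓ e Γ) Po' Hb (V1 δ ℓ e) C| ≤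
        XT ℓ (zz υ ℓ) / (((WW ℓ e).totient : ℕ) : ℝ) *
          (V1 δ ℓ e ^ #Hb * (Xi K s κ Λ r + ε₁) + ε₁ * Dg (QQ δ υ ℓ e Γ) Po' Hb (V1 δ ℓ e) C) := by
  obtain ⟨c, hc, hV1⟩ := V1_bounds
  obtain ⟨c₁, C₁, hc₁, hC₁, hXT⟩ := xt_bounds
  obtain ⟨Ch, hCh, hHH⟩ := hh_card κ hlam
  have hK0 : (0 : ℝ) ≤ (K : ℝ) := Nat.cast_nonneg _
  have hυ0 : 0 < υ := by linarith
  set B : ℝ := 2 * 4 ^ κ * (2 * (κ : ℝ) + 1) * (3 * Λ + 1) ^ (2 * κ) with hBdef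
  have hB : 0 ≤ B := by positivity
  have hr0 : (0 : ℝ) < r := by linarith
  obtain ⟨ε', hε', hexp⟩ := small_exp (B' := B * r ^ K) (A := 4 ^ K * ((K : ℝ) + 2)) (ε₁ := ε₁)
    (by positivity) (by positivity) hε
  filter_upwards [ev_zf (4 * (K : ℝ)), ev_zz hδ (12 * (K : ℝ) + 2),
    hXT υ hυ0 hυ2, hV1 δ hδ, QQ_sq hδ hε' υ, vv_comp κ hlam hδ hδ1 hε,
    vs_bound κ hlam hδ hδ1 hΛ hcard, hHH, hprod, dist_prime K hK (4 * (κ : ℝ) + 10) (by positivity) hυ0 hυ2,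
    eventually_ge_atTop 1,
    eventually_ge_atTop (Ch ^ 2 * (1 + 2 * δ) * (δ ^ κ / c ^ κ) * (2 / ε₁) / c₁)]
    with ℓ h1 h2 h4 h5 h6 h7 h8 h9 h10 h11 hℓ hp
  obtain ⟨e, he⟩ := h11
  refine ⟨e, ?_⟩
  have hℓ0 : 0 < ℓ := by linarith
  intro Γ hΓ b i Po' Hb hi hi9 hPo' hHb hiU C hC hC2
  obtain ⟨M, hM1, hM2⟩ := he Γ δ h2.1 (zz_mono hυ hℓ0.le)
  have hPoIcc : ∀ U : Finset ℕ, U ⊆ Po Γ ℓ e b → U ⊆ Γ := by
    intro U hU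
    exact hU.trans (Finset.filter_subset _ _)
  have hiIcc : i ∈ Γ := (Finset.mem_filter.mp hi).1
  have hlogz : Real.log (zz δ ℓ) ≤ (zz δ ℓ : ℝ) := by
    have := Real.log_le_sub_one_of_pos (x := (zz δ ℓ : ℝ)) (by
      by_contra hneg
      have h0 : (zz δ ℓ : ℝ) = 0 := le_antisymm (not_lt.mp hneg) (Nat.cast_nonneg _)
      have h00 := h2.2.1
      rw [h0, Real.log_zero] at h00
      linarith)
    linarith
  have hzK : 12 * K + 2 ≤ zz δ ℓ := by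
    have : (12 * (K : ℝ) + 2) ≤ (zz δ ℓ : ℝ) := h2.2.1.trans hlogz
    exact_mod_cast this
  have hW0 : (0 : ℝ) < (((WW ℓ e).totient : ℕ) : ℝ) := by
    exact_mod_cast Nat.totient_pos.mpr (WW_pos ℓ e)
  have hV0 := V1_pos δ ℓ e
  have hVle := V1_le_one δ ℓ e
  have hcl : 0 < c / (δ * ℓ) := by positivity
  have hXge : c₁ * Real.exp ℓ / (((WW ℓ e).totient : ℕ) : ℝ) ≤
      XT ℓ (zz υ ℓ) / (((WW ℓ e).totient : ℕ) : ℝ) := div_le_div_of_nonneg_right h4.1 hW0.le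
  have hX0 : 0 ≤ XT ℓ (zz υ ℓ) / (((WW ℓ e).totient : ℕ) : ℝ) := le_trans (by positivity) hXge
  have hlogz0 : 0 ≤ Real.log (zz δ ℓ) := by
    have := h2.2.2.1
    have h0 : 0 < δ * ℓ / 2 := by positivity
    linarith
  have hlev' : (zz δ ℓ : ℝ) ^ (4 * s + 5) * Real.exp (τ * ℓ) ^ 2 ≤ Real.exp (ℓ / 4) := by
    have ha : (zz δ ℓ : ℝ) ^ (4 * s + 5) ≤ Real.exp (δ * ℓ) ^ (4 * s + 5) :=
      pow_le_pow_left₀ (Nat.cast_nonneg _) h2.2.2.2.2.1 _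
    calc (zz δ ℓ : ℝ) ^ (4 * s + 5) * Real.exp (τ * ℓ) ^ 2
        ≤ Real.exp (δ * ℓ) ^ (4 * s + 5) * Real.exp (τ * ℓ) ^ 2 :=
          mul_le_mul_of_nonneg_right ha (by positivity)
      _ = Real.exp ((2 * τ + δ * (4 * (s : ℝ) + 5)) * ℓ) := by
          rw [← Real.exp_nat_mul, ← Real.exp_nat_mul, ← Real.exp_add]
          congr 1
          push_cast
          ring
      _ ≤ Real.exp (ℓ / 4) := by
          apply Real.exp_le_exp.mpr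
          nlinarith
  have hRb := hM2 s (Real.exp (τ * ℓ)) hlev'
  have hremcond : (Ch * ℓ ^ κ) ^ 2 * ((1 + 2 * Real.log (zz δ ℓ)) *
      (Real.exp ℓ * ℓ ^ (-(4 * (κ : ℝ) + 10)) / (((WW ℓ e).totient : ℕ) : ℝ))) ≤
      XT ℓ (zz υ ℓ) / (((WW ℓ e).totient : ℕ) : ℝ) * (V1 δ ℓ e ^ κ * (ε₁ / 2)) := by
    have ha : (1 + 2 * Real.log (zz δ ℓ)) ≤ (1 + 2 * δ) * ℓ := by
      have := h2.2.2.2.1
      nlinarith
    have hb : (c / (δ * ℓ)) ^ κ ≤ V1 δ ℓ e ^ κ := pow_le_pow_left₀ hcl.le (h5 e).2.2 κ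
    have hrp : ℓ ^ (-(4 * (κ : ℝ) + 10)) = 1 / ℓ ^ (4 * κ + 10) := by
      rw [Real.rpow_neg hℓ0.le, one_div]
      congr 1
      have : (4 * (κ : ℝ) + 10) = ((4 * κ + 10 : ℕ) : ℝ) := by push_cast; ring
      rw [this, Real.rpow_natCast]
    rw [hrp]
    have hlk : (0 : ℝ) < ℓ ^ κ := by positivity
    have hck : (0 : ℝ) < c ^ κ := by positivity
    have hdk : (0 : ℝ) < δ ^ κ := by positivity
    have hcc : (Ch * ℓ ^ κ) ^ 2 * ((1 + 2 * δ) * ℓ *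
        (Real.exp ℓ * (1 / ℓ ^ (4 * κ + 10)) / (((WW ℓ e).totient : ℕ) : ℝ))) ≤
        c₁ * Real.exp ℓ / (((WW ℓ e).totient : ℕ) : ℝ) * ((c / (δ * ℓ)) ^ κ * (ε₁ / 2)) := by
      have heq : (Ch * ℓ ^ κ) ^ 2 * ((1 + 2 * δ) * ℓ *
          (Real.exp ℓ * (1 / ℓ ^ (4 * κ + 10)) / (((WW ℓ e).totient : ℕ) : ℝ))) =
          (Ch ^ 2 * (1 + 2 * δ) * (δ ^ κ / c ^ κ) * (2 / ε₁) / c₁) * (1 / ℓ ^ (κ + 9)) *
            (c₁ * Real.exp ℓ / (((WW ℓ e).totient : ℕ) : ℝ) * ((c / (δ * ℓ)) ^ κ * (ε₁ / 2))) := by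
        rw [div_pow, mul_pow δ ℓ]
        field_simp
        ring
      rw [heq]
      have h12 : (Ch ^ 2 * (1 + 2 * δ) * (δ ^ κ / c ^ κ) * (2 / ε₁) / c₁) * (1 / ℓ ^ (κ + 9)) ≤ 1 := by
        have h13 : ℓ ≤ ℓ ^ (κ + 9) := by
          calc ℓ = ℓ ^ 1 := (pow_one ℓ).symm
            _ ≤ ℓ ^ (κ + 9) := pow_le_pow_right₀ hℓ (by omega)
        rw [mul_one_div, div_le_one (by positivity)]
        exact hp.trans h13
      calc (Ch ^ 2 * (1 + 2 * δ) * (δ ^ κ / c ^ κ) * (2 / ε₁) / c₁) * (1 / ℓ ^ (κ + 9)) *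
            (c₁ * Real.exp ℓ / (((WW ℓ e).totient : ℕ) : ℝ) * ((c / (δ * ℓ)) ^ κ * (ε₁ / 2)))
          ≤ 1 * (c₁ * Real.exp ℓ / (((WW ℓ e).totient : ℕ) : ℝ) * ((c / (δ * ℓ)) ^ κ * (ε₁ / 2))) := by
            apply mul_le_mul_of_nonneg_right h12; positivity
        _ = _ := one_mul _
    calc (Ch * ℓ ^ κ) ^ 2 * ((1 + 2 * Real.log (zz δ ℓ)) *
          (Real.exp ℓ * (1 / ℓ ^ (4 * κ + 10)) / (((WW ℓ e).totient : ℕ) : ℝ)))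
        ≤ (Ch * ℓ ^ κ) ^ 2 * ((1 + 2 * δ) * ℓ *
          (Real.exp ℓ * (1 / ℓ ^ (4 * κ + 10)) / (((WW ℓ e).totient : ℕ) : ℝ))) := by
          apply mul_le_mul_of_nonneg_left _ (by positivity)
          exact mul_le_mul_of_nonneg_right ha (by positivity)
      _ ≤ c₁ * Real.exp ℓ / (((WW ℓ e).totient : ℕ) : ℝ) * ((c / (δ * ℓ)) ^ κ * (ε₁ / 2)) := hcc
      _ ≤ XT ℓ (zz υ ℓ) / (((WW ℓ e).totient : ℕ) : ℝ) * (V1 δ ℓ e ^ κ * (ε₁ / 2)) := by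
          apply mul_le_mul hXge _ (by positivity) hX0
          exact mul_le_mul_of_nonneg_right hb (by linarith)
  have hdis : Disjoint ({i} : Finset ℕ) (Hb ∪ Po') := Finset.disjoint_singleton_left.mpr hiU
  have hcore := tp_core (K := K) (s := s) (κ := κ) hK hκ hFL (w := zf ℓ) (z := zz δ ℓ) h1.1 h1.2 h2.1 hzK
    (P := PP δ ℓ e) (Q := QQ δ υ ℓ e Γ) (Z := {i}) (Po := Po') (Hb := Hb) (S := Sb ℓ e b)
    (Finset.erase_subset _ _) (fun q hq => ?_) (by simp) (fun p hp h hh h' hh' => ?_) hdis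
    (a := fun n => aw ℓ (zz υ ℓ) (n + i)) (X := XT ℓ (zz υ ℓ) / (((WW ℓ e).totient : ℕ) : ℝ))
    (Lv := Real.exp (ℓ / 4)) (M := M)
    (hM1 b i hi hi9) C (Real.exp_pos _).le hC hC2 hlev'
    (V := V1 δ ℓ e) (B := B) (r := r) (ε₁ := ε₁) hV0.le hB
    (h8 Γ hΓ e b Po' Hb {i} hPo' hHb (Finset.singleton_subset_iff.mpr hi) (by simp) hdis)
    (fun E hE hCE => ?_) (h10 Γ e) ?_ ?_
  · have hXi : Xi K s κ Λ r = (1 / 2 : ℝ) ^ s * B * r ^ (6 * K) := by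
      rw [Xi, hBdef]
    rw [hXi]
    exact hcore
  · have hq' := mem_QQ.1 hq
    exact ⟨hq'.2.2.2.1, hq'.2.1⟩
  · have hsub : {i} ∪ (Hb ∪ Po') ⊆ Γ :=
      union_subset (Finset.singleton_subset_iff.mpr hiIcc) (union_subset (hPoIcc _ hHb) (hPoIcc _ hPo'))
    exact QQ_inj p hp h (hsub hh) h' (hsub hh')
  · have hU : pos E ⊆ Po' := by
      intro x hx
      obtain ⟨y, hy, rfl⟩ := Finset.mem_image.mp hx
      exact (Finset.mem_product.mp ((Finset.mem_powerset.mp hE) hy)).1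
    apply h7 Γ hΓ e {i} (Hb ∪ pos E) (Finset.singleton_subset_iff.mpr hiIcc) _ (by simp) _ (hC2 E hE hCE).1
    · exact Finset.union_subset (hPoIcc _ hHb) (hU.trans (hPoIcc _ hPo'))
    · exact hdis.mono_right (Finset.union_subset_union_right hU)
  · have := hexp _ (h6 Γ e)
    calc B * (r ^ K * (Real.exp (4 ^ K * ((K : ℝ) + 2) * ∑ p ∈ QQ δ υ ℓ e Γ, 1 / ((p : ℝ) - 1) ^ 2) - 1))
        = B * r ^ K * (Real.exp (4 ^ K * ((K : ℝ) + 2) * ∑ p ∈ QQ δ υ ℓ e Γ, 1 / ((p : ℝ) - 1) ^ 2) - 1) := by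
          ring
      _ ≤ ε₁ / 2 := this
  · refine rem_cond ?_ hX0 hV0.le hVle hε.le (h9 Γ hΓ e b Po' Hb hPo') ?_
    · apply mul_nonneg (by linarith)
      apply Finset.sum_nonneg
      intro Q' hQ'
      apply mul_nonneg (by positivity)
      refine Finset.sum_nonneg (fun D hD => mul_nonneg (by positivity) ?_)
      apply (hM1 b i hi hi9).M0
      exact Finset.union_subset
        ((Finset.mem_powerset.mp (Finset.mem_filter.mp hD).1).trans Finset.subset_union_left)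
        ((Finset.mem_powerset.mp (Finset.mem_filter.mp hQ').1).trans Finset.subset_union_right)
    · refine le_trans ?_ hremcond
      apply mul_le_mul_of_nonneg_left _ (by positivity)
      exact mul_le_mul_of_nonneg_left hRb (by linarith)

end Pool.Agent.H47.WS
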