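import Pool.Agent.H81.AS.KP
import Pool.Agent.H47.WS.TPP
import Pool.Agent.H47.WS.Outer
import Pool.Agent.H47.WS.Inner
import Pool.Agent.H47.WS.PoCard

/-!
The key proposition (adapted from H81/AS/KP.lean).
-/

set_option autoImplicit false

open Finset Filter Topology

namespace Pool.Agent.H47.WS

open Pool.Agent.H16 Pool.Agent.H81.AS

theorem kp (m : ℕ) (hm : 1 ≤ m) : ∃ k : ℕ, m + 1 ≤ k ∧ ∀ lam : ℝ, 0 < lam → ∃ (δ υ : ℝ) (κ : ℕ),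
    0 < δ ∧ δ ≤ υ ∧ υ ≤ 1 / 4 ∧ ∀ᶠ ℓ : ℝ in atTop, ∃ e : ℕ, ∀ Γ : Finset ℕ, Win lam ℓ Γ →
      ∃ (g α : ℕ → ℝ) (T1 T : ℝ),
      (∀ r, 0 ≤ g r) ∧ (∀ r, g r ≤ 1) ∧ (∀ r, 0 ≤ α r) ∧ (∀ r, α r ≤ 1) ∧
      (∀ b : ℕ, ∀ H0 ⊆ Po Γ ℓ e b, #H0 = k → ∀ E ∈ (Po Γ ℓ e b ×ˢ QQ δ υ ℓ e Γ).powerset,
        Cf H0 g α T1 T E ≠ 0 → #(H0 ∪ pos E) ≤ κ) ∧
      ∀ b : ℕ, ∀ H0 ⊆ Po Γ ℓ e b, #H0 = k → (∀ h ∈ H0, (h : ℝ) ≤ Real.exp ℓ / 9) →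
        (1 / 2) * (Real.exp ℓ / (WW ℓ e : ℝ)) * V1 δ ℓ e ^ k ≤
          ∑ n ∈ Sb ℓ e b,
            Psi (PP δ ℓ e) (QQ δ υ ℓ e Γ) (Po Γ ℓ e b) H0 (Cf H0 g α T1 T) n ^ 2 *
              ((∑ h ∈ H0, aw ℓ (zz υ ℓ) (n + h)) / ℓ - ((m : ℝ) - 1) -
                ((k : ℝ) + 1) * Xo (PP δ ℓ e) (QQ δ υ ℓ e Γ) (Po Γ ℓ e b) H0 n) := by
  obtain ⟨C0, hC0, hFLU⟩ := flp_exists
  obtain ⟨c₁, C₁, hc₁, hC₁, hXTall⟩ := xt_bounds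
  obtain ⟨k, n₀, η₁, δ₁, hk, hn₀, hη₁, h1024, hδ₁, hinner⟩ := inner_exists m hc₁
  refine ⟨k, hk, fun lam hlam => ?_⟩
  obtain ⟨Cp, hCp, hcardAll⟩ := po_card
  obtain ⟨A, CA, c₀, hA, hCA, hc₀, houter⟩ := outer_exists
  obtain ⟨CQ, hCQ, hQprod⟩ := QQ_prod
  obtain ⟨cV, hcV, hV1all⟩ := V1_bounds
  obtain ⟨J, κ₁, κ, K, s, ε, δ, hJ, hκ1, hκ, hK, hs, hε, hε256, hδ, hδδ₁, hδ64, hδc, hδs, hκ₁, hCpJ,
    hXi, hexp⟩ := params k C0 A hA hlam hCp hCA hc₀ hCQ hδ₁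
  obtain ⟨Λ, hΛ⟩ : ∃ Λ : ℝ, Λ = Cp * lam / δ := ⟨_, rfl⟩
  obtain ⟨r, hr⟩ : ∃ r : ℝ, r = CQ * (1 / 64) / δ := ⟨_, rfl⟩
  rw [← hΛ, ← hr] at hXi
  rw [← hΛ] at hexp
  have hΛ0 : 0 < Λ := by rw [hΛ]; positivity
  have hr1 : 1 ≤ r := by
    rw [hr, le_div_iff₀ hδ]
    nlinarith
  have hk1 : 1 ≤ k := by omega
  obtain ⟨ε₁, hε₁⟩ : ∃ ε₁ : ℝ, ε₁ = 1 / (16 * (((k : ℝ) + 1) * Λ + 1)) := ⟨_, rfl⟩
  have hden : 0 < ((k : ℝ) + 1) * Λ + 1 := by positivity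
  have hε₁0 : 0 < ε₁ := by rw [hε₁]; positivity
  have hε₁1 : ε₁ * (((k : ℝ) + 1) * Λ + 1) = 1 / 16 := by
    rw [hε₁]
    field_simp
  have hε₁2 : ε₁ ≤ 1 / 16 := by
    have : 0 ≤ ((k : ℝ) + 1) * Λ := by positivity
    nlinarith
  have hK1 : 1 ≤ K := by omega
  have hcard : ∀ᶠ ℓ : ℝ in atTop, ∀ Γ : Finset ℕ, Win lam ℓ Γ → ∀ e b : ℕ,
      (#(Po Γ ℓ e b) : ℝ) * V1 δ ℓ e ≤ Λ := by
    rw [hΛ]
    exact hcardAll lam δ hlam hδ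
  have hprod : ∀ᶠ ℓ : ℝ in atTop, ∀ (Γ : Finset ℕ) (e : ℕ),
      ∏ p ∈ QQ δ (1 / 64) ℓ e Γ, (1 + 1 / ((p : ℝ) - 1)) ≤ r := by
    rw [hr]
    exact hQprod δ (1 / 64) hδ hδ64
  have hFL : FLP (2 * K) s := hFLU (2 * K) s (by omega) hs
  have hΞ0 : 0 ≤ Xi K s κ Λ r := by
    unfold Xi
    positivity
  have hδ1 : δ ≤ 1 := by linarith
  have TI := tpi hK1 (by omega : 2 * κ ≤ K) hFL hlam hδ hδ1 hδ64 (by norm_num : (0 : ℝ) < 1 / 32)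
    (by linarith) hΛ0.le hr1 hcard hprod hε₁0
  have TP := tpp hK1 (by omega : 2 * κ ≤ K) hFL hlam hδ hδ1 hδ64 (by norm_num) (by norm_num : (0 : ℝ) < 1 / 32)
    (by linarith) hΛ0.le hr1 hcard hprod hε₁0
  have IN := hinner lam δ (1 / 64) hlam hδ hδδ₁ (by norm_num) (by norm_num)
  have OU := houter J lam ε (1 / 64) δ hJ hlam hε (by linarith) (by norm_num) hδ hδc
  have XB := hXTall (1 / 64) (by norm_num) (by norm_num)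
  have VB := hV1all δ hδ
  have ZB := ev_zz hδ 1
  refine ⟨δ, 1 / 64, κ, hδ, hδ64, by norm_num, ?_⟩
  filter_upwards [TI, TP, IN, OU, XB, VB, ZB, hcard, eventually_ge_atTop (1 : ℝ)] with ℓ TI TP IN OU XB VB
    ZB hcard hℓ1
  have hℓ0 : 0 < ℓ := by linarith
  obtain ⟨e, TP⟩ := TP
  refine ⟨e, fun Γ hΓ => ?_⟩
  replace TP := TP Γ hΓ
  replace TI := TI Γ hΓ
  replace IN := IN Γ hΓ
  replace hcard := hcard Γ hΓ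
  obtain ⟨α, hα0, hα1, hαs, hαsum, hαlog⟩ := OU Γ hΓ e
  have hαρ : ∀ r, α r ≠ 0 → Real.exp (ε / (A : ℝ) ^ J * ℓ) ≤ (r : ℝ) := fun r h => (hαs r h).1.le
  have hαTe : ∀ r, α r ≠ 0 → (r : ℝ) ≤ Real.exp (ε * ℓ) := fun r h => (hαs r h).2
  have hηℓ : 0 ≤ η₁ * ℓ := by positivity
  have hg0 : ∀ r, 0 ≤ gst n₀ (η₁ * ℓ) r := fun r => gst_nonneg _ _ _
  have hg11 : gst n₀ (η₁ * ℓ) 1 = 1 := gst_one hn₀ hηℓ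
  have hg00 : gst n₀ (η₁ * ℓ) 0 = 1 := gst_eq_one hn₀ hηℓ (by
    have := gY_ge_one hηℓ 0
    push_cast
    linarith)
  have hg1 : ∀ r, gst n₀ (η₁ * ℓ) r ≤ 1 := by
    intro r
    rw [← hg00]
    exact gst_anti n₀ (η₁ * ℓ) (Nat.zero_le r)
  have hTg : ∀ r, gst n₀ (η₁ * ℓ) r ≠ 0 → (r : ℝ) ≤ Real.exp (1 / 1024 * ℓ) := by
    intro r hr
    by_contra hc
    push Not at hc
    apply hr
    apply gst_eq_zero hηℓ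
    refine lt_of_le_of_lt ?_ hc
    unfold gY
    apply Real.exp_le_exp.mpr
    nlinarith
  have hρ1 : 1 < Real.exp (ε / (A : ℝ) ^ J * ℓ) := by
    rw [← Real.exp_zero]
    apply Real.exp_lt_exp.mpr
    have : (0 : ℝ) < (A : ℝ) ^ J := by positivity
    positivity
  have hTρ : Real.exp (1 / 64 * ℓ) < Real.exp (ε / (A : ℝ) ^ J * ℓ) ^ (κ₁ + 1) := by
    rw [← Real.exp_nat_mul]
    apply Real.exp_lt_exp.mpr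
    push_cast
    nlinarith
  have hQP : ∀ q ∈ QQ δ (1 / 64) ℓ e Γ, q.Prime := fun q hq =>
    (PQ_coprime (ℓ := ℓ) (e := e) (δ := δ) (υ := 1 / 64) (Γ := Γ) ZB.1 (Finset.mem_union_right _ hq)).1
  have hV0 : 0 < V1 δ ℓ e := V1_pos δ ℓ e
  have hW0 : (0 : ℝ) < (WW ℓ e : ℝ) := by exact_mod_cast WW_pos ℓ e
  have hφ0 : (0 : ℝ) < (((WW ℓ e).totient : ℕ) : ℝ) := by
    exact_mod_cast Nat.totient_pos.2 (WW_pos ℓ e)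
  have hX0 : 0 < Real.exp ℓ / (WW ℓ e : ℝ) := by positivity
  have hXT0 : 0 ≤ XT ℓ (zz (1 / 64) ℓ) := le_trans (by positivity) XB.1
  have hXP0 : 0 ≤ XT ℓ (zz (1 / 64) ℓ) / (((WW ℓ e).totient : ℕ) : ℝ) := by positivity
  have hR : Λ * (CA * δ * ℓ / J) ≤ 1 / (64 * 14) * ℓ := by
    have h2 : Λ * (CA * δ * ℓ / J) = (Cp * lam * CA / J) * ℓ := by
      rw [hΛ]
      field_simp
    rw [h2]
    exact mul_le_mul_of_nonneg_right hCpJ hℓ0.le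
  have hXi' : (Xi K s κ Λ r + ε₁) * (((k : ℝ) + 1) * Λ + 1) ≤ 1 / 8 := by
    have : (Xi K s κ Λ r + ε₁) * (((k : ℝ) + 1) * Λ + 1) = Xi K s κ Λ r * (((k : ℝ) + 1) * Λ + 1) +
      ε₁ * (((k : ℝ) + 1) * Λ + 1) := by ring
    rw [this, hε₁1]
    linarith
  have hXPX : c₁ * δ * V1 δ ℓ e * (Real.exp ℓ / (WW ℓ e : ℝ)) / 4 ≤
      XT ℓ (zz (1 / 64) ℓ) / (((WW ℓ e).totient : ℕ) : ℝ) / ℓ := by
    have h1 := (VB e).2.1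
    have h2 : δ * V1 δ ℓ e / (4 * (WW ℓ e : ℝ)) ≤ 1 / (ℓ * (((WW ℓ e).totient : ℕ) : ℝ)) := by
      rw [div_le_div_iff₀ (by positivity) (by positivity)]
      have h3 := mul_le_mul_of_nonneg_right h1 (by positivity : 0 ≤ δ * ℓ * (WW ℓ e : ℝ))
      have h4 : V1 δ ℓ e * ((((WW ℓ e).totient : ℕ) : ℝ) / (WW ℓ e : ℝ)) * (δ * ℓ * (WW ℓ e : ℝ)) =
          δ * V1 δ ℓ e * (ℓ * (((WW ℓ e).totient : ℕ) : ℝ)) := by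
        field_simp
      have h5 : 4 / (δ * ℓ) * (δ * ℓ * (WW ℓ e : ℝ)) = 1 * (4 * (WW ℓ e : ℝ)) := by
        field_simp
      linarith
    calc c₁ * δ * V1 δ ℓ e * (Real.exp ℓ / (WW ℓ e : ℝ)) / 4
        = c₁ * Real.exp ℓ * (δ * V1 δ ℓ e / (4 * (WW ℓ e : ℝ))) := by
          field_simp
      _ ≤ XT ℓ (zz (1 / 64) ℓ) * (1 / (ℓ * (((WW ℓ e).totient : ℕ) : ℝ))) :=
          mul_le_mul XB.1 h2 (by positivity) hXT0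
      _ = _ := by field_simp
  refine ⟨gst n₀ (η₁ * ℓ), α, Real.exp (1 / 64 * ℓ), Real.exp (1 / 64 * ℓ), hg0, hg1, hα0, hα1, ?_, ?_⟩
  · intro b H0 hH0 hc E hE hC
    have := (cf_supp hQP hH0 hρ1 hαρ hTρ hE hC).1
    omega
  intro b H0 hH0 hH0k hH09
  have TPHI : TPH (PP δ ℓ e) (QQ δ (1 / 64) ℓ e Γ) (Po Γ ℓ e b) (Sb ℓ e b) κ (Real.exp (1 / 32 * ℓ))
      (V1 δ ℓ e) (Xi K s κ Λ r) ε₁ (fun _ => 1) (Real.exp ℓ / (WW ℓ e : ℝ)) (fun _ => True) := by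
    intro Po' Hb h1 h2 _ C h3 h4
    have := TI e b Po' Hb h1 h2 C h3 h4
    simpa only [one_mul] using this
  have TPHP : ∀ i ∈ H0, TPH (PP δ ℓ e) (QQ δ (1 / 64) ℓ e Γ) (Po Γ ℓ e b) (Sb ℓ e b) κ
      (Real.exp (1 / 32 * ℓ)) (V1 δ ℓ e) (Xi K s κ Λ r) ε₁ (fun n => aw ℓ (zz (1 / 64) ℓ) (n + i))
      (XT ℓ (zz (1 / 64) ℓ) / (((WW ℓ e).totient : ℕ) : ℝ)) (fun U => i ∉ U) := by
    intro i hi Po' Hb h1 h2 h5 C h3 h4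
    exact TP b i Po' Hb (hH0 hi) (hH09 i hi) h1 h2 h5 C h3 h4
  have hap : ∀ i ∈ H0, ∀ n ∈ Sb ℓ e b, aw ℓ (zz (1 / 64) ℓ) (n + i) ≠ 0 →
      ∀ p ∈ PP δ ℓ e ∪ QQ δ (1 / 64) ℓ e Γ, ¬ p ∣ n + i := by
    intro i _ n _ hne p hp hdvd
    obtain ⟨h1, h2, _⟩ := aw_ne_zero hne
    have h3 := (PQ_coprime (ℓ := ℓ) (e := e) (δ := δ) (υ := 1 / 64) (Γ := Γ) ZB.1 hp).1
    have h4 : p = n + i := (Nat.prime_dvd_prime_iff_eq h3 h1).1 hdvd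
    have h5 : p ≤ zz (1 / 64) ℓ := by
      rcases Finset.mem_union.1 hp with h | h
      · unfold PP at h
        have := (mem_primesIoc.1 (Finset.mem_of_mem_erase h)).2.1
        exact this.trans (zz_mono hδ64 hℓ0.le)
      · exact (mem_QQ.1 h).2.2.1
    omega
  exact kp_gen (a := fun i n => aw ℓ (zz (1 / 64) ℓ) (n + i)) hm hk1 hQP hH0 hH0k hg0 hg1 hg11 hTg hα0 hα1
    hρ1 hαρ hαTe hαsum hαlog hR hTρ (by omega) hε hε256 hℓ0 hV0 hX0 hXP0 hε₁0 hε₁2 hΞ0 hΛ0.le (hcard e b)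
    hXi' hexp (IN e).1 (IN e).2 hap hXPX TPHI TPHP

end Pool.Agent.H47.WS
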