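import Pool.Agent.H81.AS.Pair

/-!
The bound for a pair of terms (copy of `pair_bound` of H81/AS/Pair.lean, without conditions on the positions).
-/

set_option autoImplicit false

open Finset Filter Topology

namespace Pool.Agent.H47.WS

open Pool.Agent.H16 Pool.Agent.H81.AS

theorem pair_bound {K s : ℕ} (hFL : FLP (2 * K) s) {w z : ℕ} (hw : 100 ≤ Real.log w)
    (hKw : 4 * (K : ℝ) ≤ w) (hwz : w ≤ z) {P Q Z U S : Finset ℕ} (hP : P ⊆ primesIoc w z)
    (hQ : ∀ q ∈ Q, q.Prime ∧ z < q) (hZ : #Z ≤ 1) (hUK : #U ≤ K) {a : ℕ → ℝ} {X Lv : ℝ} {M : Finset ℕ → ℝ}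
    (hD : Dist P Q Z S a X Lv M) {E E' : Finset (ℕ × ℕ)} (hE : E ⊆ U ×ˢ Q) (hE' : E' ⊆ U ×ˢ Q)
    (hlev : (z : ℝ) ^ (4 * s + 5) * ((∏ p ∈ prs E ∪ prs E', p : ℕ) : ℝ) ≤ Lv) :
    |∑ n ∈ S, a n * (ro P U n * (gE E n * gE E' n)) -
        X * VV P Z U * ∏ p ∈ prs E ∪ prs E', eloc Z p (col E p) (col E' p)| ≤
      (1 / 2 : ℝ) ^ s * (X * VV P Z U * ∏ p ∈ prs E ∪ prs E', aloc Z p (col E p) (col E' p)) +
      (1 + 2 * Real.log z) * ((∏ p ∈ prs E ∪ prs E', (((p : ℝ) - #Z) * aloc Z p (col E p) (col E' p))) *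
        ∑ D ∈ P.powerset.filter (fun D => (∏ p ∈ D, p) ≤ z ^ (4 * s + 5)),
          (K : ℝ) ^ #D * M (D ∪ (prs E ∪ prs E'))) := by
  classical
  set q := prs E ∪ prs E' with hq
  have hqQ : q ⊆ Q := by
    rw [hq]
    refine Finset.union_subset ?_ ?_
    · intro p hp
      obtain ⟨x, hx, rfl⟩ := Finset.mem_image.1 hp
      exact (Finset.mem_product.1 (hE hx)).2
    · intro p hp
      obtain ⟨x, hx, rfl⟩ := Finset.mem_image.1 hp
      exact (Finset.mem_product.1 (hE' hx)).2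
  have hqPQ : q ⊆ P ∪ Q := hqQ.trans Finset.subset_union_right
  have hPp : ∀ p ∈ P, p.Prime := fun p hp => (mem_primesIoc.1 (hP hp)).2.2
  have hPw : ∀ p ∈ P, w < p := fun p hp => (mem_primesIoc.1 (hP hp)).1
  have hPz : ∀ p ∈ P, p ≤ z := fun p hp => (mem_primesIoc.1 (hP hp)).2.1
  have hqp : ∀ p ∈ q, p.Prime := fun p hp => (hQ p (hqQ hp)).1
  have hqz : ∀ p ∈ q, z < p := fun p hp => (hQ p (hqQ hp)).2
  have hz1 : 1 ≤ z := by
    rcases Nat.eq_zero_or_pos w with h | h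
    · rw [h] at hw; norm_num at hw
    · omega
  have hcZ : ((#Z : ℕ) : ℝ) ≤ 1 := by exact_mod_cast hZ
  have hgd0 : ∀ p : ℕ, p.Prime → 0 < gd Z p := by
    intro p hp
    have h2 : (2 : ℝ) ≤ p := by exact_mod_cast hp.two_le
    have : 0 < (p : ℝ) - #Z := by linarith
    rw [gd]; positivity
  have hpZ : ∀ p : ℕ, p.Prime → ((p : ℝ) - #Z) * gd Z p = 1 := by
    intro p hp
    have h2 : (2 : ℝ) ≤ p := by exact_mod_cast hp.two_le
    have : 0 < (p : ℝ) - #Z := by linarith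
    rw [gd]; field_simp
  set Φ : ℕ → ℕ → ℝ := fun p c => pairPhi (col E p) (col E' p) p c with hΦ
  set G : (∀ p ∈ q, ℕ) → ℝ := fun b => ∏ p ∈ q, Φ p (pairExt q b p) with hG
  set Sb : (∀ p ∈ q, ℕ) → Finset ℕ := fun b => S.filter (fun n => ∀ p ∈ q, n ≡ pairExt q b p [MOD p])
    with hSb
  set Xq : ℝ := X * ∏ p ∈ q, gd Z p with hXq
  have hXq0 : 0 ≤ Xq := mul_nonneg hD.X0 (Finset.prod_nonneg fun p hp => (hgd0 p (hqp p hp)).le)
  have hmain : ∑ n ∈ S, a n * (ro P U n * (gE E n * gE E' n)) =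
      ∑ b ∈ q.pi (fun p => al Z p), G b * ∑ n ∈ Sb b, a n * ro P U n := by
    have h1 := pair_split hD hqPQ (fun p hp => (hqp p hp).pos) Φ
      (fun p n => pairPhi_mod _ _ p n) (fun n => ro P U n)
    rw [← h1]
    refine Finset.sum_congr rfl fun n _ => ?_
    rw [pair_gE]
  have hGX : ∑ b ∈ q.pi (fun p => al Z p), G b * (Xq * VV P Z U) =
      X * VV P Z U * ∏ p ∈ q, eloc Z p (col E p) (col E' p) := by
    rw [← Finset.sum_mul]
    have h1 : ∑ b ∈ q.pi (fun p => al Z p), G b = ∏ p ∈ q, ∑ c ∈ al Z p, Φ p c :=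
      (pair_prod_sum q (fun p => al Z p) Φ).symm
    have h2 : ∏ p ∈ q, eloc Z p (col E p) (col E' p) =
        (∏ p ∈ q, ∑ c ∈ al Z p, Φ p c) * ∏ p ∈ q, gd Z p := by
      rw [← Finset.prod_mul_distrib]
      rfl
    rw [h1, h2, hXq]
    ring
  have hGa : ∑ b ∈ q.pi (fun p => al Z p), |G b| = ∏ p ∈ q, ∑ c ∈ al Z p, |Φ p c| := by
    rw [pair_prod_sum q (fun p => al Z p) (fun p c => |Φ p c|)]
    refine Finset.sum_congr rfl fun b _ => ?_
    rw [hG]
    exact Finset.abs_prod _ _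
  have hal : ∀ p, (∑ c ∈ al Z p, |Φ p c|) * gd Z p = aloc Z p (col E p) (col E' p) := by
    intro p
    rw [aloc]
    congr 1
    refine Finset.sum_congr rfl fun c _ => ?_
    simp only [hΦ, pairPhi]
    rw [abs_mul, Finset.abs_prod, Finset.abs_prod]
  have hGa2 : ∑ b ∈ q.pi (fun p => al Z p), |G b| =
      ∏ p ∈ q, (((p : ℝ) - #Z) * aloc Z p (col E p) (col E' p)) := by
    rw [hGa]
    refine Finset.prod_congr rfl fun p hp => ?_
    rw [← hal p]
    have h1 := hpZ p (hqp p hp)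
    calc (∑ c ∈ al Z p, |Φ p c|) = (∑ c ∈ al Z p, |Φ p c|) * (((p : ℝ) - #Z) * gd Z p) := by
          rw [h1, mul_one]
      _ = _ := by ring
  have hGa3 : (∑ b ∈ q.pi (fun p => al Z p), |G b|) * Xq =
      X * ∏ p ∈ q, aloc Z p (col E p) (col E' p) := by
    have h2 : ∏ p ∈ q, aloc Z p (col E p) (col E' p) =
        (∏ p ∈ q, ∑ c ∈ al Z p, |Φ p c|) * ∏ p ∈ q, gd Z p := by
      rw [← Finset.prod_mul_distrib]
      exact Finset.prod_congr rfl fun p _ => (hal p).symm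
    rw [hGa, h2, hXq]
    ring
  set Rem : ℝ := ∑ D ∈ P.powerset.filter (fun D => (∏ p ∈ D, p) ≤ z ^ (4 * s + 5)),
          (K : ℝ) ^ #D * M (D ∪ q) with hRem
  have hlogz : 0 ≤ Real.log z := Real.log_nonneg (by exact_mod_cast hz1)
  have hone : ∀ b ∈ q.pi (fun p => al Z p),
      |∑ n ∈ Sb b, a n * ro P U n - Xq * VV P Z U| ≤
        (1 / 2 : ℝ) ^ s * (Xq * VV P Z U) + (1 + 2 * Real.log z) * Rem := by
    intro b hb
    have h1 := hFL (Sb b) a (fun n p => hit U n p) Xq w z hw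
      (by push_cast; linarith) hwz P hPp hPw hPz (fun p => (#(Rs Z U p) : ℝ) * gd Z p)
      (fun p hp => mul_nonneg (Nat.cast_nonneg _) (hgd0 p (hPp p hp)).le)
      (fun p hp => by
        have hp2 : (2 : ℝ) ≤ p := by exact_mod_cast (hPp p hp).two_le
        have h2 : (#(Rs Z U p) : ℝ) ≤ K := by exact_mod_cast pair_card_Rs.trans hUK
        have h3 : gd Z p ≤ 2 / p := by
          rw [gd, div_le_div_iff₀ (by linarith) (by linarith)]
          linarith
        have h4 : (0 : ℝ) ≤ K := Nat.cast_nonneg K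
        have h5 := (hgd0 p (hPp p hp)).le
        calc (#(Rs Z U p) : ℝ) * gd Z p ≤ K * (2 / p) := mul_le_mul h2 h3 h5 h4
          _ = ((2 * K : ℕ) : ℝ) / p := by push_cast; ring)
      (fun n hn => hD.a0 n (Finset.mem_filter.1 hn).1)
      (fun n _ p _ => by simp only [hit]; split_ifs <;> norm_num)
      (fun n _ p _ => by simp only [hit]; split_ifs <;> norm_num) hXq0
    refine h1.trans ?_
    refine add_le_add le_rfl (mul_le_mul_of_nonneg_left ?_ (by linarith))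
    refine Finset.sum_le_sum fun D hDm => ?_
    obtain ⟨hD1, hD2⟩ := Finset.mem_filter.1 hDm
    have hDP := Finset.mem_powerset.1 hD1
    have hDq : Disjoint D q := by
      rw [Finset.disjoint_left]
      intro p h2 h3
      have h4 := hPz p (hDP h2)
      have h5 := hqz p h3
      omega
    refine pair_RD hD (fun p hp => (hPp p hp).pos) hqPQ hUK hDP hDq ?_ hb
    refine le_trans (mul_le_mul_of_nonneg_right ?_ (Nat.cast_nonneg _)) hlev
    have : ((∏ p ∈ D, p : ℕ) : ℝ) ≤ ((z ^ (4 * s + 5) : ℕ) : ℝ) := by exact_mod_cast hD2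
    push_cast at this ⊢
    exact this
  rw [hmain, ← hGX, ← Finset.sum_sub_distrib]
  refine (Finset.abs_sum_le_sum_abs _ _).trans ?_
  have h5 : ∀ b ∈ q.pi (fun p => al Z p),
      |G b * ∑ n ∈ Sb b, a n * ro P U n - G b * (Xq * VV P Z U)| ≤
        |G b| * ((1 / 2 : ℝ) ^ s * (Xq * VV P Z U) + (1 + 2 * Real.log z) * Rem) := by
    intro b hb
    rw [← mul_sub, abs_mul]
    exact mul_le_mul_of_nonneg_left (hone b hb) (abs_nonneg _)
  refine (Finset.sum_le_sum h5).trans (le_of_eq ?_)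
  rw [← Finset.sum_mul, mul_add]
  congr 1
  · calc (∑ b ∈ q.pi (fun p => al Z p), |G b|) * ((1 / 2 : ℝ) ^ s * (Xq * VV P Z U))
        = (1 / 2 : ℝ) ^ s * (((∑ b ∈ q.pi (fun p => al Z p), |G b|) * Xq) * VV P Z U) := by ring
      _ = _ := by rw [hGa3]; ring
  · rw [hGa2]; ring

end Pool.Agent.H47.WS
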