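import Pool.Agent.H81.AS.VComp
import Pool.Agent.H47.WS.Env2

/-!
The sieve products `VV P Z U` are `V1^{#U} (1 + o(1))`, uniformly (adapted from H81/AS/VComp.lean).
-/

set_option autoImplicit false

open Finset Filter Topology

namespace Pool.Agent.H47.WS

open Pool.Agent.H16 Pool.Agent.H81.AS

/-- the primes between `ℓ/(log ℓ)^3` and `ℓ` -/
theorem mert_small {ε : ℝ} (hε : 0 < ε) : ∀ᶠ ℓ : ℝ in atTop,
    ∑ p ∈ primesIoc (zf ℓ) ⌊ℓ⌋₊, (1 : ℝ) / p ≤ ε := by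
  have hlz : Tendsto (fun ℓ : ℝ => Real.log (zf ℓ)) atTop atTop :=
    Real.tendsto_log_atTop.comp (tendsto_natCast_atTop_atTop.comp tendsto_zf)
  have hg : Tendsto (fun t : ℝ => (Real.log 16 + 3 * Real.log t + 5) / t) atTop (𝓝 0) := by
    have h1 : Tendsto (fun t : ℝ => Real.log t / t) atTop (𝓝 0) :=
      Real.isLittleO_log_id_atTop.tendsto_div_nhds_zero
    have h2 : Tendsto (fun t : ℝ => (Real.log 16 + 5) / t) atTop (𝓝 0) :=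
      tendsto_const_nhds.div_atTop tendsto_id
    have h3 := (h1.const_mul 3).add h2
    simp only [mul_zero, add_zero] at h3
    refine h3.congr fun t => ?_
    ring
  have hev := (hg.comp hlz).eventually (ge_mem_nhds hε)
  filter_upwards [ev_z, hev, eventually_ge_atTop (2 : ℝ)] with ℓ hz hg hℓ
  obtain ⟨h1, h2, h3, h4, h5, h6⟩ := hz
  simp only [Function.comp] at hg
  have hz2 : 2 ≤ zf ℓ := two_le_of_log_pos (by linarith)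
  have hz0 : (0 : ℝ) < zf ℓ := by
    have : (2 : ℝ) ≤ zf ℓ := by exact_mod_cast hz2
    linarith
  have hle : zf ℓ ≤ ⌊ℓ⌋₊ := by
    apply Nat.le_floor
    have h7 : 1 ≤ Real.log (zf ℓ) ^ 3 := one_le_pow₀ (by linarith)
    calc (zf ℓ : ℝ) = zf ℓ * 1 := (mul_one _).symm
      _ ≤ zf ℓ * Real.log (zf ℓ) ^ 3 := mul_le_mul_of_nonneg_left h7 hz0.le
      _ ≤ ℓ := h3
  refine (sum_inv_primes_le (zf ℓ) ⌊ℓ⌋₊ hz2 hle).trans ?_
  set t := Real.log (zf ℓ) with ht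
  have ht0 : 0 < t := by linarith
  have hfl : (0 : ℝ) < (⌊ℓ⌋₊ : ℝ) := lt_of_lt_of_le hz0 (by exact_mod_cast hle)
  have hn1 : Real.log (⌊ℓ⌋₊ : ℝ) ≤ Real.log ℓ :=
    Real.log_le_log hfl (Nat.floor_le (by linarith))
  have hn0 : 0 < Real.log (⌊ℓ⌋₊ : ℝ) :=
    lt_of_lt_of_le ht0 (Real.log_le_log hz0 (by exact_mod_cast hle))
  have hℓu : Real.log ℓ ≤ Real.log 16 + t + 3 * Real.log t := by
    have h8 := Real.log_le_log (by linarith : (0 : ℝ) < ℓ) h4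
    rw [Real.log_mul (by norm_num) (by positivity), Real.log_mul hz0.ne' (by positivity),
      Real.log_pow] at h8
    push_cast at h8
    rw [← ht] at h8
    linarith
  have h9 : Real.log (Real.log (⌊ℓ⌋₊ : ℝ) / t) ≤ (Real.log 16 + 3 * Real.log t) / t := by
    have h10 := Real.log_le_sub_one_of_pos (x := Real.log (⌊ℓ⌋₊ : ℝ) / t) (by positivity)
    refine h10.trans ?_
    rw [div_sub_one ht0.ne']
    apply div_le_div_of_nonneg_right _ ht0.le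
    linarith
  calc Real.log (Real.log (⌊ℓ⌋₊ : ℝ) / t) + 5 / t ≤ (Real.log 16 + 3 * Real.log t) / t + 5 / t := by
        linarith
    _ = (Real.log 16 + 3 * Real.log t + 5) / t := by ring
    _ ≤ ε := hg

/-- the sum over the bad primes -/
lemma vw_bad {lam ℓ : ℝ} {Γ : Finset ℕ} (hΓ : Win lam ℓ Γ) (hℓ : 1 ≤ ℓ) (hlog : 0 < Real.log ℓ) {z K : ℕ}
    (hz : z ≤ ⌊Real.exp ℓ⌋₊) {e : ℕ} {S : Finset ℕ} (hS : S ⊆ Γ) (hK : #S ≤ K) :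
    ∑ p ∈ ((primesIoc (zf ℓ) z).erase e).filter (fun p => ∃ a ∈ S, ∃ b ∈ S, a < b ∧ p ∣ b - a),
      (1 : ℝ) / p ≤ ∑ p ∈ primesIoc (zf ℓ) ⌊ℓ⌋₊, (1 : ℝ) / p + (K : ℝ) ^ 2 * (4 / Real.log ℓ) := by
  classical
  have hℓ0 : 0 < ℓ := by linarith
  set Q := ((primesIoc (zf ℓ) z).erase e).filter (fun p => ∃ a ∈ S, ∃ b ∈ S, a < b ∧ p ∣ b - a) with hQ
  have hsplit : Q = Q.filter (fun p => p ≤ ⌊ℓ⌋₊) ∪ Q.filter (fun p => ¬ p ≤ ⌊ℓ⌋₊) :=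
    (Finset.filter_union_filter_not_eq _ _).symm
  have hQm : ∀ p ∈ Q, zf ℓ < p ∧ p ≤ z ∧ p.Prime ∧ ∃ a ∈ S, ∃ b ∈ S, a < b ∧ p ∣ b - a := by
    intro p hp
    obtain ⟨h1, h2⟩ := mem_filter.1 hp
    obtain ⟨h3, h4, h5⟩ := mem_primesIoc.1 (mem_of_mem_erase h1)
    exact ⟨h3, h4, h5, h2⟩
  rw [hsplit, Finset.sum_union (Finset.disjoint_filter_filter_not _ _ _)]
  apply add_le_add
  · apply Finset.sum_le_sum_of_subset_of_nonneg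
    · intro p hp
      obtain ⟨h1, h2⟩ := mem_filter.1 hp
      exact mem_primesIoc.2 ⟨(hQm p h1).1, h2, (hQm p h1).2.2.1⟩
    · intro _ _ _
      positivity
  · have h1 : ∀ p ∈ Q.filter (fun p => ¬ p ≤ ⌊ℓ⌋₊), (1 : ℝ) / p ≤ 1 / ℓ := by
      intro p hp
      have h2 := (mem_filter.1 hp).2
      have h3 : ℓ < p := (Nat.floor_lt hℓ0.le).1 (not_le.1 h2)
      exact one_div_le_one_div_of_le hℓ0 h3.le
    refine (Finset.sum_le_sum h1).trans ?_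
    rw [sum_const, nsmul_eq_mul]
    have h2 : Q.filter (fun p => ¬ p ≤ ⌊ℓ⌋₊) ⊆ ((S ×ˢ S).filter (fun x => x.1 < x.2)).biUnion
        (fun x => (primesIoc ⌊ℓ⌋₊ ⌊Real.exp ℓ⌋₊).filter (fun p => p ∣ x.2 - x.1)) := by
      intro p hp
      obtain ⟨h3, h4⟩ := mem_filter.1 hp
      obtain ⟨h5, h6, h7, a, ha, b, hb, hab, hd⟩ := hQm p h3
      exact mem_biUnion.2 ⟨(a, b), mem_filter.2 ⟨mem_product.2 ⟨ha, hb⟩, hab⟩,
        mem_filter.2 ⟨mem_primesIoc.2 ⟨not_le.1 h4, h6.trans hz, h7⟩, hd⟩⟩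
    have h3 : (#(Q.filter (fun p => ¬ p ≤ ⌊ℓ⌋₊)) : ℝ) ≤ ∑ x ∈ (S ×ˢ S).filter (fun x => x.1 < x.2),
        (#((primesIoc ⌊ℓ⌋₊ ⌊Real.exp ℓ⌋₊).filter (fun p => p ∣ x.2 - x.1)) : ℝ) := by
      exact_mod_cast (card_le_card h2).trans card_biUnion_le
    have h4 : ∑ x ∈ (S ×ˢ S).filter (fun x => x.1 < x.2),
        (#((primesIoc ⌊ℓ⌋₊ ⌊Real.exp ℓ⌋₊).filter (fun p => p ∣ x.2 - x.1)) : ℝ) ≤
        ∑ _x ∈ (S ×ˢ S).filter (fun x => x.1 < x.2), 4 * (ℓ / Real.log ℓ) := by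
      apply Finset.sum_le_sum
      intro x hx
      obtain ⟨hx1, hx2⟩ := mem_filter.1 hx
      exact hΓ.diff x.1 (hS (mem_product.1 hx1).1) x.2 (hS (mem_product.1 hx1).2) hx2
    rw [sum_const, nsmul_eq_mul] at h4
    have h5 : (#((S ×ˢ S).filter (fun x => x.1 < x.2)) : ℝ) ≤ (K : ℝ) ^ 2 := by
      have h6 : (#((S ×ˢ S).filter (fun x => x.1 < x.2)) : ℝ) ≤ (#S : ℝ) * #S := by
        exact_mod_cast (card_filter_le _ _).trans (card_product _ _).le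
      have h7 : (#S : ℝ) ≤ K := by exact_mod_cast hK
      have h8 : (#S : ℝ) * #S ≤ K * K := mul_le_mul h7 h7 (Nat.cast_nonneg _) (Nat.cast_nonneg _)
      linarith [sq (K : ℝ)]
    have h6 : 0 ≤ 4 * (ℓ / Real.log ℓ) := by positivity
    have h7 := mul_le_mul_of_nonneg_right h5 h6
    have h8 : (#(Q.filter (fun p => ¬ p ≤ ⌊ℓ⌋₊)) : ℝ) ≤ (K : ℝ) ^ 2 * (4 * (ℓ / Real.log ℓ)) :=
      h3.trans (h4.trans h7)
    calc (#(Q.filter (fun p => ¬ p ≤ ⌊ℓ⌋₊)) : ℝ) * (1 / ℓ) ≤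
        (K : ℝ) ^ 2 * (4 * (ℓ / Real.log ℓ)) * (1 / ℓ) := mul_le_mul_of_nonneg_right h8 (by positivity)
      _ = (K : ℝ) ^ 2 * (4 / Real.log ℓ) := by field_simp

/-- the whole estimate with explicit constants -/
lemma vw_main (K : ℕ) {lam ℓ : ℝ} {Γ : Finset ℕ} (hΓ : Win lam ℓ Γ) (hℓ : 1 ≤ ℓ) (hlog : 0 < Real.log ℓ)
    {z e : ℕ} (hz : z ≤ ⌊Real.exp ℓ⌋₊) (hw : 2 * K + 2 ≤ zf ℓ) {Z U : Finset ℕ}
    (hZ : Z ⊆ Γ) (hU : U ⊆ Γ) (hZ1 : #Z ≤ 1) (hdis : Disjoint Z U) (hUK : #U ≤ K) :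
    ∑ p ∈ (primesIoc (zf ℓ) z).erase e,
        |(1 - (#(Rs Z U p) : ℝ) * gd Z p) / (1 - 1 / (p : ℝ)) ^ #U - 1| ≤
      6 * ((K : ℝ) + 1) ^ 2 * (1 / (zf ℓ : ℝ)) + 4 * ((K : ℝ) + 1) *
        (∑ p ∈ primesIoc (zf ℓ) ⌊ℓ⌋₊, (1 : ℝ) / p + ((K : ℝ) + 1) ^ 2 * (4 / Real.log ℓ)) := by
  classical
  set P := (primesIoc (zf ℓ) z).erase e with hP
  have hPsub : P ⊆ primesIoc (zf ℓ) z := erase_subset _ _
  have hPp : ∀ p ∈ P, p.Prime := fun p hp => (mem_primesIoc.mp (hPsub hp)).2.2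
  have hPw : ∀ p ∈ P, zf ℓ < p := fun p hp => (mem_primesIoc.mp (hPsub hp)).1
  set S := U ∪ Z with hS
  set Q := P.filter (fun p => ∃ a ∈ S, ∃ b ∈ S, a < b ∧ p ∣ b - a) with hQ
  have hterm : ∀ p ∈ P, |(1 - (#(Rs Z U p) : ℝ) * gd Z p) / (1 - 1 / (p : ℝ)) ^ #U - 1| ≤
      6 * ((K : ℝ) + 1) ^ 2 * (1 / (p : ℝ) ^ 2) + (if p ∈ Q then 4 * ((K : ℝ) + 1) * (1 / (p : ℝ)) else 0) := by
    intro p hp
    have hpp := hPp p hp
    have hpw := hPw p hp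
    by_cases hpQ : p ∈ Q
    · rw [if_pos hpQ]
      have h1 := vc_bad (K := K) (n := #U) (s := #Z) (r := #(Rs Z U p)) (p := p) hUK hZ1
        (vcRs_le Z U) (by omega)
      have h3 : 0 ≤ 6 * ((K : ℝ) + 1) ^ 2 * (1 / (p : ℝ) ^ 2) := by positivity
      have h2 : 4 * ((K : ℝ) + 1) / p = 4 * ((K : ℝ) + 1) * (1 / (p : ℝ)) := by rw [mul_one_div]
      unfold gd
      linarith
    · rw [if_neg hpQ, add_zero]
      have hg : vcGood (U ∪ Z) p := by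
        intro a ha b hb hab hd
        exact hpQ (mem_filter.mpr ⟨hp, a, ha, b, hb, hab, hd⟩)
      have h1 : #(Rs Z U p) = #U := le_antisymm (vcRs_le Z U) (vcRs_ge hpp.pos hdis hg)
      rw [h1]
      have h2 := vc_good (K := K) (n := #U) (s := #Z) (p := p) hUK hZ1 (by omega)
      unfold gd
      have h3 : 6 * ((K : ℝ) + 1) ^ 2 / (p : ℝ) ^ 2 = 6 * ((K : ℝ) + 1) ^ 2 * (1 / (p : ℝ) ^ 2) := by
        rw [mul_one_div]
      linarith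
  have hsum := sum_le_sum hterm
  rw [sum_add_distrib, ← mul_sum] at hsum
  have h1 : ∑ p ∈ P, (if p ∈ Q then 4 * ((K : ℝ) + 1) * (1 / (p : ℝ)) else 0) =
      4 * ((K : ℝ) + 1) * ∑ p ∈ Q, (1 : ℝ) / p := by
    rw [← sum_filter, mul_sum]
    have h2 : P.filter (fun p => p ∈ Q) = Q := by
      ext p
      rw [mem_filter]
      constructor
      · exact fun h => h.2
      · exact fun h => ⟨(mem_filter.mp h).1, h⟩
    rw [h2]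
  rw [h1] at hsum
  have hScard : #S ≤ K + 1 := (card_union_le _ _).trans (by omega)
  have hSG : S ⊆ Γ := union_subset hU hZ
  have h2 := vw_bad hΓ hℓ hlog hz (e := e) hSG hScard
  rw [← hP, ← hQ] at h2
  push_cast at h2
  have h3 := vc_sum_sq (w := zf ℓ) (z := z) (by omega) P hPsub
  have h4 : 6 * ((K : ℝ) + 1) ^ 2 * ∑ p ∈ P, 1 / (p : ℝ) ^ 2 ≤ 6 * ((K : ℝ) + 1) ^ 2 * (1 / (zf ℓ : ℝ)) :=
    mul_le_mul_of_nonneg_left h3 (by positivity)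
  have h5 := mul_le_mul_of_nonneg_left h2 (show 0 ≤ 4 * ((K : ℝ) + 1) by positivity)
  linarith

theorem vv_comp (K : ℕ) {lam δ ε : ℝ} (hlam : 0 < lam) (hδ : 0 < δ) (hδ1 : δ ≤ 1) (hε : 0 < ε) :
    ∀ᶠ ℓ : ℝ in atTop, ∀ Γ : Finset ℕ, Win lam ℓ Γ → ∀ e : ℕ, ∀ Z U : Finset ℕ, Z ⊆ Γ → U ⊆ Γ → #Z ≤ 1 →
      Disjoint Z U → #U ≤ K →
      |VV (PP δ ℓ e) Z U - V1 δ ℓ e ^ #U| ≤ ε * V1 δ ℓ e ^ #U := by
  obtain ⟨η, hη0, hη1, hηε⟩ : ∃ η : ℝ, 0 < η ∧ η ≤ 1 ∧ 2 * η ≤ ε := by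
    refine ⟨min 1 (ε / 2), by positivity, min_le_left _ _, ?_⟩
    have := min_le_right 1 (ε / 2)
    linarith
  set K1 : ℝ := (K : ℝ) + 1 with hK1
  have hK10 : 0 < K1 := by positivity
  have hA : Tendsto (fun ℓ : ℝ => (zf ℓ : ℝ)) atTop atTop := tendsto_natCast_atTop_atTop.comp tendsto_zf
  have hev1 : ∀ᶠ ℓ : ℝ in atTop, 6 * K1 ^ 2 * (1 / (zf ℓ : ℝ)) ≤ η / 3 := by
    filter_upwards [hA.eventually_ge_atTop (18 * K1 ^ 2 / η)] with ℓ h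
    have h0 : (0 : ℝ) < zf ℓ := lt_of_lt_of_le (by positivity) h
    rw [mul_one_div, div_le_iff₀ h0]
    rw [div_le_iff₀ hη0] at h
    linarith
  have hev2 : ∀ᶠ ℓ : ℝ in atTop, 4 * K1 * (K1 ^ 2 * (4 / Real.log ℓ)) ≤ η / 3 := by
    filter_upwards [Real.tendsto_log_atTop.eventually_ge_atTop (48 * K1 ^ 3 / η)] with ℓ h
    have h0 : (0 : ℝ) < Real.log ℓ := lt_of_lt_of_le (by positivity) h
    have h1 : 4 * K1 * (K1 ^ 2 * (4 / Real.log ℓ)) = 16 * K1 ^ 3 / Real.log ℓ := by ring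
    rw [h1, div_le_iff₀ h0]
    rw [div_le_iff₀ hη0] at h
    linarith
  filter_upwards [mert_small (show 0 < η / (12 * K1) by positivity), hev1, hev2,
    ev_zf (2 * (K : ℝ) + 2), eventually_ge_atTop (1 : ℝ),
    Real.tendsto_log_atTop.eventually_gt_atTop (0 : ℝ)] with ℓ hm h1 h2 h3 hℓ hlog
  intro Γ hΓ e Z U hZ hU hZ1 hdis hUK
  have hw : 2 * K + 2 ≤ zf ℓ := by exact_mod_cast h3.2
  have hz : zz δ ℓ ≤ ⌊Real.exp ℓ⌋₊ := by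
    unfold zz
    apply Nat.floor_le_floor
    apply Real.exp_le_exp.2
    nlinarith
  have h4 := vw_main K hΓ hℓ hlog (z := zz δ ℓ) (e := e) hz hw hZ hU hZ1 hdis hUK
  have h4' : ∑ p ∈ (primesIoc (zf ℓ) (zz δ ℓ)).erase e,
      |(1 - (#(Rs Z U p) : ℝ) * gd Z p) / (1 - 1 / (p : ℝ)) ^ #U - 1| ≤ η := by
    refine h4.trans ?_
    rw [← hK1, mul_add]
    have h5 := mul_le_mul_of_nonneg_left hm (show 0 ≤ 4 * K1 by positivity)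
    have h6 : 4 * K1 * (η / (12 * K1)) = η / 3 := by field_simp; norm_num
    linarith
  have hG : ∀ p ∈ PP δ ℓ e, 0 < (1 - 1 / (p : ℝ)) ^ #U := by
    intro p hp
    have hp2 := (mem_primesIoc.mp (mem_of_mem_erase hp)).2.2.two_le
    have hp2' : (2 : ℝ) ≤ p := by exact_mod_cast hp2
    have h5 : 1 / (p : ℝ) ≤ 1 / 2 := one_div_le_one_div_of_le (by norm_num) hp2'
    have h6 : 0 < 1 - 1 / (p : ℝ) := by linarith
    positivity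
  have h5 := vc_prod (P := PP δ ℓ e) (F := fun p => 1 - (#(Rs Z U p) : ℝ) * gd Z p)
    (G := fun p => (1 - 1 / (p : ℝ)) ^ #U) hG hη1 h4'
  have h6 : ∏ p ∈ PP δ ℓ e, (1 - 1 / (p : ℝ)) ^ #U = V1 δ ℓ e ^ #U := by
    rw [prod_pow]
    rfl
  rw [h6] at h5
  have h7 : 0 < V1 δ ℓ e ^ #U := pow_pos (V1_pos δ ℓ e) _
  have h8 : VV (PP δ ℓ e) Z U = ∏ p ∈ PP δ ℓ e, (1 - (#(Rs Z U p) : ℝ) * gd Z p) := rfl
  rw [h8]
  exact h5.trans (mul_le_mul_of_nonneg_right hηε h7.le)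

end Pool.Agent.H47.WS
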