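import Pool.Agent.H81.AS.Vs
import Pool.Agent.H47.WS.VComp

/-!
The sum of the sieve products over pairs of position sets (adapted from H81/AS/Vs.lean).
-/

set_option autoImplicit false

open Finset Filter Topology

namespace Pool.Agent.H47.WS

open Pool.Agent.H16 Pool.Agent.H81.AS

lemma V1_nonneg (δ ℓ : ℝ) (e : ℕ) : 0 ≤ V1 δ ℓ e := by
  unfold V1
  apply Finset.prod_nonneg
  intro p hp
  have hp1 : p.Prime := by
    have h1 := mem_of_mem_erase hp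
    exact (Finset.mem_filter.1 h1).2
  have : (2 : ℝ) ≤ p := by exact_mod_cast hp1.two_le
  have : 1 / (p : ℝ) ≤ 1 := by
    rw [div_le_one (by linarith)]
    linarith
  linarith

theorem vs_bound (κ : ℕ) {lam δ Λ : ℝ} (hlam : 0 < lam) (hδ : 0 < δ) (hδ1 : δ ≤ 1) (hΛ : 0 ≤ Λ)
    (hcard : ∀ᶠ ℓ : ℝ in atTop, ∀ Γ : Finset ℕ, Win lam ℓ Γ → ∀ e b : ℕ, (#(Po Γ ℓ e b) : ℝ) * V1 δ ℓ e ≤ Λ) :
    ∀ᶠ ℓ : ℝ in atTop, ∀ Γ : Finset ℕ, Win lam ℓ Γ → ∀ e b : ℕ, ∀ Po' Hb Z : Finset ℕ, Po' ⊆ Po Γ ℓ e b → Hb ⊆ Po Γ ℓ e b →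
      Z ⊆ Po Γ ℓ e b → #Z ≤ 1 → Disjoint Z (Hb ∪ Po') →
      ∑ H ∈ HH Po' Hb κ, ∑ H' ∈ HH Po' Hb κ, VV (PP δ ℓ e) Z (Hb ∪ H ∪ H') ≤
        V1 δ ℓ e ^ #Hb * (2 * 4 ^ κ * (2 * (κ : ℝ) + 1) * (3 * Λ + 1) ^ (2 * κ)) := by
  filter_upwards [hcard, vv_comp (2 * κ) hlam hδ hδ1 (ε := 1) one_pos] with ℓ h1 h2
  intro Γ hΓ e b Po' Hb Z hPo hHb hZ hZ1 hdis
  set V := V1 δ ℓ e with hV
  have hV0 : 0 ≤ V := V1_nonneg δ ℓ e
  have hPoI : Po Γ ℓ e b ⊆ Γ := filter_subset _ _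
  -- pointwise bound
  have h3 : ∀ H ∈ HH Po' Hb κ, ∀ H' ∈ HH Po' Hb κ,
      VV (PP δ ℓ e) Z (Hb ∪ H ∪ H') ≤ 2 * V ^ #Hb * V ^ #((H ∪ H') \ Hb) := by
    intro H hH H' hH'
    rw [HH, mem_filter, mem_powerset] at hH hH'
    have hsub : Hb ∪ H ∪ H' ⊆ Po Γ ℓ e b :=
      union_subset (union_subset hHb (hH.1.trans hPo)) (hH'.1.trans hPo)
    have hd : Disjoint Z (Hb ∪ H ∪ H') := by
      apply disjoint_of_subset_right _ hdis
      exact union_subset (union_subset subset_union_left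
        (hH.1.trans subset_union_right)) (hH'.1.trans subset_union_right)
    have hc : #(Hb ∪ H ∪ H') ≤ 2 * κ := by
      have h5 : Hb ∪ H ∪ H' ⊆ (Hb ∪ H) ∪ (Hb ∪ H') :=
        union_subset subset_union_left (subset_union_right.trans subset_union_right)
      have h6 := (card_le_card h5).trans (card_union_le _ _)
      omega
    have h4 := h2 Γ hΓ e Z (Hb ∪ H ∪ H') (hZ.trans hPoI) (hsub.trans hPoI) hZ1 hd hc
    have h5 : VV (PP δ ℓ e) Z (Hb ∪ H ∪ H') ≤ 2 * V ^ #(Hb ∪ H ∪ H') := by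
      have := (abs_le.mp h4).2
      rw [← hV] at this
      linarith
    have h6 : #(Hb ∪ H ∪ H') = #Hb + #((H ∪ H') \ Hb) := by
      rw [← card_union_of_disjoint disjoint_sdiff, union_sdiff_self_eq_union, union_assoc]
    rw [h6, pow_add] at h5
    linarith
  by_cases hemp : HH Po' Hb κ = ∅
  · rw [hemp, sum_empty]
    positivity
  have hHbκ : #Hb ≤ κ := by
    obtain ⟨H, hH⟩ := nonempty_iff_ne_empty.mpr hemp
    rw [HH, mem_filter] at hH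
    exact (card_le_card subset_union_left).trans hH.2
  calc ∑ H ∈ HH Po' Hb κ, ∑ H' ∈ HH Po' Hb κ, VV (PP δ ℓ e) Z (Hb ∪ H ∪ H')
      ≤ ∑ H ∈ HH Po' Hb κ, ∑ H' ∈ HH Po' Hb κ, 2 * V ^ #Hb * V ^ #((H ∪ H') \ Hb) :=
        Finset.sum_le_sum fun H hH => Finset.sum_le_sum fun H' hH' => h3 H hH H' hH'
    _ = ∑ x ∈ HH Po' Hb κ ×ˢ HH Po' Hb κ, 2 * V ^ #Hb * V ^ #((x.1 ∪ x.2) \ Hb) := by
        rw [Finset.sum_product]
    _ = ∑ U ∈ Po'.powerset.filter (fun U => #U ≤ 2 * κ),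
          ∑ x ∈ (HH Po' Hb κ ×ˢ HH Po' Hb κ).filter (fun x => (x.1 ∪ x.2) \ Hb = U),
            2 * V ^ #Hb * V ^ #((x.1 ∪ x.2) \ Hb) := by
        rw [Finset.sum_fiberwise_of_maps_to]
        rintro ⟨H, H'⟩ hx
        rw [mem_product, HH, mem_filter, mem_filter, mem_powerset, mem_powerset] at hx
        rw [mem_filter, mem_powerset]
        constructor
        · exact sdiff_subset.trans (union_subset hx.1.1 hx.2.1)
        · have a1 : #H ≤ κ := (card_le_card subset_union_right).trans hx.1.2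
          have a2 : #H' ≤ κ := (card_le_card subset_union_right).trans hx.2.2
          have a3 := (card_le_card (sdiff_subset (s := H ∪ H') (t := Hb))).trans
            (card_union_le H H')
          show #((H ∪ H') \ Hb) ≤ 2 * κ
          omega
    _ ≤ ∑ U ∈ Po'.powerset.filter (fun U => #U ≤ 2 * κ),
          2 * V ^ #Hb * (4 ^ #Hb * (3 * V) ^ #U) := by
        apply Finset.sum_le_sum
        intro U _
        have h7 : ∑ x ∈ (HH Po' Hb κ ×ˢ HH Po' Hb κ).filter (fun x => (x.1 ∪ x.2) \ Hb = U),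
            2 * V ^ #Hb * V ^ #((x.1 ∪ x.2) \ Hb) =
            (#((HH Po' Hb κ ×ˢ HH Po' Hb κ).filter (fun x => (x.1 ∪ x.2) \ Hb = U)) : ℝ) *
              (2 * V ^ #Hb * V ^ #U) := by
          rw [← nsmul_eq_mul, ← Finset.sum_const]
          apply Finset.sum_congr rfl
          intro x hx
          rw [mem_filter] at hx
          rw [hx.2]
        rw [h7]
        have h8 : (#((HH Po' Hb κ ×ˢ HH Po' Hb κ).filter (fun x => (x.1 ∪ x.2) \ Hb = U)) : ℝ) ≤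
            4 ^ #Hb * 3 ^ #U := by exact_mod_cast fiber_card Po' Hb U κ
        calc (#((HH Po' Hb κ ×ˢ HH Po' Hb κ).filter (fun x => (x.1 ∪ x.2) \ Hb = U)) : ℝ) *
              (2 * V ^ #Hb * V ^ #U) ≤ (4 ^ #Hb * 3 ^ #U) * (2 * V ^ #Hb * V ^ #U) := by
              apply mul_le_mul_of_nonneg_right h8 (by positivity)
          _ = _ := by rw [mul_pow]; ring
    _ = 2 * V ^ #Hb * 4 ^ #Hb * ∑ U ∈ Po'.powerset.filter (fun U => #U ≤ 2 * κ), (3 * V) ^ #U := by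
        rw [Finset.mul_sum]
        apply Finset.sum_congr rfl
        intro U _
        ring
    _ ≤ 2 * V ^ #Hb * 4 ^ κ * ((2 * (κ : ℝ) + 1) * (3 * Λ + 1) ^ (2 * κ)) := by
        have h9 := sum_card_le Po' (2 * κ) (v := 3 * V) (by positivity)
        have h10 : (#Po' : ℝ) * (3 * V) ≤ 3 * Λ := by
          have h11 := h1 Γ hΓ e b
          rw [← hV] at h11
          have h12 : (#Po' : ℝ) ≤ #(Po Γ ℓ e b) := by exact_mod_cast card_le_card hPo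
          nlinarith
        have h13 : ∑ u ∈ range (2 * κ + 1), ((#Po' : ℝ) * (3 * V)) ^ u ≤
            ∑ u ∈ range (2 * κ + 1), (3 * Λ) ^ u := by
          apply Finset.sum_le_sum
          intro u _
          gcongr
        have h14 := sum_pow_le (3 * Λ) (by positivity) (2 * κ)
        push_cast at h14
        have h15 : ∑ U ∈ Po'.powerset.filter (fun U => #U ≤ 2 * κ), (3 * V) ^ #U ≤
            (2 * (κ : ℝ) + 1) * (3 * Λ + 1) ^ (2 * κ) := h9.trans (h13.trans h14)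
        have h16 : (4 : ℝ) ^ #Hb ≤ 4 ^ κ := pow_le_pow_right₀ (by norm_num) hHbκ
        have h17 : 0 ≤ ∑ U ∈ Po'.powerset.filter (fun U => #U ≤ 2 * κ), (3 * V) ^ #U :=
          Finset.sum_nonneg fun U _ => by positivity
        gcongr
    _ = V ^ #Hb * (2 * 4 ^ κ * (2 * (κ : ℝ) + 1) * (3 * Λ + 1) ^ (2 * κ)) := by ring

theorem hh_card (κ : ℕ) {lam : ℝ} (hlam : 0 < lam) : ∃ C : ℝ, 0 < C ∧ ∀ᶠ ℓ : ℝ in atTop, ∀ Γ : Finset ℕ, Win lam ℓ Γ →
    ∀ e b : ℕ, ∀ Po' Hb : Finset ℕ, Po' ⊆ Po Γ ℓ e b → (#(HH Po' Hb κ) : ℝ) ≤ C * ℓ ^ κ := by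
  refine ⟨((κ : ℝ) + 1) * (lam + 1) ^ κ, by positivity, ?_⟩
  filter_upwards [eventually_ge_atTop (1 : ℝ)] with ℓ hℓ
  intro Γ hΓ e b Po' Hb hPo
  have h1 : HH Po' Hb κ ⊆ Po'.powerset.filter (fun U => #U ≤ κ) := by
    intro H hH
    rw [HH, mem_filter] at hH
    rw [mem_filter]
    exact ⟨hH.1, (card_le_card subset_union_right).trans hH.2⟩
  have h2 : (#(HH Po' Hb κ) : ℝ) ≤ ∑ U ∈ Po'.powerset.filter (fun U => #U ≤ κ), (1 : ℝ) ^ #U := by
    have h3 : (#(HH Po' Hb κ) : ℝ) ≤ #(Po'.powerset.filter (fun U => #U ≤ κ)) := by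
      exact_mod_cast card_le_card h1
    refine h3.trans (le_of_eq ?_)
    simp
  have h4 := sum_card_le Po' κ (v := 1) zero_le_one
  have h5 : (#Po' : ℝ) * 1 ≤ lam * ℓ := by
    rw [mul_one]
    have h6 : #Po' ≤ #Γ := (card_le_card hPo).trans (card_filter_le _ _)
    calc (#Po' : ℝ) ≤ (#Γ : ℝ) := by exact_mod_cast h6
      _ ≤ lam * ℓ := hΓ.card
  have h8 : ∑ u ∈ range (κ + 1), ((#Po' : ℝ) * 1) ^ u ≤ ∑ u ∈ range (κ + 1), (lam * ℓ) ^ u := by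
    apply Finset.sum_le_sum
    intro u _
    gcongr
  have h9 := sum_pow_le (lam * ℓ) (by positivity) κ
  have h10 : (lam * ℓ + 1) ^ κ ≤ ((lam + 1) * ℓ) ^ κ := by
    gcongr
    nlinarith
  calc (#(HH Po' Hb κ) : ℝ) ≤ ((κ : ℝ) + 1) * (lam * ℓ + 1) ^ κ :=
        h2.trans (h4.trans (h8.trans h9))
    _ ≤ ((κ : ℝ) + 1) * ((lam + 1) * ℓ) ^ κ := by gcongr
    _ = ((κ : ℝ) + 1) * (lam + 1) ^ κ * ℓ ^ κ := by rw [mul_pow]; ring

end Pool.Agent.H47.WS
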