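import Pool.Agent.H81.AS.Mom
import Pool.Agent.H47.WS.Vs
import Pool.Agent.H47.WS.DistI
import Pool.Agent.H47.WS.PoCard
import Pool.Agent.H47.WS.Pair

/-!
Moments of the number of rough positions (adapted from H81/AS/Mom.lean).
-/

set_option autoImplicit false

open Finset Filter Topology

namespace Pool.Agent.H47.WS

open Pool.Agent.H16 Pool.Agent.H81.AS

/-- one set of positions -/
theorem mom_single (p : ℕ) (hp : 1 ≤ p) {lam : ℝ} (hlam : 0 < lam) : ∃ δ₀ : ℝ, 0 < δ₀ ∧ ∀ δ : ℝ, 0 < δ →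
    δ ≤ δ₀ → ∀ᶠ ℓ : ℝ in atTop, ∀ Γ : Finset ℕ, Win lam ℓ Γ → ∀ e b : ℕ, ∀ U : Finset ℕ,
      U ⊆ Po Γ ℓ e b → #U = p →
      ∑ n ∈ Sb ℓ e b, ro (PP δ ℓ e) U n ≤ 5 * (Real.exp ℓ / (WW ℓ e : ℝ)) * V1 δ ℓ e ^ p := by
  obtain ⟨C0, hC0, hfl⟩ := flp_exists
  obtain ⟨cv, hcv, hV⟩ := V1_bounds
  set s : ℕ := C0 * (2 * p) with hs
  have hFL : FLP (2 * p) s := hfl (2 * p) s (by omega) le_rfl
  have hs0 : (0 : ℝ) ≤ s := Nat.cast_nonneg _
  refine ⟨1 / (8 * (8 * (s : ℝ) + 10)), by positivity, ?_⟩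
  intro δ hδ hδ0
  have hlev : 4 * (1 / 32 : ℝ) + δ * (8 * (s : ℝ) + 10) < 1 / 2 := by
    have : δ * (8 * (s : ℝ) + 10) ≤ 1 / 8 := by
      calc δ * (8 * (s : ℝ) + 10) ≤ 1 / (8 * (8 * (s : ℝ) + 10)) * (8 * (s : ℝ) + 10) :=
            mul_le_mul_of_nonneg_right hδ0 (by positivity)
        _ = 1 / 8 := by field_simp
    linarith
  have hrem := rem_int (K := p) (s := s) (δ := δ) (υ := δ) (τ := 1 / 32) hδ (by norm_num) hlev
  have hδ1 : δ ≤ 1 := by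
    refine hδ0.trans ?_
    rw [div_le_one (by positivity)]
    nlinarith
  have hvv := vv_comp p hlam hδ hδ1 (ε := 1) one_pos
  have hwz := ev_zf (4 * (p : ℝ))
  have hzz := ev_zz hδ 0
  have hWW := ev_WW (ε := 1 / 8) (by norm_num)
  have hVb := hV δ hδ
  have hfin : ∀ᶠ ℓ : ℝ in atTop, (1 + 2 * (δ * ℓ)) * Real.exp (ℓ / 2) ≤
      Real.exp (7 / 8 * ℓ) * (cv / (δ * ℓ)) ^ p := by
    have hlo := isLittleO_pow_exp_pos_mul_atTop (p + 1) (b := 3 / 8) (by norm_num)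
    have hc1 : 0 < (1 / ((1 + 2 * δ) * (δ / cv) ^ p) : ℝ) := by positivity
    filter_upwards [hlo.def hc1, eventually_ge_atTop 1] with ℓ h1 h2
    have hℓ : 0 < ℓ := by linarith
    rw [Real.norm_of_nonneg (by positivity), Real.norm_of_nonneg (by positivity)] at h1
    have h3 : (1 + 2 * δ) * (δ / cv) ^ p * ℓ ^ (p + 1) ≤ Real.exp (3 / 8 * ℓ) := by
      have := mul_le_mul_of_nonneg_left h1 (show 0 ≤ (1 + 2 * δ) * (δ / cv) ^ p by positivity)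
      refine this.trans (le_of_eq ?_)
      field_simp
    have h4 : (1 + 2 * (δ * ℓ)) ≤ (1 + 2 * δ) * ℓ := by nlinarith
    have h5 : Real.exp (7 / 8 * ℓ) = Real.exp (ℓ / 2) * Real.exp (3 / 8 * ℓ) := by
      rw [← Real.exp_add]; congr 1; ring
    rw [h5]
    calc (1 + 2 * (δ * ℓ)) * Real.exp (ℓ / 2) ≤ (1 + 2 * δ) * ℓ * Real.exp (ℓ / 2) :=
          mul_le_mul_of_nonneg_right h4 (Real.exp_pos _).le
      _ = Real.exp (ℓ / 2) * ((1 + 2 * δ) * (δ / cv) ^ p * ℓ ^ (p + 1)) * (cv / (δ * ℓ)) ^ p := by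
          rw [div_pow, div_pow, mul_pow]
          field_simp
          ring
      _ ≤ Real.exp (ℓ / 2) * Real.exp (3 / 8 * ℓ) * (cv / (δ * ℓ)) ^ p := by
          apply mul_le_mul_of_nonneg_right _ (by positivity)
          exact mul_le_mul_of_nonneg_left h3 (Real.exp_pos _).le
  filter_upwards [hrem, hvv, hwz, hzz, hWW, hVb, hfin, eventually_gt_atTop 0] with
    ℓ hrem hvv hwz hzz hWW hVb hfin hℓ Γ hΓ e b U hU hUp
  have hUI : U ⊆ Γ := hU.trans (Finset.filter_subset _ _)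
  obtain ⟨hwz1, hwz2⟩ := hwz
  obtain ⟨hz1, -, hz3, hz4, -, -⟩ := hzz
  have hWpos : (0 : ℝ) < WW ℓ e := by exact_mod_cast WW_pos ℓ e
  set X : ℝ := Real.exp ℓ / (WW ℓ e : ℝ) with hX
  have hXpos : 0 < X := by positivity
  set z : ℕ := zz δ ℓ with hz
  have hD := dist_int (e := e) (υ := δ) (Γ := Γ) hz1 b ((z : ℝ) ^ (4 * s + 5) * ((∏ q ∈ prs (∅ : Finset (ℕ × ℕ)) ∪ prs (∅ : Finset (ℕ × ℕ)), q : ℕ) : ℝ))
  have hpb := pair_bound (K := p) (s := s) hFL (w := zf ℓ) (z := z) hwz1 hwz2 hz1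
    (P := PP δ ℓ e) (Q := QQ δ δ ℓ e Γ) (Z := ∅) (U := U) (S := Sb ℓ e b)
    (Finset.erase_subset _ _) (by
      intro q hq
      have := mem_QQ.1 hq
      exact ⟨this.2.2.2.1, this.2.1⟩) (by simp) hUp.le hD
    (E := ∅) (E' := ∅) (by simp) (by simp) le_rfl
  have hprs : prs (∅ : Finset (ℕ × ℕ)) = ∅ := by simp [prs]
  simp only [hprs, Finset.union_empty, Finset.prod_empty, mul_one, one_mul, gE] at hpb
  have hvU := hvv Γ hΓ e ∅ U (by simp) hUI (by simp) (by simp) hUp.le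
  rw [hUp, one_mul] at hvU
  have hremE := hrem Γ e
  have hsing : ∑ D ∈ (PP δ ℓ e).powerset.filter (fun D => (∏ p ∈ D, p) ≤ zz δ ℓ ^ (4 * s + 5)),
            (p : ℝ) ^ #D * 2 ≤ Real.exp (ℓ / 2) := by
    refine le_trans ?_ hremE
    have h0 : (∅ : Finset ℕ) ∈ (QQ δ δ ℓ e Γ).powerset.filter
        (fun Q' => ((∏ p ∈ Q', p : ℕ) : ℝ) ≤ Real.exp ((1 / 32) * ℓ) ^ 2) := by
      simp only [Finset.mem_filter, Finset.empty_mem_powerset, Finset.prod_empty, Nat.cast_one, true_and]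
      exact one_le_pow₀ (Real.one_le_exp (by positivity))
    have := Finset.single_le_sum (f := fun Q' => (24 * (p : ℝ)) ^ #Q' *
          ∑ D ∈ (PP δ ℓ e).powerset.filter (fun D => (∏ p ∈ D, p) ≤ zz δ ℓ ^ (4 * s + 5)),
            (p : ℝ) ^ #D * 2) (fun i _ => by positivity) h0
    simpa using this
  have hVpos := V1_pos δ ℓ e
  have hVlow := (hVb e).2.2
  have hXlow : Real.exp (7 / 8 * ℓ) ≤ X := by
    rw [hX, le_div_iff₀ hWpos]
    calc Real.exp (7 / 8 * ℓ) * (WW ℓ e : ℝ) ≤ Real.exp (7 / 8 * ℓ) * Real.exp (1 / 8 * ℓ) :=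
          mul_le_mul_of_nonneg_left (hWW e).1 (Real.exp_pos _).le
      _ = Real.exp ℓ := by rw [← Real.exp_add]; congr 1; ring
  rw [← hz] at hsing
  generalize hSD : (∑ D ∈ (PP δ ℓ e).powerset with ∏ q ∈ D, q ≤ z ^ (4 * s + 5), (p : ℝ) ^ #D * 2) = SD
    at hpb hsing
  have hSD0 : 0 ≤ SD := by
    rw [← hSD]; apply Finset.sum_nonneg; intro i _; positivity
  have hR : (1 + 2 * Real.log z) * SD ≤ X * V1 δ ℓ e ^ p := by
    have hlz : 0 ≤ Real.log z := le_trans (by positivity) hz3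
    calc (1 + 2 * Real.log z) * SD
        ≤ (1 + 2 * (δ * ℓ)) * Real.exp (ℓ / 2) := by
          apply mul_le_mul (by linarith) hsing hSD0
          positivity
      _ ≤ Real.exp (7 / 8 * ℓ) * (cv / (δ * ℓ)) ^ p := hfin
      _ ≤ X * V1 δ ℓ e ^ p := by
          apply mul_le_mul hXlow _ (by positivity) hXpos.le
          exact pow_le_pow_left₀ (by positivity) hVlow p
  have hvv1 : VV (PP δ ℓ e) ∅ U ≤ 2 * V1 δ ℓ e ^ p := by
    have := (abs_le.1 hvU).2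
    linarith
  have h12 : (1 / 2 : ℝ) ^ s ≤ 1 := pow_le_one₀ (by norm_num) (by norm_num)
  have h12' : (0 : ℝ) ≤ (1 / 2 : ℝ) ^ s := by positivity
  have hVVnn : 0 ≤ VV (PP δ ℓ e) ∅ U := by
    have := (abs_le.1 hvU).1
    linarith
  have hb := (abs_le.1 hpb).2
  have hXV : 0 ≤ X * VV (PP δ ℓ e) ∅ U := by positivity
  have hXV2 : X * VV (PP δ ℓ e) ∅ U ≤ X * (2 * V1 δ ℓ e ^ p) :=
    mul_le_mul_of_nonneg_left hvv1 hXpos.le
  have hh : (1 / 2 : ℝ) ^ s * (X * VV (PP δ ℓ e) ∅ U) ≤ X * VV (PP δ ℓ e) ∅ U := by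
    nlinarith
  nlinarith

theorem mom_card_Sb {δ ℓ : ℝ} {e : ℕ} (hw : zf ℓ ≤ zz δ ℓ) (b : ℕ) :
    (#(Sb ℓ e b) : ℝ) ≤ Real.exp ℓ / (WW ℓ e : ℝ) + 2 := by
  have hD := dist_int (e := e) (υ := δ) (Γ := ∅) hw b 1
  have := hD.cnt ∅ (by simp) (by simp) (fun _ => 0) (by simp)
  simp only [Finset.notMem_empty, false_implies, implies_true, Finset.filter_true, Finset.prod_empty,
    mul_one, Finset.sum_const, nsmul_eq_mul] at this
  have := (abs_le.1 this).2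
  linarith

theorem moment (p : ℕ) {lam δ : ℝ} (hlam : 0 < lam) (hδ : 0 < δ) : ∃ C : ℝ, 0 < C ∧
    ∀ᶠ ℓ : ℝ in atTop, ∀ Γ : Finset ℕ, Win lam ℓ Γ → ∀ e b : ℕ,
      ∑ n ∈ Sb ℓ e b, (1 + Yr (PP δ ℓ e) (Po Γ ℓ e b) n) ^ p ≤ C * (Real.exp ℓ / (WW ℓ e : ℝ)) := by
  obtain ⟨δ₀, hδ₀, hsing⟩ := mom_single (p + 1) (by omega) hlam
  obtain ⟨Cp, hCp, hpo⟩ := po_card
  set δ' : ℝ := min δ δ₀ with hδ'
  have hδ'0 : 0 < δ' := lt_min hδ hδ₀
  have hs := hsing δ' hδ'0 (min_le_right _ _)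
  have hp := hpo lam δ' hlam hδ'0
  refine ⟨(2 * ((p + 1 : ℕ) : ℝ)) ^ (p + 1) * (p + 1).factorial *
    (2 + 5 * (Cp * lam / δ') ^ (p + 1)), by positivity, ?_⟩
  have hWW := ev_WW (ε := 1 / 2) (by norm_num)
  have hexp : ∀ᶠ ℓ : ℝ in atTop, 2 ≤ Real.exp (ℓ / 2) := by
    have : Tendsto (fun ℓ : ℝ => Real.exp (ℓ / 2)) atTop atTop :=
      Real.tendsto_exp_atTop.comp (tendsto_id.atTop_div_const (by norm_num))
    exact this.eventually_ge_atTop 2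
  filter_upwards [hs, hp, ev_zz hδ'0 0, hWW, hexp, eventually_ge_atTop 0] with
    ℓ hs hp hz hWW hexp hℓ Γ hΓ e b
  have hWpos : (0 : ℝ) < WW ℓ e := by exact_mod_cast WW_pos ℓ e
  set X : ℝ := Real.exp ℓ / (WW ℓ e : ℝ) with hX
  have hXpos : 0 < X := by positivity
  have hX2 : 2 ≤ X := by
    refine hexp.trans ?_
    rw [hX, le_div_iff₀ hWpos]
    calc Real.exp (ℓ / 2) * (WW ℓ e : ℝ) ≤ Real.exp (ℓ / 2) * Real.exp (1 / 2 * ℓ) :=
          mul_le_mul_of_nonneg_left (hWW e).1 (Real.exp_pos _).le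
      _ = Real.exp ℓ := by rw [← Real.exp_add]; congr 1; ring
  have hcard := mom_card_Sb (e := e) hz.1 b
  rw [← hX] at hcard
  have hPP : PP δ' ℓ e ⊆ PP δ ℓ e := by
    apply Finset.erase_subset_erase
    intro q hq
    simp only [primesIoc, Finset.mem_filter, Finset.mem_Ioc] at hq ⊢
    exact ⟨⟨hq.1.1, hq.1.2.trans (zz_mono (min_le_left _ _) hℓ)⟩, hq.2⟩
  have hV := V1_pos δ' ℓ e
  set P' := PP δ' ℓ e with hP'
  set Ps := Po Γ ℓ e b with hPs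
  -- pointwise
  have hpt : ∀ n : ℕ, (1 + Yr (PP δ ℓ e) Ps n) ^ p ≤
      (2 * ((p + 1 : ℕ) : ℝ)) ^ (p + 1) * (p + 1).factorial *
        (1 + ∑ U ∈ powersetCard (p + 1) Ps, ro P' U n) := by
    intro n
    have h1 : Yr (PP δ ℓ e) Ps n ≤ Yr P' Ps n := by
      apply Finset.sum_le_sum
      intro h _
      exact mom_ro_mono hPP n
    have h0 : 0 ≤ Yr (PP δ ℓ e) Ps n := by rw [mom_yr_eq]; positivity
    have h0' : 0 ≤ Yr P' Ps n := by rw [mom_yr_eq]; positivity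
    calc (1 + Yr (PP δ ℓ e) Ps n) ^ p ≤ (1 + Yr P' Ps n) ^ p :=
          pow_le_pow_left₀ (by linarith) (by linarith) p
      _ ≤ (1 + Yr P' Ps n) ^ (p + 1) := pow_le_pow_right₀ (by linarith) (by omega)
      _ ≤ _ := by
          rw [mom_sum_ro, mom_yr_eq]
          exact mom_choose _ (p + 1) (by omega)
  have hsum : ∑ n ∈ Sb ℓ e b, ∑ U ∈ powersetCard (p + 1) Ps, ro P' U n ≤
      5 * X * (Cp * lam / δ') ^ (p + 1) := by
    rw [Finset.sum_comm]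
    calc ∑ U ∈ powersetCard (p + 1) Ps, ∑ n ∈ Sb ℓ e b, ro P' U n
        ≤ ∑ U ∈ powersetCard (p + 1) Ps, 5 * X * V1 δ' ℓ e ^ (p + 1) := by
          apply Finset.sum_le_sum
          intro U hU
          rw [Finset.mem_powersetCard] at hU
          exact hs Γ hΓ e b U hU.1 hU.2
      _ = ((#Ps).choose (p + 1) : ℝ) * (5 * X * V1 δ' ℓ e ^ (p + 1)) := by
          rw [Finset.sum_const, Finset.card_powersetCard, nsmul_eq_mul]
      _ ≤ ((#Ps : ℝ) ^ (p + 1)) * (5 * X * V1 δ' ℓ e ^ (p + 1)) := by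
          apply mul_le_mul_of_nonneg_right _ (by positivity)
          exact_mod_cast Nat.choose_le_pow _ _
      _ = 5 * X * ((#Ps : ℝ) * V1 δ' ℓ e) ^ (p + 1) := by rw [mul_pow]; ring
      _ ≤ 5 * X * (Cp * lam / δ') ^ (p + 1) := by
          apply mul_le_mul_of_nonneg_left _ (by positivity)
          exact pow_le_pow_left₀ (by positivity) (hp Γ hΓ e b) _
  calc ∑ n ∈ Sb ℓ e b, (1 + Yr (PP δ ℓ e) Ps n) ^ p
      ≤ ∑ n ∈ Sb ℓ e b, (2 * ((p + 1 : ℕ) : ℝ)) ^ (p + 1) * (p + 1).factorial *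
        (1 + ∑ U ∈ powersetCard (p + 1) Ps, ro P' U n) := Finset.sum_le_sum (fun n _ => hpt n)
    _ = (2 * ((p + 1 : ℕ) : ℝ)) ^ (p + 1) * (p + 1).factorial *
        ((#(Sb ℓ e b) : ℝ) + ∑ n ∈ Sb ℓ e b, ∑ U ∈ powersetCard (p + 1) Ps, ro P' U n) := by
        rw [← Finset.mul_sum, Finset.sum_add_distrib]
        simp
    _ ≤ (2 * ((p + 1 : ℕ) : ℝ)) ^ (p + 1) * (p + 1).factorial *
        (2 * X + 5 * X * (Cp * lam / δ') ^ (p + 1)) := by
        apply mul_le_mul_of_nonneg_left _ (by positivity)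
        linarith
    _ = _ := by ring

end Pool.Agent.H47.WS
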