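import Pool.Agent.H81.AS.Pt
import Pool.Agent.H47.WS.Env2

/-!
Pointwise bound for the sieve sum (adapted from H81/AS/Pt.lean).
-/

set_option autoImplicit false

open Finset Filter Topology

namespace Pool.Agent.H47.WS

open Pool.Agent.H16 Pool.Agent.H81.AS

/-- the product over the large primes -/
lemma pt_Q {δ : ℝ} (hδ : 0 < δ) {ℓ : ℝ} (hℓ : 0 < ℓ) (υ : ℝ) (e : ℕ) (Γ : Finset ℕ) {m : ℕ} (hm0 : 0 < m)
    (hm : (m : ℝ) ≤ Real.exp (2 * ℓ)) {K : ℝ}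
    (hK : ∏ p ∈ QQ δ υ ℓ e Γ, (1 + 1 / ((p : ℝ) - 1)) ≤ K) :
    ∏ p ∈ QQ δ υ ℓ e Γ, (1 + |uu p m|) ≤ 2 ^ ⌈2 / δ⌉₊ * K := by
  classical
  have hp : ∀ p ∈ QQ δ υ ℓ e Γ, p.Prime ∧ zz δ ℓ < p := by
    intro p hp
    have := mem_QQ.1 hp
    exact ⟨this.2.2.2.1, this.2.1⟩
  have h1 : ∏ p ∈ QQ δ υ ℓ e Γ, (1 + |uu p m|) ≤
      ∏ p ∈ QQ δ υ ℓ e Γ, ((if p ∣ m then (2 : ℝ) else 1) * (1 + 1 / ((p : ℝ) - 1))) := by
    apply Finset.prod_le_prod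
    · intro p _
      have := abs_nonneg (uu p m)
      linarith
    · intro p hpQ
      have hp2 : (2 : ℝ) ≤ p := by exact_mod_cast (hp p hpQ).1.two_le
      have hpos : 0 ≤ 1 / ((p : ℝ) - 1) := div_nonneg zero_le_one (by linarith)
      unfold uu
      split_ifs with hd
      · rw [abs_neg, abs_one]; linarith
      · rw [abs_of_nonneg hpos]; linarith
  rw [Finset.prod_mul_distrib] at h1
  set s := (QQ δ υ ℓ e Γ).filter (fun p => p ∣ m) with hs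
  have h2 : ∏ p ∈ QQ δ υ ℓ e Γ, (if p ∣ m then (2 : ℝ) else 1) = 2 ^ #s := by
    rw [← Finset.prod_filter, Finset.prod_const]
  have h3 : ∏ p ∈ s, p ∣ m := by
    apply Finset.prod_primes_dvd
    · intro p hps
      exact (hp p (Finset.mem_of_mem_filter p hps)).1.prime
    · intro p hps
      exact (Finset.mem_filter.1 hps).2
  have h4 : ((∏ p ∈ s, p : ℕ) : ℝ) ≤ m := by exact_mod_cast Nat.le_of_dvd hm0 h3
  have h5 : Real.exp (δ * ℓ) ^ #s ≤ ((∏ p ∈ s, p : ℕ) : ℝ) := by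
    push_cast
    rw [← Finset.prod_const]
    apply Finset.prod_le_prod
    · intro _ _; positivity
    · intro p hps
      have h6 := (hp p (Finset.mem_of_mem_filter p hps)).2
      have h7 : Real.exp (δ * ℓ) < zz δ ℓ + 1 := Nat.lt_floor_add_one _
      have h8 : (zz δ ℓ : ℝ) + 1 ≤ p := by exact_mod_cast h6
      linarith
  have h6 : Real.exp ((#s : ℝ) * (δ * ℓ)) ≤ Real.exp (2 * ℓ) := by
    rw [Real.exp_nat_mul]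
    linarith
  have h7 : (#s : ℝ) * (δ * ℓ) ≤ 2 * ℓ := Real.exp_le_exp.1 h6
  have h8 : (#s : ℝ) ≤ 2 / δ := by
    rw [le_div_iff₀ hδ]
    have h9 : (#s : ℝ) * δ * ℓ ≤ 2 * ℓ := by linarith
    exact le_of_mul_le_mul_right h9 hℓ
  have h9 : #s ≤ ⌈2 / δ⌉₊ := by
    have := h8.trans (Nat.le_ceil (2 / δ))
    exact_mod_cast this
  have h10 : (2 : ℝ) ^ #s ≤ 2 ^ ⌈2 / δ⌉₊ := pow_le_pow_right₀ (by norm_num) h9
  rw [h2] at h1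
  have h11 : 0 ≤ ∏ p ∈ QQ δ υ ℓ e Γ, (1 + 1 / ((p : ℝ) - 1)) := by
    apply Finset.prod_nonneg
    intro p hpQ
    have hp2 : (2 : ℝ) ≤ p := by exact_mod_cast (hp p hpQ).1.two_le
    have hpos : 0 ≤ 1 / ((p : ℝ) - 1) := div_nonneg zero_le_one (by linarith)
    linarith
  exact h1.trans (mul_le_mul h10 hK h11 (by positivity))

/-- shifts of positions are prime to the modulus -/
lemma po_coprime {Γ : Finset ℕ} {ℓ : ℝ} {e b n h : ℕ} (hh : h ∈ Po Γ ℓ e b) (hn : n ∈ Sb ℓ e b) :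
    Nat.Coprime (n + h) (WW ℓ e) := by
  have h1 := (Finset.mem_filter.1 hh).2
  have h2 := (Finset.mem_filter.1 hn).2
  have h3 : n + h ≡ b + h [MOD WW ℓ e] := h2.add_right h
  unfold Nat.Coprime at h1 ⊢
  rw [h3.gcd_eq]
  exact h1

/-- the value of a position is comparable with a small positive number -/
lemma po_val {lam ℓ : ℝ} {Γ : Finset ℕ} (hΓ : Win lam ℓ Γ) (hz : (3 : ℝ) ≤ zf ℓ) (h3e : (3 : ℝ) ≤ Real.exp ℓ)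
    {e b n h : ℕ} (hh : h ∈ Po Γ ℓ e b) (hn : n ∈ Sb ℓ e b) :
    ∃ m : ℕ, 0 < m ∧ (m : ℝ) ≤ Real.exp (2 * ℓ) ∧
      ∀ q : ℕ, q.Prime → (q : ℝ) ≤ Real.exp ℓ → (q ∣ n + h ↔ q ∣ m) := by
  obtain ⟨m, hm1, hm2⟩ := hΓ.val n (Finset.mem_filter.1 hn).1 h (Finset.mem_filter.1 hh).1
  refine ⟨m, ?_, hm1, hm2⟩
  rcases Nat.eq_zero_or_pos m with h0 | h0
  · exfalso
    have hz' : 3 ≤ zf ℓ := by exact_mod_cast hz
    obtain ⟨q, hq, hqe, hq3⟩ : ∃ q : ℕ, q.Prime ∧ q ≠ e ∧ q ≤ 3 := by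
      by_cases he : e = 2
      · exact ⟨3, Nat.prime_three, by omega, le_rfl⟩
      · exact ⟨2, Nat.prime_two, fun h => he h.symm, by norm_num⟩
    have hq3' : (q : ℝ) ≤ 3 := by exact_mod_cast hq3
    have h1 : q ∣ n + h := (hm2 q hq (by linarith)).2 (by rw [h0]; exact dvd_zero q)
    have h2 : q ∣ WW ℓ e := (prime_dvd_WW hq).2 ⟨by omega, hqe⟩
    have h3 := Nat.dvd_gcd h1 h2
    rw [(po_coprime hh hn : Nat.gcd (n + h) (WW ℓ e) = 1)] at h3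
    exact hq.one_lt.ne' (Nat.dvd_one.1 h3)
  · exact h0

theorem psi_le (κ : ℕ) {lam δ υ : ℝ} (hlam : 0 < lam) (hδ : 0 < δ) (hυ : δ ≤ υ) (hυ1 : υ ≤ 1) :
    ∃ C : ℝ, 1 ≤ C ∧ ∀ᶠ ℓ : ℝ in atTop, ∀ Γ : Finset ℕ, Win lam ℓ Γ → ∀ e b : ℕ, ∀ H0 ⊆ Po Γ ℓ e b,
      ∀ C' : Finset (ℕ × ℕ) → ℝ,
      (∀ E ∈ (Po Γ ℓ e b ×ˢ QQ δ υ ℓ e Γ).powerset, |C' E| ≤ 1 ∧ (C' E ≠ 0 → #(H0 ∪ pos E) ≤ κ)) →
      ∀ n ∈ Sb ℓ e b,
        |Psi (PP δ ℓ e) (QQ δ υ ℓ e Γ) (Po Γ ℓ e b) H0 C' n| ≤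
          ro (PP δ ℓ e) H0 n * (C * (1 + Yr (PP δ ℓ e) (Po Γ ℓ e b) n) ^ κ) := by
  obtain ⟨C0, hC0, hQ⟩ := QQ_prod
  have hυδ : 1 ≤ υ / δ := by rwa [le_div_iff₀ hδ, one_mul]
  have hK : 1 ≤ C0 * υ / δ := by
    rw [mul_div_assoc]
    nlinarith
  have h2 : (1 : ℝ) ≤ 2 ^ ⌈2 / δ⌉₊ := one_le_pow₀ (by norm_num)
  have hC₁ : 1 ≤ 2 ^ ⌈2 / δ⌉₊ * (C0 * υ / δ) := by nlinarith
  refine ⟨(2 ^ ⌈2 / δ⌉₊ * (C0 * υ / δ)) ^ κ, one_le_pow₀ hC₁, ?_⟩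
  filter_upwards [hQ δ υ hδ hυ, ev_zf 3, eventually_ge_atTop (2 : ℝ)]
    with ℓ hq hz hℓ Γ hΓ e b H0 hH0 C' hC' n hn
  apply pt_fin κ _ _ _ _ C' hC' n hC₁
  intro h hh
  have he : (3 : ℝ) ≤ Real.exp ℓ := by
    have := Real.add_one_le_exp ℓ
    linarith
  obtain ⟨m, hm0, hm1, hm2⟩ := po_val hΓ hz.2 he hh hn
  have heq : ∏ p ∈ QQ δ υ ℓ e Γ, (1 + |uu p (n + h)|) = ∏ p ∈ QQ δ υ ℓ e Γ, (1 + |uu p m|) := by
    apply Finset.prod_congr rfl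
    intro p hp
    obtain ⟨-, -, h4, h5, -⟩ := mem_QQ.1 hp
    have h6 : (p : ℝ) ≤ Real.exp ℓ := by
      have h7 : (p : ℝ) ≤ (zz υ ℓ : ℕ) := by exact_mod_cast h4
      refine h7.trans ((Nat.floor_le (Real.exp_pos _).le).trans (Real.exp_le_exp.2 ?_))
      nlinarith
    have h8 := hm2 p h5 h6
    unfold uu
    by_cases h9 : p ∣ m
    · rw [if_pos h9, if_pos (h8.2 h9)]
    · rw [if_neg h9, if_neg (fun h => h9 (h8.1 h))]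
  rw [heq]
  exact pt_Q hδ (by linarith) υ e Γ hm0 hm1 (hq Γ e)

end Pool.Agent.H47.WS
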