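import Pool.Agent.H47.WS.KP
import Pool.Agent.H47.WS.Pt
import Pool.Agent.H47.WS.Mom
import Pool.Agent.H47.WS.Adm

/-!
The master theorem for windows (adapted from H81/AS/Master.lean).
-/

set_option autoImplicit false

open Finset Filter Topology

namespace Pool.Agent.H47.WS

open Pool.Agent.H16 Pool.Agent.H81.AS

private lemma mro_of_dvd {P U : Finset ℕ} {n p h : ℕ} (hp : p ∈ P) (hh : h ∈ U) (hd : p ∣ n + h) :
    ro P U n = 0 := by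
  unfold ro
  apply Finset.prod_eq_zero hp
  unfold hit
  rw [if_pos ⟨h, hh, hd⟩]
  ring

private lemma mro_of_not {P U : Finset ℕ} {n : ℕ} (hn : ∀ p ∈ P, ∀ h ∈ U, ¬ p ∣ n + h) :
    ro P U n = 1 := by
  unfold ro
  apply Finset.prod_eq_one
  intro p hp
  unfold hit
  rw [if_neg]
  · ring
  · rintro ⟨h, hh, hd⟩
    exact hn p hp h hh hd

private lemma mro_01 (P U : Finset ℕ) (n : ℕ) : ro P U n = 0 ∨ ro P U n = 1 := by
  by_cases h : ∀ p ∈ P, ∀ h ∈ U, ¬ p ∣ n + h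
  · exact Or.inr (mro_of_not h)
  · push Not at h
    obtain ⟨p, hp, h, hh, hd⟩ := h
    exact Or.inl (mro_of_dvd hp hh hd)

private lemma mYr_eq (P A : Finset ℕ) (n : ℕ) :
    Yr P A n = (#(A.filter (fun h => ∀ p ∈ P, ¬ p ∣ n + h)) : ℝ) := by
  unfold Yr
  rw [Finset.card_filter]
  push_cast
  apply Finset.sum_congr rfl
  intro h _
  split_ifs with hd
  · exact mro_of_not (fun p hp h' hh' => by rw [Finset.mem_singleton.1 hh']; exact hd p hp)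
  · push Not at hd
    obtain ⟨p, hp, hd⟩ := hd
    exact mro_of_dvd hp (Finset.mem_singleton_self h) hd

private lemma mYr_nonneg (P A : Finset ℕ) (n : ℕ) : 0 ≤ Yr P A n := by
  rw [mYr_eq]
  positivity

private lemma mro_sum_le (P A : Finset ℕ) (n k : ℕ) (F : Finset (Finset ℕ))
    (hF : ∀ H ∈ F, #H = k ∧ H ⊆ A) : ∑ H ∈ F, ro P H n ≤ (1 + Yr P A n) ^ k := by
  classical
  rw [mYr_eq]
  set R := A.filter (fun h => ∀ p ∈ P, ¬ p ∣ n + h) with hR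
  have h1 : ∑ H ∈ F, ro P H n ≤ ∑ H ∈ F, (if H ⊆ R then (1 : ℝ) else 0) := by
    apply Finset.sum_le_sum
    intro H hH
    by_cases hHR : H ⊆ R
    · rw [if_pos hHR]
      rcases mro_01 P H n with h | h <;> rw [h]
      exact zero_le_one
    · rw [if_neg hHR]
      rw [Finset.not_subset] at hHR
      obtain ⟨h, hh, hhR⟩ := hHR
      have hA := (hF H hH).2 hh
      have : ¬ ∀ p ∈ P, ¬ p ∣ n + h := fun hc => hhR (Finset.mem_filter.2 ⟨hA, hc⟩)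
      push Not at this
      obtain ⟨p, hp, hd⟩ := this
      rw [mro_of_dvd hp hh hd]
  have h2 : ∑ H ∈ F, (if H ⊆ R then (1 : ℝ) else 0) = (#(F.filter (fun H => H ⊆ R)) : ℝ) := by
    rw [Finset.card_filter]
    push_cast
    rfl
  have h3 : #(F.filter (fun H => H ⊆ R)) ≤ (#R).choose k := by
    rw [← Finset.card_powersetCard]
    apply Finset.card_le_card
    intro H hH
    rw [Finset.mem_filter] at hH
    rw [Finset.mem_powersetCard]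
    exact ⟨hH.2, (hF H hH.1).1⟩
  have h4 : (#R).choose k ≤ (#R) ^ k := Nat.choose_le_pow _ _
  calc ∑ H ∈ F, ro P H n ≤ (#(F.filter (fun H => H ⊆ R)) : ℝ) := h1.trans h2.le
    _ ≤ ((#R) ^ k : ℕ) := by exact_mod_cast h3.trans h4
    _ = (#R : ℝ) ^ k := by push_cast; rfl
    _ ≤ (1 + (#R : ℝ)) ^ k := by
        apply pow_le_pow_left₀ (by positivity)
        linarith

private lemma msum_part (ℓ : ℝ) (e : ℕ) (f : ℕ → ℝ) :
    ∑ n ∈ Ioc 0 ⌊Real.exp ℓ⌋₊, f n = ∑ b ∈ range (WW ℓ e), ∑ n ∈ Sb ℓ e b, f n := by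
  rw [← Finset.sum_fiberwise_of_maps_to (s := Ioc 0 ⌊Real.exp ℓ⌋₊) (t := range (WW ℓ e))
    (g := fun n => n % WW ℓ e) (fun n _ => Finset.mem_range.2 (Nat.mod_lt _ (WW_pos ℓ e)))]
  apply Finset.sum_congr rfl
  intro b hb
  rw [Finset.mem_range] at hb
  apply Finset.sum_congr _ (fun _ _ => rfl)
  unfold Sb
  apply Finset.filter_congr
  intro n _
  unfold Nat.ModEq
  rw [Nat.mod_eq_of_lt hb]

private lemma mSb_mod {ℓ : ℝ} {e b n : ℕ} (hb : b < WW ℓ e) (hn : n ∈ Sb ℓ e b) :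
    n % WW ℓ e = b := by
  unfold Sb at hn
  have := (Finset.mem_filter.1 hn).2
  unfold Nat.ModEq at this
  rw [this, Nat.mod_eq_of_lt hb]

private lemma maw_sum_le {ℓ : ℝ} (hℓ : 0 < ℓ) (y n : ℕ) (H : Finset ℕ) :
    (∑ h ∈ H, aw ℓ y (n + h)) / ℓ ≤ (#(H.filter (fun h => (n + h).Prime)) : ℝ) := by
  rw [div_le_iff₀ hℓ, Finset.card_filter]
  push_cast
  rw [Finset.sum_mul]
  apply Finset.sum_le_sum
  intro h _
  refine (aw_le' hℓ.le y _).trans ?_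
  split_ifs with h1 h2 h2
  · rw [one_mul]
  · exact absurd h1.1 h2
  · rw [one_mul]
    exact hℓ.le
  · rw [zero_mul]

private lemma mXo_nonneg (P Q A H : Finset ℕ) (n : ℕ) : 0 ≤ Xo P Q A H n := by
  unfold Xo
  apply Finset.sum_nonneg
  intro h _
  split_ifs
  · exact zero_le_one
  · exact le_rfl

private lemma mXo_ge {P Q A H : Finset ℕ} {n h : ℕ} (hA : h ∈ A) (hH : h ∉ H)
    (hd : ∀ p ∈ P ∪ Q, ¬ p ∣ n + h) : 1 ≤ Xo P Q A H n := by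
  unfold Xo
  have h1 : (if ∀ p ∈ P ∪ Q, ¬ p ∣ n + h then (1 : ℝ) else 0) ≤
      ∑ h ∈ A \ H, (if ∀ p ∈ P ∪ Q, ¬ p ∣ n + h then (1 : ℝ) else 0) := by
    refine Finset.single_le_sum (f := fun h => (if ∀ p ∈ P ∪ Q, ¬ p ∣ n + h then (1 : ℝ) else 0))
      (fun h _ => ?_) (Finset.mem_sdiff.2 ⟨hA, hH⟩)
    split_ifs
    · exact zero_le_one
    · exact le_rfl
  rw [if_pos hd] at h1
  exact h1

private lemma mgood {υ δ ℓ : ℝ} {Γ : Finset ℕ} {e m k n : ℕ} {H : Finset ℕ} (hℓ : 0 < ℓ) (hm : 1 ≤ m)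
    (hwz : zf ℓ ≤ zz υ ℓ) (hzz : zz δ ℓ ≤ zz υ ℓ) (hHk : #H = k)
    (hpos : 0 < (∑ h ∈ H, aw ℓ (zz υ ℓ) (n + h)) / ℓ - ((m : ℝ) - 1) - ((k : ℝ) + 1) *
      Xo (PP δ ℓ e) (QQ δ υ ℓ e Γ) (Po Γ ℓ e (n % WW ℓ e)) H n) :
    m ≤ #(H.filter (fun h => (n + h).Prime)) ∧
      ∀ h ∈ Γ, (∀ p ∈ Nat.primesLE (zz υ ℓ), ¬ p ∣ n + h) → h ∈ H := by
  have h1 := maw_sum_le hℓ (zz υ ℓ) n H
  have h2 := mXo_nonneg (PP δ ℓ e) (QQ δ υ ℓ e Γ) (Po Γ ℓ e (n % WW ℓ e)) H n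
  have hk0 : (0 : ℝ) ≤ k := Nat.cast_nonneg k
  have hcard : (#(H.filter (fun h => (n + h).Prime)) : ℝ) ≤ k := by
    rw [← hHk]
    exact_mod_cast Finset.card_filter_le _ _
  constructor
  · have h3 : 0 ≤ ((k : ℝ) + 1) * Xo (PP δ ℓ e) (QQ δ υ ℓ e Γ) (Po Γ ℓ e (n % WW ℓ e)) H n := by
      positivity
    have h4 : (m : ℝ) < (#(H.filter (fun h => (n + h).Prime)) : ℝ) + 1 := by linarith
    have h5 : m < #(H.filter (fun h => (n + h).Prime)) + 1 := by exact_mod_cast h4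
    omega
  · intro h hh hp
    by_contra hH
    have hm1 : (1 : ℝ) ≤ m := by exact_mod_cast hm
    have hPo : h ∈ Po Γ ℓ e (n % WW ℓ e) := by
      unfold Po
      rw [Finset.mem_filter]
      refine ⟨hh, ?_⟩
      have hc : Nat.Coprime (n + h) (WW ℓ e) := by
        rw [Nat.coprime_comm]
        apply Nat.Coprime.prod_left
        intro p hpm
        obtain ⟨hpe, hpz⟩ := Finset.mem_erase.1 hpm
        obtain ⟨hp1, hp2⟩ := Nat.mem_primesLE.1 hpz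
        rw [Nat.Prime.coprime_iff_not_dvd hp2]
        exact hp p (Nat.mem_primesLE.2 ⟨hp1.trans hwz, hp2⟩)
      have hmod : (n % WW ℓ e + h) % WW ℓ e = (n + h) % WW ℓ e := by
        rw [Nat.mod_add_mod]
      rw [Nat.coprime_comm] at hc ⊢
      rw [Nat.Coprime, Nat.gcd_rec] at hc ⊢
      rw [hmod]
      exact hc
    have hd : ∀ p ∈ PP δ ℓ e ∪ QQ δ υ ℓ e Γ, ¬ p ∣ n + h := by
      intro p hpm
      apply hp p
      rw [Nat.mem_primesLE]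
      rw [Finset.mem_union] at hpm
      rcases hpm with hpm | hpm
      · unfold PP at hpm
        have := Finset.mem_of_mem_erase hpm
        rw [mem_primesIoc] at this
        exact ⟨this.2.1.trans hzz, this.2.2⟩
      · have := mem_QQ.1 hpm
        exact ⟨this.2.2.1, this.2.2.2.1⟩
    have h3 := mXo_ge hPo hH hd
    have h4 : ((k : ℝ) + 1) * 1 ≤
        ((k : ℝ) + 1) * Xo (PP δ ℓ e) (QQ δ υ ℓ e Γ) (Po Γ ℓ e (n % WW ℓ e)) H n :=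
      mul_le_mul_of_nonneg_left h3 (by positivity)
    linarith

private lemma mCS {G S : Finset ℕ} (hGS : G ⊆ S) (D : ℕ → ℝ) (x y : ℝ)
    (hx : 0 ≤ x) (hy : 0 < y) (h1 : x ≤ ∑ n ∈ G, D n) (h2 : ∑ n ∈ S, D n ^ 2 ≤ y) :
    x ^ 2 / y ≤ (#G : ℝ) := by
  rw [div_le_iff₀ hy]
  have h3 : (∑ n ∈ G, D n) ^ 2 ≤ (#G : ℝ) * ∑ n ∈ G, D n ^ 2 := by
    have := Finset.sum_mul_sq_le_sq_mul_sq G (fun _ => (1 : ℝ)) D
    simpa using this
  have h4 : ∑ n ∈ G, D n ^ 2 ≤ ∑ n ∈ S, D n ^ 2 :=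
    Finset.sum_le_sum_of_subset_of_nonneg hGS (fun _ _ _ => sq_nonneg _)
  calc x ^ 2 ≤ (∑ n ∈ G, D n) ^ 2 := pow_le_pow_left₀ hx h1 2
    _ ≤ (#G : ℝ) * ∑ n ∈ G, D n ^ 2 := h3
    _ ≤ (#G : ℝ) * y := mul_le_mul_of_nonneg_left (h4.trans h2) (Nat.cast_nonneg _)

theorem wmaster (m : ℕ) (hm : 1 ≤ m) : ∃ k : ℕ, m + 1 ≤ k ∧ ∀ lam c0 : ℝ, 0 < lam → 0 < c0 →
    ∃ c υ : ℝ, 0 < c ∧ 0 < υ ∧ υ ≤ 1 / 4 ∧ ∀ᶠ ℓ : ℝ in atTop, ∀ Γ : Finset ℕ, Win lam ℓ Γ →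
      ∀ F : Finset (Finset ℕ),
        (∀ H ∈ F, #H = k ∧ H ⊆ Γ ∧ ∀ h ∈ H, k.factorial ∣ h ∧ (h : ℝ) ≤ Real.exp ℓ / 9) →
        c0 * ℓ ^ k ≤ (#F : ℝ) →
        c * Real.exp ℓ ≤ (#((Ioc 0 ⌊Real.exp ℓ⌋₊).filter (fun n => ∃ H ∈ F,
          m ≤ #(H.filter (fun h => (n + h).Prime)) ∧
            ∀ h ∈ Γ, (∀ p ∈ Nat.primesLE (zz υ ℓ), ¬ p ∣ n + h) → h ∈ H)) : ℝ) := by
  classical
  obtain ⟨k, hk, hkp⟩ := kp m hm
  refine ⟨k, hk, fun lam c0 hlam hc0 => ?_⟩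
  obtain ⟨δ, υ, κ, hδ, hδυ, hυ, hev⟩ := hkp lam hlam
  obtain ⟨cA, hcA, hadm⟩ := adm_count k (by omega)
  obtain ⟨cV, hcV, hV⟩ := V1_bounds
  have hδ1 : δ ≤ 1 := by linarith
  obtain ⟨C, hC, hpsi⟩ := psi_le κ hlam hδ hδυ (by linarith)
  obtain ⟨CM, hCM, hmom⟩ := moment (4 * κ + 2 * k) hlam hδ
  have hk0 : (0 : ℝ) < k := by exact_mod_cast (show 0 < k by omega)
  have hC0 : 0 < C := by linarith
  set c1 : ℝ := (1 / 2) * cA * c0 * (cV / δ) ^ k with hc1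
  set C2 : ℝ := (k : ℝ) ^ 2 * C ^ 4 * CM with hC2
  have hc1p : 0 < c1 := by positivity
  have hC2p : 0 < C2 := by positivity
  set A : ℝ := c1 ^ 2 / C2 / 2 with hA
  have hAp : 0 < A := by positivity
  refine ⟨A, υ, hAp, hδ.trans_le hδυ, hυ, ?_⟩
  filter_upwards [hev, hV δ hδ, hpsi, hmom, ev_zz (hδ.trans_le hδυ) 0, eventually_gt_atTop 0]
    with ℓ h1 h2 h3 h4 h5 hℓ
  intro Γ hΓ F hF hFc
  obtain ⟨e, h1⟩ := h1
  obtain ⟨g, α, T1, T, hg, hg1, hα, hα1, hsupp, hmain⟩ := h1 Γ hΓ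
  replace h3 := h3 Γ hΓ
  replace h4 := h4 Γ hΓ
  have hWp := WW_pos ℓ e
  have hWr : (0 : ℝ) < WW ℓ e := by exact_mod_cast hWp
  set PS : ℕ → ℕ → Finset ℕ → ℝ := fun b n H =>
    Psi (PP δ ℓ e) (QQ δ υ ℓ e Γ) (Po Γ ℓ e b) H (Cf H g α T1 T) n with hPS
  set BR : ℕ → ℕ → Finset ℕ → ℝ := fun b n H =>
    (∑ h ∈ H, aw ℓ (zz υ ℓ) (n + h)) / ℓ - ((m : ℝ) - 1) -
      ((k : ℝ) + 1) * Xo (PP δ ℓ e) (QQ δ υ ℓ e Γ) (Po Γ ℓ e b) H n with hBR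
  set Fb : ℕ → Finset (Finset ℕ) := fun b => F.filter (fun H => H ⊆ Po Γ ℓ e b) with hFb
  set B : ℕ → ℝ := fun n => ∑ H ∈ Fb (n % WW ℓ e), PS (n % WW ℓ e) n H ^ 2 * BR (n % WW ℓ e) n H
    with hB
  set Y : ℕ → ℝ := fun n => 1 + Yr (PP δ ℓ e) (Po Γ ℓ e (n % WW ℓ e)) n with hY
  set D : ℕ → ℝ := fun n => (k : ℝ) * C ^ 2 * Y n ^ (2 * κ + k) with hD
  have hFbmem : ∀ b, ∀ H ∈ Fb b, #H = k ∧ H ⊆ Po Γ ℓ e b := by
    intro b H hH
    rw [hFb, Finset.mem_filter] at hH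
    exact ⟨(hF H hH.1).1, hH.2⟩
  have hYp : ∀ n, 1 ≤ Y n := by
    intro n
    have := mYr_nonneg (PP δ ℓ e) (Po Γ ℓ e (n % WW ℓ e)) n
    simp only [hY]
    linarith
  -- Claim 1: lower bound for the sum of `B`
  have hclaim1 : c1 * Real.exp ℓ ≤ ∑ n ∈ Ioc 0 ⌊Real.exp ℓ⌋₊, B n := by
    rw [msum_part ℓ e]
    have hb1 : ∀ b ∈ range (WW ℓ e), (#(Fb b) : ℝ) *
        ((1 / 2) * (Real.exp ℓ / (WW ℓ e : ℝ)) * V1 δ ℓ e ^ k) ≤ ∑ n ∈ Sb ℓ e b, B n := by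
      intro b hb
      rw [Finset.mem_range] at hb
      have hBeq : ∑ n ∈ Sb ℓ e b, B n = ∑ n ∈ Sb ℓ e b, ∑ H ∈ Fb b, PS b n H ^ 2 * BR b n H := by
        apply Finset.sum_congr rfl
        intro n hn
        simp only [hB]
        rw [mSb_mod hb hn]
      rw [hBeq, Finset.sum_comm]
      calc (#(Fb b) : ℝ) * ((1 / 2) * (Real.exp ℓ / (WW ℓ e : ℝ)) * V1 δ ℓ e ^ k) =
          ∑ _H ∈ Fb b, ((1 / 2) * (Real.exp ℓ / (WW ℓ e : ℝ)) * V1 δ ℓ e ^ k) := by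
            rw [Finset.sum_const, nsmul_eq_mul]
        _ ≤ ∑ H ∈ Fb b, ∑ n ∈ Sb ℓ e b, PS b n H ^ 2 * BR b n H := by
            apply Finset.sum_le_sum
            intro H hH
            exact hmain b H (hFbmem b H hH).2 (hFbmem b H hH).1
              (fun h hh => ((hF H (Finset.mem_filter.1 hH).1).2.2 h hh).2)
    have hb2 : ∑ b ∈ range (WW ℓ e), (#(Fb b) : ℝ) =
        ∑ H ∈ F, (#((range (WW ℓ e)).filter (fun b => H ⊆ Po Γ ℓ e b)) : ℝ) := by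
      have e1 : ∀ b, (#(Fb b) : ℝ) = ∑ H ∈ F, (if H ⊆ Po Γ ℓ e b then (1 : ℝ) else 0) := by
        intro b
        rw [hFb]
        simp only
        rw [Finset.card_filter]
        push_cast
        rfl
      have e2 : ∀ H : Finset ℕ, (#((range (WW ℓ e)).filter (fun b => H ⊆ Po Γ ℓ e b)) : ℝ) =
          ∑ b ∈ range (WW ℓ e), (if H ⊆ Po Γ ℓ e b then (1 : ℝ) else 0) := by
        intro H
        rw [Finset.card_filter]
        push_cast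
        rfl
      rw [Finset.sum_congr rfl (fun b _ => e1 b), Finset.sum_congr rfl (fun H _ => e2 H)]
      exact Finset.sum_comm
    set R0 : ℝ := (((WW ℓ e).totient : ℕ) : ℝ) / (WW ℓ e : ℝ) with hR0
    have hR00 : 0 ≤ R0 := by positivity
    have hb3 : ∀ H ∈ F, cA * ((WW ℓ e : ℝ) * R0 ^ k) ≤
        (#((range (WW ℓ e)).filter (fun b => H ⊆ Po Γ ℓ e b)) : ℝ) := by
      intro H hH
      obtain ⟨f1, f2, f3⟩ := hF H hH
      refine (hadm ℓ e H f1 (fun h hh => (f3 h hh).1)).trans ?_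
      have : (range (WW ℓ e)).filter (fun b => ∀ h ∈ H, Nat.Coprime (b + h) (WW ℓ e)) =
          (range (WW ℓ e)).filter (fun b => H ⊆ Po Γ ℓ e b) := by
        apply Finset.filter_congr
        intro b _
        unfold Po
        constructor
        · intro h' x hx
          exact Finset.mem_filter.2 ⟨f2 hx, h' x hx⟩
        · intro h' x hx
          exact (Finset.mem_filter.1 (h' hx)).2
      rw [this]
    have hV1 := V1_pos δ ℓ e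
    have hX : 0 ≤ (1 / 2) * (Real.exp ℓ / (WW ℓ e : ℝ)) * V1 δ ℓ e ^ k := by positivity
    have hVR : (cV / δ) ^ k ≤ ℓ ^ k * (R0 ^ k * V1 δ ℓ e ^ k) := by
      rw [← mul_pow, ← mul_pow]
      apply pow_le_pow_left₀ (by positivity)
      have := (h2 e).1
      calc cV / δ = ℓ * (cV / (δ * ℓ)) := by field_simp
        _ ≤ ℓ * (V1 δ ℓ e * R0) := mul_le_mul_of_nonneg_left this hℓ.le
        _ = ℓ * (R0 * V1 δ ℓ e) := by ring
    calc c1 * Real.exp ℓ = (1 / 2) * cA * c0 * Real.exp ℓ * (cV / δ) ^ k := by rw [hc1]; ring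
      _ ≤ (1 / 2) * cA * c0 * Real.exp ℓ * (ℓ ^ k * (R0 ^ k * V1 δ ℓ e ^ k)) :=
          mul_le_mul_of_nonneg_left hVR (by positivity)
      _ = (c0 * ℓ ^ k) * (cA * ((WW ℓ e : ℝ) * R0 ^ k)) *
          ((1 / 2) * (Real.exp ℓ / (WW ℓ e : ℝ)) * V1 δ ℓ e ^ k) := by
          field_simp
      _ ≤ (#F : ℝ) * (cA * ((WW ℓ e : ℝ) * R0 ^ k)) *
          ((1 / 2) * (Real.exp ℓ / (WW ℓ e : ℝ)) * V1 δ ℓ e ^ k) := by
          apply mul_le_mul_of_nonneg_right _ hX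
          exact mul_le_mul_of_nonneg_right hFc (by positivity)
      _ = (∑ _H ∈ F, cA * ((WW ℓ e : ℝ) * R0 ^ k)) *
          ((1 / 2) * (Real.exp ℓ / (WW ℓ e : ℝ)) * V1 δ ℓ e ^ k) := by
          rw [Finset.sum_const, nsmul_eq_mul]
      _ ≤ (∑ H ∈ F, (#((range (WW ℓ e)).filter (fun b => H ⊆ Po Γ ℓ e b)) : ℝ)) *
          ((1 / 2) * (Real.exp ℓ / (WW ℓ e : ℝ)) * V1 δ ℓ e ^ k) :=
          mul_le_mul_of_nonneg_right (Finset.sum_le_sum hb3) hX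
      _ = ∑ b ∈ range (WW ℓ e), (#(Fb b) : ℝ) *
          ((1 / 2) * (Real.exp ℓ / (WW ℓ e : ℝ)) * V1 δ ℓ e ^ k) := by
          rw [← hb2, Finset.sum_mul]
      _ ≤ ∑ b ∈ range (WW ℓ e), ∑ n ∈ Sb ℓ e b, B n := Finset.sum_le_sum hb1
  -- Claim 2: pointwise upper bound
  have hclaim2 : ∀ n ∈ Ioc 0 ⌊Real.exp ℓ⌋₊, B n ≤ D n := by
    intro n hn
    have hnS : n ∈ Sb ℓ e (n % WW ℓ e) := by
      unfold Sb
      rw [Finset.mem_filter]
      exact ⟨hn, (Nat.mod_modEq n (WW ℓ e)).symm⟩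
    have hY1 := hYp n
    have hY0 : 0 ≤ Y n := by linarith
    have hterm : ∀ H ∈ Fb (n % WW ℓ e), PS (n % WW ℓ e) n H ^ 2 * BR (n % WW ℓ e) n H ≤
        (k : ℝ) * C ^ 2 * Y n ^ (2 * κ) * ro (PP δ ℓ e) H n := by
      intro H hH
      obtain ⟨hHk, hHP⟩ := hFbmem _ H hH
      have q1 : |PS (n % WW ℓ e) n H| ≤ ro (PP δ ℓ e) H n * (C * Y n ^ κ) := by
        refine h3 e (n % WW ℓ e) H hHP (Cf H g α T1 T) (fun E hE => ⟨?_, fun hne => ?_⟩) n hnS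
        · exact cf_abs hg hg1 hα hα1 T1 T E
        · exact hsupp _ H hHP hHk E hE hne
      have q2 : PS (n % WW ℓ e) n H ^ 2 ≤ (ro (PP δ ℓ e) H n * (C * Y n ^ κ)) ^ 2 := by
        rw [← sq_abs]
        exact pow_le_pow_left₀ (abs_nonneg _) q1 2
      have q3 : ro (PP δ ℓ e) H n ^ 2 = ro (PP δ ℓ e) H n := by
        rcases mro_01 (PP δ ℓ e) H n with h | h <;> rw [h] <;> norm_num
      have q4 : BR (n % WW ℓ e) n H ≤ k := by
        have r1 := maw_sum_le hℓ (zz υ ℓ) n H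
        have r2 := mXo_nonneg (PP δ ℓ e) (QQ δ υ ℓ e Γ) (Po Γ ℓ e (n % WW ℓ e)) H n
        have r3 : (#(H.filter (fun h => (n + h).Prime)) : ℝ) ≤ k := by
          rw [← hHk]
          exact_mod_cast Finset.card_filter_le _ _
        have r4 : (1 : ℝ) ≤ m := by exact_mod_cast hm
        have r5 : 0 ≤ ((k : ℝ) + 1) *
            Xo (PP δ ℓ e) (QQ δ υ ℓ e Γ) (Po Γ ℓ e (n % WW ℓ e)) H n := by positivity
        simp only [hBR]
        linarith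
      calc PS (n % WW ℓ e) n H ^ 2 * BR (n % WW ℓ e) n H ≤ PS (n % WW ℓ e) n H ^ 2 * k :=
            mul_le_mul_of_nonneg_left q4 (sq_nonneg _)
        _ ≤ (ro (PP δ ℓ e) H n * (C * Y n ^ κ)) ^ 2 * k := mul_le_mul_of_nonneg_right q2 hk0.le
        _ = (k : ℝ) * C ^ 2 * Y n ^ (2 * κ) * ro (PP δ ℓ e) H n ^ 2 := by ring
        _ = (k : ℝ) * C ^ 2 * Y n ^ (2 * κ) * ro (PP δ ℓ e) H n := by rw [q3]
    calc B n ≤ ∑ H ∈ Fb (n % WW ℓ e), (k : ℝ) * C ^ 2 * Y n ^ (2 * κ) * ro (PP δ ℓ e) H n :=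
          Finset.sum_le_sum hterm
      _ = (k : ℝ) * C ^ 2 * Y n ^ (2 * κ) * ∑ H ∈ Fb (n % WW ℓ e), ro (PP δ ℓ e) H n := by
          rw [Finset.mul_sum]
      _ ≤ (k : ℝ) * C ^ 2 * Y n ^ (2 * κ) * Y n ^ k := by
          apply mul_le_mul_of_nonneg_left _ (by positivity)
          exact mro_sum_le (PP δ ℓ e) (Po Γ ℓ e (n % WW ℓ e)) n k _ (hFbmem _)
      _ = D n := by
          simp only [hD]
          rw [pow_add]
          ring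
  -- Claim 3: the second moment
  have hclaim3 : ∑ n ∈ Ioc 0 ⌊Real.exp ℓ⌋₊, D n ^ 2 ≤ C2 * Real.exp ℓ := by
    rw [msum_part ℓ e]
    have hb1 : ∀ b ∈ range (WW ℓ e), ∑ n ∈ Sb ℓ e b, D n ^ 2 ≤
        (k : ℝ) ^ 2 * C ^ 4 * (CM * (Real.exp ℓ / (WW ℓ e : ℝ))) := by
      intro b hb
      rw [Finset.mem_range] at hb
      have hDeq : ∑ n ∈ Sb ℓ e b, D n ^ 2 = (k : ℝ) ^ 2 * C ^ 4 *
          ∑ n ∈ Sb ℓ e b, (1 + Yr (PP δ ℓ e) (Po Γ ℓ e b) n) ^ (4 * κ + 2 * k) := by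
        rw [Finset.mul_sum]
        apply Finset.sum_congr rfl
        intro n hn
        simp only [hD, hY]
        rw [mSb_mod hb hn]
        ring
      rw [hDeq]
      exact mul_le_mul_of_nonneg_left (h4 e b) (by positivity)
    calc ∑ b ∈ range (WW ℓ e), ∑ n ∈ Sb ℓ e b, D n ^ 2 ≤
        ∑ _b ∈ range (WW ℓ e), (k : ℝ) ^ 2 * C ^ 4 * (CM * (Real.exp ℓ / (WW ℓ e : ℝ))) :=
          Finset.sum_le_sum hb1
      _ = C2 * Real.exp ℓ := by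
          rw [Finset.sum_const, Finset.card_range, nsmul_eq_mul, hC2]
          field_simp
  -- Cauchy-Schwarz
  set G := (Ioc 0 ⌊Real.exp ℓ⌋₊).filter (fun n => 0 < B n) with hG
  have hGsub : G ⊆ Ioc 0 ⌊Real.exp ℓ⌋₊ := Finset.filter_subset _ _
  have hsumG : c1 * Real.exp ℓ ≤ ∑ n ∈ G, D n := by
    have s1 : ∑ n ∈ Ioc 0 ⌊Real.exp ℓ⌋₊, B n ≤ ∑ n ∈ G, B n := by
      rw [hG, Finset.sum_filter]
      apply Finset.sum_le_sum
      intro n _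
      split_ifs with hp
      · exact le_rfl
      · exact not_lt.1 hp
    have s2 : ∑ n ∈ G, B n ≤ ∑ n ∈ G, D n :=
      Finset.sum_le_sum (fun n hn => hclaim2 n (hGsub hn))
    linarith
  have hcardG := mCS hGsub D (c1 * Real.exp ℓ) (C2 * Real.exp ℓ) (by positivity) (by positivity)
    hsumG hclaim3
  have hcardG' : 2 * A * Real.exp ℓ ≤ (#G : ℝ) := by
    refine le_trans (le_of_eq ?_) hcardG
    rw [hA]
    have := Real.exp_pos ℓ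
    field_simp
  -- the good numbers
  have hzzυ : zz δ ℓ ≤ zz υ ℓ := zz_mono hδυ hℓ.le
  have hsub : G ⊆ (Ioc 0 ⌊Real.exp ℓ⌋₊).filter (fun n => ∃ H ∈ F,
        m ≤ #(H.filter (fun h => (n + h).Prime)) ∧
          ∀ h ∈ Γ, (∀ p ∈ Nat.primesLE (zz υ ℓ), ¬ p ∣ n + h) → h ∈ H) := by
    intro n hn
    rw [hG, Finset.mem_filter] at hn
    obtain ⟨hn1, hn2⟩ := hn
    rw [Finset.mem_filter]
    refine ⟨hn1, ?_⟩
    obtain ⟨H, hH, hHpos⟩ : ∃ H ∈ Fb (n % WW ℓ e),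
        0 < PS (n % WW ℓ e) n H ^ 2 * BR (n % WW ℓ e) n H := by
      by_contra hcon
      push Not at hcon
      exact absurd (Finset.sum_nonpos hcon) (not_le.2 hn2)
    have hBRpos : 0 < BR (n % WW ℓ e) n H := by
      by_contra hcon
      have := mul_nonpos_of_nonneg_of_nonpos (sq_nonneg (PS (n % WW ℓ e) n H)) (not_lt.1 hcon)
      linarith
    refine ⟨H, (Finset.mem_filter.1 hH).1, ?_⟩
    exact mgood hℓ hm h5.1 hzzυ (hFbmem _ H hH).1 hBRpos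
  calc A * Real.exp ℓ ≤ (#G : ℝ) := by
        have := Real.exp_pos ℓ
        have h7 : 0 ≤ A * Real.exp ℓ := by positivity
        linarith
    _ ≤ _ := by exact_mod_cast Finset.card_le_card hsub

end Pool.Agent.H47.WS
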