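import Pool.Agent.H81.AS.TPSum
import Pool.Agent.H47.WS.SumAbs
import Pool.Agent.H47.WS.Pair

/-!
The abstract transfer principle (copy of `tp_sum` of H81/AS/TPSum.lean for positions which are incongruent
modulo the primes of `Q`).
-/

set_option autoImplicit false

open Finset Filter Topology

namespace Pool.Agent.H47.WS

open Pool.Agent.H16 Pool.Agent.H81.AS

theorem tp_sum {K s κ : ℕ} (hK : 1 ≤ K) (hκ : 2 * κ ≤ K) (hFL : FLP (2 * K) s) {w z : ℕ}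
    (hw : 100 ≤ Real.log w)
    (hKw : 4 * (K : ℝ) ≤ w) (hwz : w ≤ z) (hKz : 12 * K + 2 ≤ z) {P Q Z Po Hb S : Finset ℕ}
    (hP : P ⊆ primesIoc w z)
    (hQ : ∀ q ∈ Q, q.Prime ∧ z < q) (hZ : #Z ≤ 1)
    (hinj : ∀ p ∈ Q, ∀ h ∈ Z ∪ (Hb ∪ Po), ∀ h' ∈ Z ∪ (Hb ∪ Po), h ≡ h' [MOD p] → h = h')
    (hdis : Disjoint Z (Hb ∪ Po)) {a : ℕ → ℝ} {X Lv : ℝ} {M : Finset ℕ → ℝ}
    (hD : Dist P Q Z S a X Lv M) (C : Finset (ℕ × ℕ) → ℝ) {Mc T : ℝ} (hT : 0 ≤ T)
    (hMc : 0 ≤ Mc) (hC : ∀ E ∈ (Po ×ˢ Q).powerset, |C E| ≤ Mc)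
    (hC2 : ∀ E ∈ (Po ×ˢ Q).powerset, C E ≠ 0 → #(Hb ∪ pos E) ≤ κ ∧ (nn E : ℝ) ≤ T)
    (hlev : (z : ℝ) ^ (4 * s + 5) * T ^ 2 ≤ Lv) :
    |∑ n ∈ S, a n * Psi P Q Po Hb C n ^ 2 -
        X * ∑ E ∈ (Po ×ˢ Q).powerset, C E ^ 2 * (VV P Z (Hb ∪ pos E) * ph E)| ≤
      Mc ^ 2 * (X * (∑ H ∈ HH Po Hb κ, ∑ H' ∈ HH Po Hb κ, VV P Z (Hb ∪ H ∪ H')) *
          ((1 / 2 : ℝ) ^ s * ∏ p ∈ Q, (1 + 1 / ((p : ℝ) - 1)) ^ (6 * K) +
            (∏ p ∈ Q, (1 + 1 / ((p : ℝ) - 1)) ^ K) *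
              (Real.exp (4 ^ K * ((K : ℝ) + 2) * ∑ p ∈ Q, 1 / ((p : ℝ) - 1) ^ 2) - 1)) +
        (#(HH Po Hb κ) : ℝ) ^ 2 * ((1 + 2 * Real.log z) *
          ∑ Q' ∈ Q.powerset.filter (fun Q' => ((∏ p ∈ Q', p : ℕ) : ℝ) ≤ T ^ 2), (24 * (K : ℝ)) ^ #Q' *
            ∑ D ∈ P.powerset.filter (fun D => (∏ p ∈ D, p) ≤ z ^ (4 * s + 5)),
              (K : ℝ) ^ #D * M (D ∪ Q'))) := by
  classical
  have hX := hD.X0
  have hP2 : ∀ p ∈ P, 2 ≤ p := fun p hp => by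
    have h1 := hP hp
    exact (mem_primesIoc.1 h1).2.2.two_le
  have hQz : ∀ q ∈ Q, z < q := fun q hq => (hQ q hq).2
  have hZ' : (#Z : ℝ) ≤ 1 := by exact_mod_cast hZ
  have hQ1 : ∀ q ∈ Q, (#Z : ℝ) ≤ q := fun q hq => by
    have h1 : (1 : ℝ) ≤ q := by exact_mod_cast (hQ q hq).1.one_lt.le
    linarith
  have hz1 : (1 : ℝ) ≤ z := by
    have : 1 ≤ z := by omega
    exact_mod_cast this
  have hlogz : 0 ≤ Real.log z := Real.log_nonneg hz1
  set R : Finset ℕ → ℝ := fun Q' =>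
    ∑ D ∈ P.powerset.filter (fun D => (∏ p ∈ D, p) ≤ z ^ (4 * s + 5)), (K : ℝ) ^ #D * M (D ∪ Q')
    with hRdef
  have hR : ∀ Q' ⊆ Q, 0 ≤ R Q' := fun Q' hQ' => by
    refine sum_nonneg fun D hDm => mul_nonneg (by positivity) (hD.M0 _ ?_)
    exact union_subset_union (mem_powerset.1 (mem_filter.1 hDm).1) hQ'
  set c1 : ℝ := (1 / 2 : ℝ) ^ s * ∏ p ∈ Q, (1 + 1 / ((p : ℝ) - 1)) ^ (6 * K) with hc1
  set c2 : ℝ := (∏ p ∈ Q, (1 + 1 / ((p : ℝ) - 1)) ^ K) *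
    (Real.exp (4 ^ K * ((K : ℝ) + 2) * ∑ p ∈ Q, 1 / ((p : ℝ) - 1) ^ 2) - 1) with hc2
  set c3 : ℝ := (1 + 2 * Real.log z) *
    ∑ Q' ∈ Q.powerset.filter (fun Q' => ((∏ p ∈ Q', p : ℕ) : ℝ) ≤ T ^ 2), (24 * (K : ℝ)) ^ #Q' * R Q'
    with hc3
  set 𝓔 := (Po ×ˢ Q).powerset with h𝓔
  set 𝓔₀ := 𝓔.filter (fun E => C E ≠ 0) with h𝓔₀
  set Δ : Finset (ℕ × ℕ) → Finset (ℕ × ℕ) → ℝ := fun E E' =>
    (∑ n ∈ S, a n * (ro P (Hb ∪ pos E ∪ pos E') n * (gE E n * gE E' n)) -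
          X * VV P Z (Hb ∪ pos E ∪ pos E') * (if E = E' then ph E else 0)) with hΔ
  rw [expand]
  have hstep1 : |∑ E ∈ 𝓔, ∑ E' ∈ 𝓔, C E * C E' * Δ E E'| ≤
      ∑ E ∈ 𝓔₀, ∑ E' ∈ 𝓔₀, |C E * C E' * Δ E E'| := by
    have h1 : ∑ E ∈ 𝓔, ∑ E' ∈ 𝓔, C E * C E' * Δ E E' =
        ∑ E ∈ 𝓔₀, ∑ E' ∈ 𝓔₀, C E * C E' * Δ E E' := by
      rw [h𝓔₀, sum_filter_of_ne]
      · refine sum_congr rfl fun E _ => ?_
        rw [sum_filter_of_ne]
        intro E' _ hne h0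
        exact hne (by rw [h0]; ring)
      · intro E _ hne h0
        exact hne (sum_eq_zero fun E' _ => by rw [h0]; ring)
    rw [h1]
    exact (abs_sum_le_sum_abs _ _).trans (sum_le_sum fun E _ => abs_sum_le_sum_abs _ _)
  refine hstep1.trans ?_
  -- the fibres
  have hmaps : ∀ E ∈ 𝓔₀, pos E ∈ HH Po Hb κ := by
    intro E hE
    obtain ⟨hE1, hE2⟩ := mem_filter.1 hE
    refine mem_filter.2 ⟨mem_powerset.2 (pos_subset (mem_powerset.1 hE1)), (hC2 E hE1 hE2).1⟩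
  have hfib : ∑ E ∈ 𝓔₀, ∑ E' ∈ 𝓔₀, |C E * C E' * Δ E E'| =
      ∑ H ∈ HH Po Hb κ, ∑ H' ∈ HH Po Hb κ, ∑ E ∈ 𝓔₀.filter (fun E => pos E = H),
        ∑ E' ∈ 𝓔₀.filter (fun E' => pos E' = H'), |C E * C E' * Δ E E'| := by
    rw [← sum_fiberwise_of_maps_to hmaps]
    refine sum_congr rfl fun H _ => ?_
    have h1 : ∀ E ∈ 𝓔₀.filter (fun E => pos E = H), ∑ E' ∈ 𝓔₀, |C E * C E' * Δ E E'| =
        ∑ H' ∈ HH Po Hb κ, ∑ E' ∈ 𝓔₀.filter (fun E' => pos E' = H'), |C E * C E' * Δ E E'| :=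
      fun E _ => (sum_fiberwise_of_maps_to hmaps _).symm
    rw [sum_congr rfl h1, sum_comm]
  rw [hfib]
  -- the bound for one pair of position sets
  have hpair : ∀ H ∈ HH Po Hb κ, ∀ H' ∈ HH Po Hb κ,
      ∑ E ∈ 𝓔₀.filter (fun E => pos E = H), ∑ E' ∈ 𝓔₀.filter (fun E' => pos E' = H'),
        |C E * C E' * Δ E E'| ≤
      Mc ^ 2 * (X * VV P Z (Hb ∪ H ∪ H') * (c1 + c2) + c3) := by
    intro H hH H' hH'
    obtain ⟨hH1, hH2⟩ := mem_filter.1 hH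
    obtain ⟨hH'1, hH'2⟩ := mem_filter.1 hH'
    set U := Hb ∪ H ∪ H' with hU
    have hUsub : U ⊆ Hb ∪ Po := by
      rw [hU]
      exact union_subset (union_subset_union subset_rfl (mem_powerset.1 hH1))
        ((mem_powerset.1 hH'1).trans subset_union_right)
    have hinjU : ∀ p ∈ Q, ∀ h ∈ Z ∪ U, ∀ h' ∈ Z ∪ U, h ≡ h' [MOD p] → h = h' := by
      intro p hp h hh h' hh'
      exact hinj p hp h (union_subset_union subset_rfl hUsub hh) h' (union_subset_union subset_rfl hUsub hh')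
    have hdisU : Disjoint Z U := disjoint_of_subset_right hUsub hdis
    have hUK : #U ≤ K := by
      have h1 : U = (Hb ∪ H) ∪ (Hb ∪ H') := by
        rw [hU]
        ext x
        simp only [mem_union]
        tauto
      rw [h1]
      refine (card_union_le _ _).trans ?_
      omega
    have hVV : 0 ≤ VV P Z U := VV_nonneg hZ hP2
    have hXV : 0 ≤ X * VV P Z U := mul_nonneg hX hVV
    set 𝓤 := (U ×ˢ Q).powerset with h𝓤
    set F := 𝓔₀.filter (fun E => pos E = H) with hF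
    set F' := 𝓔₀.filter (fun E' => pos E' = H') with hF'
    have hmemF : ∀ (J : Finset ℕ), J ⊆ U → ∀ E ∈ 𝓔₀.filter (fun E => pos E = J),
        E ∈ 𝓤 ∧ (nn E : ℝ) ≤ T ∧ E ∈ 𝓔 := by
      intro J hJ E hE
      obtain ⟨hE1, hE2⟩ := mem_filter.1 hE
      obtain ⟨hE3, hE4⟩ := mem_filter.1 hE1
      refine ⟨mem_powerset.2 fun x hx => ?_, (hC2 E hE3 hE4).2, hE3⟩
      refine mem_product.2 ⟨hJ ?_, ?_⟩
      · rw [← hE2]
        exact mem_image_of_mem _ hx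
      · exact (mem_product.1 (mem_powerset.1 hE3 hx)).2
    have hHU : H ⊆ U := subset_union_right.trans subset_union_left
    have hH'U : H' ⊆ U := subset_union_right
    have hFU : F ⊆ 𝓤 := fun E hE => (hmemF H hHU E hE).1
    have hF'U : F' ⊆ 𝓤 := fun E hE => (hmemF H' hH'U E hE).1
    have hFT : F ⊆ 𝓤.filter (fun E => (nn E : ℝ) ≤ T) := fun E hE =>
      mem_filter.2 ⟨(hmemF H hHU E hE).1, (hmemF H hHU E hE).2.1⟩
    have hF'T : F' ⊆ 𝓤.filter (fun E => (nn E : ℝ) ≤ T) := fun E hE =>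
      mem_filter.2 ⟨(hmemF H' hH'U E hE).1, (hmemF H' hH'U E hE).2.1⟩
    have hpow : ∀ E ∈ 𝓤, ∀ x ∈ E, x.2 ∈ Q := fun E hE x hx =>
      (mem_product.1 (mem_powerset.1 hE hx)).2
    have hone : ∀ E ∈ 𝓤, ∀ x ∈ E, 1 ≤ x.2 := fun E hE x hx =>
      (hQ _ (hpow E hE x hx)).1.one_lt.le
    -- the bound of one term
    have hterm : ∀ E ∈ F, ∀ E' ∈ F', |C E * C E' * Δ E E'| ≤
        Mc ^ 2 * (X * VV P Z U * ((1 / 2 : ℝ) ^ s *
            ∏ p ∈ prs E ∪ prs E', aloc Z p (col E p) (col E' p)) +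
          X * VV P Z U * |∏ p ∈ prs E ∪ prs E', eloc Z p (col E p) (col E' p) -
            (if E = E' then ph E else 0)| +
          (1 + 2 * Real.log z) *
            ((∏ p ∈ prs E ∪ prs E', (((p : ℝ) - #Z) * aloc Z p (col E p) (col E' p))) *
              R (prs E ∪ prs E'))) := by
      intro E hE E' hE'
      obtain ⟨hEU, hET, hE𝓔⟩ := hmemF H hHU E hE
      obtain ⟨hE'U, hE'T, hE'𝓔⟩ := hmemF H' hH'U E' hE'
      have hpE : pos E = H := (mem_filter.1 hE).2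
      have hpE' : pos E' = H' := (mem_filter.1 hE').2
      have hlev' : (z : ℝ) ^ (4 * s + 5) * ((∏ p ∈ prs E ∪ prs E', p : ℕ) : ℝ) ≤ Lv := by
        refine le_trans (mul_le_mul_of_nonneg_left ?_ (by positivity)) hlev
        have h1 := prod_union_le E E' (hone E hEU) (hone E' hE'U)
        calc ((∏ p ∈ prs E ∪ prs E', p : ℕ) : ℝ) ≤ ((nn E * nn E' : ℕ) : ℝ) := by exact_mod_cast h1
          _ = (nn E : ℝ) * nn E' := by push_cast; ring
          _ ≤ T * T := mul_le_mul hET hE'T (Nat.cast_nonneg _) hT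
          _ = T ^ 2 := by ring
      have hpb := pair_bound hFL hw hKw hwz hP hQ hZ hUK hD
        (mem_powerset.1 hEU) (mem_powerset.1 hE'U) hlev'
      have hCC : |C E * C E'| ≤ Mc ^ 2 := by
        rw [abs_mul, pow_two]
        exact mul_le_mul (hC E hE𝓔) (hC E' hE'𝓔) (abs_nonneg _) hMc
      rw [abs_mul]
      have hΔle : |Δ E E'| ≤ X * VV P Z U * ((1 / 2 : ℝ) ^ s *
            ∏ p ∈ prs E ∪ prs E', aloc Z p (col E p) (col E' p)) +
          X * VV P Z U * |∏ p ∈ prs E ∪ prs E', eloc Z p (col E p) (col E' p) -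
            (if E = E' then ph E else 0)| +
          (1 + 2 * Real.log z) *
            ((∏ p ∈ prs E ∪ prs E', (((p : ℝ) - #Z) * aloc Z p (col E p) (col E' p))) *
              R (prs E ∪ prs E')) := by
        simp only [hΔ, hpE, hpE']
        rw [← hU]
        set A0 := ∑ n ∈ S, a n * (ro P U n * (gE E n * gE E' n)) with hA0
        set e0 := ∏ p ∈ prs E ∪ prs E', eloc Z p (col E p) (col E' p) with he0
        set i0 : ℝ := if E = E' then ph E else 0 with hi0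
        have htri : |A0 - X * VV P Z U * i0| ≤ |A0 - X * VV P Z U * e0| +
            X * VV P Z U * |e0 - i0| := by
          have h1 : A0 - X * VV P Z U * i0 = (A0 - X * VV P Z U * e0) + X * VV P Z U * (e0 - i0) := by
            ring
          rw [h1]
          refine (abs_add_le _ _).trans ?_
          rw [abs_mul (X * VV P Z U), abs_of_nonneg hXV]
        refine htri.trans ?_
        have h2 := hpb
        simp only [hRdef]
        linarith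
      exact mul_le_mul hCC hΔle (abs_nonneg _) (by positivity)
    -- nonnegativity
    have hal0 : ∀ E ∈ 𝓤, ∀ E' ∈ 𝓤, ∀ p ∈ prs E ∪ prs E', 0 ≤ aloc Z p (col E p) (col E' p) := by
      intro E hE E' hE' p hp
      refine tps_aloc_nonneg (hQ1 p ?_) _ _
      rcases mem_union.1 hp with h | h
      · exact tps_prs_subset (mem_powerset.1 hE) h
      · exact tps_prs_subset (mem_powerset.1 hE') h
    have hprsub : ∀ E ∈ 𝓤, ∀ E' ∈ 𝓤, prs E ∪ prs E' ⊆ Q := fun E hE E' hE' =>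
      union_subset (tps_prs_subset (mem_powerset.1 hE)) (tps_prs_subset (mem_powerset.1 hE'))
    have hs1 : ∑ E ∈ F, ∑ E' ∈ F', ∏ p ∈ prs E ∪ prs E', aloc Z p (col E p) (col E' p) ≤
        ∏ p ∈ Q, (1 + 1 / ((p : ℝ) - 1)) ^ (6 * K) := by
      refine (double_sum_le hFU hF'U (f := fun E E' =>
        ∏ p ∈ prs E ∪ prs E', aloc Z p (col E p) (col E' p)) ?_).trans
        (sum_abs_le hQ hZ hinjU hdisU hUK)
      exact fun E hE E' hE' => prod_nonneg fun p hp => hal0 E hE E' hE' p hp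
    have hs2 : ∑ E ∈ F, ∑ E' ∈ F', |∏ p ∈ prs E ∪ prs E', eloc Z p (col E p) (col E' p) -
        (if E = E' then ph E else 0)| ≤ c2 := by
      refine (double_sum_le hFU hF'U (f := fun E E' =>
        |∏ p ∈ prs E ∪ prs E', eloc Z p (col E p) (col E' p) -
        (if E = E' then ph E else 0)|) ?_).trans
        (sum_tiny_le hQ hZ hinjU hdisU hUK)
      exact fun E hE E' hE' => abs_nonneg _
    have hs3 : ∑ E ∈ F, ∑ E' ∈ F',
        (∏ p ∈ prs E ∪ prs E', (((p : ℝ) - #Z) * aloc Z p (col E p) (col E' p))) *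
          R (prs E ∪ prs E') ≤
        ∑ Q' ∈ Q.powerset.filter (fun Q' => ((∏ p ∈ Q', p : ℕ) : ℝ) ≤ T ^ 2),
          (24 * (K : ℝ)) ^ #Q' * R Q' := by
      refine (double_sum_le hFT hF'T (f := fun E E' =>
        (∏ p ∈ prs E ∪ prs E', (((p : ℝ) - #Z) * aloc Z p (col E p) (col E' p))) *
          R (prs E ∪ prs E')) ?_).trans
        (sum_rem_le hQ hZ hinjU hdisU hK hUK hKz hT R hR)
      intro E hE E' hE'
      have hE1 := (mem_filter.1 hE).1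
      have hE'1 := (mem_filter.1 hE').1
      refine mul_nonneg (prod_nonneg fun p hp => mul_nonneg ?_ (hal0 E hE1 E' hE'1 p hp))
        (hR _ (hprsub E hE1 E' hE'1))
      have := hQ1 p (hprsub E hE1 E' hE'1 hp)
      linarith
    refine (sum_le_sum fun E hE => sum_le_sum fun E' hE' => hterm E hE E' hE').trans ?_
    simp only [← mul_sum, sum_add_distrib]
    refine mul_le_mul_of_nonneg_left ?_ (by positivity)
    have e1 : X * VV P Z U * ((1 / 2 : ℝ) ^ s *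
        ∑ E ∈ F, ∑ E' ∈ F', ∏ p ∈ prs E ∪ prs E', aloc Z p (col E p) (col E' p)) ≤
        X * VV P Z U * c1 := by
      refine mul_le_mul_of_nonneg_left ?_ hXV
      rw [hc1]
      exact mul_le_mul_of_nonneg_left hs1 (by positivity)
    have e2 := mul_le_mul_of_nonneg_left hs2 hXV
    have e3 : (1 + 2 * Real.log z) * ∑ E ∈ F, ∑ E' ∈ F',
        (∏ p ∈ prs E ∪ prs E', (((p : ℝ) - #Z) * aloc Z p (col E p) (col E' p))) *
          R (prs E ∪ prs E') ≤ c3 := by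
      rw [hc3]
      exact mul_le_mul_of_nonneg_left hs3 (by positivity)
    linarith
  refine (sum_le_sum fun H hH => sum_le_sum fun H' hH' => hpair H hH H' hH').trans ?_
  simp only [← mul_sum, sum_add_distrib, ← sum_mul, sum_const, nsmul_eq_mul]
  apply le_of_eq
  ring

end Pool.Agent.H47.WS
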