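import Pool.Agent.H81.AS.TPI
import Pool.Agent.H47.WS.TPSum
import Pool.Agent.H47.WS.Vs
import Pool.Agent.H47.WS.DistI

/-!
The transfer principle for the integers (adapted from H81/AS/TPI.lean).
-/

set_option autoImplicit false

open Finset Filter Topology

namespace Pool.Agent.H47.WS

open Pool.Agent.H16 Pool.Agent.H81.AS

/-- the deterministic core of the final transfer principle, used for the integers and for the primes -/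
theorem tp_core {K s κ : ℕ} (hK : 1 ≤ K) (hκ : 2 * κ ≤ K) (hFL : FLP (2 * K) s) {w z : ℕ}
    (hw : 100 ≤ Real.log w)
    (hKw : 4 * (K : ℝ) ≤ w) (hwz : w ≤ z) (hKz : 12 * K + 2 ≤ z) {P Q Z Po Hb S : Finset ℕ}
    (hP : P ⊆ primesIoc w z)
    (hQ : ∀ q ∈ Q, q.Prime ∧ z < q) (hZ : #Z ≤ 1)
    (hinj : ∀ p ∈ Q, ∀ h ∈ Z ∪ (Hb ∪ Po), ∀ h' ∈ Z ∪ (Hb ∪ Po), h ≡ h' [MOD p] → h = h')
    (hdis : Disjoint Z (Hb ∪ Po)) {a : ℕ → ℝ} {X Lv : ℝ} {M : Finset ℕ → ℝ}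
    (hD : Dist P Q Z S a X Lv M) (C : Finset (ℕ × ℕ) → ℝ) {T : ℝ} (hT : 0 ≤ T)
    (hC : ∀ E ∈ (Po ×ˢ Q).powerset, |C E| ≤ 1)
    (hC2 : ∀ E ∈ (Po ×ˢ Q).powerset, C E ≠ 0 → #(Hb ∪ pos E) ≤ κ ∧ (nn E : ℝ) ≤ T)
    (hlev : (z : ℝ) ^ (4 * s + 5) * T ^ 2 ≤ Lv) {V B r ε₁ : ℝ} (hV : 0 ≤ V) (hB : 0 ≤ B)
    (hVs : ∑ H ∈ HH Po Hb κ, ∑ H' ∈ HH Po Hb κ, VV P Z (Hb ∪ H ∪ H') ≤ V ^ #Hb * B)
    (hVV : ∀ E ∈ (Po ×ˢ Q).powerset, C E ≠ 0 →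
      |VV P Z (Hb ∪ pos E) - V ^ #(Hb ∪ pos E)| ≤ ε₁ * V ^ #(Hb ∪ pos E))
    (hprod : ∏ p ∈ Q, (1 + 1 / ((p : ℝ) - 1)) ≤ r)
    (hη : B * (r ^ K * (Real.exp (4 ^ K * ((K : ℝ) + 2) * ∑ p ∈ Q, 1 / ((p : ℝ) - 1) ^ 2) - 1)) ≤ ε₁ / 2)
    (hR : (#(HH Po Hb κ) : ℝ) ^ 2 * ((1 + 2 * Real.log z) *
          ∑ Q' ∈ Q.powerset.filter (fun Q' => ((∏ p ∈ Q', p : ℕ) : ℝ) ≤ T ^ 2), (24 * (K : ℝ)) ^ #Q' *
            ∑ D ∈ P.powerset.filter (fun D => (∏ p ∈ D, p) ≤ z ^ (4 * s + 5)),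
              (K : ℝ) ^ #D * M (D ∪ Q')) ≤ X * (V ^ #Hb * (ε₁ / 2))) :
    |∑ n ∈ S, a n * Psi P Q Po Hb C n ^ 2 - X * Dg Q Po Hb V C| ≤
      X * (V ^ #Hb * ((1 / 2 : ℝ) ^ s * B * r ^ (6 * K) + ε₁) + ε₁ * Dg Q Po Hb V C) := by
  have hX := hD.X0
  have hmain := tp_sum hK hκ hFL hw hKw hwz hKz hP hQ hZ hinj hdis hD C hT zero_le_one hC hC2 hlev
  have hph : ∀ E ∈ (Po ×ˢ Q).powerset, 0 ≤ ph E := by
    intro E hE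
    unfold ph
    apply Finset.prod_nonneg
    intro x hx
    have h1 : x ∈ Po ×ˢ Q := (Finset.mem_powerset.mp hE) hx
    have h2 : x.2 ∈ Q := (Finset.mem_product.mp h1).2
    have h3 : (1 : ℝ) ≤ (x.2 : ℝ) := by exact_mod_cast (hQ _ h2).1.one_lt.le
    exact div_nonneg zero_le_one (by linarith)
  have hq1 : ∀ p ∈ Q, (1 : ℝ) ≤ 1 + 1 / ((p : ℝ) - 1) := by
    intro p hp
    have h3 : (1 : ℝ) ≤ (p : ℝ) := by exact_mod_cast (hQ _ hp).1.one_lt.le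
    have h4 : 0 ≤ 1 / ((p : ℝ) - 1) := div_nonneg zero_le_one (by linarith)
    linarith
  have hpr0 : 0 ≤ ∏ p ∈ Q, (1 + 1 / ((p : ℝ) - 1)) :=
    Finset.prod_nonneg (fun p hp => zero_le_one.trans (hq1 p hp))
  have hpow : ∀ j : ℕ, ∏ p ∈ Q, (1 + 1 / ((p : ℝ) - 1)) ^ j ≤ r ^ j := by
    intro j
    rw [Finset.prod_pow]
    exact pow_le_pow_left₀ hpr0 hprod j
  have hpow0 : ∀ j : ℕ, 0 ≤ ∏ p ∈ Q, (1 + 1 / ((p : ℝ) - 1)) ^ j := by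
    intro j
    rw [Finset.prod_pow]
    exact pow_nonneg hpr0 j
  -- the replacement of VV by powers of V
  have hrep : |∑ E ∈ (Po ×ˢ Q).powerset, C E ^ 2 * (VV P Z (Hb ∪ pos E) * ph E) - Dg Q Po Hb V C| ≤
      ε₁ * Dg Q Po Hb V C := by
    unfold Dg
    rw [← Finset.sum_sub_distrib, Finset.mul_sum]
    refine (Finset.abs_sum_le_sum_abs _ _).trans (Finset.sum_le_sum ?_)
    intro E hE
    by_cases hc : C E = 0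
    · rw [hc]; simp
    · have h1 := hVV E hE hc
      have h2 := hph E hE
      have h3 : C E ^ 2 * (VV P Z (Hb ∪ pos E) * ph E) - C E ^ 2 * (V ^ #(Hb ∪ pos E) * ph E) =
          (C E ^ 2 * ph E) * (VV P Z (Hb ∪ pos E) - V ^ #(Hb ∪ pos E)) := by ring
      rw [h3, abs_mul, abs_of_nonneg (mul_nonneg (sq_nonneg _) h2)]
      calc C E ^ 2 * ph E * |VV P Z (Hb ∪ pos E) - V ^ #(Hb ∪ pos E)|
          ≤ C E ^ 2 * ph E * (ε₁ * V ^ #(Hb ∪ pos E)) :=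
            mul_le_mul_of_nonneg_left h1 (mul_nonneg (sq_nonneg _) h2)
        _ = ε₁ * (C E ^ 2 * (V ^ #(Hb ∪ pos E) * ph E)) := by ring
  set e0 : ℝ := Real.exp (4 ^ K * ((K : ℝ) + 2) * ∑ p ∈ Q, 1 / ((p : ℝ) - 1) ^ 2) - 1 with he0
  have he0' : 0 ≤ e0 := by
    have h1 : (0 : ℝ) ≤ 4 ^ K * ((K : ℝ) + 2) * ∑ p ∈ Q, 1 / ((p : ℝ) - 1) ^ 2 := by
      apply mul_nonneg (by positivity)
      exact Finset.sum_nonneg (fun p _ => by positivity)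
    have h2 := Real.add_one_le_exp (4 ^ K * ((K : ℝ) + 2) * ∑ p ∈ Q, 1 / ((p : ℝ) - 1) ^ 2)
    rw [he0]; linarith
  have hVH : 0 ≤ V ^ #Hb := pow_nonneg hV _
  have hsum : X * (∑ H ∈ HH Po Hb κ, ∑ H' ∈ HH Po Hb κ, VV P Z (Hb ∪ H ∪ H')) *
          ((1 / 2 : ℝ) ^ s * ∏ p ∈ Q, (1 + 1 / ((p : ℝ) - 1)) ^ (6 * K) +
            (∏ p ∈ Q, (1 + 1 / ((p : ℝ) - 1)) ^ K) * e0) ≤
      X * (V ^ #Hb * ((1 / 2 : ℝ) ^ s * B * r ^ (6 * K) + ε₁ / 2)) := by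
    have h0 : 0 ≤ (1 / 2 : ℝ) ^ s * ∏ p ∈ Q, (1 + 1 / ((p : ℝ) - 1)) ^ (6 * K) +
            (∏ p ∈ Q, (1 + 1 / ((p : ℝ) - 1)) ^ K) * e0 :=
      add_nonneg (mul_nonneg (by positivity) (hpow0 _)) (mul_nonneg (hpow0 _) he0')
    have h1 : (1 / 2 : ℝ) ^ s * ∏ p ∈ Q, (1 + 1 / ((p : ℝ) - 1)) ^ (6 * K) +
            (∏ p ∈ Q, (1 + 1 / ((p : ℝ) - 1)) ^ K) * e0 ≤
        (1 / 2 : ℝ) ^ s * r ^ (6 * K) + r ^ K * e0 :=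
      add_le_add (mul_le_mul_of_nonneg_left (hpow _) (by positivity))
        (mul_le_mul_of_nonneg_right (hpow _) he0')
    calc X * (∑ H ∈ HH Po Hb κ, ∑ H' ∈ HH Po Hb κ, VV P Z (Hb ∪ H ∪ H')) *
          ((1 / 2 : ℝ) ^ s * ∏ p ∈ Q, (1 + 1 / ((p : ℝ) - 1)) ^ (6 * K) +
            (∏ p ∈ Q, (1 + 1 / ((p : ℝ) - 1)) ^ K) * e0)
        ≤ X * (V ^ #Hb * B) * ((1 / 2 : ℝ) ^ s * ∏ p ∈ Q, (1 + 1 / ((p : ℝ) - 1)) ^ (6 * K) +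
            (∏ p ∈ Q, (1 + 1 / ((p : ℝ) - 1)) ^ K) * e0) :=
          mul_le_mul_of_nonneg_right (mul_le_mul_of_nonneg_left hVs hX) h0
      _ ≤ X * (V ^ #Hb * B) * ((1 / 2 : ℝ) ^ s * r ^ (6 * K) + r ^ K * e0) :=
          mul_le_mul_of_nonneg_left h1 (mul_nonneg hX (mul_nonneg hVH hB))
      _ = X * (V ^ #Hb * ((1 / 2 : ℝ) ^ s * B * r ^ (6 * K) + B * (r ^ K * e0))) := by ring
      _ ≤ X * (V ^ #Hb * ((1 / 2 : ℝ) ^ s * B * r ^ (6 * K) + ε₁ / 2)) := by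
          apply mul_le_mul_of_nonneg_left _ hX
          apply mul_le_mul_of_nonneg_left _ hVH
          linarith
  have h1 : |X * ∑ E ∈ (Po ×ˢ Q).powerset, C E ^ 2 * (VV P Z (Hb ∪ pos E) * ph E) - X * Dg Q Po Hb V C| ≤
      X * (ε₁ * Dg Q Po Hb V C) := by
    rw [← mul_sub, abs_mul, abs_of_nonneg hX]
    exact mul_le_mul_of_nonneg_left hrep hX
  have h2 := abs_sub_le (∑ n ∈ S, a n * Psi P Q Po Hb C n ^ 2)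
    (X * ∑ E ∈ (Po ×ˢ Q).powerset, C E ^ 2 * (VV P Z (Hb ∪ pos E) * ph E)) (X * Dg Q Po Hb V C)
  have h3 : X * (V ^ #Hb * ((1 / 2 : ℝ) ^ s * B * r ^ (6 * K) + ε₁) + ε₁ * Dg Q Po Hb V C) =
      X * (V ^ #Hb * ((1 / 2 : ℝ) ^ s * B * r ^ (6 * K) + ε₁ / 2)) + X * (V ^ #Hb * (ε₁ / 2)) +
        X * (ε₁ * Dg Q Po Hb V C) := by ring
  rw [h3]
  rw [one_pow, one_mul] at hmain
  linarith

theorem tpi {K s κ : ℕ} (hK : 1 ≤ K) (hκ : 2 * κ ≤ K) (hFL : FLP (2 * K) s) {lam δ υ τ Λ r : ℝ}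
    (hlam : 0 < lam) (hδ : 0 < δ) (hδ1 : δ ≤ 1) (hυ : δ ≤ υ) (hτ : 0 < τ)
    (hlev : 4 * τ + δ * (8 * (s : ℝ) + 10) < 1 / 2) (hΛ : 0 ≤ Λ) (hr : 1 ≤ r)
    (hcard : ∀ᶠ ℓ : ℝ in atTop, ∀ Γ : Finset ℕ, Win lam ℓ Γ → ∀ e b : ℕ,
      (#(Po Γ ℓ e b) : ℝ) * V1 δ ℓ e ≤ Λ)
    (hprod : ∀ᶠ ℓ : ℝ in atTop, ∀ (Γ : Finset ℕ) (e : ℕ), ∏ p ∈ QQ δ υ ℓ e Γ, (1 + 1 / ((p : ℝ) - 1)) ≤ r)
    {ε₁ : ℝ} (hε : 0 < ε₁) :
    ∀ᶠ ℓ : ℝ in atTop, ∀ Γ : Finset ℕ, Win lam ℓ Γ → ∀ e b : ℕ, ∀ Po' Hb : Finset ℕ,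
      Po' ⊆ Po Γ ℓ e b → Hb ⊆ Po Γ ℓ e b →
      ∀ C : Finset (ℕ × ℕ) → ℝ, (∀ E ∈ (Po' ×ˢ QQ δ υ ℓ e Γ).powerset, |C E| ≤ 1) →
      (∀ E ∈ (Po' ×ˢ QQ δ υ ℓ e Γ).powerset, C E ≠ 0 → #(Hb ∪ pos E) ≤ κ ∧ (nn E : ℝ) ≤ Real.exp (τ * ℓ)) →
      |∑ n ∈ Sb ℓ e b, Psi (PP δ ℓ e) (QQ δ υ ℓ e Γ) Po' Hb C n ^ 2 -
          Real.exp ℓ / (WW ℓ e : ℝ) * Dg (QQ δ υ ℓ e Γ) Po' Hb (V1 δ ℓ e) C| ≤
        Real.exp ℓ / (WW ℓ e : ℝ) *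
          (V1 δ ℓ e ^ #Hb * (Xi K s κ Λ r + ε₁) + ε₁ * Dg (QQ δ υ ℓ e Γ) Po' Hb (V1 δ ℓ e) C) := by
  obtain ⟨c, hc, hV1⟩ := V1_bounds
  obtain ⟨Ch, hCh, hHH⟩ := hh_card κ hlam
  have hK0 : (0 : ℝ) ≤ (K : ℝ) := Nat.cast_nonneg _
  set B : ℝ := 2 * 4 ^ κ * (2 * (κ : ℝ) + 1) * (3 * Λ + 1) ^ (2 * κ) with hBdef
  have hB : 0 ≤ B := by positivity
  have hr0 : (0 : ℝ) < r := by linarith
  obtain ⟨ε', hε', hexp⟩ := small_exp (B' := B * r ^ K) (A := 4 ^ K * ((K : ℝ) + 2)) (ε₁ := ε₁)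
    (by positivity) (by positivity) hε
  have hpoly := poly_exp (Ch ^ 2 * (1 + 2 * δ) * (δ ^ κ / c ^ κ) * (2 / ε₁)) (2 * κ + 1 + κ) (a := 2 / 5)
    (by norm_num)
  filter_upwards [ev_zf (4 * (K : ℝ)), ev_zz hδ (12 * (K : ℝ) + 2),
    ev_WW (ε := 1 / 10) (by norm_num), hV1 δ hδ, QQ_sq hδ hε' υ, vv_comp κ hlam hδ hδ1 hε,
    vs_bound κ hlam hδ hδ1 hΛ hcard, hHH, hprod, rem_int (K := K) (s := s) (υ := υ) hδ hτ hlev,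
    eventually_ge_atTop 1, hpoly] with ℓ h1 h2 h4 h5 h6 h7 h8 h9 h10 h11 hℓ hp
  intro Γ hΓ e b Po' Hb hPo' hHb C hC hC2
  have hℓ0 : 0 < ℓ := by linarith
  have hPoIcc : ∀ U : Finset ℕ, U ⊆ Po Γ ℓ e b → U ⊆ Γ := by
    intro U hU
    exact hU.trans (Finset.filter_subset _ _)
  have hlogz : Real.log (zz δ ℓ) ≤ (zz δ ℓ : ℝ) := by
    have := Real.log_le_sub_one_of_pos (x := (zz δ ℓ : ℝ)) (by
      by_contra hneg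
      have h0 : (zz δ ℓ : ℝ) = 0 := le_antisymm (not_lt.mp hneg) (Nat.cast_nonneg _)
      have h00 := h2.2.1
      rw [h0, Real.log_zero] at h00
      linarith)
    linarith
  have hzK : 12 * K + 2 ≤ zz δ ℓ := by
    have : (12 * (K : ℝ) + 2) ≤ (zz δ ℓ : ℝ) := h2.2.1.trans hlogz
    exact_mod_cast this
  have hW0 : (0 : ℝ) < (WW ℓ e : ℝ) := by exact_mod_cast WW_pos ℓ e
  have hV0 := V1_pos δ ℓ e
  have hVle := V1_le_one δ ℓ e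
  have hcl : 0 < c / (δ * ℓ) := by positivity
  have hXge : Real.exp (9 / 10 * ℓ) ≤ Real.exp ℓ / (WW ℓ e : ℝ) := by
    rw [le_div_iff₀ hW0]
    calc Real.exp (9 / 10 * ℓ) * (WW ℓ e : ℝ) ≤ Real.exp (9 / 10 * ℓ) * Real.exp (1 / 10 * ℓ) :=
          mul_le_mul_of_nonneg_left (h4 e).1 (Real.exp_pos _).le
      _ = Real.exp ℓ := by rw [← Real.exp_add]; congr 1; ring
  have hlogz0 : 0 ≤ Real.log (zz δ ℓ) := by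
    have := h2.2.2.1
    have h0 : 0 < δ * ℓ / 2 := by positivity
    linarith
  have hRb := h11 Γ e
  have hremcond : (Ch * ℓ ^ κ) ^ 2 * ((1 + 2 * Real.log (zz δ ℓ)) * Real.exp (ℓ / 2)) ≤
      Real.exp ℓ / (WW ℓ e : ℝ) * (V1 δ ℓ e ^ κ * (ε₁ / 2)) := by
    have ha : (1 + 2 * Real.log (zz δ ℓ)) ≤ (1 + 2 * δ) * ℓ := by
      have := h2.2.2.2.1
      nlinarith
    have hb : (c / (δ * ℓ)) ^ κ ≤ V1 δ ℓ e ^ κ := pow_le_pow_left₀ hcl.le (h5 e).2.2 κ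
    have hcc : (Ch * ℓ ^ κ) ^ 2 * ((1 + 2 * δ) * ℓ * Real.exp (ℓ / 2)) ≤
        Real.exp (9 / 10 * ℓ) * ((c / (δ * ℓ)) ^ κ * (ε₁ / 2)) := by
      have hsplit : Real.exp (9 / 10 * ℓ) = Real.exp (2 / 5 * ℓ) * Real.exp (ℓ / 2) := by
        rw [← Real.exp_add]; congr 1; ring
      have hlk : (0 : ℝ) < ℓ ^ κ := by positivity
      have hck : (0 : ℝ) < c ^ κ := by positivity
      have hdk : (0 : ℝ) < δ ^ κ := by positivity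
      have heq : (Ch * ℓ ^ κ) ^ 2 * ((1 + 2 * δ) * ℓ * Real.exp (ℓ / 2)) =
          (Ch ^ 2 * (1 + 2 * δ) * (δ ^ κ / c ^ κ) * (2 / ε₁) * ℓ ^ (2 * κ + 1 + κ)) *
            (Real.exp (ℓ / 2) * ((c / (δ * ℓ)) ^ κ * (ε₁ / 2))) := by
        rw [div_pow, mul_pow δ ℓ]
        field_simp
        ring
      rw [heq, hsplit]
      calc (Ch ^ 2 * (1 + 2 * δ) * (δ ^ κ / c ^ κ) * (2 / ε₁) * ℓ ^ (2 * κ + 1 + κ)) *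
            (Real.exp (ℓ / 2) * ((c / (δ * ℓ)) ^ κ * (ε₁ / 2)))
          ≤ Real.exp (2 / 5 * ℓ) * (Real.exp (ℓ / 2) * ((c / (δ * ℓ)) ^ κ * (ε₁ / 2))) := by
            apply mul_le_mul_of_nonneg_right hp; positivity
        _ = Real.exp (2 / 5 * ℓ) * Real.exp (ℓ / 2) * ((c / (δ * ℓ)) ^ κ * (ε₁ / 2)) := by ring
    calc (Ch * ℓ ^ κ) ^ 2 * ((1 + 2 * Real.log (zz δ ℓ)) * Real.exp (ℓ / 2))
        ≤ (Ch * ℓ ^ κ) ^ 2 * ((1 + 2 * δ) * ℓ * Real.exp (ℓ / 2)) := by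
          apply mul_le_mul_of_nonneg_left _ (by positivity)
          exact mul_le_mul_of_nonneg_right ha (Real.exp_pos _).le
      _ ≤ Real.exp (9 / 10 * ℓ) * ((c / (δ * ℓ)) ^ κ * (ε₁ / 2)) := hcc
      _ ≤ Real.exp ℓ / (WW ℓ e : ℝ) * (V1 δ ℓ e ^ κ * (ε₁ / 2)) := by
          apply mul_le_mul hXge _ (by positivity) (by positivity)
          exact mul_le_mul_of_nonneg_right hb (by linarith)
  have hcore := tp_core (K := K) (s := s) (κ := κ) hK hκ hFL (w := zf ℓ) (z := zz δ ℓ) h1.1 h1.2 h2.1 hzK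
    (P := PP δ ℓ e) (Q := QQ δ υ ℓ e Γ) (Z := ∅) (Po := Po') (Hb := Hb) (S := Sb ℓ e b)
    (Finset.erase_subset _ _) (fun q hq => ?_) (by simp) (fun p hp h hh h' hh' => ?_) (by simp)
    (a := fun _ => 1) (X := Real.exp ℓ / (WW ℓ e : ℝ))
    (Lv := (zz δ ℓ : ℝ) ^ (4 * s + 5) * Real.exp (τ * ℓ) ^ 2) (M := fun _ => 2)
    (dist_int h2.1 b _) C (Real.exp_pos _).le hC hC2 le_rfl
    (V := V1 δ ℓ e) (B := B) (r := r) (ε₁ := ε₁) hV0.le hB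
    (h8 Γ hΓ e b Po' Hb ∅ hPo' hHb (Finset.empty_subset _) (by simp) (by simp))
    (fun E hE hCE => ?_) (h10 Γ e) ?_ ?_
  · have hXi : Xi K s κ Λ r = (1 / 2 : ℝ) ^ s * B * r ^ (6 * K) := by
      rw [Xi, hBdef]
    rw [hXi]
    simpa using hcore
  · have hq' := mem_QQ.1 hq
    exact ⟨hq'.2.2.2.1, hq'.2.1⟩
  · have hsub : (∅ : Finset ℕ) ∪ (Hb ∪ Po') ⊆ Γ :=
      union_subset (empty_subset _) (union_subset (hPoIcc _ hHb) (hPoIcc _ hPo'))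
    exact QQ_inj p hp h (hsub hh) h' (hsub hh')
  · apply h7 Γ hΓ e ∅ (Hb ∪ pos E) (Finset.empty_subset _) _ (by simp) (by simp) (hC2 E hE hCE).1
    apply Finset.union_subset (hPoIcc _ hHb)
    intro x hx
    obtain ⟨y, hy, rfl⟩ := Finset.mem_image.mp hx
    have hy2 := (Finset.mem_product.mp ((Finset.mem_powerset.mp hE) hy)).1
    exact hPoIcc _ hPo' hy2
  · have := hexp _ (h6 Γ e)
    calc B * (r ^ K * (Real.exp (4 ^ K * ((K : ℝ) + 2) * ∑ p ∈ QQ δ υ ℓ e Γ, 1 / ((p : ℝ) - 1) ^ 2) - 1))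
        = B * r ^ K * (Real.exp (4 ^ K * ((K : ℝ) + 2) * ∑ p ∈ QQ δ υ ℓ e Γ, 1 / ((p : ℝ) - 1) ^ 2) - 1) := by
          ring
      _ ≤ ε₁ / 2 := this
  · refine rem_cond ?_ (by positivity) hV0.le hVle hε.le (h9 Γ hΓ e b Po' Hb hPo') ?_
    · apply mul_nonneg (by linarith)
      apply Finset.sum_nonneg
      intro Q' _
      apply mul_nonneg (by positivity)
      exact Finset.sum_nonneg (fun D _ => by positivity)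
    · refine le_trans ?_ hremcond
      apply mul_le_mul_of_nonneg_left _ (by positivity)
      exact mul_le_mul_of_nonneg_left hRb (by linarith)


end Pool.Agent.H47.WS
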